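import Pool.Agent.Lib.SPL.Kit2

/-! Row A1: graphs that are not good have small total weight. -/

open scoped Classical
open Finset

noncomputable section

namespace Pool.Agent.Lib.SPL

namespace A138

theorem tha_of_reg {ω ω' ε l m : ℝ} {n : ℕ} (h : Reg ω n l) (e0 : 0 < ε) (e1 : ε ≤ 1)
    (h1 : 1 ≤ ω) (h2 : 8 * ω' ≤ ω) (h3 : 25600 / ε ^ 9 ≤ ω) (hm : QQ n l / 2 ≤ m) :
    Tha ω' ε m (bb l) (ε * bb l) n := by
  have hb := h.b_ge h1
  have hb' : 25600 ≤ bb l * ε ^ 9 := (div_le_iff₀ (by positivity)).1 (h3.trans h.hb)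
  have hn := h.n_pos h1
  have hD := h.D_pos h1
  have hL := h.L_ge h1
  refine ⟨by linarith [h.hL], hb, by linarith [h.b_le h1], ?_, ?_, ?_⟩
  · have a1 : (n * DD n l / 2) ^ 3 ≤ m ^ 3 :=
      pow_le_pow_left₀ (a := n * DD n l / 2) (by positivity) hm 3
    have a2 := mul_le_mul_of_nonneg_left h.hD (by positivity : (0 : ℝ) ≤ (n : ℝ) ^ 3 / 8)
    have a3 := mul_le_mul_of_nonneg_right h2
      (by positivity : (0 : ℝ) ≤ (n : ℝ) ^ 4 * Real.log n ^ 10 / 8)
    nlinarith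
  · rw [div_le_iff₀ (by positivity)]
    have : ε ^ 9 ≤ ε ^ 5 := pow_le_pow_of_le_one e0.le e1 (by norm_num)
    nlinarith
  · have a1 : (ε * bb l) ^ 2 / 2 ≤ Real.exp (ε * bb l) := by
      have := Real.quadratic_le_exp_of_nonneg (x := ε * bb l) (by positivity)
      have : 0 ≤ ε * bb l := by positivity
      linarith
    rw [Real.exp_neg, inv_mul_le_iff₀ (Real.exp_pos _)]
    refine le_trans ?_ (mul_le_mul_of_nonneg_right a1 (by positivity))
    nlinarith

end A138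

theorem r_A1 : R_A1 := by
  intro hT hb z z0 z1
  have z4 : 0 < z ^ 4 := by positivity
  have z5 : z ^ 4 ≤ 1 := pow_le_one₀ z0.le (by linarith)
  have e0 : 0 < z ^ 4 / 10000 := by positivity
  have e1 : z ^ 4 / 10000 ≤ 1 := by linarith
  obtain ⟨ω1, h1⟩ := hT _ e0 e1
  obtain ⟨ω2, h2⟩ := hb z z0 z1
  refine ⟨z ^ 4 / 100, max (max 1 (8 * ω1)) (max ω2 (25600 / (z ^ 4 / 10000) ^ 9)), by positivity,
    fun α _ l m Gs hR m1 m2 hG => ?_⟩
  have o1 : 1 ≤ max (max 1 (8 * ω1)) (max ω2 (25600 / (z ^ 4 / 10000) ^ 9)) :=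
    le_max_of_le_left (le_max_left _ _)
  have hl : 0 < l ^ m := pow_pos hR.pos m
  have hQ := hR.Q_pos o1
  have key := h1 α Gs m (bb l) (z ^ 4 / 10000 * bb l)
    (Real.exp ((1 / 2 - z ^ 4 / 50) * QQ (Fintype.card α) l) / l ^ m)
    (A138.tha_of_reg hR e0 e1 o1 (le_max_of_le_left (le_max_right _ _))
      (le_max_of_le_right (le_max_right _ _)) m1) (by positivity)
    (fun G h => ⟨(hG G h).1, by rw [(hG G h).2.1]⟩) fun E F _ hE hLf => by
      have := h2 α l m (box Gs E F) E F (hR.mono (le_max_of_le_right (le_max_left _ _))) m1 m2 hE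
        hLf fun G h => ⟨(mem_box.1 h).2.1, (mem_box.1 h).2.2, (hG G (mem_box.1 h).1).1,
          (hG G (mem_box.1 h).1).2.2⟩
      rw [gw_of_ed fun G h => (hG G (mem_box.1 h).1).2.1] at this
      rw [div_mul_eq_mul_div, le_div_iff₀ hl, ← Real.exp_add]
      refine this.trans_eq ?_
      congr 1
      ring
  rw [gw_of_ed fun G h => (hG G h).2.1]
  rw [← mul_div_assoc, le_div_iff₀ hl, ← Real.exp_add] at key
  refine key.trans (Real.exp_le_exp.2 ?_)
  nlinarith [mul_le_mul_of_nonneg_left m2 z4.le, mul_pos z4 hQ]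

end Pool.Agent.Lib.SPL
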