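import Pool.Agent.Lib.SPL.Kit2

/-! Row A1a of the project spl: weight of the graphs that are not good in a near-optimal leaf. -/

open scoped Classical
open Finset

noncomputable section

namespace Pool.Agent.Lib.SPL

namespace A1a94

variable {α : Type}

/-- the free pairs off `U` and all pairs at `U \ K` -/
def mm [Fintype α] (E F : Gr α) (U K : Finset α) : Gr α :=
  rs (F \ E) Uᶜ ⊔ stg (U \ K) (fun _ => univ)

theorem ed_mm [Fintype α] (E F : Gr α) (U K : Finset α) :
    2 * ed (mm E F U K) ≤ ar (F \ E) Uᶜ + 2 * ((U \ K).card * Fintype.card α) := by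
  have h1 := ed_sup_le (rs (F \ E) Uᶜ) (stg (U \ K) (fun _ => univ))
  have h2 := ed_stg_le (U \ K) (fun _ => (univ : Finset α))
  have h3 := ar_eq_ed (F \ E) Uᶜ
  unfold mm
  omega

theorem ed_off [Fintype α] {E F G : Gr α} (hF : G ≤ F) (U K : Finset α) :
    ed (rs G Kᶜ) ≤ ed ((G \ E) ⊓ mm E F U K) + ed E := by
  refine le_trans (ed_mono ?_) (ed_sup_le _ _)
  intro x y h
  obtain ⟨h1, hx, hy⟩ := rs_adj.1 h
  by_cases hE : E.Adj x y
  · exact Or.inr hE
  · refine Or.inl ⟨⟨h1, hE⟩, ?_⟩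
    by_cases hxU : x ∈ U
    · exact Or.inr (stg_adj.2 ⟨h1.ne, Or.inl ⟨mem_sdiff.2 ⟨hxU, mem_compl.1 hx⟩, mem_univ _⟩⟩)
    · by_cases hyU : y ∈ U
      · exact Or.inr (stg_adj.2 ⟨h1.ne, Or.inr ⟨mem_sdiff.2 ⟨hyU, mem_compl.1 hy⟩, mem_univ _⟩⟩)
      · exact Or.inl (rs_adj.2 ⟨⟨hF h1, hE⟩, mem_compl.2 hxU, mem_compl.2 hyU⟩)

end A1a94

open A1a94 in
theorem r_A1a : R_A1a := by
  intro hC hB z hz hz'
  refine ⟨1 / z, fun α _ l Gs E F U hR hE hU1 hU2 ha1 ha2 hG => ?_⟩
  have hω : (1 : ℝ) ≤ 1 / z := by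
    rw [le_div_iff₀ hz]
    linarith
  have hl := hR.pos
  have hell := hR.ell_pos hω
  have hQ := hR.Q_eq hω
  have hQ' : QQ (Fintype.card α) l = l * ell (Fintype.card α) l * Fintype.card α := Reg.Q_eq'
  have hQ0 := hR.Q_pos hω
  have hb : 1 ≤ z * bb l := by
    have := hR.hb
    rw [div_le_iff₀ hz] at this
    linarith
  have hl1 : 1 ≤ ell (Fintype.card α) l :=
    ((one_le_pow₀ (hR.L_ge hω)).trans (hR.D_ge hω)).trans (hR.D_le_ell hω)
  set e := ell (Fintype.card α) l with he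
  set Q := QQ (Fintype.card α) l with hQd
  have hzQ : e ^ 2 ≤ z * Q := by
    rw [hQ]
    nlinarith [sq_nonneg e]
  have hzQ' : e ≤ z * Q := by nlinarith
  have hP : 0 ≤ l ^ ed E * (1 + l) ^ ed (F \ E) := by positivity
  have key := sum_le_label Gs U.powerset
    (fun K G => (U.card : ℝ) ≤ K.card + 90 * z * e ∧ 1000 * z * Q < ed (rs G Kᶜ))
    (fun G => l ^ ed G) (l ^ ed E * (1 + l) ^ ed (F \ E) * Real.exp (-(579 * z * Q)))
    (fun G _ => by positivity) (fun G hG' => ?_) (fun K hK t ht hq => ?_)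
  · have h1 : ((U.powerset).card : ℝ) ≤ Real.exp (z * Q) :=
      (card_subsets_exp (fun S hS => mem_powerset.1 hS)).trans
        (Real.exp_le_exp.2 (hU2.trans hzQ'))
    have h2 : Real.exp (z * Q) * Real.exp (-(579 * z * Q)) ≤ Real.exp (-(200 * z * Q)) := by
      rw [← Real.exp_add]
      exact Real.exp_le_exp.2 (by nlinarith [mul_pos hz hQ0])
    calc gw l Gs ≤ _ := key
      _ ≤ Real.exp (z * Q) * (l ^ ed E * (1 + l) ^ ed (F \ E) * Real.exp (-(579 * z * Q))) :=
        mul_le_mul_of_nonneg_right h1 (by positivity)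
      _ = l ^ ed E * (1 + l) ^ ed (F \ E) * (Real.exp (z * Q) * Real.exp (-(579 * z * Q))) := by
        ring
      _ ≤ _ := mul_le_mul_of_nonneg_left h2 hP
  · obtain ⟨g1, -, g3, g4⟩ := hG G hG'
    have h1 : (ar Gᶜ U : ℝ) ≤ (45 * z * e) ^ 2 := by
      have : (ar Gᶜ U : ℝ) ≤ ar Eᶜ U := by exact_mod_cast ar_mono (compl_le_compl g1) subset_rfl
      nlinarith [sq_nonneg (z * e)]
    obtain ⟨K, k1, k2, k3⟩ := hC α G U (45 * z * e) g3 (by positivity) h1
    refine ⟨K, mem_powerset.2 k1, by linarith, ?_⟩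
    by_contra hn
    have k4 : (K.card : ℝ) ≤ U.card := by exact_mod_cast card_le_card k1
    refine g4 ⟨K, k2, ?_, by linarith, not_lt.1 hn⟩
    have : 100 * z ^ 2 * e ≤ 10 * z * e := by
      have : 0 ≤ z * e * (1 - 10 * z) := mul_nonneg (by positivity) (by linarith)
      nlinarith
    change (1 - 100 * z) * e ≤ K.card
    nlinarith
  · rcases t.eq_empty_or_nonempty with rfl | ⟨G0, hG0⟩
    · rw [sum_empty]
      positivity
    have hKU := mem_powerset.1 hK
    have h0 : ((U \ K).card : ℝ) ≤ 90 * z * e := by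
      have h1 : (U \ K).card + K.card = U.card := card_sdiff_add_card_eq_card hKU
      have h2 : ((U \ K).card : ℝ) + K.card = U.card := by exact_mod_cast h1
      linarith [(hq G0 hG0).1]
    have h1 : (ed (mm E F U K) : ℝ) ≤ 140 * z * e * Fintype.card α := by
      have h2 : (2 : ℝ) * ed (mm E F U K) ≤
          ar (F \ E) Uᶜ + 2 * (((U \ K).card : ℝ) * Fintype.card α) := by
        exact_mod_cast ed_mm E F U K
      have h3 := mul_le_mul_of_nonneg_right h0 (Nat.cast_nonneg (α := ℝ) (Fintype.card α))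
      linarith
    have h2 := (hB α t E F l (Real.exp 1) hl
      (fun G h => ⟨(hG G (ht h)).1, (hG G (ht h)).2.1⟩)).2 (mm E F U K) (999 * z * Q)
      (Real.one_le_exp zero_le_one) (fun G h => by
        have h3 : (ed (rs G Kᶜ) : ℝ) ≤ ed ((G \ E) ⊓ mm E F U K) + ed E := by
          exact_mod_cast ed_off (E := E) (hG G (ht h)).2.1 U K
        linarith [(hq G h).2])
    refine le_trans h2 (mul_le_mul_of_nonneg_left (Real.exp_le_exp.2 ?_) hP)
    rw [Real.log_exp]
    have h3 : l * ed (mm E F U K) ≤ 140 * z * Q := by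
      rw [hQ']
      nlinarith [mul_le_mul_of_nonneg_left h1 hl.le]
    have h4 : Real.exp 1 ≤ 3 := by linarith [Real.exp_one_lt_d9]
    have h5 : 0 ≤ l * ed (mm E F U K) := by positivity
    nlinarith [mul_le_mul_of_nonneg_right h4 h5]

end Pool.Agent.Lib.SPL
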