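import Pool.Agent.Lib.SPL.Kit2

/-! Row A1b of the project spl: the leaf bound. -/

open scoped Classical
open Finset

noncomputable section

namespace Pool.Agent.Lib.SPL

namespace A1b72

theorem num0 {ε φ μ : ℝ} (h0 : 0 < ε) (h1 : ε ≤ 1 / 100) (hμ : μ ≤ (1 + 13 * ε) * φ + 6 * ε) :
    -(1 - ε) * φ ^ 2 / 2 + μ ≤ 1 / 2 - (φ - 1) ^ 2 / 4 + 33 * ε := by
  have h2 : 0 ≤ ε * (φ - 2) ^ 2 := by positivity
  have h3 : ε * (φ - 1) ^ 2 ≤ 1 / 100 * (φ - 1) ^ 2 := mul_le_mul_of_nonneg_right h1 (sq_nonneg _)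
  nlinarith [sq_nonneg (φ - 1)]

theorem det {ω ε l : ℝ} {n m : ℕ} (h : Reg ω n l) (h1 : 1 ≤ ω) (e0 : 0 < ε) (e1 : ε ≤ 1 / 100)
    (h2 : 64 / ε ^ 14 ≤ ω) (h3 : 1 / ε ^ 3 ≤ ω) (hm1 : QQ n l / 2 ≤ m) (hm2 : (m : ℝ) ≤ 2 * QQ n l) :
    Det ε m (bb l) n := by
  have hb := h.b_ge h1
  have hn := h.n_pos h1
  have hl := h.pos
  refine ⟨e0, e1, by exact_mod_cast hn, hb, ?_, ?_⟩
  · have a1 : bb l * QQ n l = (n : ℝ) ^ 2 * l ^ 2 := by
      have := h.b_D h1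
      unfold QQ
      linear_combination (n : ℝ) * this
    have a2 : bb l ^ 2 * l ≤ 2 := by
      have e := Real.quadratic_le_exp_of_nonneg (x := bb l) (by linarith)
      have f : Real.exp (bb l) * l = 1 := by
        conv_lhs => rw [← exp_neg_bb hl, bb]
        rw [← Real.exp_add]; simp [bb]
      have g : (1 + bb l + bb l ^ 2 / 2) * l ≤ Real.exp (bb l) * l :=
        mul_le_mul_of_nonneg_right e hl.le
      nlinarith [mul_pos hl (by linarith : (0 : ℝ) < 1 + bb l)]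
    have a3 : l * ω ≤ 1 := by
      have := h.mul_le_one
      have := mul_le_mul_of_nonneg_left h.hb hl.le
      nlinarith
    have a4 : 64 * l ≤ ε ^ 14 := by
      have p : (0 : ℝ) < ε ^ 14 := by positivity
      rw [div_le_iff₀ p] at h2
      have := mul_le_mul_of_nonneg_left h2 hl.le
      nlinarith [mul_le_mul_of_nonneg_right a3 p.le]
    have a5 : 16 * bb l ^ 3 * (m : ℝ) ≤ 16 * bb l ^ 3 * (2 * QQ n l) :=
      mul_le_mul_of_nonneg_left hm2 (by positivity)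
    have a6 : 16 * bb l ^ 3 * (2 * QQ n l) = 32 * (bb l ^ 2 * l) * l * (n : ℝ) ^ 2 := by
      linear_combination 32 * bb l ^ 2 * a1
    have a7 : 32 * (bb l ^ 2 * l) * l ≤ ε ^ 14 := by nlinarith
    have a8 := mul_le_mul_of_nonneg_right a7 (sq_nonneg (n : ℝ))
    linarith
  · have L1 := h.L_ge h1
    have a1 := h.D_ge h1
    have a2 := h.b_le h1
    have a3 : Real.log n ^ 2 ≤ Real.log n ^ 5 := pow_le_pow_right₀ L1 (by norm_num)
    have a4 : ω * (3 * bb l) ≤ Real.log n ^ 2 := by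
      rw [sq]
      exact mul_le_mul h.hL a2 (by linarith) (by linarith)
    have a5 : (n : ℝ) * ω * bb l ≤ m := by
      have : (n : ℝ) * (ω * (3 * bb l)) ≤ n * DD n l :=
        mul_le_mul_of_nonneg_left (by linarith) hn.le
      have p : 0 ≤ (n : ℝ) * ω * bb l := by positivity
      unfold QQ at hm1
      nlinarith
    have a6 : (n : ℝ) * ω ≤ m / bb l := by
      rw [le_div_iff₀ (by linarith)]; exact a5
    have p : (0 : ℝ) < ε ^ 3 := by positivity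
    rw [div_le_iff₀ p] at h3
    have a7 := mul_le_mul_of_nonneg_left a6 p.le
    nlinarith [mul_le_mul_of_nonneg_left h3 hn.le]

theorem fin {g l Q x y c ε φ μ : ℝ} {e M : ℕ} (hl : 0 < l) (hQ : 0 < Q)
    (hg : g ≤ l ^ e * (1 + l) ^ M * Real.exp (-(x * Q))) (he : bb l * e = φ ^ 2 / 2 * Q)
    (hM : l * M = μ * Q) (hy : -(1 - ε) * φ ^ 2 / 2 + μ - x ≤ c) (hy' : y = ε * bb l * e) :
    g ≤ Real.exp (c * Q - y) := by
  refine hg.trans ?_
  have a1 : l ^ e * (1 + l) ^ M ≤ Real.exp (-(bb l * e)) * Real.exp (l * M) := by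
    rw [← pow_eq_exp hl]
    exact mul_le_mul_of_nonneg_left (one_add_pow_le_exp hl.le M) (by positivity)
  refine (mul_le_mul_of_nonneg_right a1 (Real.exp_pos _).le).trans ?_
  rw [← Real.exp_add, ← Real.exp_add, Real.exp_le_exp, hy', mul_assoc ε, he, hM]
  have := mul_le_mul_of_nonneg_right hy hQ.le
  linarith

theorem zz {z : ℝ} (hz : 0 < z) (hz1 : z ≤ 1 / 1000) :
    z ^ 2 ≤ 1 / 1000 ∧ z ^ 4 ≤ z ^ 2 / 1000 ∧ z ^ 2 ≤ z := by
  have z2 : z ^ 2 ≤ 1 / 1000 := by nlinarith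
  have z4 : z ^ 4 = z ^ 2 * z ^ 2 := by ring
  refine ⟨z2, ?_, by nlinarith⟩
  rw [z4]; nlinarith [sq_nonneg z]

theorem num1 {w φ : ℝ} (hw : 0 < w) (c : w / 3 ≤ |φ - 1|) : w ^ 2 / 9 ≤ (φ - 1) ^ 2 := by
  have : (w / 3) ^ 2 ≤ (φ - 1) ^ 2 := by
    rw [← sq_abs (φ - 1)]; exact pow_le_pow_left₀ (by positivity) c 2
  linarith

theorem num2 {w φ : ℝ} (hw : 0 < w) (hw1 : w ≤ 1 / 1000) (c : |φ - 1| < w / 3) :
    φ ^ 2 ≤ 1 + w ∧ 1 - 2 * w / 3 ≤ φ ^ 2 ∧ φ ≤ 3 / 2 := by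
  have c2 := abs_lt.1 c
  refine ⟨by nlinarith, by nlinarith, by linarith⟩

theorem num3 {b L m : ℝ} (hb : 1 ≤ b) (hL : 0 < L) (hm : m ≤ 2 * (b * L ^ 2)) :
    Real.sqrt (m / b) ≤ 2 * L := by
  rw [Real.sqrt_le_left (by positivity), div_le_iff₀ (by linarith)]
  nlinarith [mul_pos (by linarith : 0 < b) (pow_pos hL 2)]

theorem num4 {ε n L φ μ r : ℝ} (e0 : 0 < ε) (hn : 0 < n) (hL : 0 < L) (hr : r ≤ 2 * L)
    (hM : μ * (L * n) ≤ (1 + 13 * ε) * n * (φ * L) + 3 * ε * n * r) :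
    μ ≤ (1 + 13 * ε) * φ + 6 * ε := by
  refine le_of_mul_le_mul_right ?_ (mul_pos hL hn)
  have := mul_le_mul_of_nonneg_left hr (show 0 ≤ 3 * ε * n by positivity)
  linarith

end A1b72

open A1b72 in
theorem r_A1b : R_A1b := by
  intro hL1 hST hBOX hA z hz hz1
  obtain ⟨ω1, hA⟩ := hA z hz hz1
  set ε : ℝ := z ^ 4 / 10000 with hε
  obtain ⟨z2, z4l, z2l⟩ := zz hz hz1
  have z2p : 0 < z ^ 2 := by positivity
  have z4 : (z ^ 2) ^ 2 = z ^ 4 := by ring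
  have e0 : 0 < ε := by positivity
  have e1 : ε ≤ 1 / 100 := by rw [hε]; linarith
  refine ⟨max ω1 (max 1 (max (64 / ε ^ 14) (1 / ε ^ 3))), ?_⟩
  intro α _ l m Gs E F h hm1 hm2 hE hleaf hG
  set n := Fintype.card α with hn
  have h1 : (1 : ℝ) ≤ max ω1 (max 1 (max (64 / ε ^ 14) (1 / ε ^ 3))) := by simp
  have hD := det h h1 e0 e1 (by simp) (by simp) hm1 hm2
  have hb := h.b_ge h1
  have hnp := h.n_pos h1
  have hl := h.pos
  have hL := h.ell_pos h1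
  have hQ := h.Q_pos h1
  have hQ1 := h.Q_eq h1
  have hQ2 : QQ n l = l * ell n l * n := Reg.Q_eq'
  set L := ell n l with hLd
  set Q := QQ n l with hQd
  have hs : Real.sqrt (m / bb l) ≤ 2 * L := num3 hb hL (by rw [← hQ1]; exact hm2)
  have hM := hL1 α ε m (bb l) E F hD hE hleaf
  set s := Real.sqrt (2 * ed E) with hsd
  have ss : s ^ 2 = 2 * ed E := Real.sq_sqrt (by positivity)
  obtain ⟨φ, hφ⟩ : ∃ φ : ℝ, s = φ * L := ⟨s / L, by field_simp⟩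
  obtain ⟨μ, hμ⟩ : ∃ μ : ℝ, (ed (F \ E) : ℝ) = μ * (L * n) :=
    ⟨ed (F \ E) / (L * n), by field_simp⟩
  have hLn : 0 < L * n := by positivity
  have hμφ : μ ≤ (1 + 13 * ε) * φ + 6 * ε := by
    rw [← hn, hφ, hμ] at hM
    exact num4 e0 hnp hL hs hM
  have he : bb l * ed E = φ ^ 2 / 2 * Q := by
    rw [hQ1]; rw [hφ] at ss
    linear_combination -(bb l / 2) * ss
  have hMe : l * ed (F \ E) = μ * Q := by rw [hQ2, hμ]; ring
  have hn0 := num0 e0 e1 hμφ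
  have triv : gw l Gs ≤ l ^ ed E * (1 + l) ^ ed (F \ E) * Real.exp (-(0 * Q)) := by
    have := (hBOX α Gs E F l 1 hl (fun G hG' => ⟨(hG G hG').1, (hG G hG').2.1⟩)).2 ⊥ 0 le_rfl
      (fun G _ => by positivity)
    simpa using this
  by_cases c1 : z ^ 2 / 3 ≤ |φ - 1|
  · refine fin hl hQ triv he hMe ?_ rfl
    have := num1 z2p c1
    rw [z4] at this
    linarith
  obtain ⟨f1, f2, f3⟩ := num2 z2p z2 (not_le.1 c1)
  have g1 : ε * φ ^ 2 ≤ ε * 2 := mul_le_mul_of_nonneg_left (by linarith) e0.le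
  have g2 : ε * φ ≤ ε * 2 := mul_le_mul_of_nonneg_left (by linarith) e0.le
  by_cases c3 : μ < 1 - z ^ 2
  · refine fin hl hQ triv he hMe ?_ rfl
    linarith
  have c4 := not_lt.1 c3
  have f4 : 2 * (ed E : ℝ) ≤ (1 + z ^ 2) * L ^ 2 := by
    rw [← ss, hφ, mul_pow]
    exact mul_le_mul_of_nonneg_right f1 (sq_nonneg _)
  have f5 : scl m (bb l) E F ≤ 2 * L := by
    refine max_le ?_ hs
    rw [← hn, div_le_iff₀ hnp, hμ, mul_assoc]
    exact mul_le_mul_of_nonneg_right (by linarith) hLn.le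
  have f6 : (ed E : ℝ) ≤ L ^ 2 := by
    have := mul_le_mul_of_nonneg_right (show 1 + z ^ 2 ≤ 2 by linarith) (sq_nonneg L)
    linarith
  obtain ⟨U, u1, u2, u3, u4⟩ := hST α ε m (bb l) _ z L E F hD hE (le_max_right _ _) hleaf hz z2
    (by linarith) f5 f4 (by
      rw [← hn, hμ, mul_assoc]; exact mul_le_mul_of_nonneg_right c4 hLn.le)
  have k := hA α l Gs E F U (h.mono (le_max_left _ _)) f6 u1 u2 u3 u4 hG
  refine fin hl hQ k he hMe ?_ rfl
  linarith [sq_nonneg (φ - 1)]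

end Pool.Agent.Lib.SPL
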