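import Pool.Agent.Lib.SPL.Kit2

/-! Row A23: counting graphs without induced 4-cycle on a small vertex set. -/

open scoped Classical
open Finset

noncomputable section

namespace Pool.Agent.Lib.SPL

namespace A2357

theorem num1 {l : ℝ} (hl : 0 < l) (hb : 0 ≤ bb l) : l * bb l ^ 4 ≤ 24 := by
  have h := Real.pow_div_factorial_le_exp (bb l) hb 4
  have h1 : l * Real.exp (bb l) = 1 := by
    rw [← exp_neg_bb hl, ← Real.exp_add, exp_neg_bb hl]
    simp
  norm_num [Nat.factorial] at h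
  nlinarith

theorem num2 {b : ℝ} (hb : 0 ≤ b) : Real.exp (-(b / 4)) * b * b ≤ 32 := by
  have h := Real.pow_div_factorial_le_exp (b / 4) (by linarith) 2
  have h1 : Real.exp (-(b / 4)) * Real.exp (b / 4) = 1 := by
    rw [← Real.exp_add]
    simp
  have h2 := Real.exp_pos (-(b / 4))
  norm_num [Nat.factorial] at h
  nlinarith

/-- the exponent at a leaf -/
theorem leaf_exp {ε b c f M T : ℝ} (e0 : 0 < ε) (e1 : ε ≤ 1 / 100) (hb : 0 < b) (hc : 0 ≤ c)
    (hf : 0 ≤ f) (hT : 0 ≤ T)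
    (hM : M ≤ (1 + 13 * ε) * c * Real.sqrt (2 * f) + 3 * ε * c * Real.sqrt (T / b)) :
    M - b * f / 2 ≤ 4 * c ^ 2 / b + ε * T := by
  set u := Real.sqrt (2 * f)
  set w := Real.sqrt (T / b)
  have hu : u ^ 2 = 2 * f := Real.sq_sqrt (by linarith)
  have hw : w ^ 2 = T / b := Real.sq_sqrt (by positivity)
  have hu0 : 0 ≤ u := Real.sqrt_nonneg _
  have hw0 : 0 ≤ w := Real.sqrt_nonneg _
  have hT' : T = b * w ^ 2 := by
    rw [hw]
    field_simp
  obtain ⟨y, rfl⟩ : ∃ y, c = b * y := ⟨c / b, by field_simp⟩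
  have hy : 0 ≤ y := le_of_mul_le_mul_left (by rwa [mul_zero]) hb
  have h1 : 4 * (b * y) ^ 2 / b = b * (4 * y ^ 2) := by field_simp
  have h2 : (1 + 13 * ε) * y * u + 3 * ε * y * w - u ^ 2 / 4 ≤ 4 * y ^ 2 + ε * w ^ 2 := by
    have a1 : (1 + 13 * ε) * y * u ≤ 3 / 2 * (y * u) := by nlinarith [mul_nonneg hy hu0]
    have a2 : 3 * (y * w) ≤ 9 / 4 * y ^ 2 + w ^ 2 := by nlinarith [sq_nonneg (3 / 2 * y - w)]
    have a3 : ε * (3 * (y * w)) ≤ ε * (9 / 4 * y ^ 2 + w ^ 2) :=
      mul_le_mul_of_nonneg_left a2 e0.le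
    have a4 : ε * y ^ 2 ≤ 1 / 100 * y ^ 2 := mul_le_mul_of_nonneg_right e1 (sq_nonneg y)
    nlinarith [sq_nonneg (u / 2 - 3 / 2 * y)]
  have h3 := mul_le_mul_of_nonneg_left h2 hb.le
  have h4 : b * f / 2 = b * (u ^ 2 / 4) := by
    rw [hu]
    ring
  rw [h1, h4, hT']
  nlinarith

end A2357

theorem r_A23 : R_A23 := by
  intro hT hL hB δ hδ
  obtain ⟨ε, e0, e1, e2⟩ : ∃ ε : ℝ, 0 < ε ∧ ε ≤ 1 / 100 ∧ ε ≤ δ / 10 :=
    ⟨min (1 / 100) (δ / 10), by positivity, min_le_left _ _, min_le_right _ _⟩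
  obtain ⟨ω₀, hω₀⟩ := hT ε e0 (by linarith)
  refine ⟨max (max ω₀ 4) (max (max (4 / δ) (1 / ε ^ 3)) (max (max (102400 / ε ^ 4)
    (32768 / ε ^ 7)) (1536 / (δ * ε ^ 14)))), ?_⟩
  intro β _ n t l z Gs hR hx z0 z1 hG
  set ω := max (max ω₀ 4) (max (max (4 / δ) (1 / ε ^ 3)) (max (max (102400 / ε ^ 4)
    (32768 / ε ^ 7)) (1536 / (δ * ε ^ 14)))) with hω
  have w0 : ω₀ ≤ ω := (le_max_left _ _).trans (le_max_left _ _)
  have w1 : 4 ≤ ω := (le_max_right _ _).trans (le_max_left _ _)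
  have w2 : 4 / δ ≤ ω := ((le_max_left _ _).trans (le_max_left _ _)).trans (le_max_right _ _)
  have w3 : 1 / ε ^ 3 ≤ ω := ((le_max_right _ _).trans (le_max_left _ _)).trans (le_max_right _ _)
  have w4 : 102400 / ε ^ 4 ≤ ω := (((le_max_left _ _).trans (le_max_left _ _)).trans
    (le_max_right _ _)).trans (le_max_right _ _)
  have w5 : 32768 / ε ^ 7 ≤ ω := (((le_max_right _ _).trans (le_max_left _ _)).trans
    (le_max_right _ _)).trans (le_max_right _ _)
  have w6 : 1536 / (δ * ε ^ 14) ≤ ω := ((le_max_right _ _).trans (le_max_right _ _)).trans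
    (le_max_right _ _)
  clear_value ω
  have w1' : 1 ≤ ω := by linarith
  have hl := hR.pos
  have hb := hR.hb
  have hD := hR.D_pos w1'
  have hℓ := hR.ell_pos w1'
  have hlℓ : l * ell n l = DD n l := Reg.l_ell
  have hL1 := hR.L_ge w1'
  have hDω : 3 * bb l * ω ≤ DD n l := by
    have h1 := hR.D_ge w1'
    have h2 : 3 * bb l * ω ≤ Real.log n * Real.log n :=
      mul_le_mul (hR.b_le w1') hR.hL (by linarith) (by linarith)
    have h3 : Real.log n ^ 2 ≤ Real.log n ^ 5 := pow_le_pow_right₀ hL1 (by norm_num)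
    linarith
  set b := bb l with hbdef
  set D := DD n l with hDdef
  set x : ℝ := (Fintype.card β : ℝ) with hxdef
  have x0 : 0 ≤ x := Nat.cast_nonneg _
  have b0 : 0 < b := by linarith
  have z3 : z ≤ 3 := z1.trans Real.exp_one_lt_three.le
  have t0 : (0 : ℝ) ≤ t := Nat.cast_nonneg _
  have q0 : 0 ≤ 4 * z ^ 2 * x ^ 2 * l ^ 2 / b := by positivity
  have hn1 : 64 * (l * b ^ 3) ≤ δ * ε ^ 14 := by
    have h1 := A2357.num1 hl b0.le
    have h2 : 1536 ≤ b * (δ * ε ^ 14) := (div_le_iff₀ (by positivity)).1 (w6.trans hb)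
    refine le_of_mul_le_mul_left ?_ b0
    linarith
  have triv : (Gs.card : ℝ) * l ^ t ≤ Real.exp (z * l * (x ^ 2 / 2) - t * Real.log z) := by
    have h1 := (hB β Gs ⊥ ⊤ l z hl fun G _ => ⟨bot_le, le_top⟩).1 t z0 fun G h => (hG G h).2
    rw [ed_eq_zero.2 rfl, pow_zero, one_mul, Nat.cast_zero, sub_zero] at h1
    refine h1.trans (Real.exp_le_exp.2 ?_)
    have h2 : 2 * (ed ((⊤ : Gr β) \ ⊥) : ℝ) ≤ x ^ 2 := by
      rw [hxdef]
      exact_mod_cast two_ed_le _
    have := mul_le_mul_of_nonneg_left h2 (mul_pos z0 hl).le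
    linarith
  have tr3 : z * l * (x ^ 2 / 2) ≤ 3 / 2 * (l * x ^ 2) := by
    have := mul_le_mul_of_nonneg_right z3 (mul_nonneg hl.le (sq_nonneg x))
    linarith
  by_cases c1 : x ≤ δ * ell n l / 4
  · refine triv.trans (Real.exp_le_exp.2 ?_)
    have h1 := mul_le_mul_of_nonneg_left c1 (mul_nonneg hl.le x0)
    have h2 : l * x * (δ * ell n l / 4) = δ * (x * D) / 4 := by
      rw [← hlℓ]
      ring
    have h3 : 0 ≤ δ * (x * D) := by positivity
    have h4 : 0 ≤ δ * t := by positivity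
    linarith
  by_cases c2 : ε ^ 14 * x ^ 2 < 16 * b ^ 3 * t
  · refine triv.trans (Real.exp_le_exp.2 ?_)
    have h1 : ε ^ 14 * (4 * (l * x ^ 2)) ≤ ε ^ 14 * (δ * t) := by
      have a1 := mul_le_mul_of_nonneg_left c2.le hl.le
      have a2 := mul_le_mul_of_nonneg_right hn1 t0
      linarith
    have h2 := le_of_mul_le_mul_left h1 (by positivity)
    have h3 : 0 ≤ δ * (x * D) := by positivity
    have h4 : 0 ≤ l * x ^ 2 := by positivity
    linarith
  push Not at c1 c2
  have x1 : 0 < x := lt_trans (by positivity) c1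
  have hlx : 1 ≤ l * x := by
    have h1 := mul_le_mul_of_nonneg_left c1.le hl.le
    have h2 : 4 ≤ ω * δ := (div_le_iff₀ hδ).1 w2
    have h3 : ω ≤ D := by
      have := mul_le_mul_of_nonneg_right (show 1 ≤ 3 * b by linarith) (show 0 ≤ ω by linarith)
      linarith
    have h4 := mul_le_mul_of_nonneg_right h3 hδ.le
    have h5 : l * (δ * ell n l / 4) = D * δ / 4 := by
      rw [← hlℓ]
      ring
    linarith
  have hbx : b ≤ Real.log x := by
    have h1 := Real.log_nonneg hlx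
    rw [Real.log_mul hl.ne' x1.ne'] at h1
    rw [hbdef, bb]
    linarith
  set T := max (t : ℝ) (x * D) with hTdef
  have T1 : (t : ℝ) ≤ T := le_max_left _ _
  have T2 : x * D ≤ T := le_max_right _ _
  have T3 : T ≤ t + x * D := max_le (by linarith [mul_pos x1 hD]) (by linarith)
  have hdet : Det ε T b (Fintype.card β) := by
    refine ⟨e0, e1, Nat.cast_pos.1 x1, by linarith, ?_, ?_⟩
    · rcases max_choice (t : ℝ) (x * D) with h | h
      · rw [hTdef, h]
        exact c2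
      · rw [hTdef, h, ← hlℓ]
        have a1 := mul_le_mul_of_nonneg_right hn1 (mul_nonneg x0 hℓ.le)
        have a2 := mul_le_mul_of_nonneg_left c1.le (mul_nonneg (pow_pos e0 14).le x0)
        linarith
    · have a1 : 1 ≤ ω * ε ^ 3 := (div_le_iff₀ (by positivity)).1 w3
      have a2 : b ≤ ε ^ 3 * D := by
        have := mul_le_mul_of_nonneg_left hDω (pow_pos e0 3).le
        have := mul_le_mul_of_nonneg_left a1 b0.le
        linarith
      rw [← mul_div_assoc, le_div_iff₀ b0]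
      have a3 := mul_le_mul_of_nonneg_left a2 x0
      have a4 := mul_le_mul_of_nonneg_left T2 (pow_pos e0 3).le
      linarith
  have htha : Tha ω₀ ε T b (b / 4) (Fintype.card β) := by
    refine ⟨by linarith, by linarith, hbx, ?_, ?_, ?_⟩
    · have hxn : x ≤ n := Nat.cast_le.2 hx
      have a0 : 0 ≤ Real.log x := by linarith
      have a1 : Real.log x ^ 10 ≤ Real.log n ^ 10 :=
        pow_le_pow_left₀ a0 (Real.log_le_log x1 hxn) 10
      have a2 : x * Real.log x ^ 10 ≤ n * Real.log n ^ 10 :=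
        mul_le_mul hxn a1 (by positivity) (by positivity)
      have a3 : ω₀ * (x * Real.log x ^ 10) ≤ D ^ 3 :=
        ((mul_le_mul_of_nonneg_right w0 (by positivity)).trans
          (mul_le_mul_of_nonneg_left a2 (by linarith))).trans hR.hD
      have a4 := mul_le_mul_of_nonneg_left a3 (pow_pos x1 3).le
      have a5 : (x * D) ^ 3 ≤ T ^ 3 := pow_le_pow_left₀ (by positivity) T2 3
      calc ω₀ * (x ^ 4 * Real.log x ^ 10) = x ^ 3 * (ω₀ * (x * Real.log x ^ 10)) := by ring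
        _ ≤ x ^ 3 * D ^ 3 := a4
        _ = (x * D) ^ 3 := by ring
        _ ≤ T ^ 3 := a5
    · have a1 : 102400 / ε ^ 4 = 4 * (25600 / ε ^ 4) := by ring
      linarith
    · have a1 := A2357.num2 b0.le
      have a2 : 32768 ≤ b * ε ^ 7 := (div_le_iff₀ (by positivity)).1 (w5.trans hb)
      refine le_of_mul_le_mul_left ?_ b0
      linarith
  have hlt : 0 < l ^ t := pow_pos hl t
  have main := hω₀ β Gs T b (b / 4)
    (Real.exp (4 * z ^ 2 * x ^ 2 * l ^ 2 / b + ε * T - t * Real.log z) / l ^ t) htha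
    (by positivity) (fun G h => ⟨(hG G h).1, by rw [(hG G h).2]; exact T1⟩) (by
      intro E F hEF hE hleaf
      have h1 := hL β ε T b E F hdet hE hleaf
      have h2 := (hB β (box Gs E F) E F l z hl fun G h => (mem_filter.1 h).2).1 t z0
        fun G h => (hG G (mem_filter.1 h).1).2
      rw [div_mul_eq_mul_div, le_div_iff₀ hlt, ← Real.exp_add]
      refine h2.trans ?_
      rw [pow_eq_exp hl, ← Real.exp_add]
      refine Real.exp_le_exp.2 ?_
      have f0 : (0 : ℝ) ≤ ed E := Nat.cast_nonneg _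
      have h3 := A2357.leaf_exp (M := z * l * ed (F \ E)) (c := z * l * x) e0 e1 b0
        (by positivity) f0 (t0.trans T1) (by
          have := mul_le_mul_of_nonneg_left h1 (mul_pos z0 hl).le
          linarith)
      have h4 : Real.log z ≤ 1 := (Real.log_le_iff_le_exp z0).2 z1
      have h5 : (ed E : ℝ) * Real.log z ≤ ed E * (b / 4) :=
        mul_le_mul_of_nonneg_left (by linarith) f0
      have h6 : 4 * (z * l * x) ^ 2 / b = 4 * z ^ 2 * x ^ 2 * l ^ 2 / b := by ring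
      rw [← hbdef]
      linarith)
  rw [← mul_div_assoc, le_div_iff₀ hlt, ← Real.exp_add] at main
  refine main.trans (Real.exp_le_exp.2 ?_)
  have h1 : 2 * ε * T ≤ δ * (t + x * D) :=
    mul_le_mul (by linarith) T3 (t0.trans T1) hδ.le
  linarith

end Pool.Agent.Lib.SPL
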