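import Pool.Agent.Lib.SPL.B_FSUM

/-! Row ALL of the project spl. -/

open scoped Classical
open Finset

noncomputable section

namespace Pool.Agent.Lib.SPL

namespace ALL92

theorem ev_sq (K : ℝ) {c : ℝ} (hc : 0 < c) :
    ∃ n0 : ℕ, ∀ n : ℕ, n0 ≤ n → K * Real.log n ^ 2 ≤ c * n := by
  have h := (Real.isLittleO_pow_log_id_atTop (n := 2)).comp_tendsto
    tendsto_natCast_atTop_atTop (k := fun n : ℕ => (n : ℝ))
  have h2 := h.def (c := c / (|K| + 1)) (by positivity)
  obtain ⟨n0, hn0⟩ := Filter.eventually_atTop.1 h2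
  refine ⟨n0, fun n hn => ?_⟩
  have e := hn0 n hn
  simp only [Function.comp, id, Real.norm_eq_abs, abs_pow, sq_abs, Nat.abs_cast] at e
  rw [div_mul_eq_mul_div, le_div_iff₀ (by positivity)] at e
  have := le_abs_self K
  nlinarith [sq_nonneg (Real.log n)]

end ALL92

theorem r_ALL : R_ALL := by
  intro hM hD hL hW c hc
  obtain ⟨C, δ, c1, n1, hδ, hc1, hM⟩ := hM
  obtain ⟨R, hR, hL⟩ := hL δ c hδ hc
  obtain ⟨c2, n2, hc2, hD⟩ := hD R hR
  obtain ⟨K, n3, hW⟩ := hW R hR
  obtain ⟨n4, h4⟩ := ALL92.ev_sq K (c := c2 / 2) (by positivity)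
  refine ⟨C, min c1 (c2 / 2), max (max n1 n2) (max (max n3 n4) 1), by positivity,
    fun α _ m Gs hn h1 h2 h => ?_⟩
  have m1 : n1 ≤ Fintype.card α := by omega
  have m2 : n2 ≤ Fintype.card α := by omega
  have m3 : n3 ≤ Fintype.card α := by omega
  have m4 : n4 ≤ Fintype.card α := by omega
  have m5 : 1 ≤ Fintype.card α := by omega
  have hN : (0 : ℝ) < Fintype.card α := by exact_mod_cast m5
  have hm0 : (0 : ℝ) ≤ m := by positivity
  by_cases e : (m : ℝ) ≤ δ * (Fintype.card α : ℝ) ^ 2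
  · obtain ⟨k1, k2⟩ := hM α m Gs m1 h1 e h
    refine ⟨k1, k2.trans (mul_le_mul_of_nonneg_right (Real.exp_le_exp.2 (neg_le_neg ?_))
      (by positivity))⟩
    exact div_le_div_of_nonneg_right (mul_le_mul_of_nonneg_right (min_le_left _ _) hm0) hN.le
  · obtain ⟨l, l1, l2, l3⟩ := hL _ m m5 (not_le.1 e).le h2
    have hl : 0 < l := (by positivity : 0 < 1 / R).trans_le l1
    have k1 := hD α l Gs ⟨l1, l2, m2⟩ (fun G hG => ⟨(h G hG).1, (h G hG).2.2⟩)
    have k2 := hW α l m ⟨l1, l2, m3⟩ l3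
    have k3 := WW_pos (Fintype.card α) hl
    refine ⟨Nat.pos_of_ne_zero (fun e0 => ?_), ?_⟩
    · rw [e0] at k2
      simp only [Nat.cast_zero, zero_mul, mul_zero] at k2
      linarith
    · rw [gw_of_ed (fun G hG => (h G hG).2.1)] at k1
      have k4 := k1.trans (mul_le_mul_of_nonneg_left k2 (Real.exp_pos _).le)
      rw [← mul_assoc, ← mul_assoc, ← Real.exp_add] at k4
      refine (le_of_mul_le_mul_right k4 (by positivity)).trans
        (mul_le_mul_of_nonneg_right (Real.exp_le_exp.2 ?_) (by positivity))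
      have k5 : (m : ℝ) ≤ (Fintype.card α : ℝ) ^ 2 := by
        rw [Nat.cast_choose_two] at h2
        have : 0 ≤ c * (Fintype.card α : ℝ) ^ 2 := by positivity
        nlinarith
      have k6 : min c1 (c2 / 2) * m / Fintype.card α ≤ c2 / 2 * Fintype.card α := by
        rw [div_le_iff₀ hN]
        have := mul_le_mul (min_le_right c1 (c2 / 2)) k5 hm0 (by positivity)
        nlinarith
      have k7 := h4 _ m4
      linarith

end Pool.Agent.Lib.SPL
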