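import Pool.Agent.Lib.SPL.Blue

/-! Project spl, phase 2: the dense range `1 / R ≤ l ≤ R`. Paper: /team-store/spl2_PAPER.md -/

open scoped Classical
open Finset

noncomputable section

namespace Pool.Agent.Lib.SPL

variable {α : Type}

/-- the dense regime -/
structure Dn (R : ℝ) (n0 n : ℕ) (l : ℝ) : Prop where
  lo : 1 / R ≤ l
  hi : l ≤ R
  big : n0 ≤ n

/-- the optimal clique fraction -/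
def xs (l : ℝ) : ℝ := Real.log (1 + l) / (2 * Real.log (1 + l) + bb l)

/-- the exponent of the split weight, over `n ^ 2` -/
def ph (l : ℝ) : ℝ := Real.log (1 + l) * xs l / 2

def Good2 [Fintype α] (ζ l : ℝ) (G : Gr α) : Prop :=
  ∃ K : Finset α, Clq G K ∧ |(K.card : ℝ) - Fintype.card α * xs l| ≤ ζ * Fintype.card α ∧
    (ed (rs G Kᶜ) : ℝ) ≤ 2 * ζ * (Fintype.card α : ℝ) ^ 2

/-- the union of the sets -/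
def un {k : ℕ} (Q : Fin k → Finset α) : Finset α := univ.biUnion Q

/-- `w` is the clique number of `G` in `U` -/
def Om (G : Gr α) (U : Finset α) (w : ℕ) : Prop :=
  (∃ K : Finset α, K ⊆ U ∧ Clq G K ∧ K.card = w) ∧ ∀ K : Finset α, K ⊆ U → Clq G K → K.card ≤ w

/-- vertices off `K` that miss at most a `θ` fraction of `K` -/
def big2 [Fintype α] (θ : ℝ) (G : Gr α) (K : Finset α) : Finset α :=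
  Kᶜ.filter (fun v => ((K \ nb G v K).card : ℝ) ≤ θ * K.card)

structure Cls2 [Fintype α] (κ θ ζ : ℝ) (G : Gr α) (A : Finset α) : Prop where
  lo : κ * Fintype.card α ≤ A.card
  hi : κ * Fintype.card α ≤ Aᶜ.card
  deg : ∀ x ∈ A, (dg Gᶜ x A : ℝ) ≤ 2 * θ * A.card
  cov : ∃ Z : Finset α, Cvr (rs Gᶜ A) Z ∧ (Z.card : ℝ) ≤ κ * Fintype.card α / 2
  mis : ∀ u, u ∉ A → θ * A.card / 2 ≤ ((A \ nb G u A).card : ℝ)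
  few : (ed (rs G Aᶜ) : ℝ) ≤ ζ * (Fintype.card α : ℝ) ^ 2

def Src2 [Fintype α] (κ θ ζ : ℝ) (A : Finset α) (Γ T : Gr α) (f : α → Finset α) : Prop :=
  ∃ G : Gr α, NoC4 G ∧ Cls2 κ θ ζ G A ∧ rs Gᶜ A = Γ ∧ rs G Aᶜ = T ∧ crs G A = f

def Near2 (n m : ℕ) (l : ℝ) : Prop :=
  |(m : ℝ) - ((kk n l).choose 2 : ℕ) - ((kk n l * (n - kk n l) : ℕ) : ℝ) * (l / (1 + l))| ≤ 3 * n

/-! ### Tools -/

def St_XS : Prop := ∀ R l : ℝ, 1 ≤ R → 1 / R ≤ l → l ≤ R →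
  0 < l ∧ 1 / (2 * R) ≤ Real.log (1 + l) ∧ Real.log (1 + l) ≤ R ∧
  1 / (2 * R) ≤ Real.log (1 + l) + bb l ∧ Real.log (1 + l) + bb l ≤ R ∧ |bb l| ≤ R ∧
  1 / (4 * R ^ 2) ≤ xs l ∧ xs l ≤ 1 - 1 / (4 * R ^ 2) ∧
  ∀ n k : ℕ, k ≤ n → ww n l k = Real.exp (ph l * (n : ℝ) ^ 2 -
    (2 * Real.log (1 + l) + bb l) / 2 * ((k : ℝ) - n * xs l) ^ 2 + bb l * k / 2)

def St_TILT : Prop :=
  (∀ (α : Type) (A : Finset α) (Ss : Finset (Finset α)) (x y z : ℝ), 0 ≤ x → 0 < z → z ≤ 1 →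
    (∀ S ∈ Ss, S ⊆ A ∧ (S.card : ℝ) ≤ y) →
    ∑ S ∈ Ss, x ^ S.card ≤ Real.exp (z * x * A.card - y * Real.log z)) ∧
  ∀ (α : Type) [Fintype α] (Ts : Finset (Gr α)) (x y z : ℝ), 0 ≤ x → 0 < z → z ≤ 1 →
    (∀ T ∈ Ts, (ed T : ℝ) ≤ y) →
    gw x Ts ≤ Real.exp (z * x * (Fintype.card α : ℝ) ^ 2 - y * Real.log z)

def St_ZD : Prop := ∀ R δ : ℝ, 1 ≤ R → 0 < δ → ∃ ζ : ℝ, 0 < ζ ∧
  (∀ (α : Type) [Fintype α] (x : ℝ) (Ts : Finset (Gr α)), 0 ≤ x → x ≤ R →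
    (∀ T ∈ Ts, (ed T : ℝ) ≤ ζ * (Fintype.card α : ℝ) ^ 2) →
    gw x Ts ≤ Real.exp (δ * (Fintype.card α : ℝ) ^ 2)) ∧
  ∀ (α : Type) [Fintype α] (x : ℝ) (Ss : Finset (Finset α)), 0 ≤ x → x ≤ R →
    (∀ S ∈ Ss, (S.card : ℝ) ≤ ζ * Fintype.card α) →
    ∑ S ∈ Ss, x ^ S.card ≤ Real.exp (δ * Fintype.card α)

def St_MISS : Prop := ∀ (α : Type) (R l : ℝ) (A : Finset α) (Ss : Finset (Finset α)),
  1 ≤ R → 1 / R ≤ l → l ≤ R →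
  (∀ S ∈ Ss, S ⊆ A ∧ ((A \ S).card : ℝ) ≤ A.card / (64 * R ^ 3)) →
  ∑ S ∈ Ss, l ^ S.card ≤ (1 + l) ^ A.card * Real.exp (-(A.card / (4 * R)))

/-! ### Approximate structure -/

def St_BIGC : Prop := ∀ (α : Type) (G : Gr α) (U : Finset α) (η n : ℝ), NoC4 G → 0 < η → η ≤ 1 →
  0 < n → (U.card : ℝ) ≤ n → η * n ^ 2 ≤ ar G U →
  ∃ K : Finset α, K ⊆ U ∧ Clq G K ∧ η ^ 3 * n / 100 ≤ K.card

def St_DEC : Prop := ∀ (α : Type) [Fintype α] (G : Gr α) (η : ℝ) (k : ℕ), NoC4 G → 0 < η → η ≤ 1 →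
  100 / η ^ 3 ≤ k → ∃ Q : Fin k → Finset α, (∀ j, Clq G (Q j)) ∧
    (ar G (un Q)ᶜ : ℝ) ≤ η * (Fintype.card α : ℝ) ^ 2

def St_CHAIN : Prop := ∀ (α : Type) [Fintype α] (k : ℕ) (Q : Fin k → Finset α)
  (As : Finset (Gr α)),
  (∀ Γ ∈ As, ∃ G : Gr α, NoC4 G ∧ (∀ j, Clq G (Q j)) ∧ rs Gᶜ (un Q) = Γ) →
  As.card ≤ (Fintype.card α + 1) ^ (Fintype.card α * k)

def St_FARB : Prop := ∀ (α : Type) (G : Gr α) (U : Finset α), NoC4 G →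
  ∃ Ks : Finset (Finset α), Ks.card ≤ U.card ^ 2 + 1 ∧ (∀ K ∈ Ks, K ⊆ U ∧ Clq G K) ∧
    ∀ S : Finset α, S ⊆ U → Clq G S → ∃ K ∈ Ks, S ⊆ K

def St_FSUM : Prop := ∀ R δ : ℝ, 1 ≤ R → 0 < δ → ∃ (η : ℝ) (n0 : ℕ), 0 < η ∧
  ∀ (α : Type) [Fintype α] (l : ℝ) (U : Finset α) (w : ℕ) (Γ : Gr α) (Fs : Finset (α → Finset α)),
  Dn R n0 (Fintype.card α) l →
  (∀ f ∈ Fs, ∃ G : Gr α, NoC4 G ∧ Om G U w ∧ (ar G Uᶜ : ℝ) ≤ η * (Fintype.card α : ℝ) ^ 2 ∧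
    rs Gᶜ U = Γ ∧ crs G U = f) →
  fw l Fs ≤ (1 + l) ^ (w * Uᶜ.card) * Real.exp (δ * (Fintype.card α : ℝ) ^ 2)

def St_OPT : Prop := ∀ (R ζ l : ℝ) (n q w e : ℕ), 1 ≤ R → 1 / R ≤ l → l ≤ R → 0 < ζ →
  ζ ≤ 1 / (8 * R ^ 2) → w ≤ q → q ≤ n → e + w.choose 2 ≤ q.choose 2 →
  (ζ * n < |(w : ℝ) - n * xs l| ∨ ζ * n < (q : ℝ) - w) →
  l ^ q.choose 2 * l⁻¹ ^ e * (1 + l) ^ (w * (n - q)) ≤
    Real.exp (ph l * (n : ℝ) ^ 2 + R * n - ζ ^ 2 * (n : ℝ) ^ 2 / (32 * R ^ 3))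

def St_WLOW2 : Prop := ∀ (R l : ℝ) (n : ℕ), 1 ≤ R → 1 / R ≤ l → l ≤ R → 1 ≤ n →
  Real.exp (ph l * (n : ℝ) ^ 2 - 2 * R * n) ≤ WW n l

def St_DA1 : Prop := ∀ R ζ : ℝ, 1 ≤ R → 0 < ζ → ζ ≤ 1 / (8 * R ^ 2) → ∃ (η : ℝ) (n0 : ℕ),
  0 < η ∧ η ≤ 1 ∧
  ∀ (α : Type) [Fintype α] (l : ℝ) (k : ℕ) (Q : Fin k → Finset α) (w : ℕ) (Gs : Finset (Gr α)),
  Dn R n0 (Fintype.card α) l →
  (∀ G ∈ Gs, NoC4 G ∧ ¬ Good2 ζ l G ∧ (∀ j, Clq G (Q j)) ∧ Om G (un Q) w ∧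
    (ar G (un Q)ᶜ : ℝ) ≤ η * (Fintype.card α : ℝ) ^ 2) →
  gw l Gs ≤ ((Fintype.card α : ℝ) + 1) ^ (Fintype.card α * k) *
    Real.exp (ph l * (Fintype.card α : ℝ) ^ 2 + R * Fintype.card α -
      ζ ^ 2 * (Fintype.card α : ℝ) ^ 2 / (64 * R ^ 3))

def St_DA : Prop := ∀ R ζ : ℝ, 1 ≤ R → 0 < ζ → ζ ≤ 1 / (8 * R ^ 2) → ∃ (c : ℝ) (n0 : ℕ), 0 < c ∧
  ∀ (α : Type) [Fintype α] (l : ℝ) (Gs : Finset (Gr α)), Dn R n0 (Fintype.card α) l →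
  (∀ G ∈ Gs, NoC4 G ∧ ¬ Good2 ζ l G) →
  gw l Gs ≤ Real.exp (-(c * (Fintype.card α : ℝ) ^ 2)) * WW (Fintype.card α) l

/-! ### Exact step -/

def St_YB2 : Prop := ∀ R θ ρ κ : ℝ, 1 ≤ R → θ ≤ 1 / (64 * R ^ 3) → 0 < ρ → 0 < κ →
  ∃ (c ζ : ℝ) (n0 : ℕ), 0 < c ∧ 0 < ζ ∧
  ∀ (α : Type) [Fintype α] (l : ℝ) (Gs : Finset (Gr α)), Dn R n0 (Fintype.card α) l →
  (∀ G ∈ Gs, ∃ K : Finset α, Clq G K ∧ κ * Fintype.card α ≤ K.card ∧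
    (ed (rs G Kᶜ) : ℝ) ≤ ζ * (Fintype.card α : ℝ) ^ 2 ∧
    ρ * Fintype.card α < (big2 θ G K).card) →
  gw l Gs ≤ Real.exp (-(c * (Fintype.card α : ℝ) ^ 2)) * WW (Fintype.card α) l

def St_CLS2 : Prop := ∀ (α : Type) [Fintype α] (R θ ζ l : ℝ) (G : Gr α) (K : Finset α),
  1 ≤ R → 1 / R ≤ l → l ≤ R → 0 < θ → θ ≤ 1 → ζ ≤ 1 / (16 * R ^ 2) → Clq G K →
  |(K.card : ℝ) - Fintype.card α * xs l| ≤ ζ * Fintype.card α →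
  (ed (rs G Kᶜ) : ℝ) ≤ 2 * ζ * (Fintype.card α : ℝ) ^ 2 →
  ((big2 θ G K).card : ℝ) ≤ θ / (16 * R ^ 2) * Fintype.card α →
  ∃ A : Finset α, Cls2 (1 / (8 * R ^ 2)) θ (2 * ζ) G A

def St_NEST0 : Prop := ∀ (α : Type) [Fintype α] (l : ℝ) (A I K : Finset α) (H : Gr α)
  (P : Finset (α × α)) (Fs : Finset (α → Finset α)),
  0 < l → K ⊆ A → Mat H P → vs P ⊆ I →
  (∀ f ∈ Fs, Fam A I f ∧ ∀ p ∈ P, f p.1 ∩ K ⊆ f p.2 ∨ f p.2 ∩ K ⊆ f p.1) →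
  fw l Fs ≤ (1 + l) ^ (A.card * I.card) * (2 * (1 - l / (1 + l) ^ 2) ^ K.card) ^ P.card

def St_STAR0 : Prop := ∀ (α : Type) [Fintype α] (l h : ℝ) (A I J : Finset α) (c : α → α) (r : ℕ)
  (Fs : Finset (α → Finset α)),
  0 < l → 0 ≤ h → (∀ r' : ℕ, r ≤ r' → (1 + r' * l) ^ 2 ≤ (1 + l) ^ r') → J ⊆ I → Stars J c r →
  (∀ f ∈ Fs, Fam A I f ∧ (∀ j ∈ J, h ≤ (A \ f (c j)).card) ∧
    ∀ j ∈ J, ∀ j' ∈ J, j ≠ j' → c j = c j' → f j ∩ f j' ⊆ f (c j)) →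
  fw l Fs ≤ (1 + l) ^ (A.card * I.card) * Real.exp (-(Real.log (1 + l) * h * J.card / 2))

def St_TSAV2 : Prop := ∀ R κ θ : ℝ, 1 ≤ R → 0 < κ → 0 < θ → ∃ (c : ℝ) (n0 : ℕ), 0 < c ∧
  ∀ (α : Type) [Fintype α] (ζ l : ℝ) (A : Finset α) (Γ T : Gr α) (s : ℕ)
  (Fs : Finset (α → Finset α)), Dn R n0 (Fintype.card α) l → Str T ⌈32 * R⌉₊ s →
  (∀ f ∈ Fs, Src2 κ θ ζ A Γ T f) →
  fw l Fs ≤ (1 + l) ^ (A.card * Aᶜ.card) * Real.exp (-(c * s * Fintype.card α))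

def St_TSUM2 : Prop := ∀ (R c : ℝ) (r : ℕ), 1 ≤ R → 0 < c → ∃ (ζ : ℝ) (n0 : ℕ), 0 < ζ ∧
  ∀ (α : Type) [Fintype α] (l : ℝ) (Ts : Finset (Gr α)) (s : Gr α → ℕ),
  Dn R n0 (Fintype.card α) l →
  (∀ T ∈ Ts, (ed T : ℝ) ≤ ζ * (Fintype.card α : ℝ) ^ 2 ∧ 0 < s T ∧
    ∃ X : Finset α, X.card ≤ 3 * s T ∧ ed (T \ rs T X) ≤ 2 * r * s T) →
  ∑ T ∈ Ts, l ^ ed T * Real.exp (-(c * s T * Fintype.card α)) ≤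
    Real.exp (-(c * Fintype.card α / 4))

def St_GSAV2 : Prop := ∀ R κ : ℝ, 1 ≤ R → 0 < κ → ∃ n0 : ℕ,
  ∀ (α : Type) [Fintype α] (θ ζ l : ℝ) (A : Finset α) (Γ T : Gr α) (P : Finset (α × α))
  (Fs : Finset (α → Finset α)), Dn R n0 (Fintype.card α) l → θ ≤ 1 / (256 * R ^ 3) → Mat Γ P →
  (∀ f ∈ Fs, Src2 κ θ ζ A Γ T f) →
  fw l Fs ≤ (1 + l) ^ (A.card * Aᶜ.card) *
    Real.exp (-(κ / (8 * R ^ 2) * P.card * Fintype.card α))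

def St_GSUM2 : Prop := ∀ R c : ℝ, 1 ≤ R → 0 < c → ∃ (θ : ℝ) (n0 : ℕ), 0 < θ ∧
  ∀ (α : Type) [Fintype α] (l : ℝ) (As : Finset (Gr α)) (ν : Gr α → ℕ),
  Dn R n0 (Fintype.card α) l →
  (∀ Γ ∈ As, (∀ x, (dg Γ x univ : ℝ) ≤ 2 * θ * Fintype.card α) ∧ 0 < ν Γ ∧
    ∃ Z : Finset α, Cvr Γ Z ∧ Z.card ≤ 2 * ν Γ) →
  ∑ Γ ∈ As, l⁻¹ ^ ed Γ * Real.exp (-(c * ν Γ * Fintype.card α)) ≤
    Real.exp (-(c * Fintype.card α / 4))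

def St_CSUM2 : Prop := ∀ R κ : ℝ, 1 ≤ R → 0 < κ → ∃ (θ ζ c : ℝ) (n0 : ℕ),
  0 < θ ∧ θ ≤ 1 / (64 * R ^ 3) ∧ 0 < ζ ∧ 0 < c ∧
  ∀ (α : Type) [Fintype α] (l : ℝ) (A : Finset α) (Gs : Finset (Gr α)),
  Dn R n0 (Fintype.card α) l → (∀ G ∈ Gs, NoC4 G ∧ Cls2 κ θ ζ G A ∧ ¬ IsSplit G) →
  gw l Gs ≤ Real.exp (-(c * Fintype.card α)) * ww (Fintype.card α) l A.card

def St_DENSE : Prop := ∀ R : ℝ, 1 ≤ R → ∃ (c : ℝ) (n0 : ℕ), 0 < c ∧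
  ∀ (α : Type) [Fintype α] (l : ℝ) (Gs : Finset (Gr α)), Dn R n0 (Fintype.card α) l →
  (∀ G ∈ Gs, NoC4 G ∧ ¬ IsSplit G) →
  gw l Gs ≤ Real.exp (-(c * Fintype.card α)) * WW (Fintype.card α) l

/-! ### Fixed number of edges -/

def St_DW2 : Prop := ∀ R : ℝ, 1 ≤ R → ∃ (K : ℝ) (n0 : ℕ), ∀ (n : ℕ) (l : ℝ), Dn R n0 n l →
  WW n l ≤ Real.exp (K * Real.log n ^ 2) * ((n.choose (kk n l) : ℝ) * ww n l (kk n l))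

def St_DLAM2 : Prop := ∀ δ c : ℝ, 0 < δ → 0 < c → ∃ R : ℝ, 1 ≤ R ∧ ∀ n m : ℕ, 1 ≤ n →
  δ * (n : ℝ) ^ 2 ≤ m → (m : ℝ) ≤ (n.choose 2 : ℕ) - c * (n : ℝ) ^ 2 →
  ∃ l : ℝ, 1 / R ≤ l ∧ l ≤ R ∧ Near2 n m l

def St_DLOW2 : Prop := ∀ R : ℝ, 1 ≤ R → ∃ (K : ℝ) (n0 : ℕ),
  ∀ (α : Type) [Fintype α] (l : ℝ) (m : ℕ), Dn R n0 (Fintype.card α) l →
  Near2 (Fintype.card α) m l →
  WW (Fintype.card α) l ≤ Real.exp (K * Real.log (Fintype.card α) ^ 2) * (nsp α m * l ^ m)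

def St_ALL : Prop := ∀ c : ℝ, 0 < c → ∃ (C c' : ℝ) (n0 : ℕ), 0 < c' ∧
  ∀ (α : Type) [Fintype α] (m : ℕ) (Gs : Finset (Gr α)), n0 ≤ Fintype.card α →
  C * ((Fintype.card α : ℝ) ^ 4 * Real.log (Fintype.card α) ^ 10) ≤ (m : ℝ) ^ 3 →
  (m : ℝ) ≤ ((Fintype.card α).choose 2 : ℕ) - c * (Fintype.card α : ℝ) ^ 2 →
  (∀ G ∈ Gs, NoC4 G ∧ ed G = m ∧ ¬ IsSplit G) →
  0 < nsp α m ∧ (Gs.card : ℝ) ≤ Real.exp (-(c' * m / Fintype.card α)) * nsp α m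

/-! ### Rows -/

def R_XS : Prop := St_XS
def R_TILT : Prop := St_TILT
def R_ZD : Prop := St_TILT → St_ZD
def R_MISS : Prop := St_XS → St_TILT → St_MISS
def R_BIGC : Prop := St_CLQ → St_BIGC
def R_DEC : Prop := St_BIGC → St_DEC
def R_CHAIN : Prop := St_CHAIN
def R_FARB : Prop := St_FARB
def R_FSUM : Prop := St_CLQ → St_FARB → St_ZD → St_FSUM
def R_OPT : Prop := St_XS → St_OPT
def R_WLOW2 : Prop := St_XS → St_WLOW2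
def R_DA1 : Prop := St_FACT → St_CHAIN → St_FSUM → St_ZD → St_OPT → St_DA1
def R_DA : Prop := St_DEC → St_DA1 → St_WLOW2 → St_DA
def R_YB2 : Prop := St_FACT → St_ZD → St_MISS → St_YB2
def R_CLS2 : Prop := St_XS → St_CLS2
def R_NEST0 : Prop := St_NEST0
def R_STAR0 : Prop := St_STAR0
def R_TSAV2 : Prop := St_XS → St_CONS → St_NEST0 → St_STAR0 → St_TSAV2
def R_TSUM2 : Prop := St_TILT → St_ZD → St_TSUM2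
def R_GSAV2 : Prop := St_CONS → St_IND → St_MISS → St_GSAV2
def R_GSUM2 : Prop := St_ZD → St_GSUM2
def R_CSUM2 : Prop :=
  St_FACT → St_CORE → St_GST → St_TSAV2 → St_TSUM2 → St_GSAV2 → St_GSUM2 → St_CSUM2
def R_DENSE : Prop := St_XS → St_DA → St_YB2 → St_CLS2 → St_CSUM2 → St_DENSE
def R_DW2 : Prop := St_XS → St_DW2
def R_DLAM2 : Prop := St_DLAM2
def R_DLOW2 : Prop := St_XS → St_DW2 → St_DBIN → St_DSPL → St_DLOW2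
def R_ALL : Prop := St_MAIN → St_DENSE → St_DLAM2 → St_DLOW2 → St_ALL

theorem all_of (main : St_MAIN) (clq : St_CLQ) (fact : St_FACT) (cons : St_CONS) (core : St_CORE)
    (ind : St_IND) (gst : St_GST) (dbin : St_DBIN) (dspl : St_DSPL)
    (xs : R_XS) (tilt : R_TILT) (zd : R_ZD) (miss : R_MISS) (bigc : R_BIGC) (dec : R_DEC)
    (chain : R_CHAIN) (farb : R_FARB) (fsum : R_FSUM) (opt : R_OPT) (wlow2 : R_WLOW2)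
    (da1 : R_DA1) (da : R_DA) (yb2 : R_YB2) (cls2 : R_CLS2) (nest0 : R_NEST0) (star0 : R_STAR0)
    (tsav2 : R_TSAV2) (tsum2 : R_TSUM2) (gsav2 : R_GSAV2) (gsum2 : R_GSUM2) (csum2 : R_CSUM2)
    (dense : R_DENSE) (dw2 : R_DW2) (dlam2 : R_DLAM2) (dlow2 : R_DLOW2) (all : R_ALL) :
    St_ALL := by
  have hZD : St_ZD := zd tilt
  have hMISS : St_MISS := miss xs tilt
  exact all main
    (dense xs (da (dec (bigc clq)) (da1 fact chain (fsum clq farb hZD) hZD (opt xs)) (wlow2 xs))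
      (yb2 fact hZD hMISS) (cls2 xs)
      (csum2 fact core gst (tsav2 xs cons nest0 star0) (tsum2 tilt hZD) (gsav2 cons ind hMISS)
        (gsum2 hZD)))
    dlam2 (dlow2 xs (dw2 xs) dbin dspl)

end Pool.Agent.Lib.SPL
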