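import Pool.Agent.Lib.SPL.Kit2
import Pool.Agent.Lib.SPL.Blue2

/-! A dense graph without induced four-cycle has a clique of linear size. -/

open scoped Classical
open Finset

namespace Pool.Agent.Lib.SPL

namespace BIGC44

variable {α : Type}

theorem sum_ar (G : Gr α) (U : Finset α) :
    ∑ u ∈ U, (ar Gᶜ (nb G u U) : ℝ) = ∑ x ∈ U, ∑ y ∈ U,
      ((U.filter fun u => G.Adj u x ∧ G.Adj u y ∧ Gᶜ.Adj x y).card : ℝ) := by
  have h : ∀ u, (ar Gᶜ (nb G u U) : ℝ) = ∑ x ∈ U, ∑ y ∈ U,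
      if G.Adj u x ∧ G.Adj u y ∧ Gᶜ.Adj x y then (1 : ℝ) else 0 := fun u => by
    rw [ar_cast, nb, sum_filter]
    refine sum_congr rfl fun x _ => ?_
    rw [sum_filter]
    by_cases hx : G.Adj u x
    · rw [if_pos hx]
      refine sum_congr rfl fun y _ => ?_
      by_cases h1 : G.Adj u y <;> by_cases h2 : Gᶜ.Adj x y <;> simp only [hx, h1, h2] <;> simp
    · simp [hx]
  simp only [h, card_filter, Nat.cast_sum, Nat.cast_ite, Nat.cast_one, Nat.cast_zero]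
  rw [sum_comm]
  exact sum_congr rfl fun x _ => sum_comm

theorem clq_common {G : Gr α} (hG : NoC4 G) (U : Finset α) (x y : α) :
    Clq G (U.filter fun u => G.Adj u x ∧ G.Adj u y ∧ Gᶜ.Adj x y) := by
  intro u hu v hv huv
  obtain ⟨-, a, b, c⟩ := mem_filter.1 hu
  obtain ⟨-, d, e, -⟩ := mem_filter.1 hv
  exact (hG u x v y huv c.1 a d.symm e b.symm).resolve_right c.2

end BIGC44

open BIGC44 in
theorem r_BIGC : R_BIGC := by
  intro hC α G U η n hG h0 h1 hn hU hE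
  by_contra hc
  have small : ∀ K : Finset α, K ⊆ U → Clq G K → (K.card : ℝ) ≤ η ^ 3 * n / 100 :=
    fun K a b => (not_le.1 fun c => hc ⟨K, a, b, c⟩).le
  have hU0 : (0 : ℝ) ≤ U.card := Nat.cast_nonneg _
  have s1 : ∑ u ∈ U, (ar Gᶜ (nb G u U) : ℝ) ≤ n * (n * (η ^ 3 * n / 100)) := by
    rw [sum_ar]
    calc _ ≤ ∑ _x ∈ U, ∑ _y ∈ U, η ^ 3 * n / 100 := sum_le_sum fun x _ => sum_le_sum fun y _ =>
          small _ (filter_subset _ _) (clq_common hG U x y)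
      _ = U.card * (U.card * (η ^ 3 * n / 100)) := by simp only [sum_const, nsmul_eq_mul]
      _ ≤ _ := by gcongr
  have s2 : ∀ u ∈ U, η * n / 2 * (dg G u U : ℝ) ≤
      (η * n / 2 * (η ^ 3 * n / 100) + (η * n / 2) ^ 2) + ar Gᶜ (nb G u U) := fun u _ => by
    have e := Real.sq_sqrt (Nat.cast_nonneg (α := ℝ) (ar Gᶜ (nb G u U)))
    obtain ⟨K, a, b, c⟩ := hC α G (nb G u U) _ hG (Real.sqrt_nonneg _) e.ge
    have d := small K (a.trans (nb_subset G u U)) b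
    have f : (dg G u U : ℝ) ≤ η ^ 3 * n / 100 + 2 * √(ar Gᶜ (nb G u U) : ℝ) := by
      rw [dg]
      linarith
    have g := mul_le_mul_of_nonneg_left f (by positivity : 0 ≤ η * n / 2)
    nlinarith [sq_nonneg (η * n / 2 - √(ar Gᶜ (nb G u U) : ℝ))]
  have s3 := sum_le_sum s2
  rw [← mul_sum, sum_add_distrib, sum_const, nsmul_eq_mul, ← Nat.cast_sum] at s3
  have s4 : η * n / 2 * (η * n ^ 2) ≤ η * n / 2 * ((∑ u ∈ U, dg G u U : ℕ) : ℝ) :=
    mul_le_mul_of_nonneg_left hE (by positivity)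
  have s5 : (U.card : ℝ) * (η * n / 2 * (η ^ 3 * n / 100) + (η * n / 2) ^ 2) ≤
      n * (η * n / 2 * (η ^ 3 * n / 100) + (η * n / 2) ^ 2) := by gcongr
  have p : 0 < η ^ 2 * n ^ 3 := by positivity
  have q1 : η * (η ^ 2 * n ^ 3) ≤ η ^ 2 * n ^ 3 := mul_le_of_le_one_left p.le h1
  have q2 : η ^ 2 * (η ^ 2 * n ^ 3) ≤ η ^ 2 * n ^ 3 :=
    mul_le_of_le_one_left p.le (pow_le_one₀ h0.le h1)
  nlinarith

end Pool.Agent.Lib.SPL
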