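import Pool.Agent.Lib.SPL.Kit2

/-! Block BOX: weights of graphs between two given graphs. -/

open scoped Classical
open Finset

noncomputable section

namespace Pool.Agent.Lib.SPL

namespace BOX82

variable {α : Type} [Fintype α]

/-- the edges as a finite set -/
def ef (G : Gr α) : Finset (Sym2 α) := (Set.toFinite G.edgeSet).toFinset

theorem mem_ef {G : Gr α} {e : Sym2 α} : e ∈ ef G ↔ e ∈ G.edgeSet := Set.Finite.mem_toFinset _

theorem card_ef (G : Gr α) : (ef G).card = ed G := (Set.ncard_eq_toFinset_card _ _).symm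

theorem sum_prod_le {Gs : Finset (Gr α)} {E F : Gr α} (h : ∀ G ∈ Gs, E ≤ G ∧ G ≤ F)
    (w : Sym2 α → ℝ) (hw : ∀ e, 0 ≤ w e) :
    ∑ G ∈ Gs, ∏ e ∈ ef (G \ E), w e ≤ ∏ e ∈ ef (F \ E), (1 + w e) := by
  rw [prod_one_add, ← sum_image (s := Gs) (g := fun G => ef (G \ E))
    (f := fun S => ∏ e ∈ S, w e) fun G hG G' hG' e => by
      rw [← sdiff_sup_cancel (h G hG).1, ← sdiff_sup_cancel (h G' hG').1,
        SimpleGraph.edgeSet_injective (Set.Finite.toFinset_inj.1 e)]]
  refine sum_le_sum_of_subset_of_nonneg (fun S hS => ?_) fun S _ _ => prod_nonneg fun e _ => hw e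
  obtain ⟨G, hG, rfl⟩ := mem_image.1 hS
  exact mem_powerset.2 fun e he =>
    mem_ef.2 (SimpleGraph.edgeSet_mono (sdiff_le_sdiff_right (h G hG).2) (mem_ef.1 he))

theorem prod_ite (S M : Gr α) (a b : ℝ) :
    ∏ e ∈ ef S, (a * if e ∈ M.edgeSet then b else 1) = a ^ ed S * b ^ ed (S ⊓ M) := by
  rw [prod_mul_distrib, prod_const, ← prod_filter, prod_const, card_ef, ← card_ef (S ⊓ M)]
  congr 3
  ext e
  simp [mem_ef]

end BOX82

theorem r_BOX : R_BOX := by
  intro α _ Gs E F l z hl h
  refine ⟨fun t hz ht => ?_, fun M1 y hz hy => ?_⟩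
  · have h1 := BOX82.sum_prod_le h (fun _ => z * l) fun _ => by positivity
    simp only [prod_const, BOX82.card_ef] at h1
    have h2 : (1 + z * l) ^ ed (F \ E) ≤ Real.exp (z * l * ed (F \ E)) := by
      rw [mul_comm (z * l), Real.exp_nat_mul]
      exact pow_le_pow_left₀ (by positivity) (by linarith [Real.add_one_le_exp (z * l)]) _
    have h3 : ∀ G ∈ Gs, l ^ t =
        l ^ ed E * Real.exp (-(((t : ℝ) - ed E) * Real.log z)) * (z * l) ^ ed (G \ E) :=
      fun G hG => by
        have e := (ed_sdiff (h G hG).1).trans (ht G hG)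
        have e' : (t : ℝ) - ed E = ed (G \ E) := by rw [← e]; push_cast; ring
        rw [e', Real.exp_neg, Real.exp_nat_mul, Real.exp_log hz, ← e, pow_add, mul_pow]
        field_simp
    rw [← nsmul_eq_mul, ← sum_const, sum_congr rfl h3, ← mul_sum, sub_eq_add_neg (z * l * _),
      Real.exp_add, mul_comm (Real.exp (z * l * _)), ← mul_assoc]
    exact mul_le_mul_of_nonneg_left (h1.trans h2) (by positivity)
  · have hz0 : 0 < z := by linarith
    have h1 := BOX82.sum_prod_le h (fun e => l * if e ∈ M1.edgeSet then z else 1) fun e => by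
      split_ifs <;> positivity
    simp only [BOX82.prod_ite] at h1
    have h2 : ∏ e ∈ BOX82.ef (F \ E), (1 + l * if e ∈ M1.edgeSet then z else 1) ≤
        (1 + l) ^ ed (F \ E) * Real.exp (z * l * ed M1) := by
      refine (prod_le_prod (g := fun e => (1 + l) * if e ∈ M1.edgeSet then Real.exp (z * l) else 1)
        (fun e _ => by split_ifs <;> positivity) fun e _ => ?_).trans ?_
      · split_ifs
        · nlinarith [Real.add_one_le_exp (z * l), Real.exp_pos (z * l)]
        · simp
      · rw [BOX82.prod_ite, mul_comm (z * l) (ed M1 : ℝ), Real.exp_nat_mul]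
        exact mul_le_mul_of_nonneg_left (pow_le_pow_right₀
          (Real.one_le_exp (by positivity)) (ed_mono inf_le_right)) (by positivity)
    have h3 : ∀ G ∈ Gs, l ^ ed G ≤ l ^ ed E * Real.exp (-(y * Real.log z)) *
        (l ^ ed (G \ E) * z ^ ed ((G \ E) ⊓ M1)) := fun G hG => by
      have e : 1 ≤ Real.exp (-(y * Real.log z)) * z ^ ed ((G \ E) ⊓ M1) := by
        conv_rhs => rw [← Real.exp_log (pow_pos hz0 _), ← Real.exp_add, Real.log_pow]
        exact Real.one_le_exp (by nlinarith [hy G hG, Real.log_nonneg hz])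
      rw [← ed_sdiff (h G hG).1, pow_add]
      nlinarith [mul_pos (pow_pos hl (ed (G \ E))) (pow_pos hl (ed E))]
    refine (sum_le_sum h3).trans ?_
    rw [← mul_sum, sub_eq_add_neg, Real.exp_add]
    refine (mul_le_mul_of_nonneg_left (h1.trans h2) (by positivity)).trans (le_of_eq ?_)
    ring

end Pool.Agent.Lib.SPL
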