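import Pool.Agent.Lib.SPL.Kit2
import Pool.Agent.Lib.SPL.Blue2

/-! Between two cliques of a graph without induced 4-cycle the adjacency is a chain. -/

open scoped Classical
open Finset

noncomputable section

namespace Pool.Agent.Lib.SPL

namespace CHAIN98

variable {α : Type}

/-- closed neighbourhood in `S` -/
def cn (G : Gr α) (x : α) (S : Finset α) : Finset α := S.filter fun y => x = y ∨ G.Adj x y

theorem nested {G : Gr α} (h : NoC4 G) {A B : Finset α} (hA : Clq G A) (hB : Clq G B) {x x' y : α}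
    (hx : x ∈ A) (hx' : x' ∈ A) (h1 : y ∈ cn G x' B) (h2 : y ∉ cn G x B) :
    cn G x B ⊆ cn G x' B := by
  intro z hz
  by_contra h3
  simp only [cn, mem_filter] at h1 h2 hz h3
  have a1 : ¬ (x = y ∨ G.Adj x y) := fun e => h2 ⟨h1.1, e⟩
  have a2 : ¬ (x' = z ∨ G.Adj x' z) := fun e => h3 ⟨hz.1, e⟩
  have b1 : G.Adj x x' := hA x hx x' hx' fun e => a1 (e ▸ h1.2)
  have b2 : G.Adj z y := hB z hz.1 y h1.1 fun e => a1 (e ▸ hz.2)
  have b3 : G.Adj x z := hz.2.resolve_left fun e => a2 (Or.inr (e ▸ b1.symm))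
  have b4 : G.Adj x' y := h1.2.resolve_left fun e => a1 (Or.inr (e ▸ b1))
  rcases h x z y x' (fun e => a1 (Or.inl e)) (fun e => a2 (Or.inl e.symm)) b3 b2 b4.symm b1.symm
    with e | e
  · exact a1 (Or.inr e)
  · exact a2 (Or.inr e.symm)

theorem rel_iff {G : Gr α} (h : NoC4 G) {A B : Finset α} (hA : Clq G A) (hB : Clq G B) {x y : α}
    (hx : x ∈ A) (hy : y ∈ B) : (x = y ∨ G.Adj x y) ↔
      (A.filter fun x' => (cn G x B).card ≤ (cn G x' B).card).card ≤ (cn G y A).card := by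
  have sy : ∀ {a b : α}, (a = b ∨ G.Adj a b) → (b = a ∨ G.Adj b a) := fun e =>
    e.imp Eq.symm SimpleGraph.Adj.symm
  constructor
  · intro e
    refine card_le_card fun x' hx' => ?_
    obtain ⟨h1, h2⟩ := mem_filter.mp hx'
    refine mem_filter.mpr ⟨h1, sy ?_⟩
    by_contra h3
    have h4 : y ∈ cn G x B := mem_filter.mpr ⟨hy, e⟩
    have h5 : y ∉ cn G x' B := fun h5 => h3 (mem_filter.mp h5).2
    exact h5 ((eq_of_subset_of_card_le (nested h hA hB h1 hx h4 h5) h2).symm ▸ h4)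
  · intro e
    by_contra h3
    refine absurd e (not_le.mpr (card_lt_card ⟨fun x' hx' => ?_, fun hs => ?_⟩))
    · obtain ⟨h1, h2⟩ := mem_filter.mp hx'
      exact mem_filter.mpr ⟨h1, card_le_card (nested h hA hB hx h1 (mem_filter.mpr ⟨hy, sy h2⟩)
        fun h5 => h3 (mem_filter.mp h5).2)⟩
    · exact h3 (sy (mem_filter.mp (hs (mem_filter.mpr ⟨hx, le_rfl⟩))).2)

end CHAIN98

open CHAIN98 in
theorem r_CHAIN : R_CHAIN := by
  intro α _ k Q As h
  choose! G h1 h2 h3 using h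
  have hb : ∀ Γ x j, (cn (G Γ) x (Q j)).card < Fintype.card α + 1 := fun Γ x j =>
    Nat.lt_succ_of_le (card_le_univ _)
  refine (card_le_card_of_injOn (t := (univ : Finset (α → Fin k → Fin (Fintype.card α + 1))))
    (fun Γ x j => ⟨_, hb Γ x j⟩) (fun _ _ => mem_coe.mpr (mem_univ _)) ?_).trans (le_of_eq ?_)
  · intro Γ hΓ Γ' hΓ' e
    have e1 : ∀ x j, (cn (G Γ) x (Q j)).card = (cn (G Γ') x (Q j)).card := fun x j =>
      congrArg Fin.val (congrFun (congrFun e x) j)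
    rw [← h3 Γ hΓ, ← h3 Γ' hΓ']
    ext x y
    refine and_congr_left fun hxy => ?_
    obtain ⟨i, -, hi⟩ := mem_biUnion.mp hxy.1
    obtain ⟨j, -, hj⟩ := mem_biUnion.mp hxy.2
    have a1 := rel_iff (h1 Γ hΓ) (h2 Γ hΓ i) (h2 Γ hΓ j) hi hj
    have a2 := rel_iff (h1 Γ' hΓ') (h2 Γ' hΓ' i) (h2 Γ' hΓ' j) hi hj
    simp only [e1] at a1
    rw [SimpleGraph.compl_adj, SimpleGraph.compl_adj, ← not_or, ← not_or, a1, a2]
  · simp only [card_univ, Fintype.card_fun, Fintype.card_fin]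
    rw [← pow_mul, mul_comm]

end Pool.Agent.Lib.SPL
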