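import Pool.Agent.Lib.SPL.Kit2

open scoped Classical
open Finset

noncomputable section

namespace Pool.Agent.Lib.SPL

namespace CLQ51

variable {α : Type}

/-- two pairs of a matching of non-edges are joined by a non-edge -/
theorem join {G : Gr α} (hG : NoC4 G) {P : Finset (α × α)} (hP : Mat Gᶜ P) {p q : α × α}
    (hp : p ∈ P) (hq : q ∈ P) :
    ∃ e : α × α, (p.1 = e.1 ∨ p.2 = e.1) ∧ (q.1 = e.2 ∨ q.2 = e.2) ∧ Gᶜ.Adj e.1 e.2 := by
  by_cases c : p = q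
  · subst c
    exact ⟨p, Or.inl rfl, Or.inr rfl, hP.1 p hp⟩
  · obtain ⟨n1, n2, n3, n4⟩ := hP.2 p hp q hq c
    have a1 := (SimpleGraph.compl_adj _ _ _).1 (hP.1 p hp)
    have a2 := (SimpleGraph.compl_adj _ _ _).1 (hP.1 q hq)
    by_contra n
    have k : ∀ x y : α, (p.1 = x ∨ p.2 = x) → (q.1 = y ∨ q.2 = y) → x ≠ y → G.Adj x y := by
      intro x y hx hy hxy
      by_contra m
      exact n ⟨(x, y), hx, hy, (SimpleGraph.compl_adj _ _ _).2 ⟨hxy, m⟩⟩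
    rcases hG p.1 q.1 p.2 q.2 a1.1 a2.1 (k _ _ (Or.inl rfl) (Or.inl rfl) n1)
      (k _ _ (Or.inr rfl) (Or.inl rfl) n3).symm (k _ _ (Or.inr rfl) (Or.inr rfl) n4)
      (k _ _ (Or.inl rfl) (Or.inr rfl) n2).symm with h | h
    exacts [a1.2 h, a2.2 h]

theorem uniq {H : Gr α} {P : Finset (α × α)} (hP : Mat H P) {p q : α × α} (hp : p ∈ P)
    (hq : q ∈ P) {x : α} (h1 : p.1 = x ∨ p.2 = x) (h2 : q.1 = x ∨ q.2 = x) : p = q := by
  by_contra c
  obtain ⟨n1, n2, n3, n4⟩ := hP.2 p hp q hq c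
  rcases h1 with rfl | rfl <;> rcases h2 with h | h
  exacts [n1 h.symm, n2 h.symm, n3 h.symm, n4 h.symm]

theorem sq_le {G : Gr α} (hG : NoC4 G) {P : Finset (α × α)} {U : Finset α} (hP : Mat Gᶜ P)
    (hU : vs P ⊆ U) : P.card ^ 2 ≤ ar Gᶜ U := by
  have h : ∀ w : (α × α) × (α × α), ∃ e : α × α, w ∈ P ×ˢ P → (w.1.1 = e.1 ∨ w.1.2 = e.1) ∧
      (w.2.1 = e.2 ∨ w.2.2 = e.2) ∧ Gᶜ.Adj e.1 e.2 := fun w => by
    by_cases hw : w ∈ P ×ˢ P
    · obtain ⟨e, he⟩ := join hG hP (mem_product.1 hw).1 (mem_product.1 hw).2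
      exact ⟨e, fun _ => he⟩
    · exact ⟨w.1, fun c => absurd c hw⟩
  choose f hf using h
  have h1 := fun w hw => (hf w hw).1
  have h2 := fun w hw => (hf w hw).2.1
  have h3 := fun w hw => (hf w hw).2.2
  rw [ar_eq_card, sq, ← card_product]
  refine card_le_card_of_injOn f (fun w hw => ?_) (fun w hw v hv e => ?_)
  · have hw' := mem_product.1 (mem_coe.1 hw)
    simp only [mem_coe, mem_filter]
    exact ⟨mem_product.2 ⟨hU (mem_vs.2 ⟨_, hw'.1, h1 w hw⟩),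
      hU (mem_vs.2 ⟨_, hw'.2, h2 w hw⟩)⟩, h3 w hw⟩
  · have hw' := mem_product.1 (mem_coe.1 hw)
    have hv' := mem_product.1 (mem_coe.1 hv)
    exact Prod.ext (uniq hP hw'.1 hv'.1 (h1 w hw) (e ▸ h1 v hv))
      (uniq hP hw'.2 hv'.2 (h2 w hw) (e ▸ h2 v hv))

end CLQ51

theorem r_CLQ : R_CLQ := by
  intro α G U y hG hy har
  obtain ⟨P, hP, hU, hm⟩ := exists_mat Gᶜ U
  refine ⟨U \ vs P, sdiff_subset, fun a ha b hb hab => ?_, ?_⟩
  · by_contra n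
    rcases hm a (mem_sdiff.1 ha).1 b (mem_sdiff.1 hb).1
      ((SimpleGraph.compl_adj _ _ _).2 ⟨hab, n⟩) with h | h
    exacts [(mem_sdiff.1 ha).2 h, (mem_sdiff.1 hb).2 h]
  · have h1 : ((P.card : ℝ)) ^ 2 ≤ y ^ 2 :=
      le_trans (by exact_mod_cast CLQ51.sq_le hG hP hU) har
    have h2 : (P.card : ℝ) ≤ y := (pow_le_pow_iff_left₀ (by positivity) hy (by norm_num)).1 h1
    have h3 : (U \ vs P).card + (vs P).card = U.card := card_sdiff_add_card_eq_card hU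
    rw [hP.card_vs] at h3
    have h4 : ((U \ vs P).card : ℝ) + 2 * P.card = U.card := by exact_mod_cast h3
    linarith

end Pool.Agent.Lib.SPL
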