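import Pool.Agent.Lib.SPL.Kit2

/-! Row CLS of the project spl: the class of a graph with few big vertices. -/

open scoped Classical
open Finset

noncomputable section

namespace Pool.Agent.Lib.SPL

theorem r_CLS : R_CLS := by
  intro α _ z l G K h2 hK hlo hhi hfew hbig
  obtain ⟨Y, hY⟩ : ∃ Y : Finset α, ∀ v, v ∈ Y ↔ v ∉ K ∧ 4000 * (K \ nb G v K).card ≤ K.card :=
    ⟨Kᶜ.filter (fun v => 4000 * (K \ nb G v K).card ≤ K.card), fun v => by
      rw [mem_filter, mem_compl]⟩
  have hsub : Y ⊆ big G K := fun v hv => by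
    obtain ⟨h1, h3⟩ := (hY v).1 hv
    have h4 := card_sdiff_add_card_eq_card (nb_subset G v K)
    refine mem_filter.2 ⟨mem_compl.2 h1, ?_⟩
    unfold dg
    omega
  have hYc : (Y.card : ℝ) ≤ ell (Fintype.card α) l / 50000 :=
    le_trans (by exact_mod_cast card_le_card hsub) hbig
  have hYK : 45000 * Y.card ≤ K.card := by
    have : (45000 : ℝ) * Y.card ≤ K.card := by linarith
    exact_mod_cast this
  have hA : (K ∪ Y).card ≤ K.card + Y.card := card_union_le _ _
  have hKA : K.card ≤ (K ∪ Y).card := card_le_card subset_union_left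
  have hA' : ((K ∪ Y).card : ℝ) ≤ K.card + Y.card := by exact_mod_cast hA
  have hKA' : (K.card : ℝ) ≤ (K ∪ Y).card := by exact_mod_cast hKA
  refine ⟨K ∪ Y, by linarith, by linarith, fun x hx => ?_, ⟨Y, fun x y e => ?_, by omega⟩,
    fun u hu => ?_, le_trans ?_ hfew⟩
  · rcases mem_union.1 hx with h | h
    · have : dg Gᶜ x (K ∪ Y) ≤ Y.card := card_le_card fun y hy => by
        obtain ⟨h1, h3⟩ := mem_nb.1 hy
        exact (mem_union.1 h1).resolve_left fun h4 => h3.2 (hK x h y h4 h3.1)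
      omega
    · have h1 : dg Gᶜ x (K ∪ Y) ≤ ((K \ nb G x K) ∪ Y).card := card_le_card fun y hy => by
        obtain ⟨h1, h3⟩ := mem_nb.1 hy
        exact mem_union.2 ((mem_union.1 h1).imp_left fun h4 =>
          mem_sdiff.2 ⟨h4, fun h5 => h3.2 (mem_nb.1 h5).2⟩)
      have h3 := card_union_le (K \ nb G x K) Y
      have h4 := ((hY x).1 h).2
      omega
  · obtain ⟨e1, e2, e3⟩ := e
    by_contra c
    rw [not_or] at c
    exact e1.2 (hK x ((mem_union.1 e2).resolve_right c.1) y
      ((mem_union.1 e3).resolve_right c.2) e1.1)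
  · rw [mem_union, not_or, hY] at hu
    have h1 : ¬ 4000 * (K \ nb G u K).card ≤ K.card := fun h => hu.2 ⟨hu.1, h⟩
    have h3 : (K \ nb G u K).card ≤ ((K ∪ Y) \ nb G u (K ∪ Y)).card := card_le_card fun y hy => by
      obtain ⟨h4, h5⟩ := mem_sdiff.1 hy
      exact mem_sdiff.2 ⟨mem_union_left _ h4, fun h6 => h5 (mem_nb.2 ⟨h4, (mem_nb.1 h6).2⟩)⟩
    omega
  · exact_mod_cast ed_mono (rs_mono le_rfl (compl_subset_compl.2 subset_union_left))

end Pool.Agent.Lib.SPL
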