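import Pool.Agent.Lib.SPL.Kit2
import Pool.Agent.Lib.SPL.Blue2

open scoped Classical
open Finset

noncomputable section

namespace Pool.Agent.Lib.SPL

theorem r_CLS2 : R_CLS2 := by
  intro hXS α _ R θ ζ l G K hR h1 h2 hθ hθ1 hζ hK hk he hz
  obtain ⟨-, -, -, -, -, -, hx1, hx2, -⟩ := hXS R l hR h1 h2
  set Z := big2 θ G K with hZ
  set n : ℝ := ((Fintype.card α : ℕ) : ℝ) with hn
  have hn0 : 0 ≤ n := Nat.cast_nonneg _
  set t : ℝ := 1 / (16 * R ^ 2) with ht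
  have ht0 : 0 < t := by positivity
  have e4 : 1 / (4 * R ^ 2) = 4 * t := by rw [ht]; field_simp; norm_num
  have e8 : 1 / (8 * R ^ 2) = 2 * t := by rw [ht]; field_simp; norm_num
  have e16 : θ / (16 * R ^ 2) = θ * t := by rw [ht]; field_simp
  rw [e4] at hx1 hx2
  rw [e16] at hz
  rw [e8]
  obtain ⟨hk1, hk2⟩ := abs_le.1 hk
  have hu : 0 ≤ t * n := by positivity
  have a1 : ζ * n ≤ t * n := mul_le_mul_of_nonneg_right hζ hn0
  have a2 : n * (4 * t) ≤ n * xs l := mul_le_mul_of_nonneg_left hx1 hn0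
  have a3 : n * xs l ≤ n * (1 - 4 * t) := mul_le_mul_of_nonneg_left hx2 hn0
  have k1 : 3 * (t * n) ≤ K.card := by nlinarith
  have k2 : (K.card : ℝ) ≤ n - 3 * (t * n) := by nlinarith
  have z1 : (Z.card : ℝ) ≤ θ * (t * n) := by nlinarith
  have z2 : (Z.card : ℝ) ≤ t * n := by nlinarith
  have z0 : (0 : ℝ) ≤ Z.card := Nat.cast_nonneg _
  have memZ : ∀ v, v ∈ Z ↔ v ∉ K ∧ ((K \ nb G v K).card : ℝ) ≤ θ * K.card := fun v => by
    simp [hZ, big2]
  have hd : Disjoint K Z := disjoint_left.2 fun v hv hv' => ((memZ v).1 hv').1 hv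
  have hA : ((K ∪ Z).card : ℝ) = K.card + Z.card := by
    rw [card_union_of_disjoint hd]; push_cast; rfl
  have z3 : (Z.card : ℝ) ≤ θ * K.card := by nlinarith
  have tz : 0 ≤ θ * Z.card := by positivity
  refine ⟨K ∪ Z, ?_, ?_, ?_, ⟨Z, ?_, ?_⟩, ?_, ?_⟩
  · rw [hA, ← hn]; nlinarith
  · have : ((K ∪ Z)ᶜ.card : ℝ) + (K ∪ Z).card = n := by
      rw [hn, ← card_compl_add_card (K ∪ Z)]; push_cast; rfl
    rw [← hn]; nlinarith
  · intro x hx
    rw [hA]
    rcases mem_union.1 hx with hx | hx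
    · have : nb Gᶜ x (K ∪ Z) ⊆ Z := by
        intro y hy
        obtain ⟨hy1, hy2, hy3⟩ := mem_nb.1 hy
        exact (mem_union.1 hy1).resolve_left fun h => hy3 (hK x hx y h hy2)
      have : (dg Gᶜ x (K ∪ Z) : ℝ) ≤ Z.card := by exact_mod_cast card_le_card this
      nlinarith
    · have h3 : nb Gᶜ x (K ∪ Z) ⊆ (K \ nb G x K) ∪ Z := by
        intro y hy
        obtain ⟨hy1, hy2, hy3⟩ := mem_nb.1 hy
        rcases mem_union.1 hy1 with h | h
        · exact mem_union_left _ (mem_sdiff.2 ⟨h, fun h' => hy3 (mem_nb.1 h').2⟩)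
        · exact mem_union_right _ h
      have : (dg Gᶜ x (K ∪ Z) : ℝ) ≤ (K \ nb G x K).card + Z.card := by
        exact_mod_cast (card_le_card h3).trans (card_union_le _ _)
      have := ((memZ x).1 hx).2
      nlinarith
  · rintro x y ⟨⟨h3, h4⟩, hx, hy⟩
    by_contra h
    rw [not_or] at h
    exact h4 (hK x ((mem_union.1 hx).resolve_right h.1) y ((mem_union.1 hy).resolve_right h.2) h3)
  · rw [← hn]; nlinarith
  · intro u hu'
    rw [mem_union, not_or, memZ] at hu'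
    have h3 : θ * K.card < ((K \ nb G u K).card : ℝ) := not_le.1 fun h => hu'.2 ⟨hu'.1, h⟩
    have h4 : K \ nb G u K ⊆ (K ∪ Z) \ nb G u (K ∪ Z) := by
      intro y hy
      obtain ⟨hy1, hy2⟩ := mem_sdiff.1 hy
      exact mem_sdiff.2 ⟨mem_union_left _ hy1, fun h => hy2 (mem_nb.2 ⟨hy1, (mem_nb.1 h).2⟩)⟩
    have h5 : ((K \ nb G u K).card : ℝ) ≤ ((K ∪ Z) \ nb G u (K ∪ Z)).card := by
      exact_mod_cast card_le_card h4
    have h6 : θ * Z.card ≤ θ * K.card := mul_le_mul_of_nonneg_left (by linarith) hθ.le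
    rw [hA]
    nlinarith
  · have : ed (rs G (K ∪ Z)ᶜ) ≤ ed (rs G Kᶜ) :=
      ed_mono (rs_mono le_rfl (compl_subset_compl.2 subset_union_left))
    have : (ed (rs G (K ∪ Z)ᶜ) : ℝ) ≤ ed (rs G Kᶜ) := by exact_mod_cast this
    rw [← hn]
    linarith

end Pool.Agent.Lib.SPL
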