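import Pool.Agent.Lib.SPL.Kit2

open scoped Classical
open Finset

noncomputable section

namespace Pool.Agent.Lib.SPL

namespace COL90

variable {α : Type}

def ind (H : Gr α) (A : Finset α) (x y : α) : ℝ := if (rs H A).Adj x y then 1 else 0

theorem sum_ind [Fintype α] (H : Gr α) (A : Finset α) :
    ∑ p ∈ (univ : Finset α).offDiag, ind H A p.1 p.2 = ar H A := by
  rw [ar_eq_card]
  simp only [ind, sum_boole, Nat.cast_inj]
  congr 1
  ext p
  simp only [mem_filter, mem_offDiag, mem_univ, true_and, rs_adj, mem_product]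
  exact ⟨fun h => ⟨h.2.2, h.2.1⟩, fun h => ⟨h.2.ne, h.2, h.1⟩⟩

theorem sum_ind_mo [Fintype α] (H : Gr α) (A : Finset α) {k : ℕ} (φ : α → Fin k) :
    ∑ p ∈ (univ : Finset α).offDiag.filter (fun p => φ p.1 = φ p.2), ind H A p.1 p.2 =
      ar (mo H φ) A := by
  rw [← sum_ind, sum_filter]
  refine sum_congr rfl (fun p _ => ?_)
  by_cases c : φ p.1 = φ p.2 <;> simp [ind, c]

theorem ar_top (A : Finset α) : (ar (⊤ : Gr α) A : ℝ) + A.card = (A.card : ℝ) ^ 2 := by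
  have h := ar_add_compl (⊤ : Gr α) A
  have h0 : ar (⊤ : Gr α)ᶜ A = 0 := by simp [ar, dg, nb]
  rw [h0, add_zero] at h
  exact_mod_cast h

theorem dev {k : ℕ} (hk : 0 < k) (φ : α → Fin k) (B : Finset α) :
    ((∑ x ∈ B \ trim φ B.card B, (B.filter (fun y => φ y = φ x)).card : ℕ) : ℝ) ≤
      4 * (ar (mo ⊤ φ) B + B.card - (B.card : ℝ) ^ 2 / k) := by
  have hk' : (0 : ℝ) < k := by exact_mod_cast hk
  let z : Fin k → ℝ := fun c => (B.filter (fun y => φ y = c)).card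
  have hz : ∀ h : Fin k → ℝ, ∑ x ∈ B, h (φ x) = ∑ c, z c * h c := by
    intro h
    rw [← sum_fiberwise B φ]
    refine sum_congr rfl (fun c _ => ?_)
    rw [sum_congr rfl (fun x hx => by rw [(mem_filter.1 hx).2])]
    simp [z]
  have h1 : (ar (mo ⊤ φ) B : ℝ) + B.card = ∑ c, z c * z c := by
    rw [← hz z, ar, card_eq_sum_ones B]
    push_cast
    rw [← sum_add_distrib]
    refine sum_congr rfl (fun x hx => ?_)
    have : nb (mo ⊤ φ) x B = (B.filter (fun y => φ y = φ x)).erase x := by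
      ext y
      simp only [mem_nb, mo_adj, SimpleGraph.top_adj, mem_erase, mem_filter]
      exact ⟨fun h => ⟨h.2.1.symm, h.1, h.2.2.symm⟩, fun h => ⟨h.2.1, h.1.symm, h.2.2.symm⟩⟩
    rw [dg, this]
    simp only [z]
    exact_mod_cast card_erase_add_one (s := B.filter (fun y => φ y = φ x)) (mem_filter.2 ⟨hx, rfl⟩)
  have h2 : ∑ c, z c = B.card := by simpa using (hz (fun _ => 1)).symm
  have h3 : ((∑ x ∈ B \ trim φ B.card B, (B.filter (fun y => φ y = φ x)).card : ℕ) : ℝ) =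
      ∑ c, z c * (if 2 * (B.card : ℝ) < k * z c then z c else 0) := by
    rw [← hz (fun c => if 2 * (B.card : ℝ) < k * z c then z c else 0), ← sum_filter]
    push_cast
    refine sum_congr ?_ (fun _ _ => rfl)
    ext x
    simp only [mem_sdiff, trim, mem_filter, not_and, not_le, z]
    refine and_congr_right (fun hx => ?_)
    simp only [hx, true_imp_iff]
    exact_mod_cast Iff.rfl
  have h4 : ∀ c, z c * (if 2 * (B.card : ℝ) < k * z c then z c else 0) ≤
      4 * (z c * z c) - 8 * (B.card / k) * z c + 4 * (B.card / k) ^ 2 := by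
    intro c
    split_ifs with h
    · have a1 : 2 * ((B.card : ℝ) / k) < z c := by
        rw [← mul_div_assoc, div_lt_iff₀ hk']
        linarith
      have a2 : 0 ≤ (B.card : ℝ) / k := by positivity
      nlinarith
    · nlinarith [sq_nonneg (z c - B.card / k)]
  rw [h3, h1]
  refine (sum_le_sum (fun c _ => h4 c)).trans (le_of_eq ?_)
  rw [sum_add_distrib, sum_sub_distrib, ← mul_sum, ← mul_sum, h2]
  simp only [sum_const, card_univ, Fintype.card_fin, nsmul_eq_mul]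
  field_simp
  ring

theorem ar_trim {k : ℕ} (φ : α → Fin k) (H : Gr α) (d : ℕ) (B : Finset α) :
    ar (mo H φ) B ≤ ar (mo H φ) (trim φ d B) +
      ∑ x ∈ B \ trim φ d B, (B.filter (fun y => φ y = φ x)).card := by
  have hs : trim φ d B ⊆ B := filter_subset _ _
  rw [ar, ← sum_sdiff hs, add_comm]
  refine add_le_add (sum_le_sum (fun x hx => card_le_card (fun y hy => ?_)))
    (sum_le_sum (fun x _ => card_le_card (fun y hy => ?_)))
  · obtain ⟨y1, y2⟩ := mem_nb.1 hy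
    refine mem_nb.2 ⟨mem_filter.2 ⟨y1, ?_⟩, y2⟩
    rw [← y2.2]
    exact (mem_filter.1 hx).2
  · exact mem_filter.2 ⟨(mem_nb.1 hy).1, (mem_nb.1 hy).2.2.symm⟩

theorem ar_compl_ge [Fintype α] {E G : Gr α} {g : ℝ} (hg : 0 ≤ g) (B : Finset α)
    (h : ∀ x y, G.Adj x y → ¬ E.Adj x y → (dg G x univ : ℝ) ≤ g ∨ (dg G y univ : ℝ) ≤ g) :
    (ar Eᶜ B : ℝ) ≤ ar Gᶜ B + 2 * g * B.card := by
  let H := (univ : Finset α).filter (fun x => g < dg G x univ)
  have h1 : ar Eᶜ B ≤ ar Gᶜ B + ar (G \ E) B := by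
    rw [ar_eq_sum, ar_eq_sum, ar_eq_sum, ← sum_add_distrib]
    refine sum_le_sum (fun x _ => ?_)
    rw [← sum_add_distrib]
    refine sum_le_sum (fun y _ => ?_)
    by_cases a : x = y <;> by_cases b : G.Adj x y <;> by_cases c : E.Adj x y <;> simp [a, b, c]
  have h2 := ar_le_inter (G \ E) B H
  have h3 : ar (G \ E) (B ∩ H) = 0 := by
    rw [ar_eq_sum]
    refine sum_eq_zero (fun x hx => sum_eq_zero (fun y hy => if_neg (fun e => ?_)))
    have a1 := (mem_filter.1 (mem_inter.1 hx).2).2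
    have a2 := (mem_filter.1 (mem_inter.1 hy).2).2
    rcases h x y e.1 e.2 with c | c <;> linarith
  have h4 : ∑ x ∈ B \ H, (dg (G \ E) x B : ℝ) ≤ B.card * g := by
    have := sum_le_card_nsmul (B \ H) (fun x => (dg (G \ E) x B : ℝ)) g (fun x hx => by
      have a1 : ¬ g < dg G x univ := fun c => (mem_sdiff.1 hx).2 (mem_filter.2 ⟨mem_univ _, c⟩)
      refine le_trans ?_ (not_lt.1 a1)
      exact_mod_cast dg_mono sdiff_le (subset_univ _) x)
    rw [nsmul_eq_mul] at this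
    refine this.trans (mul_le_mul_of_nonneg_right ?_ hg)
    exact_mod_cast card_le_card sdiff_subset
  have h5 : (ar Eᶜ B : ℝ) ≤ ar Gᶜ B + 2 * ∑ x ∈ B \ H, (dg (G \ E) x B : ℝ) := by
    exact_mod_cast (by omega : ar Eᶜ B ≤ ar Gᶜ B + 2 * ∑ x ∈ B \ H, dg (G \ E) x B)
  linarith

end COL90

open COL90 in
theorem r_COL : R_COL := by
  intro h0 α _ ε t g E F G V C B d k hε ht hg hk hR hEG hGt hdeg h8 h32
  have hi : (0 : ℝ) < V.card := by exact_mod_cast hR.vpos.card_pos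
  have hd : (0 : ℝ) < d := by exact_mod_cast hR.dpos
  have hk' : (0 : ℝ) < k := by exact_mod_cast hk
  have hc : (C.card : ℝ) ≤ V.card := by exact_mod_cast card_le_card hR.sub
  have hm := hR.mass
  set i : ℝ := (V.card : ℝ) with hi'
  set w := wgt E C (ε * (d : ℝ) ^ 2 / i) with hw
  set σ : ℝ := i / (ε * (d : ℝ) ^ 2) with hσ
  have hσ0 : 0 < σ := by positivity
  have hw0 : ∀ u, 0 ≤ w u := fun u => by
    rw [hw, wgt]
    positivity
  have hw1 : ∀ u, w u ≤ σ := fun u => by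
    rw [hw, wgt, hσ, ← one_div_div (ε * (d : ℝ) ^ 2) i]
    exact one_div_le_one_div_of_le (by positivity) (by
      have : (0 : ℝ) ≤ dg E u C := by positivity
      linarith)
  have hsum : ∀ y : ℝ, 0 ≤ y → ∑ u ∈ C, w u * y ≤ i * σ * y := fun y hy => by
    have := sum_le_card_nsmul C (fun u => w u * y) (σ * y)
      (fun u _ => mul_le_mul_of_nonneg_right (hw1 u) hy)
    rw [nsmul_eq_mul] at this
    exact this.trans (by rw [mul_assoc]; gcongr)
  have hBV : ∀ u ∈ C, B u ⊆ V := fun u hu => (hR.bsub u hu).trans (nb_subset _ _ _)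
  set a : ℝ := ε * i ^ 2 / (16 * t) with ha
  obtain ⟨φ, hφ⟩ := h0 α k (fun x y => ∑ u ∈ C, w u * ind Gᶜ (B u) x y - (1 + ε / 4) * ind ⊤ V x y
    - a * ind G univ x y - 4 * σ * ∑ u ∈ C, ind ⊤ (B u) x y) hk
  simp only [sum_sub_distrib, ← mul_sum] at hφ
  rw [sum_comm (t := C), sum_comm (t := C), sum_comm (t := C), sum_comm (t := C)] at hφ
  simp only [← mul_sum, sum_ind, sum_ind_mo, ar_univ] at hφ
  push_cast at hφ
  have hR' : ∀ u ∈ C, ar (nR G φ V) (trim φ d (B u)) = ar (mo Gᶜ φ) (trim φ d (B u)) := by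
    intro u hu
    have hs : trim φ d (B u) ⊆ V := (filter_subset _ _).trans (hBV u hu)
    refine le_antisymm (ar_mono (rs_le _ _) subset_rfl) ?_
    rw [← ar_rs]
    exact ar_mono (rs_mono le_rfl hs) subset_rfl
  have hdg : ∀ u ∈ C, ∀ x ∈ trim φ d (B u), k * dg (nR G φ V) x (trim φ d (B u)) ≤ 2 * d := by
    intro u _ x hx
    refine le_trans (Nat.mul_le_mul_left _ (card_le_card (fun y hy => ?_))) (mem_filter.1 hx).2
    exact mem_filter.2 ⟨(mem_filter.1 (mem_nb.1 hy).1).1, (mem_nb.1 hy).2.1.2.symm⟩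
  have hcd : ∀ u ∈ C, (trim φ d (B u)).card ≤ d := fun u hu =>
    (card_filter_le _ _).trans (hR.bcard u hu).le
  -- loss from the unknown edges
  have e1 : ∑ u ∈ C, w u * (ar Eᶜ (B u) : ℝ) ≤ ∑ u ∈ C, w u * (ar Gᶜ (B u) : ℝ) + ε * i ^ 2 / 4 := by
    have a1 : ∑ u ∈ C, w u * (ar Eᶜ (B u) : ℝ) ≤
        ∑ u ∈ C, (w u * (ar Gᶜ (B u) : ℝ) + w u * (2 * g * d)) := sum_le_sum (fun u hu => by
      have := ar_compl_ge hg (B u) hdeg
      rw [hR.bcard u hu] at this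
      nlinarith [hw0 u])
    rw [sum_add_distrib] at a1
    have a2 := hsum (2 * g * d) (by positivity)
    have a3 : i * σ * (2 * (ε ^ 2 * d / 8) * d) = ε * i ^ 2 / 4 := by
      rw [hσ]
      field_simp
      ring
    have a4 : i * σ * (2 * g * d) ≤ i * σ * (2 * (ε ^ 2 * d / 8) * d) := by
      gcongr
      linarith
    linarith
  have e2 : (ar (⊤ : Gr α) V : ℝ) ≤ i ^ 2 := by linarith [ar_top V]
  have e3 : a * (2 * ed G) ≤ ε * i ^ 2 / 8 := by
    have a1 : a * (2 * t) = ε * i ^ 2 / 8 := by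
      rw [ha]
      field_simp
      ring
    have : 0 ≤ a := by positivity
    nlinarith
  have e4 : ∑ u ∈ C, (ar (⊤ : Gr α) (B u) : ℝ) ≤ C.card * (d : ℝ) ^ 2 := by
    simpa using sum_le_card_nsmul C (fun u => (ar (⊤ : Gr α) (B u) : ℝ)) ((d : ℝ) ^ 2)
      (fun u hu => by
        have := ar_top (B u)
        rw [hR.bcard u hu] at this
        linarith)
  have e5 : ∑ u ∈ C, w u * (ar (mo Gᶜ φ) (B u) : ℝ) ≤
      ∑ u ∈ C, w u * (ar (nR G φ V) (trim φ d (B u)) : ℝ) +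
        4 * σ * (∑ u ∈ C, (ar (mo ⊤ φ) (B u) : ℝ) + C.card * (d - (d : ℝ) ^ 2 / k)) := by
    have a1 : ∑ u ∈ C, w u * (ar (mo Gᶜ φ) (B u) : ℝ) ≤
        ∑ u ∈ C, (w u * (ar (nR G φ V) (trim φ d (B u)) : ℝ) +
          4 * σ * ((ar (mo ⊤ φ) (B u) : ℝ) + (d - (d : ℝ) ^ 2 / k))) := sum_le_sum (fun u hu => by
      have b1 := dev hk φ (B u)
      have b2 := ar_trim φ Gᶜ d (B u)
      rw [hR.bcard u hu] at b1
      rw [hR' u hu]
      generalize ∑ x ∈ B u \ trim φ d (B u), ((B u).filter (fun y => φ y = φ x)).card = s at b1 b2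
      have b3 : (ar (mo Gᶜ φ) (B u) : ℝ) ≤ ar (mo Gᶜ φ) (trim φ d (B u)) + s := by exact_mod_cast b2
      have b4 := mul_le_mul_of_nonneg_left b3 (hw0 u)
      have b5 : w u * s ≤ σ * s := mul_le_mul_of_nonneg_right (hw1 u) (by positivity)
      have b6 := mul_le_mul_of_nonneg_left b1 hσ0.le
      linarith)
    simpa only [sum_add_distrib, ← mul_sum, sum_const, nsmul_eq_mul] using a1
  have e6 : 4 * σ * (C.card * d) ≤ ε * i ^ 2 / (8 * k) := by
    have a1 : 4 * σ * (i * d) * (ε ^ 2 * d) = 4 * ε * i ^ 2 := by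
      rw [hσ]
      field_simp
    have a2 : 4 * σ * (C.card * d) * (32 * k) ≤ 4 * σ * (i * d) * (ε ^ 2 * d) := by gcongr
    rw [le_div_iff₀ (by positivity)]
    linarith
  have e7 : (ar (nR G φ V) V : ℝ) ≤ ar (mo ⊤ φ) V := by
    exact_mod_cast ar_mono (G := nR G φ V) (G' := mo ⊤ φ) (fun x y e => ⟨e.1.1.1, e.1.2⟩) subset_rfl
  have e8 : ∑ u ∈ C, w u * (ar (nR G φ V) (trim φ d (B u)) : ℝ) ≤ 2 * i ^ 2 / (ε * k) := by
    have a1 : ∑ u ∈ C, w u * (ar (nR G φ V) (trim φ d (B u)) : ℝ) ≤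
        ∑ u ∈ C, w u * (d * (2 * d) / k) := sum_le_sum (fun u hu => by
      refine mul_le_mul_of_nonneg_left ?_ (hw0 u)
      rw [le_div_iff₀ hk']
      have b1 : ar (nR G φ V) (trim φ d (B u)) * k ≤ (trim φ d (B u)).card * (2 * d) := by
        rw [ar, sum_mul]
        simpa using sum_le_card_nsmul _ _ (2 * d) (fun x hx => (mul_comm _ _).trans_le (hdg u hu x hx))
      exact_mod_cast b1.trans (Nat.mul_le_mul_right _ (hcd u hu)))
    refine a1.trans ((hsum _ (by positivity)).trans (le_of_eq ?_))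
    rw [hσ]
    field_simp
  have key : (1 + ε / 4) * (ar (mo ⊤ φ) V : ℝ) + a * (2 * ed (mo G φ)) + ε * i ^ 2 / (4 * k) ≤
      ∑ u ∈ C, w u * (ar (nR G φ V) (trim φ d (B u)) : ℝ) := by
    have a1 : (1 + ε / 4) * (ar (⊤ : Gr α) V : ℝ) ≤ (1 + ε / 4) * i ^ 2 := by gcongr
    have a2 := mul_le_mul_of_nonneg_left e4 (by positivity : 0 ≤ 4 * σ)
    have a3 : (3 * ε * i ^ 2 / 8 - 4 * σ * (C.card * (d : ℝ) ^ 2)) / k ≤
        ∑ u ∈ C, w u * (ar (mo Gᶜ φ) (B u) : ℝ) - (1 + ε / 4) * (ar (mo ⊤ φ) V : ℝ) -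
          a * (2 * ed (mo G φ)) - 4 * σ * ∑ u ∈ C, (ar (mo ⊤ φ) (B u) : ℝ) := by
      rw [div_le_iff₀ hk']
      linarith
    have a4 : (3 * ε * i ^ 2 / 8 - 4 * σ * (C.card * (d : ℝ) ^ 2)) / k =
        ε * i ^ 2 / (4 * k) + ε * i ^ 2 / (8 * k) - 4 * σ * (C.card * ((d : ℝ) ^ 2 / k)) := by
      field_simp
      ring
    rw [a4] at a3
    linarith
  have ha0 : 0 < a := by positivity
  refine ⟨φ, ?_, hR.vpos, hR.dpos, hk, hR.sub, fun u hu => (filter_subset _ _).trans (hBV u hu),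
    hcd, hdg, ?_⟩
  · have a1 : a * (2 * (16 * t / (ε ^ 2 * k))) = 2 * i ^ 2 / (ε * k) := by
      rw [ha]
      field_simp
    have a2 : 0 ≤ (1 + ε / 4) * (ar (mo ⊤ φ) V : ℝ) := by positivity
    have a3 : 0 ≤ ε * i ^ 2 / (4 * k) := by positivity
    have a4 : a * (2 * ed (mo G φ)) ≤ a * (2 * (16 * t / (ε ^ 2 * k))) := by linarith
    have := le_of_mul_le_mul_left a4 ha0
    linarith
  · have a1 : (1 + ε / 4) * (ar (nR G φ V) V : ℝ) ≤ (1 + ε / 4) * ar (mo ⊤ φ) V := by gcongr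
    have a2 : 0 ≤ a * (2 * ed (mo G φ)) := by positivity
    linarith

end Pool.Agent.Lib.SPL
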