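import Pool.Agent.Lib.SPL.Kit2

open scoped Classical
open Finset

noncomputable section

namespace Pool.Agent.Lib.SPL

namespace COL066

theorem count {α : Type} [Fintype α] (k : ℕ) {x y : α} (h : x ≠ y) :
    (univ : Finset (α → Fin k)).card =
      k * ((univ : Finset (α → Fin k)).filter (fun φ => φ x = φ y)).card := by
  have e : ((univ : Finset (Fin k)) ×ˢ (univ : Finset (α → Fin k)).filter (fun φ => φ x = φ y)).card
      = (univ : Finset (α → Fin k)).card := by
    refine card_bij' (fun q _ => Function.update q.2 x q.1)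
      (fun ψ _ => (ψ x, Function.update ψ x (ψ y))) (fun _ _ => mem_univ _) ?_ ?_ ?_
    · intro ψ _
      simp [Function.update_of_ne h.symm]
    · rintro ⟨c, φ⟩ hq
      have hφ : φ x = φ y := (mem_filter.1 (mem_product.1 hq).2).2
      simp [Function.update_of_ne h.symm, ← hφ]
    · intro ψ _
      simp
  rw [← e, card_product, card_univ, Fintype.card_fin]

end COL066

theorem r_COL0 : R_COL0 := by
  intro α _ k f hk
  have : Nonempty (Fin k) := ⟨⟨0, hk⟩⟩
  have key : ∑ _φ : α → Fin k, ∑ p ∈ (univ : Finset α).offDiag, f p.1 p.2 =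
      ∑ φ : α → Fin k,
        k * ∑ p ∈ (univ : Finset α).offDiag.filter (fun p => φ p.1 = φ p.2), f p.1 p.2 := by
    simp only [sum_filter, mul_sum]
    rw [sum_comm, sum_comm (s := (univ : Finset (α → Fin k)))]
    refine sum_congr rfl fun p hp => ?_
    rw [← mul_sum, ← sum_filter, sum_const, sum_const, COL066.count k (mem_offDiag.1 hp).2.2]
    simp [mul_assoc]
  obtain ⟨φ, -, hφ⟩ := exists_le_of_sum_le univ_nonempty key.le
  exact ⟨φ, hφ⟩

end Pool.Agent.Lib.SPL
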