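import Pool.Agent.Lib.SPL.Kit2

open scoped Classical
open Finset

namespace Pool.Agent.Lib.SPL

theorem r_CONS : R_CONS := by
  intro α _ G A h
  refine ⟨⟨fun i _ x hx => (mem_crs.1 hx).2.1, fun i hi => crs_of_mem (by simpa using hi)⟩,
    fun g hg i => ?_, fun K u v hK hI huv => ?_, fun j j' c hj hjj hcj hcj' x hx => ?_⟩
  · by_cases hI : Ind (rs Gᶜ A) (crs G A i)
    · exact .inl hI
    right
    simp only [Ind, not_forall, not_not] at hI
    obtain ⟨x, hx, y, hy, hxy, hxA, hyA⟩ := hI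
    obtain ⟨hi, -, hx'⟩ := mem_crs.1 hx
    obtain ⟨-, -, hy'⟩ := mem_crs.1 hy
    have hsub : A \ crs G A i ⊆ nb Gᶜ x A ∪ nb Gᶜ y A := by
      intro a ha
      obtain ⟨ha, ha'⟩ := mem_sdiff.1 ha
      have h1 : ¬ G.Adj i a := fun k => ha' (mem_crs.2 ⟨hi, ha, k⟩)
      by_contra hn
      simp only [mem_union, mem_nb, SimpleGraph.compl_adj, not_or, not_and, not_not] at hn
      have k1 := hn.1 ha (fun e => h1 (e ▸ hx'))
      have k2 := hn.2 ha (fun e => h1 (e ▸ hy'))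
      exact (h i x a y (fun e => hi (e ▸ ha)) hxy.1 hx' k1 k2.symm hy'.symm).elim h1 hxy.2
    have h1 := hg x hxA
    have h2 := hg y hyA
    unfold dg at h1 h2
    exact (card_le_card hsub).trans ((card_union_le _ _).trans (by omega))
  · by_contra hn
    simp only [not_or, not_subset, mem_inter] at hn
    obtain ⟨⟨x, ⟨hx, hxK⟩, hx'⟩, y, ⟨hy, hyK⟩, hy'⟩ := hn
    obtain ⟨hu, hxA, hux⟩ := mem_crs.1 hx
    obtain ⟨hv, hyA, hvy⟩ := mem_crs.1 hy
    have hxy : G.Adj x y := by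
      by_contra k
      exact hI x hxK y hyK ⟨⟨fun e => hy' (e ▸ hx), k⟩, hxA, hyA⟩
    rcases h u x y v (fun e => hu (e ▸ hyA)) (fun e => hv (e ▸ hxA)) hux hxy hvy.symm huv.1.symm
      with k | k
    · exact hy' (mem_crs.2 ⟨hu, hyA, k⟩)
    · exact hx' (mem_crs.2 ⟨hv, hxA, k.symm⟩)
  · obtain ⟨hx, hx'⟩ := mem_inter.1 hx
    obtain ⟨-, hxA, h1⟩ := mem_crs.1 hx
    obtain ⟨-, -, h2⟩ := mem_crs.1 hx'
    have hc : c ∉ A := by simpa using hcj.2.1
    rcases h c j x j' (fun e => hc (e ▸ hxA)) hj hcj.1 h1 h2.symm hcj'.1.symm with k | k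
    · exact mem_crs.2 ⟨hc, hxA, k⟩
    · exact absurd ⟨k, hcj.2.2, hcj'.2.2⟩ hjj

end Pool.Agent.Lib.SPL
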