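import Pool.Agent.Lib.SPL.Kit2

open scoped Classical
open Finset

noncomputable section

namespace Pool.Agent.Lib.SPL

namespace CORE48

variable {α : Type}

/-- sets off `Z` with a centre map into `Z` whose fibres are large -/
def Adm (T : Gr α) (Z : Finset α) (r : ℕ) (J : Finset α) : Prop :=
  (∀ j ∈ J, j ∉ Z) ∧ ∃ c : α → α, (∀ j ∈ J, c j ∈ Z ∧ T.Adj (c j) j) ∧
    ∀ j ∈ J, r ≤ (J.filter (fun j' => c j' = c j)).card

theorem Adm.add [Fintype α] {T : Gr α} {Z J : Finset α} {r : ℕ} (h : Adm T Z r J) {z : α}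
    (hz : z ∈ Z) (hr : r ≤ dg T z (Z ∪ J)ᶜ) : Adm T Z r (J ∪ nb T z (Z ∪ J)ᶜ) := by
  obtain ⟨h1, c, h2, h3⟩ := h
  have hN : ∀ j ∈ nb T z (Z ∪ J)ᶜ, j ∉ Z ∧ j ∉ J ∧ T.Adj z j := fun j hj => by
    have := mem_nb.1 hj
    simp only [mem_compl, mem_union, not_or] at this
    exact ⟨this.1.1, this.1.2, this.2⟩
  refine ⟨fun j hj => (mem_union.1 hj).elim (h1 j) fun e => (hN j e).1,
    fun j => if j ∈ J then c j else z, fun j hj => ?_, fun j hj => ?_⟩
  · by_cases e : j ∈ J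
    · simpa only [if_pos e] using h2 j e
    · simp only [if_neg e]
      exact ⟨hz, (hN j ((mem_union.1 hj).resolve_left e)).2.2⟩
  · by_cases e : j ∈ J
    · refine (h3 j e).trans (card_le_card fun y hy => ?_)
      have h4 := mem_filter.1 hy
      exact mem_filter.2 ⟨mem_union_left _ h4.1, by simp only [if_pos e, if_pos h4.1, h4.2]⟩
    · refine hr.trans (card_le_card fun y hy => ?_)
      exact mem_filter.2 ⟨mem_union_right _ hy, by simp only [if_neg e, if_neg (hN y hy).2.1]⟩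

theorem exists_max [Fintype α] (T : Gr α) (Z : Finset α) {r : ℕ} (hr : 0 < r) :
    ∃ J, Adm T Z r J ∧ ∀ z ∈ Z, dg T z (Z ∪ J)ᶜ ≤ r := by
  obtain ⟨J, hJ, hm⟩ := exists_max_image ((univ : Finset (Finset α)).filter (Adm T Z r)) card
    ⟨∅, mem_filter.2 ⟨mem_univ _, by simp, id, by simp, by simp⟩⟩
  refine ⟨J, (mem_filter.1 hJ).2, fun z hz => le_of_not_gt fun h => ?_⟩
  have h1 := hm _ (mem_filter.2 ⟨mem_univ _, (mem_filter.1 hJ).2.add hz h.le⟩)
  rw [card_union_of_disjoint (disjoint_right.2 fun j hj e => by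
    have := (mem_nb.1 hj).1
    simp [e] at this)] at h1
  unfold dg at h
  omega

end CORE48

theorem r_CORE : R_CORE := by
  intro α _ T r hr
  obtain ⟨P, hP, -, hc⟩ := exists_mat T univ
  have hZ : Cvr T (vs P) := fun x y e => hc x (mem_univ _) y (mem_univ _) e
  obtain ⟨J, ⟨h1, c, h2, h3⟩, h4⟩ := CORE48.exists_max T (vs P) hr
  refine ⟨max P.card J.card, ⟨P, J, c, hP, hZ, fun x hx y hy e => (hZ x y e).elim (h1 x hx) (h1 y hy),
    ⟨fun j hj e => h1 _ e (h2 j hj).1, h3⟩, fun j hj => (h2 j hj).2, rfl, vs P ∪ J, ?_, ?_⟩,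
    fun hT => ?_⟩
  · have := card_union_le (vs P) J
    rw [hP.card_vs] at this
    omega
  · have h5 : Cvr (T \ rs T (vs P ∪ J)) (vs P) := fun x y e => hZ x y e.1
    refine h5.ed_le.trans ((sum_le_card_nsmul _ _ r fun z hz => ?_).trans ?_)
    · refine le_trans (card_le_card fun y hy => ?_) (h4 z hz)
      have h6 := (mem_nb.1 hy).2
      exact mem_nb.2 ⟨mem_compl.2 fun e => h6.2 ⟨h6.1, mem_union_left _ hz, e⟩, h6.1⟩
    · rw [hP.card_vs, smul_eq_mul, mul_right_comm]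
      exact Nat.mul_le_mul_left _ (le_max_left _ _)
  · refine lt_of_lt_of_le (card_pos.2 ?_) (le_max_left _ _)
    by_contra hn
    rw [not_nonempty_iff_eq_empty] at hn
    refine hT (eq_bot_iff.2 fun x y e => ?_)
    have := hZ x y e
    simp [hn, vs] at this

end Pool.Agent.Lib.SPL
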