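import Pool.Agent.Lib.SPL.Kit2

/-! Row CSUM of the project spl: the weight of the non-split graphs of one class. -/

open scoped Classical
open Finset

namespace Pool.Agent.Lib.SPL

namespace CSUM73

theorem two_sum {β γ : Type} (S : Finset β) (T : Finset γ) (o : β) (o' : γ) (u : β → ℝ)
    (v : γ → ℝ) (a b : ℝ) (hu : ∀ x, 0 ≤ u x) (hv : ∀ y, 0 ≤ v y) (hu1 : u o ≤ 1) (hv1 : v o' ≤ 1)
    (ha : ∑ x ∈ S.filter (· ≠ o), u x ≤ a) (hb : ∑ y ∈ T.filter (· ≠ o'), v y ≤ b) :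
    ∑ x ∈ S, ∑ y ∈ T, (if x = o ∧ y = o' then 0 else u x * v y) ≤ a * (1 + b) + b := by
  have h1 : ∑ x ∈ S, (if x = o then (1 : ℝ) else 0) ≤ 1 := by
    rw [sum_ite_eq']; split_ifs <;> norm_num
  have h2 : ∑ y ∈ T, (if y = o' then (1 : ℝ) else 0) ≤ 1 := by
    rw [sum_ite_eq']; split_ifs <;> norm_num
  rw [sum_filter] at ha hb
  have h3 : ∑ y ∈ T, v y ≤ 1 + b := by
    refine le_trans (sum_le_sum fun y _ => ?_) ((sum_add_distrib).le.trans (add_le_add h2 hb))
    by_cases h : y = o' <;> simp [h, hv1]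
  have p1 : 0 ≤ ∑ x ∈ S, (if x ≠ o then u x else 0) :=
    sum_nonneg fun x _ => by split_ifs <;> simp [hu]
  have p2 : 0 ≤ ∑ y ∈ T, (if y ≠ o' then v y else 0) :=
    sum_nonneg fun y _ => by split_ifs <;> simp [hv]
  calc _ ≤ ∑ x ∈ S, ∑ y ∈ T, ((if x ≠ o then u x else 0) * v y +
        (if x = o then (1 : ℝ) else 0) * (if y ≠ o' then v y else 0)) := by
        refine sum_le_sum fun x _ => sum_le_sum fun y _ => ?_
        by_cases h : x = o <;> by_cases h' : y = o' <;> simp [h, h']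
        exact mul_le_of_le_one_left (hv y) hu1
    _ = (∑ x ∈ S, (if x ≠ o then u x else 0)) * (∑ y ∈ T, v y) +
        (∑ x ∈ S, (if x = o then (1 : ℝ) else 0)) * ∑ y ∈ T, (if y ≠ o' then v y else 0) := by
        simp only [sum_add_distrib, sum_mul_sum]
    _ ≤ _ := add_le_add (mul_le_mul ha h3 (sum_nonneg fun y _ => hv y) (p1.trans ha))
        ((mul_le_of_le_one_left p2 h1).trans hb)

theorem split_of {α : Type} [Fintype α] {G : Gr α} {A : Finset α} (h1 : rs Gᶜ A = ⊥)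
    (h2 : rs G Aᶜ = ⊥) : IsSplit G := by
  refine ⟨A, fun x hx y hy hxy => ?_, fun x hx y hy _ e => ?_⟩
  · by_contra hn
    have : (rs Gᶜ A).Adj x y := ⟨⟨hxy, hn⟩, hx, hy⟩
    rw [h1] at this
    exact this
  · have : (rs G Aᶜ).Adj x y := ⟨e, mem_compl.2 hx, mem_compl.2 hy⟩
    rw [h2] at this
    exact this

theorem geo {x t p q : ℝ} (ht : 0 ≤ t) (h1 : x ≤ t * Real.exp (2 * p))
    (h2 : x ≤ t * Real.exp (2 * q)) : x ≤ t * (Real.exp p * Real.exp q) := by
  rw [← Real.exp_add]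
  rcases le_total p q with h | h
  · exact h1.trans (mul_le_mul_of_nonneg_left (Real.exp_le_exp.2 (by linarith)) ht)
  · exact h2.trans (mul_le_mul_of_nonneg_left (Real.exp_le_exp.2 (by linarith)) ht)

theorem fin3 {D : ℝ} (hD : 2048000 ≤ D) :
    Real.exp (-D) * (1 + Real.exp (-(1 / 128000 * D / 4))) + Real.exp (-(1 / 128000 * D / 4)) ≤
      Real.exp (-(1 / 1024000 * D)) := by
  have e1 : Real.exp (-D) ≤ Real.exp (-(1 / 128000 * D / 4)) := Real.exp_le_exp.2 (by linarith)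
  have e3 : Real.exp (-(1 / 128000 * D / 4)) ≤ 1 := Real.exp_le_one_iff.2 (by linarith)
  have e4 : 3 * Real.exp (-(1 / 128000 * D / 4)) ≤ Real.exp (-(1 / 1024000 * D)) := by
    have k2 := Real.add_one_le_exp (1 / 1024000 * D)
    rw [show -(1 / 1024000 * D) = 1 / 1024000 * D + -(1 / 128000 * D / 4) by ring, Real.exp_add]
    exact mul_le_mul_of_nonneg_right (by linarith) (Real.exp_pos _).le
  nlinarith [Real.exp_pos (-D)]

end CSUM73

open CSUM73 in
theorem r_CSUM : R_CSUM := by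
  intro hF hC hTV hTM hG hGV hGM
  obtain ⟨ω₁, h2⟩ := hTV
  obtain ⟨z, ω₂, hz, h3⟩ := hTM (1 / 128000) (by norm_num)
  obtain ⟨ω₃, h4⟩ := hGV
  obtain ⟨ω₄, h1⟩ := hGM
  refine ⟨1 / 1024000, z, max (max ω₁ ω₂) (max (max ω₃ ω₄) 2048000), by norm_num, hz,
    fun α _ l A Gs hR hGs => ?_⟩
  have r1 : Reg ω₁ (Fintype.card α) l := hR.mono ((le_max_left _ _).trans (le_max_left _ _))
  have r2 : Reg ω₂ (Fintype.card α) l := hR.mono ((le_max_right _ _).trans (le_max_left _ _))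
  have r3 : Reg ω₃ (Fintype.card α) l :=
    hR.mono (((le_max_left _ _).trans (le_max_left _ _)).trans (le_max_right _ _))
  have r4 : Reg ω₄ (Fintype.card α) l :=
    hR.mono (((le_max_right _ _).trans (le_max_left _ _)).trans (le_max_right _ _))
  have r5 : Reg 2048000 (Fintype.card α) l := hR.mono ((le_max_right _ _).trans (le_max_right _ _))
  have hl : 0 < l := hR.pos
  have hD : 2048000 ≤ DD (Fintype.card α) l := by
    have a := r5.hL
    have b := r5.D_ge (by norm_num)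
    have c : Real.log (Fintype.card α) ^ 1 ≤ Real.log (Fintype.card α) ^ 5 :=
      pow_le_pow_right₀ (by linarith) (by norm_num)
    rw [pow_one] at c
    linarith
  rcases Gs.eq_empty_or_nonempty with rfl | ⟨G₀, hG₀⟩
  · rw [gw, sum_empty]
    exact mul_nonneg (Real.exp_pos _).le (ww_pos _ hl _).le
  set D := DD (Fintype.card α) l with hDdef
  have hD0 : 0 ≤ D := by linarith
  set n : ℝ := (Fintype.card α : ℝ) with hn
  have hn0 : 0 ≤ n := Nat.cast_nonneg _
  choose s hs hs0 using fun T : Gr α => hC α T ⌈32 / l⌉₊ (Nat.ceil_pos.2 (by positivity))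
  choose ν t hν hν0 hνc using fun Γ : Gr α => hG α Γ A D
  set tot := (1 + l) ^ (A.card * Aᶜ.card) with htot
  have htot0 : 0 ≤ tot := by positivity
  have key := hF α l A Gs (Gs.image fun G => rs Gᶜ A) (Gs.image fun G => rs G Aᶜ)
    (fun Γ T => if Γ = ⊥ ∧ T = ⊥ then 0 else
      tot * (Real.exp (-(n * l ^ 2 * ν Γ / 64) - n * l * t Γ / 64) *
        Real.exp (-(1 / 128000 * s T * D)))) hl
    (fun G h => ⟨mem_image_of_mem _ h, mem_image_of_mem _ h⟩) (fun Γ _ T _ Fs hFs => by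
      split_ifs with h
      · have : Fs = ∅ := eq_empty_of_forall_notMem fun f hf => by
          obtain ⟨G, hG', e1, e2, -⟩ := hFs f hf
          exact (hGs G hG').2.2 (split_of (e1.trans h.1) (e2.trans h.2))
        simp [this, fw]
      · have src : ∀ f ∈ Fs, Src z l A Γ T f := fun f hf => by
          obtain ⟨G, hG', e⟩ := hFs f hf
          exact ⟨G, (hGs G hG').1, (hGs G hG').2.1, e⟩
        have k1 := h4 α z l A Γ T (ν Γ) (t Γ) Fs r3 (hν Γ) src
        have k2 := h2 α z l A Γ T (s T) Fs r1 (hs T) src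
        refine geo htot0 (k1.trans (le_of_eq ?_)) (k2.trans (le_of_eq ?_))
        · congr 2; ring
        · congr 2; ring)
  have ha := h1 α l A ((Gs.image fun G => rs Gᶜ A).filter (· ≠ ⊥)) ν t r4
    (hGs G₀ hG₀).2.1.lo (hGs G₀ hG₀).2.1.hi fun Γ hΓ => by
    obtain ⟨hΓ, h0⟩ := mem_filter.1 hΓ
    obtain ⟨G, hG', rfl⟩ := mem_image.1 hΓ
    obtain ⟨Z, hZ, hZ'⟩ := (hGs G hG').2.1.cov
    refine ⟨sup_rs _ _, fun x hx => ?_, hν0 _ h0, ?_, hν _⟩
    · rw [dg_rs hx]; exact (hGs G hG').2.1.deg x hx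
    · exact (Nat.mul_le_mul_left _ (hνc _ Z hZ)).trans hZ'
  have hb' := h3 α l ((Gs.image fun G => rs G Aᶜ).filter (· ≠ ⊥)) s r2 fun T hT => by
    obtain ⟨hT, h0⟩ := mem_filter.1 hT
    obtain ⟨G, hG', rfl⟩ := mem_image.1 hT
    obtain ⟨_, _, _, -, -, -, -, -, -, hX⟩ := hs (rs G Aᶜ)
    exact ⟨(hGs G hG').1.rs _, (hGs G hG').2.1.few, hs0 _ h0, hX⟩
  have hsum := two_sum _ _ ⊥ ⊥ _ _ _ _ (fun _ => by positivity) (fun _ => by positivity)
    (by
      rw [ed_bot, pow_zero, one_mul]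
      refine Real.exp_le_one_iff.2 (sub_nonpos.2 (le_trans (neg_nonpos.2 ?_) ?_)) <;> positivity)
    (by rw [ed_bot, pow_zero, one_mul]; exact Real.exp_le_one_iff.2 (neg_nonpos.2 (by positivity)))
    ha hb'
  have e5 := hsum.trans (fin3 hD)
  refine key.trans ?_
  rw [ww, ← card_compl, ← htot, mul_left_comm]
  refine mul_le_mul_of_nonneg_left ?_ (by positivity)
  refine le_trans (le_of_eq ?_) (mul_le_mul_of_nonneg_right e5 htot0)
  rw [sum_mul]
  refine sum_congr rfl fun Γ _ => ?_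
  rw [sum_mul]
  refine sum_congr rfl fun T _ => ?_
  split_ifs <;> ring

end Pool.Agent.Lib.SPL
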