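import Pool.Agent.Lib.SPL.Kit2
import Pool.Agent.Lib.SPL.Blue2

/-! Row CSUM2: the weight of the non-split graphs of one class, dense range. -/

open scoped Classical
open Finset

namespace Pool.Agent.Lib.SPL

namespace CSUM228

theorem two_sum {β γ : Type} (S : Finset β) (T : Finset γ) (o : β) (o' : γ) (u : β → ℝ)
    (v : γ → ℝ) (a b : ℝ) (hu : ∀ x, 0 ≤ u x) (hv : ∀ y, 0 ≤ v y) (hu1 : u o ≤ 1) (hv1 : v o' ≤ 1)
    (ha : ∑ x ∈ S.filter (· ≠ o), u x ≤ a) (hb : ∑ y ∈ T.filter (· ≠ o'), v y ≤ b) :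
    ∑ x ∈ S, ∑ y ∈ T, (if x = o ∧ y = o' then 0 else u x * v y) ≤ a * (1 + b) + b := by
  have h1 : ∑ x ∈ S, (if x = o then (1 : ℝ) else 0) ≤ 1 := by
    rw [sum_ite_eq']; split_ifs <;> norm_num
  have h2 : ∑ y ∈ T, (if y = o' then (1 : ℝ) else 0) ≤ 1 := by
    rw [sum_ite_eq']; split_ifs <;> norm_num
  rw [sum_filter] at ha hb
  have h3 : ∑ y ∈ T, v y ≤ 1 + b := by
    refine le_trans (sum_le_sum fun y _ => ?_) ((sum_add_distrib).le.trans (add_le_add h2 hb))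
    by_cases h : y = o' <;> simp [h, hv1]
  have p1 : 0 ≤ ∑ x ∈ S, (if x ≠ o then u x else 0) :=
    sum_nonneg fun x _ => by split_ifs <;> simp [hu]
  have p2 : 0 ≤ ∑ y ∈ T, (if y ≠ o' then v y else 0) :=
    sum_nonneg fun y _ => by split_ifs <;> simp [hv]
  calc _ ≤ ∑ x ∈ S, ∑ y ∈ T, ((if x ≠ o then u x else 0) * v y +
        (if x = o then (1 : ℝ) else 0) * (if y ≠ o' then v y else 0)) := by
        refine sum_le_sum fun x _ => sum_le_sum fun y _ => ?_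
        by_cases h : x = o <;> by_cases h' : y = o' <;> simp [h, h']
        exact mul_le_of_le_one_left (hv y) hu1
    _ = (∑ x ∈ S, (if x ≠ o then u x else 0)) * (∑ y ∈ T, v y) +
        (∑ x ∈ S, (if x = o then (1 : ℝ) else 0)) * ∑ y ∈ T, (if y ≠ o' then v y else 0) := by
        simp only [sum_add_distrib, sum_mul_sum]
    _ ≤ _ := add_le_add (mul_le_mul ha h3 (sum_nonneg fun y _ => hv y) (p1.trans ha))
        ((mul_le_of_le_one_left p2 h1).trans hb)

theorem split_of {α : Type} [Fintype α] {G : Gr α} {A : Finset α} (h1 : rs Gᶜ A = ⊥)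
    (h2 : rs G Aᶜ = ⊥) : IsSplit G := by
  refine ⟨A, fun x hx y hy hxy => ?_, fun x hx y hy _ e => ?_⟩
  · by_contra hn
    have : (rs Gᶜ A).Adj x y := ⟨⟨hxy, hn⟩, hx, hy⟩
    rw [h1] at this
    exact this
  · have : (rs G Aᶜ).Adj x y := ⟨e, mem_compl.2 hx, mem_compl.2 hy⟩
    rw [h2] at this
    exact this

theorem geo {x t p q : ℝ} (ht : 0 ≤ t) (h1 : x ≤ t * Real.exp (-(2 * p)))
    (h2 : x ≤ t * Real.exp (-(2 * q))) : x ≤ t * (Real.exp (-p) * Real.exp (-q)) := by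
  rw [← Real.exp_add]
  rcases le_total p q with h | h
  · exact h2.trans (mul_le_mul_of_nonneg_left (Real.exp_le_exp.2 (by linarith)) ht)
  · exact h1.trans (mul_le_mul_of_nonneg_left (Real.exp_le_exp.2 (by linarith)) ht)

end CSUM228

open CSUM228 in
theorem r_CSUM2 : R_CSUM2 := by
  intro hF hC hG hTV hTM hGV hGM R κ hR hκ
  have hR0 : 0 < R := by linarith
  obtain ⟨θ₀, n₁, hθ₀, h1⟩ := hGM R (κ / (16 * R ^ 2)) hR (by positivity)
  have hθ : 0 < min θ₀ (1 / (256 * R ^ 3)) := lt_min hθ₀ (by positivity)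
  obtain ⟨c₁, n₂, hc₁, h2⟩ := hTV R κ _ hR hκ hθ
  obtain ⟨ζ, n₃, hζ, h3⟩ := hTM R (c₁ / 2) ⌈32 * R⌉₊ hR (by positivity)
  obtain ⟨n₄, h4⟩ := hGV R κ hR hκ
  set c₂ := κ / (16 * R ^ 2) with hc₂
  have hc₂0 : 0 < c₂ := by positivity
  set c := min (c₂ / 4) (c₁ / 8) with hc
  have hc0 : 0 < c := lt_min (by positivity) (by positivity)
  refine ⟨_, ζ, c / 2, max (max n₁ n₂) (max (max n₃ n₄) ⌈4 / c⌉₊), hθ,
    (min_le_right _ _).trans (one_div_le_one_div_of_le (by positivity)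
      (by nlinarith [pow_pos hR0 3])), hζ, half_pos hc0, fun α _ l A Gs hD hGs => ?_⟩
  have hb := hD.big
  simp only [max_le_iff] at hb
  have dn : ∀ {m : ℕ}, m ≤ Fintype.card α → Dn R m (Fintype.card α) l := fun h => ⟨hD.lo, hD.hi, h⟩
  have hl : 0 < l := lt_of_lt_of_le (by positivity) hD.lo
  set n : ℝ := (Fintype.card α : ℝ) with hn
  have hn0 : 0 ≤ n := Nat.cast_nonneg _
  choose s hs hs0 using fun T : Gr α => hC α T ⌈32 * R⌉₊ (Nat.ceil_pos.2 (by positivity))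
  choose ν t hν hν0 _ using fun Γ : Gr α => hG α Γ A 0
  set tot := (1 + l) ^ (A.card * Aᶜ.card) with htot
  have htot0 : 0 ≤ tot := by positivity
  have key := hF α l A Gs (Gs.image fun G => rs Gᶜ A) (Gs.image fun G => rs G Aᶜ)
    (fun Γ T => if Γ = ⊥ ∧ T = ⊥ then 0 else
      tot * (Real.exp (-(c₂ * ν Γ * n)) * Real.exp (-(c₁ / 2 * s T * n)))) hl
    (fun G h => ⟨mem_image_of_mem _ h, mem_image_of_mem _ h⟩) (fun Γ _ T _ Fs hFs => by
      split_ifs with h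
      · have : Fs = ∅ := eq_empty_of_forall_notMem fun f hf => by
          obtain ⟨G, hG', e1, e2, -⟩ := hFs f hf
          exact (hGs G hG').2.2 (split_of (e1.trans h.1) (e2.trans h.2))
        simp [this, fw]
      · have src : ∀ f ∈ Fs, Src2 κ _ ζ A Γ T f := fun f hf => by
          obtain ⟨G, hG', e⟩ := hFs f hf
          exact ⟨G, (hGs G hG').1, (hGs G hG').2.1, e⟩
        obtain ⟨P, hP, -, hP'⟩ := (hν Γ).1
        have k1 := h4 α _ ζ l A Γ T P Fs (dn hb.2.1.2) (min_le_right _ _) hP src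
        have k2 := h2 α ζ l A Γ T (s T) Fs (dn hb.1.2) (hs T) src
        refine geo htot0 (k1.trans (le_of_eq ?_)) (k2.trans (le_of_eq ?_))
        · rw [hP', hc₂]; congr 3; ring
        · congr 3; ring)
  have ha := h1 α l ((Gs.image fun G => rs Gᶜ A).filter (· ≠ ⊥)) ν (dn hb.1.1) fun Γ hΓ => by
    obtain ⟨hΓ, h0⟩ := mem_filter.1 hΓ
    obtain ⟨G, hG', rfl⟩ := mem_image.1 hΓ
    obtain ⟨P, -, hP, hP'⟩ := (hν (rs Gᶜ A)).1
    refine ⟨fun x => ?_, hν0 _ h0, vs P, hP, ?_⟩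
    · by_cases hx : x ∈ A
      · have e1 : dg (rs Gᶜ A) x univ ≤ dg Gᶜ x A :=
          card_le_card fun y hy => mem_nb.2 ⟨(mem_nb.1 hy).2.2.2, (mem_nb.1 hy).2.1⟩
        have e2 : (A.card : ℝ) ≤ n := Nat.cast_le.2 (card_le_univ A)
        refine (Nat.cast_le.2 e1).trans (((hGs G hG').2.1.deg x hx).trans ?_)
        exact mul_le_mul (by linarith [min_le_left θ₀ (1 / (256 * R ^ 3))]) e2 (Nat.cast_nonneg _)
          (by positivity)
      · have e1 : dg (rs Gᶜ A) x univ = 0 :=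
          card_eq_zero.2 (filter_eq_empty_iff.2 fun y _ e => hx e.2.1)
        rw [e1, Nat.cast_zero]; positivity
    · rw [← hP', two_mul]
      exact (card_union_le _ _).trans (add_le_add card_image_le card_image_le)
  have hb' := h3 α l ((Gs.image fun G => rs G Aᶜ).filter (· ≠ ⊥)) s (dn hb.2.1.1) fun T hT => by
    obtain ⟨hT, h0⟩ := mem_filter.1 hT
    obtain ⟨G, hG', rfl⟩ := mem_image.1 hT
    obtain ⟨_, _, _, -, -, -, -, -, -, hX⟩ := hs (rs G Aᶜ)
    exact ⟨(hGs G hG').2.1.few, hs0 _ h0, hX⟩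
  have hsum := two_sum _ _ ⊥ ⊥ _ _ _ _ (fun _ => by positivity) (fun _ => by positivity)
    (by rw [ed_bot, pow_zero, one_mul]; exact Real.exp_le_one_iff.2 (neg_nonpos.2 (by positivity)))
    (by rw [ed_bot, pow_zero, one_mul]; exact Real.exp_le_one_iff.2 (neg_nonpos.2 (by positivity)))
    ha hb'
  have e1 : Real.exp (-(c₂ * n / 4)) ≤ Real.exp (-(c * n)) :=
    Real.exp_le_exp.2 (by nlinarith [min_le_left (c₂ / 4) (c₁ / 8)])
  have e2 : Real.exp (-(c₁ / 2 * n / 4)) ≤ Real.exp (-(c * n)) :=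
    Real.exp_le_exp.2 (by nlinarith [min_le_right (c₂ / 4) (c₁ / 8)])
  have e3 : Real.exp (-(c₁ / 2 * n / 4)) ≤ 1 := Real.exp_le_one_iff.2 (neg_nonpos.2 (by positivity))
  have e4 : 3 * Real.exp (-(c * n)) ≤ Real.exp (-(c / 2 * n)) := by
    have k1 : 4 / c ≤ n := (Nat.le_ceil _).trans (Nat.cast_le.2 hb.2.2)
    rw [div_le_iff₀ hc0] at k1
    have k2 := Real.add_one_le_exp (c / 2 * n)
    rw [show -(c / 2 * n) = c / 2 * n + -(c * n) by ring, Real.exp_add]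
    exact mul_le_mul_of_nonneg_right (by linarith) (Real.exp_pos _).le
  have e5 := hsum.trans (show _ ≤ Real.exp (-(c / 2 * n)) by
    nlinarith [Real.exp_pos (-(c₂ * n / 4))])
  refine key.trans ?_
  rw [ww, ← card_compl, ← htot, mul_left_comm]
  refine mul_le_mul_of_nonneg_left ?_ (by positivity)
  refine le_trans (le_of_eq ?_) (mul_le_mul_of_nonneg_right e5 htot0)
  rw [sum_mul]
  refine sum_congr rfl fun Γ _ => ?_
  rw [sum_mul]
  refine sum_congr rfl fun T _ => ?_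
  split_ifs <;> ring

end Pool.Agent.Lib.SPL
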