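import Pool.Agent.Lib.SPL.Kit2
import Pool.Agent.Lib.SPL.Blue2

open scoped Classical
open Finset

noncomputable section

namespace Pool.Agent.Lib.SPL

namespace DA54

theorem exists_om {α : Type} (G : Gr α) (U : Finset α) : ∃ w ≤ U.card, Om G U w := by
  obtain ⟨K, hK, hm⟩ := exists_max_image (U.powerset.filter (Clq G)) card ⟨∅, by simp [Clq]⟩
  obtain ⟨h1, h2⟩ := mem_filter.1 hK
  exact ⟨K.card, card_le_card (mem_powerset.1 h1), ⟨K, mem_powerset.1 h1, h2, rfl⟩,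
    fun K' e1 e2 => hm K' (mem_filter.2 ⟨mem_powerset.2 e1, e2⟩)⟩

theorem num (c R : ℝ) (k : ℕ) (hc : 0 < c) : ∃ n0 : ℕ, ∀ n : ℕ, n0 ≤ n →
    (k : ℝ) + 1 + k * lg n + 3 * R ≤ c * n := by
  have hk : (0 : ℝ) < k + 1 := by positivity
  obtain ⟨ε, hε, he⟩ : ∃ ε : ℝ, 0 < ε ∧ (k + 1) * ε = c / 2 :=
    ⟨c / 2 / (k + 1), by positivity, by field_simp⟩
  refine ⟨⌈(k + 1 + 3 * R + c / 2 + (k + 1) * |Real.log ε|) / (c / 2)⌉₊, fun n hn => ?_⟩
  have h1 := (div_le_iff₀ (by positivity)).1 ((Nat.le_ceil _).trans (Nat.cast_le.2 hn))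
  have h2 : Real.log (ε * (n + 1)) ≤ ε * (n + 1) - 1 := Real.log_le_sub_one_of_pos (by positivity)
  rw [Real.log_mul hε.ne' (by positivity)] at h2
  have h3 : lg n ≤ ε * (n + 1) + |Real.log ε| := by
    unfold lg
    linarith [neg_abs_le (Real.log ε)]
  have h4 := mul_le_mul_of_nonneg_left h3 hk.le
  have h5 : (k + 1) * (ε * (n + 1) + |Real.log ε|) = c / 2 * (n + 1) + (k + 1) * |Real.log ε| := by
    rw [← he]
    ring
  nlinarith [lg_nonneg n]

end DA54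

theorem r_DA : R_DA := by
  intro dec da1 wl R ζ hR hζ hζ'
  have hR0 : 0 < R := by linarith
  obtain ⟨η, n1, hη, hη1, h1⟩ := da1 R ζ hR hζ hζ'
  obtain ⟨c, hc, hce⟩ : ∃ c : ℝ, 0 < c ∧ ∀ x : ℝ, ζ ^ 2 * x / (64 * R ^ 3) = 2 * c * x :=
    ⟨ζ ^ 2 / (128 * R ^ 3), by positivity, fun x => by field_simp; ring⟩
  obtain ⟨k, hk⟩ : ∃ k : ℕ, 100 / η ^ 3 ≤ k := ⟨_, Nat.le_ceil _⟩
  obtain ⟨n2, h2⟩ := DA54.num c R k hc
  refine ⟨c, n1 + n2 + 1, hc, fun α _ l Gs hD hG => ?_⟩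
  have hb := hD.big
  have hl : 0 ≤ l := le_trans (by positivity) hD.lo
  have h3 := sum_le_label Gs
    ((univ : Finset (Fin k → Finset α)) ×ˢ range (Fintype.card α + 1))
    (fun a G => (∀ j, Clq G (a.1 j)) ∧ Om G (un a.1) a.2 ∧
      (ar G (un a.1)ᶜ : ℝ) ≤ η * (Fintype.card α : ℝ) ^ 2) (fun G => l ^ ed G) _
    (fun G _ => pow_nonneg hl _)
    (fun G h => by
      obtain ⟨Q, e1, e2⟩ := dec α G η k (hG G h).1 hη hη1 hk
      obtain ⟨w, e3, e4⟩ := DA54.exists_om G (un Q)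
      exact ⟨(Q, w), mem_product.2 ⟨mem_univ _,
        mem_range.2 (Nat.lt_succ_of_le (e3.trans (card_le_univ _)))⟩, e1, e4, e2⟩)
    fun a _ t ht hq => h1 α l k a.1 a.2 t ⟨hD.lo, hD.hi, by omega⟩ fun G h =>
      ⟨(hG G (ht h)).1, (hG G (ht h)).2, hq G h⟩
  have h4 := wl R l (Fintype.card α) hR hD.lo hD.hi (by omega)
  have h5 := h2 (Fintype.card α) (by omega)
  rw [card_product, card_univ, card_range, Fintype.card_fun, Fintype.card_finset,
    Fintype.card_fin] at h3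
  generalize Fintype.card α = n at *
  have h6 : (((2 ^ n) ^ k * (n + 1) : ℕ) : ℝ) ≤ Real.exp ((n * k : ℕ) + n) := by
    rw [Real.exp_add, ← pow_mul]
    push_cast
    exact mul_le_mul (by exact_mod_cast two_pow_le_exp (n * k)) (Real.add_one_le_exp _)
      (by positivity) (by positivity)
  refine (h3.trans (mul_le_mul_of_nonneg_right h6 (by positivity))).trans
    (le_trans ?_ (mul_le_mul_of_nonneg_left h4 (Real.exp_pos _).le))
  rw [← exp_mul_lg, ← Real.exp_add, ← Real.exp_add, ← Real.exp_add, hce, Real.exp_le_exp]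
  push_cast
  nlinarith [mul_le_mul_of_nonneg_left h5 (Nat.cast_nonneg (α := ℝ) n)]

end Pool.Agent.Lib.SPL
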