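import Pool.Agent.Lib.SPL.Kit2
import Pool.Agent.Lib.SPL.Blue2

/-! Project spl, row DA1. -/

open scoped Classical
open Finset

noncomputable section

namespace Pool.Agent.Lib.SPL

namespace DA121

variable {α : Type}

theorem two_choose (n : ℕ) : 2 * n.choose 2 + n = n ^ 2 := by
  induction n with
  | zero => rfl
  | succ n ih =>
    rw [Nat.choose_succ_succ' n 1, Nat.choose_one_right]
    nlinarith

theorem ed_choose [Fintype α] {G : Gr α} {A K : Finset α} (hKA : K ⊆ A) (hK : Clq G K) :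
    ed (rs Gᶜ A) + K.card.choose 2 ≤ A.card.choose 2 := by
  have h1 := ar_add_compl G A
  have h2 := ar_add_compl G K
  have h3 : ar Gᶜ K = 0 := by
    rw [ar_eq_sum]
    exact sum_eq_zero fun x hx => sum_eq_zero fun y hy => if_neg fun e => e.2 (hK x hx y hy e.1)
  have h4 : ar G K ≤ ar G A := ar_mono le_rfl hKA
  have h5 := ar_eq_ed Gᶜ A
  have h6 := two_choose A.card
  have h7 := two_choose K.card
  omega

theorem ed_off [Fintype α] (G : Gr α) (A K : Finset α) :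
    2 * ed (rs G Kᶜ) ≤ ar G Aᶜ + 2 * ((A \ K).card * Fintype.card α) := by
  have h1 := ar_le_inter G Kᶜ Aᶜ
  have h2 : ar G (Kᶜ ∩ Aᶜ) ≤ ar G Aᶜ := ar_mono le_rfl inter_subset_right
  have h3 : Kᶜ \ Aᶜ = A \ K := by
    ext x
    simp [and_comm]
  have h4 : ∑ x ∈ A \ K, dg G x Kᶜ ≤ (A \ K).card * Fintype.card α := by
    simpa using sum_le_card_nsmul (A \ K) _ (Fintype.card α)
      fun x _ => (dg_le_card G x Kᶜ).trans (card_le_univ _)
  rw [h3, ar_eq_ed] at h1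
  omega

end DA121

open DA121 in
theorem r_DA1 : R_DA1 := by
  intro hF hC hS hZ hO R ζ hR hζ hζ'
  have hδ : 0 < ζ ^ 2 / (128 * R ^ 3) := by positivity
  obtain ⟨η1, n0, hη1, hS⟩ := hS R _ hR hδ
  obtain ⟨ζ1, hζ1, hZ, -⟩ := hZ R _ hR hδ
  refine ⟨min (min η1 ζ1) (min ζ 1), n0, by positivity, (min_le_right _ _).trans (min_le_right _ _),
    fun α _ l k Q w Gs hD hG => ?_⟩
  have hl : 0 < l := lt_of_lt_of_le (by positivity) hD.lo
  have hn2 : (0 : ℝ) ≤ (Fintype.card α : ℝ) ^ 2 := by positivity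
  have hle : ∀ G ∈ Gs, ∀ y : ℝ, min (min η1 ζ1) (min ζ 1) ≤ y →
      (ar G (un Q)ᶜ : ℝ) ≤ y * (Fintype.card α : ℝ) ^ 2 := fun G h y hy =>
    (hG G h).2.2.2.2.trans (mul_le_mul_of_nonneg_right hy hn2)
  have h1 := hF α l (un Q) Gs (Gs.image fun G => rs Gᶜ (un Q)) (Gs.image fun G => rs G (un Q)ᶜ)
    (fun _ _ => (1 + l) ^ (w * (un Q)ᶜ.card) *
      Real.exp (ζ ^ 2 / (128 * R ^ 3) * (Fintype.card α : ℝ) ^ 2)) hl
    (fun G h => ⟨mem_image_of_mem _ h, mem_image_of_mem _ h⟩)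
    fun Γ _ T _ Fs hFs => hS α l (un Q) w Γ Fs hD fun f hf => by
      obtain ⟨G, h, e1, -, e3⟩ := hFs f hf
      exact ⟨G, (hG G h).1, (hG G h).2.2.2.1,
        hle G h _ ((min_le_left _ _).trans (min_le_left _ _)), e1, e3⟩
  have h2 := hZ α l (Gs.image fun G => rs G (un Q)ᶜ) hl.le hD.hi fun T hT => by
    obtain ⟨G, h, rfl⟩ := mem_image.1 hT
    have e1 := hle G h _ ((min_le_left _ _).trans (min_le_right _ _))
    rw [ar_eq_ed] at e1
    push_cast at e1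
    have : (0 : ℝ) ≤ ed (rs G (un Q)ᶜ) := Nat.cast_nonneg _
    linarith
  have h3 : ((Gs.image fun G => rs Gᶜ (un Q)).card : ℝ) ≤
      ((Fintype.card α : ℝ) + 1) ^ (Fintype.card α * k) := by
    exact_mod_cast hC α k Q _ fun Γ hΓ => by
      obtain ⟨G, h, rfl⟩ := mem_image.1 hΓ
      exact ⟨G, (hG G h).1, (hG G h).2.2.1, rfl⟩
  have h4 : ∀ Γ ∈ Gs.image fun G => rs Gᶜ (un Q),
      l ^ (un Q).card.choose 2 * l⁻¹ ^ ed Γ * (1 + l) ^ (w * (un Q)ᶜ.card) ≤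
        Real.exp (ph l * (Fintype.card α : ℝ) ^ 2 + R * Fintype.card α -
          ζ ^ 2 * (Fintype.card α : ℝ) ^ 2 / (32 * R ^ 3)) := by
    intro Γ hΓ
    obtain ⟨G, h, rfl⟩ := mem_image.1 hΓ
    obtain ⟨K, hKA, hK, rfl⟩ := (hG G h).2.2.2.1.1
    rw [card_compl]
    refine hO R ζ l _ _ _ _ hR hD.lo hD.hi hζ hζ' (card_le_card hKA) (card_le_univ _)
      (ed_choose hKA hK) ?_
    by_contra hc
    rw [not_or, not_lt, not_lt] at hc
    refine (hG G h).2.1 ⟨K, hK, hc.1, ?_⟩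
    have e1 : (2 * ed (rs G Kᶜ) : ℝ) ≤
        ar G (un Q)ᶜ + 2 * (((un Q \ K).card : ℝ) * Fintype.card α) := by
      exact_mod_cast ed_off G (un Q) K
    have e2 : (((un Q \ K).card : ℝ)) = (un Q).card - K.card := by
      rw [card_sdiff_of_subset hKA, Nat.cast_sub (card_le_card hKA)]
    have e3 := hle G h _ ((min_le_right _ _).trans (min_le_left _ _))
    have e4 := mul_le_mul_of_nonneg_right hc.2 (Nat.cast_nonneg (α := ℝ) (Fintype.card α))
    rw [e2] at e1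
    nlinarith [mul_nonneg hζ.le hn2]
  refine h1.trans ?_
  rw [mul_sum]
  refine (sum_le_card_nsmul _ _ (Real.exp (ph l * (Fintype.card α : ℝ) ^ 2 + R * Fintype.card α -
      ζ ^ 2 * (Fintype.card α : ℝ) ^ 2 / (64 * R ^ 3))) fun Γ hΓ => ?_).trans ?_
  · have e : l ^ (un Q).card.choose 2 * ∑ T ∈ Gs.image fun G => rs G (un Q)ᶜ,
        l⁻¹ ^ ed Γ * l ^ ed T * ((1 + l) ^ (w * (un Q)ᶜ.card) *
          Real.exp (ζ ^ 2 / (128 * R ^ 3) * (Fintype.card α : ℝ) ^ 2)) =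
        l ^ (un Q).card.choose 2 * l⁻¹ ^ ed Γ * (1 + l) ^ (w * (un Q)ᶜ.card) *
          (gw l (Gs.image fun G => rs G (un Q)ᶜ) *
            Real.exp (ζ ^ 2 / (128 * R ^ 3) * (Fintype.card α : ℝ) ^ 2)) := by
      rw [gw, sum_mul, mul_sum, mul_sum]
      exact sum_congr rfl fun T _ => by ring
    rw [e]
    refine (mul_le_mul (h4 Γ hΓ) (mul_le_mul_of_nonneg_right h2 (Real.exp_pos _).le)
      (mul_nonneg (gw_nonneg hl.le _) (Real.exp_pos _).le) (Real.exp_pos _).le).trans (le_of_eq ?_)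
    rw [← Real.exp_add, ← Real.exp_add]
    congr 1
    field_simp
    ring
  · rw [nsmul_eq_mul]
    exact mul_le_mul_of_nonneg_right h3 (Real.exp_pos _).le

end Pool.Agent.Lib.SPL
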