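import Pool.Agent.Lib.SPL.Blue

open Finset

namespace Pool.Agent.Lib.SPL

namespace DBIN20

theorem fact_pow (m n : ℕ) : m.factorial * m ^ n ≤ n.factorial * m ^ m := by
  rcases le_total n m with h | h
  · obtain ⟨d, rfl⟩ := Nat.exists_eq_add_of_le h
    have h1 : (n + d).factorial ≤ n.factorial * (n + d) ^ d := by
      rw [← Nat.factorial_mul_ascFactorial]
      exact Nat.mul_le_mul_left _ (Nat.ascFactorial_le_pow_add n d)
    calc _ ≤ n.factorial * (n + d) ^ d * (n + d) ^ n := Nat.mul_le_mul_right _ h1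
      _ = _ := by rw [pow_add (n + d) n d]; ring
  · obtain ⟨d, rfl⟩ := Nat.exists_eq_add_of_le h
    have h1 : m.factorial * m ^ d ≤ (m + d).factorial :=
      (Nat.mul_le_mul_left _ (Nat.pow_le_pow_left (Nat.le_succ m) d)).trans
        Nat.factorial_mul_pow_le_factorial
    calc _ = m.factorial * m ^ d * m ^ m := by ring
      _ ≤ _ := Nat.mul_le_mul_right _ h1

theorem mode (j k i : ℕ) (hi : i ≤ j + k) :
    j ^ i * k ^ (j + k - i) * (j + k).choose i ≤ (j + k).choose j * (j ^ j * k ^ k) := by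
  have h1 := Nat.choose_mul_factorial_mul_factorial hi
  have h2 := Nat.choose_mul_factorial_mul_factorial (Nat.le_add_right j k)
  rw [Nat.add_sub_cancel_left] at h2
  refine Nat.le_of_mul_le_mul_right (c := j.factorial * k.factorial) ?_ (by positivity)
  calc _ = (j + k).choose i * ((j.factorial * j ^ i) * (k.factorial * k ^ (j + k - i))) := by ring
    _ ≤ (j + k).choose i * ((i.factorial * j ^ j) * ((j + k - i).factorial * k ^ k)) :=
        Nat.mul_le_mul_left _ (Nat.mul_le_mul (fact_pow j i) (fact_pow k _))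
    _ = (j + k).choose i * i.factorial * (j + k - i).factorial * (j ^ j * k ^ k) := by ring
    _ = _ := by rw [h1, ← h2]; ring

theorem total (j k : ℕ) :
    (j + k) ^ (j + k) ≤ (j + k + 1) * ((j + k).choose j * (j ^ j * k ^ k)) := by
  rw [add_pow]
  refine (sum_le_card_nsmul _ _ _ fun i hi => mode j k i (Nat.lt_succ_iff.mp (mem_range.mp hi))).trans ?_
  rw [card_range, smul_eq_mul]

theorem pow_le_exp {x : ℝ} (hx : 0 ≤ x) (n : ℕ) : x ^ n ≤ Real.exp (n * (x - 1)) := by
  rw [Real.exp_nat_mul]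
  exact pow_le_pow_left₀ hx (by linarith [Real.add_one_le_exp (x - 1)]) n

end DBIN20

open DBIN20 in
theorem r_DBIN : R_DBIN := by
  intro P j l hl hP hj
  obtain ⟨k, rfl⟩ := Nat.exists_eq_add_of_le hj
  have hP' : (0 : ℝ) < (j : ℝ) + k := by exact_mod_cast hP
  have h0 : (0 : ℝ) < (j : ℝ) ^ j * (k : ℝ) ^ k := by
    have : ∀ n : ℕ, (0 : ℝ) < (n : ℝ) ^ n := fun n => by exact_mod_cast Nat.pow_self_pos
    exact mul_pos (this j) (this k)
  have h1 : ((j : ℝ) + k) ^ (j + k) ≤ (j + k + 1) * ((j + k).choose j * ((j : ℝ) ^ j * (k : ℝ) ^ k)) := by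
    exact_mod_cast total j k
  have h2 := pow_le_exp (x := j * (1 + l) / (l * (j + k))) (by positivity) j
  have h3 := pow_le_exp (x := k * (1 + l) / (j + k)) (by positivity) k
  have h4 := mul_le_mul h2 h3 (by positivity) (Real.exp_pos _).le
  rw [← Real.exp_add] at h4
  have h5 : (j : ℝ) * (j * (1 + l) / (l * (j + k)) - 1) + k * (k * (1 + l) / (j + k) - 1) =
      ((j : ℝ) - (j + k) * (l / (1 + l))) ^ 2 / ((j + k) * (l / (1 + l) ^ 2)) := by
    field_simp
    ring
  rw [h5] at h4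
  push_cast
  refine le_of_mul_le_mul_right ?_ h0
  set χ := ((j : ℝ) - (j + k) * (l / (1 + l))) ^ 2 / ((j + k) * (l / (1 + l) ^ 2))
  have h6 : (1 + l) ^ (j + k) * ((j : ℝ) ^ j * (k : ℝ) ^ k) =
      (j * (1 + l) / (l * (j + k))) ^ j * (k * (1 + l) / (j + k)) ^ k *
        (l ^ j * ((j : ℝ) + k) ^ (j + k)) := by
    simp only [div_pow, mul_pow, pow_add]
    field_simp
  calc _ = Real.exp (-χ) * ((1 + l) ^ (j + k) * ((j : ℝ) ^ j * (k : ℝ) ^ k)) := by ring
    _ ≤ Real.exp (-χ) * (Real.exp χ * (l ^ j * ((j : ℝ) + k) ^ (j + k))) := by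
        rw [h6]
        gcongr
    _ = l ^ j * ((j : ℝ) + k) ^ (j + k) := by
        rw [← mul_assoc, ← Real.exp_add, neg_add_cancel, Real.exp_zero, one_mul]
    _ ≤ l ^ j * ((j + k + 1) * ((j + k).choose j * ((j : ℝ) ^ j * (k : ℝ) ^ k))) := by gcongr
    _ = _ := by ring

end Pool.Agent.Lib.SPL
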