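import Pool.Agent.Lib.SPL.Kit2
import Pool.Agent.Lib.SPL.Blue2

open scoped Classical
open Finset

noncomputable section

namespace Pool.Agent.Lib.SPL

namespace DEC84

theorem un_cons {α : Type} {k : ℕ} (K : Finset α) (Q : Fin k → Finset α) :
    un (Fin.cons K Q : Fin (k + 1) → Finset α) = K ∪ un Q := by
  ext x
  simp [un, Fin.exists_fin_succ]

end DEC84

theorem r_DEC : R_DEC := by
  intro hB α _ G η k hG h0 h1 hk
  rcases Nat.eq_zero_or_pos (Fintype.card α) with hn | hn
  · have : IsEmpty α := Fintype.card_eq_zero_iff.1 hn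
    refine ⟨fun _ => ∅, fun j x hx => absurd hx (notMem_empty x), ?_⟩
    rw [eq_empty_of_isEmpty (un _)ᶜ]
    simp [ar]
  have hn' : (0 : ℝ) < Fintype.card α := by exact_mod_cast hn
  have key : ∀ j : ℕ, ∃ Q : Fin j → Finset α, (∀ i, Clq G (Q i)) ∧
      ((ar G (un Q)ᶜ : ℝ) ≤ η * (Fintype.card α : ℝ) ^ 2 ∨
        j * (η ^ 3 * Fintype.card α / 100) ≤ (un Q).card) := by
    intro j
    induction j with
    | zero => exact ⟨fun i => i.elim0, fun i => i.elim0, Or.inr (by simp)⟩
    | succ j ih =>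
      obtain ⟨Q, q1, q2⟩ := ih
      by_cases c : (ar G (un Q)ᶜ : ℝ) ≤ η * (Fintype.card α : ℝ) ^ 2
      · refine ⟨Fin.cons ∅ Q, fun i => Fin.cases (fun x hx => absurd hx (notMem_empty x)) q1 i,
          Or.inl ?_⟩
        rwa [DEC84.un_cons, empty_union]
      · obtain ⟨K, k1, k2, k3⟩ := hB α G (un Q)ᶜ η (Fintype.card α) hG h0 h1 hn'
          (by exact_mod_cast card_le_univ _) (not_le.1 c).le
        refine ⟨Fin.cons K Q, fun i => Fin.cases k2 q1 i, Or.inr ?_⟩
        rw [DEC84.un_cons, card_union_of_disjoint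
          (disjoint_left.2 fun x hx => mem_compl.1 (k1 hx))]
        have := q2.resolve_left c
        push_cast
        linarith
  obtain ⟨Q, q1, q2⟩ := key k
  refine ⟨Q, q1, q2.elim id fun h => ?_⟩
  have h2 : (Fintype.card α : ℝ) ≤ (un Q).card := by
    refine le_trans ?_ h
    rw [div_le_iff₀ (by positivity)] at hk
    nlinarith
  have h3 : un Q = univ := eq_univ_of_card _ (le_antisymm (card_le_univ _) (by exact_mod_cast h2))
  rw [h3, compl_univ]
  simp only [ar, sum_empty, Nat.cast_zero]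
  positivity

end Pool.Agent.Lib.SPL
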