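import Pool.Agent.Lib.SPL.Kit2
import Pool.Agent.Lib.SPL.Blue2

open scoped Classical
open Finset

noncomputable section

namespace Pool.Agent.Lib.SPL

namespace DENSE48

variable {α : Type}

theorem gw_split (l : ℝ) (Gs : Finset (Gr α)) (p : Gr α → Prop) [DecidablePred p]
    [∀ G, Decidable (¬ p G)] :
    gw l Gs = gw l (Gs.filter p) + gw l (Gs.filter (fun G => ¬ p G)) :=
  (sum_filter_add_sum_filter_not Gs p _).symm

theorem three {c n x W a b d : ℝ} (hc : 0 < c) (hn : 4 / c ≤ n) (hW : 0 ≤ W) (hx : x ≤ a + (b + d))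
    (ha : a ≤ Real.exp (-(c * n)) * W) (hb : b ≤ Real.exp (-(c * n)) * W)
    (hd : d ≤ Real.exp (-(c * n)) * W) : x ≤ Real.exp (-(c / 2 * n)) * W := by
  have h1 : 4 ≤ c * n := by rwa [div_le_iff₀' hc] at hn
  have h2 : 3 ≤ Real.exp (c / 2 * n) := by linarith [Real.add_one_le_exp (c / 2 * n)]
  have h3 : Real.exp (-(c / 2 * n)) = Real.exp (c / 2 * n) * Real.exp (-(c * n)) := by
    rw [← Real.exp_add]
    exact congrArg Real.exp (by ring)
  have h4 : 0 ≤ Real.exp (-(c * n)) * W := mul_nonneg (Real.exp_pos _).le hW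
  rw [h3, mul_assoc]
  nlinarith

theorem weak {c c' n x W : ℝ} (hc : 0 < c) (h : c ≤ c') (hn : 1 ≤ n) (hW : 0 ≤ W)
    (hx : x ≤ Real.exp (-(c' * n ^ 2)) * W) : x ≤ Real.exp (-(c * n)) * W := by
  refine hx.trans (mul_le_mul_of_nonneg_right (Real.exp_le_exp.2 (neg_le_neg ?_)) hW)
  exact mul_le_mul h (by nlinarith) (by linarith) (by linarith)

end DENSE48

theorem r_DENSE : R_DENSE := by
  intro xsS da yb cls cs R hR
  have hR0 : 0 < R := by linarith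
  obtain ⟨θ, ζ1, c1, n1, hθ, hθ', hζ1, hc1, h1⟩ := cs R (1 / (8 * R ^ 2)) hR (by positivity)
  obtain ⟨c2, ζ2, n2, hc2, hζ2, h2⟩ := yb R θ (θ / (16 * R ^ 2)) (1 / (8 * R ^ 2)) hR hθ'
    (by positivity) (by positivity)
  obtain ⟨ζ, hζ, e1, e2, e3⟩ : ∃ ζ : ℝ, 0 < ζ ∧ 2 * ζ ≤ ζ1 ∧ 2 * ζ ≤ ζ2 ∧ ζ ≤ 1 / (16 * R ^ 2) := by
    refine ⟨min (min (ζ1 / 2) (ζ2 / 2)) (1 / (16 * R ^ 2)), by positivity, ?_, ?_, min_le_right _ _⟩
    · linarith [min_le_left (min (ζ1 / 2) (ζ2 / 2)) (1 / (16 * R ^ 2)), min_le_left (ζ1 / 2) (ζ2 / 2)]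
    · linarith [min_le_left (min (ζ1 / 2) (ζ2 / 2)) (1 / (16 * R ^ 2)), min_le_right (ζ1 / 2) (ζ2 / 2)]
  have hu : 0 < 1 / (16 * R ^ 2) := by positivity
  have u8 : 1 / (8 * R ^ 2) = 2 * (1 / (16 * R ^ 2)) := by field_simp; norm_num
  have u4 : 1 / (4 * R ^ 2) = 4 * (1 / (16 * R ^ 2)) := by field_simp; norm_num
  obtain ⟨c3, n3, hc3, h3⟩ := da R ζ hR hζ (by linarith)
  have hθ1 : θ ≤ 1 := hθ'.trans (by
    rw [div_le_one (by positivity)]
    linarith [one_le_pow₀ (n := 3) hR])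
  set c := min c1 (min c2 c3) with hcd
  have hc : 0 < c := by positivity
  refine ⟨c / 2, n1 + n2 + n3 + ⌈4 / c⌉₊ + 1, by positivity, fun α _ l Gs hD hG => ?_⟩
  have hb := hD.big
  have hl := xsS R l hR hD.lo hD.hi
  have hW := (WW_pos (Fintype.card α) hl.1).le
  have hn1 : (1 : ℝ) ≤ Fintype.card α := by exact_mod_cast (by omega : 1 ≤ Fintype.card α)
  have hn2 : 4 / c ≤ Fintype.card α :=
    (Nat.le_ceil _).trans (by exact_mod_cast (by omega : ⌈4 / c⌉₊ ≤ Fintype.card α))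
  let p : Gr α → Prop := fun G => ∃ A : Finset α, Cls2 (1 / (8 * R ^ 2)) θ ζ1 G A
  refine DENSE48.three hc hn2 hW (a := gw l (Gs.filter p))
    (b := gw l ((Gs.filter (fun G => ¬ p G)).filter (Good2 ζ l)))
    (d := gw l ((Gs.filter (fun G => ¬ p G)).filter (fun G => ¬ Good2 ζ l G)))
    (((DENSE48.gw_split l Gs p).trans (congrArg _ (DENSE48.gw_split l _ (Good2 ζ l)))).le) ?_ ?_ ?_
  · refine (sum_le_sum_label (Gs.filter p) univ (fun A G => Cls2 (1 / (8 * R ^ 2)) θ ζ1 G A)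
      (fun G => l ^ ed G) (fun A => Real.exp (-(c1 * Fintype.card α)) * ww (Fintype.card α) l A.card)
      (fun G _ => pow_nonneg hl.1.le _)
      (fun G h => (mem_filter.1 h).2.imp fun A hA => ⟨mem_univ _, hA⟩)
      fun A _ t ht hq => h1 α l A t ⟨hD.lo, hD.hi, by omega⟩ fun G h =>
        ⟨(hG G (mem_filter.1 (ht h)).1).1, hq G h, (hG G (mem_filter.1 (ht h)).1).2⟩).trans ?_
    rw [← mul_sum, sum_ww]
    exact mul_le_mul_of_nonneg_right (Real.exp_le_exp.2 (neg_le_neg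
      (mul_le_mul_of_nonneg_right (min_le_left _ _) (by linarith)))) hW
  · refine DENSE48.weak hc ((min_le_right _ _).trans (min_le_left _ _)) hn1 hW
      (h2 α l _ ⟨hD.lo, hD.hi, by omega⟩ fun G h => ?_)
    obtain ⟨h4, K, k1, k2, k3⟩ := mem_filter.1 h
    refine ⟨K, k1, ?_, k3.trans (mul_le_mul_of_nonneg_right e2 (by positivity)),
      lt_of_not_ge fun k4 => (mem_filter.1 h4).2 ?_⟩
    · have k5 := (abs_le.1 k2).1
      have k6 := mul_le_mul_of_nonneg_left hl.2.2.2.2.2.2.1 (show (0 : ℝ) ≤ Fintype.card α by linarith)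
      have k7 := mul_le_mul_of_nonneg_right e3 (show (0 : ℝ) ≤ Fintype.card α by linarith)
      rw [u4] at k6
      rw [u8]
      nlinarith
    · obtain ⟨A, hA⟩ := cls α R θ ζ l G K hR hD.lo hD.hi hθ hθ1 e3 k1 k2 k3 k4
      exact ⟨A, hA.lo, hA.hi, hA.deg, hA.cov, hA.mis,
        hA.few.trans (mul_le_mul_of_nonneg_right e1 (by positivity))⟩
  · exact DENSE48.weak hc ((min_le_right _ _).trans (min_le_right _ _)) hn1 hW
      (h3 α l _ ⟨hD.lo, hD.hi, by omega⟩ fun G h =>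
        ⟨(hG G (mem_filter.1 (mem_filter.1 h).1).1).1, (mem_filter.1 h).2⟩)

end Pool.Agent.Lib.SPL
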