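import Pool.Agent.Lib.SPL.Blue

/-! Row DLAM: choice of the weight for a given number of edges. -/

noncomputable section

namespace Pool.Agent.Lib.SPL

namespace DLAM35

/-- fraction of vertices in the clique -/
def xf (l : ℝ) : ℝ := Real.log (1 + l) / (2 * Real.log (1 + l) + bb l)

/-- mean number of edges divided by the square of the number of vertices -/
def Ff (l : ℝ) : ℝ := xf l ^ 2 / 2 + xf l * (1 - xf l) * (l / (1 + l))

theorem xf_bd {l : ℝ} (hl : 0 < l) (h1 : l ≤ 1 / 10) (hb : 10 ≤ bb l) :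
    4 / 5 * (l / bb l) ≤ xf l ∧ xf l ≤ l / bb l := by
  have a1 : Real.log (1 + l) ≤ l := by
    linarith [Real.log_le_sub_one_of_pos (x := 1 + l) (by linarith)]
  have a2 : 9 / 10 * l ≤ Real.log (1 + l) := by
    have h := Real.one_sub_inv_le_log_of_pos (x := 1 + l) (by linarith)
    have h2 : (1 + l)⁻¹ ≤ 1 - 9 / 10 * l := by
      rw [inv_eq_one_div, div_le_iff₀ (by linarith)]; nlinarith
    linarith
  unfold xf
  constructor
  · rw [← mul_div_assoc, div_le_div_iff₀ (by linarith) (by linarith)]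
    have h3 := mul_le_mul_of_nonneg_right a2 (show 0 ≤ bb l by linarith)
    have h4 := mul_le_mul_of_nonneg_left a1 hl.le
    have h5 := mul_le_mul_of_nonneg_left hb hl.le
    have h6 := mul_le_mul_of_nonneg_left h1 hl.le
    nlinarith
  · exact div_le_div₀ hl.le a1 (by linarith) (by linarith)

theorem Ff_bd {l : ℝ} (hl : 0 < l) (h1 : l ≤ 1 / 10) (hb : 10 ≤ bb l) :
    l ^ 2 / bb l / 2 ≤ Ff l ∧ Ff l ≤ 2 * (l ^ 2 / bb l) := by
  obtain ⟨x1, x2⟩ := xf_bd hl h1 hb
  have u0 : 0 < l / bb l := div_pos hl (by linarith)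
  have u1 : l / bb l ≤ l / 10 := div_le_div_of_nonneg_left hl.le (by norm_num) hb
  have p1 : l / (1 + l) ≤ l := div_le_self hl.le (by linarith)
  have p2 : 9 / 10 * l ≤ l / (1 + l) := by rw [le_div_iff₀ (by linarith)]; nlinarith
  have e : l ^ 2 / bb l = l / bb l * l := by ring
  rw [e, Ff]
  generalize l / bb l = u at *
  generalize l / (1 + l) = p at *
  generalize xf l = x at *
  have x0 : 0 ≤ x := by linarith
  constructor
  · have h2 : 4 / 5 * u * (9 / 10) * (9 / 10 * l) ≤ x * (1 - x) * p :=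
      mul_le_mul (mul_le_mul x1 (by linarith) (by norm_num) x0) p2 (by linarith)
        (mul_nonneg x0 (by linarith))
    have := mul_pos u0 hl
    nlinarith [sq_nonneg x]
  · have h2 : x * (1 - x) * p ≤ u * 1 * l :=
      mul_le_mul (mul_le_mul x2 (by linarith) (by linarith) u0.le) p1 (by linarith) (by linarith)
    have h3 : x * x ≤ u * l := mul_le_mul x2 (by linarith) x0 u0.le
    have := mul_pos u0 hl
    nlinarith

theorem near {n m : ℕ} {l : ℝ} (hl : 0 < l) (h1 : l ≤ 1 / 10) (hb : 10 ≤ bb l)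
    (h : (m : ℝ) = n ^ 2 * Ff l) : Near n m l := by
  obtain ⟨x1, x2⟩ := xf_bd hl h1 hb
  have u0 : 0 < l / bb l := div_pos hl (by linarith)
  have u1 : l / bb l ≤ l / 10 := div_le_div_of_nonneg_left hl.le (by norm_num) hb
  have x0 : 0 ≤ xf l := by linarith
  have hn : (0 : ℝ) ≤ n := n.cast_nonneg
  have e : kk n l = ⌊n * xf l⌋₊ := by rw [kk, xf, mul_div_assoc]
  have k1 : (kk n l : ℝ) ≤ n * xf l := e ▸ Nat.floor_le (by positivity)
  have k2 : n * xf l < kk n l + 1 := e ▸ Nat.lt_floor_add_one _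
  have k5 : n * xf l ≤ n * (l / 10) := mul_le_mul_of_nonneg_left (x2.trans u1) hn
  have k6 : n * l ≤ n * (1 / 10) := mul_le_mul_of_nonneg_left h1 hn
  have k4 : kk n l ≤ n := by exact_mod_cast (show (kk n l : ℝ) ≤ n by linarith)
  have p0 : 0 ≤ l / (1 + l) := by positivity
  have p1 : l / (1 + l) ≤ l := div_le_self hl.le (by linarith)
  rw [Near, Nat.cast_choose_two, Nat.cast_mul, Nat.cast_sub k4, h, Ff]
  have k0 : (0 : ℝ) ≤ kk n l := Nat.cast_nonneg _
  generalize (kk n l : ℝ) = k at *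
  generalize l / (1 + l) = p at *
  have e2 : (n : ℝ) ^ 2 * (xf l ^ 2 / 2 + xf l * (1 - xf l) * p) - k * (k - 1) / 2
      - k * (n - k) * p = (n * xf l - k) * (n * xf l + k) / 2 + k / 2
        + (n * xf l - k) * p * (n - n * xf l - k) := by ring
  rw [e2]
  generalize n * xf l = y at *
  have a1 : (y - k) * (y + k) ≤ 1 * (2 * y) := by gcongr <;> linarith
  have a2 : 0 ≤ (y - k) * (y + k) := mul_nonneg (by linarith) (by linarith)
  have a3 : (y - k) * p * (n - y - k) ≤ 1 * l * n := by gcongr <;> linarith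
  have a4 : 0 ≤ (y - k) * p * (n - y - k) :=
    mul_nonneg (mul_nonneg (by linarith) p0) (by linarith)
  have a5 : 0 ≤ n * l := mul_nonneg hn hl.le
  rw [abs_le]
  constructor <;> linarith

end DLAM35

open DLAM35

theorem r_DLAM : R_DLAM := by
  intro ω
  obtain ⟨w, w1, w2⟩ : ∃ w : ℝ, ω ≤ w ∧ 10 ≤ w := ⟨max ω 10, le_max_left _ _, le_max_right _ _⟩
  have l0 := Real.exp_pos (-w)
  refine ⟨8 * w, Real.exp (-w) ^ 2 / w / 2, ⌈Real.exp w⌉₊, by positivity, fun n m hn hC hδ => ?_⟩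
  have n1 : Real.exp w ≤ n := Nat.ceil_le.1 hn
  have n0 : (0 : ℝ) < n := (Real.exp_pos w).trans_le n1
  have hL : w ≤ Real.log n := (Real.le_log_iff_exp_le n0).2 n1
  have hab : (n : ℝ)⁻¹ ≤ Real.exp (-w) := by
    rw [Real.exp_neg]; exact inv_anti₀ (Real.exp_pos w) n1
  have reg : ∀ l ∈ Set.Icc (n : ℝ)⁻¹ (Real.exp (-w)), 0 < l ∧ l ≤ 1 / 10 ∧ w ≤ bb l := by
    intro l hl
    have h0 : 0 < l := (inv_pos.2 n0).trans_le hl.1
    refine ⟨h0, hl.2.trans ?_, ?_⟩
    · rw [Real.exp_neg, inv_eq_one_div]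
      exact one_div_le_one_div_of_le (by norm_num) (by linarith [Real.add_one_le_exp w])
    · have := (Real.log_le_iff_le_exp h0).2 hl.2
      unfold bb; linarith
  have cont : ContinuousOn (fun l => (n : ℝ) ^ 2 * Ff l) (Set.Icc (n : ℝ)⁻¹ (Real.exp (-w))) := by
    have c1 : ContinuousOn (fun l : ℝ => Real.log (1 + l)) (Set.Icc (n : ℝ)⁻¹ (Real.exp (-w))) :=
      (continuousOn_const.add continuousOn_id).log fun l hl => by
        have := (reg l hl).1
        simp only [Pi.add_apply, id]; positivity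
    have c2 : ContinuousOn bb (Set.Icc (n : ℝ)⁻¹ (Real.exp (-w))) :=
      (continuousOn_id.log fun l hl => (reg l hl).1.ne').neg
    have c3 : ContinuousOn xf (Set.Icc (n : ℝ)⁻¹ (Real.exp (-w))) :=
      c1.div ((continuousOn_const.mul c1).add c2) fun l hl => by
        obtain ⟨h0, -, h2⟩ := reg l hl
        have := Real.log_pos (x := 1 + l) (by linarith)
        exact ne_of_gt (show 0 < 2 * Real.log (1 + l) + bb l by linarith)
    have c4 : ContinuousOn (fun l : ℝ => l / (1 + l)) (Set.Icc (n : ℝ)⁻¹ (Real.exp (-w))) :=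
      continuousOn_id.div (continuousOn_const.add continuousOn_id) fun l hl =>
        ne_of_gt (show 0 < 1 + l by linarith [(reg l hl).1])
    exact continuousOn_const.mul (((c3.pow 2).div_const 2).add
      ((c3.mul (continuousOn_const.sub c3)).mul c4))
  have m1 : (1 : ℝ) ≤ m := by
    have h1 : 0 < 8 * w * ((n : ℝ) ^ 4 * Real.log n ^ 10) := by
      have : 0 < Real.log n := by linarith
      positivity
    have h2 : m ≠ 0 := by
      rintro rfl
      simp only [Nat.cast_zero] at hC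
      linarith
    exact_mod_cast Nat.one_le_iff_ne_zero.2 h2
  have lo : (n : ℝ) ^ 2 * Ff (n : ℝ)⁻¹ ≤ m := by
    obtain ⟨h0, h1, h2⟩ := reg _ ⟨le_rfl, hab⟩
    have h3 := mul_le_mul_of_nonneg_left (Ff_bd h0 h1 (w2.trans h2)).2 (sq_nonneg (n : ℝ))
    have h4 : (n : ℝ) ^ 2 * (2 * ((n : ℝ)⁻¹ ^ 2 / bb (n : ℝ)⁻¹)) = 2 / bb (n : ℝ)⁻¹ := by
      field_simp
    have h5 : 2 / bb (n : ℝ)⁻¹ ≤ 1 := (div_le_one (by linarith)).2 (by linarith)
    linarith
  have hi : (m : ℝ) ≤ (n : ℝ) ^ 2 * Ff (Real.exp (-w)) := by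
    obtain ⟨h0, h1, h2⟩ := reg _ ⟨hab, le_rfl⟩
    have h3 := mul_le_mul_of_nonneg_left (Ff_bd h0 h1 (w2.trans h2)).1 (sq_nonneg (n : ℝ))
    rw [show bb (Real.exp (-w)) = w by simp [bb]] at h3
    linarith
  obtain ⟨l, hl, hm⟩ := intermediate_value_Icc hab cont ⟨lo, hi⟩
  obtain ⟨h0, h1, h2⟩ := reg l hl
  obtain ⟨f1, f2⟩ := Ff_bd h0 h1 (w2.trans h2)
  have g1 := mul_le_mul_of_nonneg_left f1 (sq_nonneg (n : ℝ))
  have g2 := mul_le_mul_of_nonneg_left f2 (sq_nonneg (n : ℝ))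
  have eQ : QQ n l = (n : ℝ) ^ 2 * (l ^ 2 / bb l) := by unfold QQ DD; ring
  simp only at hm
  have q2 : (m : ℝ) ≤ 2 * QQ n l := by rw [eQ]; linarith
  refine ⟨l, ⟨h0, w1.trans h2, w1.trans hL, ?_⟩, by rw [eQ]; linarith, q2,
    near h0 h1 (w2.trans h2) hm.symm⟩
  have h3 : (m : ℝ) ^ 3 ≤ (2 * (n * DD n l)) ^ 3 := pow_le_pow_left₀ (by linarith) q2 3
  have h4 : ω * ((n : ℝ) * Real.log n ^ 10) ≤ w * ((n : ℝ) * Real.log n ^ 10) :=
    mul_le_mul_of_nonneg_right w1 (by positivity)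
  refine h4.trans (le_of_mul_le_mul_left ?_ (show (0 : ℝ) < 8 * n ^ 3 by positivity))
  linarith

end Pool.Agent.Lib.SPL
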