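import Pool.Agent.Lib.SPL.Kit2
import Pool.Agent.Lib.SPL.Blue2

open scoped Classical
open Finset

noncomputable section

namespace Pool.Agent.Lib.SPL

namespace DLAM24

theorem den {l : ℝ} (hl : 0 < l) :
    2 * Real.log (1 + l) + bb l = Real.log (1 + l) + Real.log (1 + 1 / l) := by
  rw [show 1 + 1 / l = (1 + l) / l by field_simp; ring, Real.log_div (by positivity) hl.ne', bb]
  ring

theorem lp {l : ℝ} (hl : 0 < l) : 0 < Real.log (1 + l) := Real.log_pos (by linarith)

theorem xs_mem {l : ℝ} (hl : 0 < l) : 0 < xs l ∧ xs l < 1 := by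
  have h1 := lp hl
  have h2 := lp (one_div_pos.2 hl)
  rw [xs, den hl, div_lt_one (by positivity)]
  exact ⟨by positivity, by linarith⟩

theorem frac {R : ℝ} (hR : 1 ≤ R) :
    Real.log (1 + 1 / R) / (Real.log (1 + R) + Real.log (1 + 1 / R)) ≤ 2 / R := by
  have h0 : 0 < 1 / R := by positivity
  have h1 := lp h0
  have h2 : Real.log (1 + 1 / R) ≤ 1 / R := by
    linarith [Real.log_le_sub_one_of_pos (x := 1 + 1 / R) (by linarith)]
  have h3 : 1 / 2 ≤ Real.log (1 + R) :=
    (half_le_log zero_le_one le_rfl).trans (Real.log_le_log (by norm_num) (by linarith))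
  rw [div_le_iff₀ (by linarith), show 2 / R = 2 * (1 / R) by ring]
  nlinarith

theorem near {n m : ℕ} {l : ℝ} (hl : 0 < l)
    (h : (m : ℝ) = n ^ 2 * (xs l ^ 2 / 2 + xs l * (1 - xs l) * (l / (1 + l)))) : Near2 n m l := by
  obtain ⟨x0, x1⟩ := xs_mem hl
  have hn : (0 : ℝ) ≤ n := n.cast_nonneg
  have e : kk n l = ⌊n * xs l⌋₊ := by rw [kk, xs, mul_div_assoc]
  have k1 : (kk n l : ℝ) ≤ n * xs l := e ▸ Nat.floor_le (by positivity)
  have k2 : n * xs l < kk n l + 1 := e ▸ Nat.lt_floor_add_one _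
  have k3 : n * xs l ≤ n := by nlinarith
  have k4 : kk n l ≤ n := by exact_mod_cast k1.trans k3
  have p0 : 0 ≤ l / (1 + l) := by positivity
  have p1 : l / (1 + l) ≤ 1 := (div_le_one (by positivity)).2 (by linarith)
  rw [Near2, Nat.cast_choose_two, Nat.cast_mul, Nat.cast_sub k4, h]
  have k0 : (0 : ℝ) ≤ kk n l := Nat.cast_nonneg _
  generalize (kk n l : ℝ) = k at *
  generalize l / (1 + l) = p at *
  have e2 : (n : ℝ) ^ 2 * (xs l ^ 2 / 2 + xs l * (1 - xs l) * p) - k * (k - 1) / 2 - k * (n - k) * p =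
      (n * xs l - k) * (n * xs l + k) / 2 + k / 2 + (n * xs l - k) * p * (n - n * xs l - k) := by ring
  generalize n * xs l = y at *
  have a1 : (y - k) * (y + k) ≤ 1 * (2 * n) := by gcongr <;> linarith
  have a2 : 0 ≤ (y - k) * (y + k) := mul_nonneg (by linarith) (by linarith)
  have a3 : |(y - k) * p * (n - y - k)| ≤ 1 * 1 * n := by
    rw [abs_mul, abs_mul]
    gcongr <;> rw [abs_le] <;> constructor <;> linarith
  rw [e2]
  rw [abs_le] at a3 ⊢
  constructor <;> linarith [a3.1, a3.2]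

end DLAM24

open DLAM24

theorem r_DLAM2 : R_DLAM2 := by
  intro δ c hδ hc
  obtain ⟨R, h1, h2, h3⟩ : ∃ R : ℝ, 1 ≤ R ∧ 3 / δ ≤ R ∧ 2 / c ≤ R :=
    ⟨max 1 (max (3 / δ) (2 / c)), by simp, by simp, by simp⟩
  refine ⟨R, h1, fun n m hn h4 h5 => ?_⟩
  have hR : 0 < 1 / R := by positivity
  have hn' : (0 : ℝ) < n := by exact_mod_cast hn
  have hcont : ContinuousOn (fun l => xs l ^ 2 / 2 + xs l * (1 - xs l) * (l / (1 + l)))
      (Set.Icc (1 / R) R) := by
    have a1 : ∀ l ∈ Set.Icc (1 / R) R, 0 < l := fun l hl => hR.trans_le hl.1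
    have a2 : ContinuousOn (fun l : ℝ => Real.log (1 + l)) (Set.Icc (1 / R) R) :=
      (continuousOn_const.add continuousOn_id).log fun l hl => (add_pos one_pos (a1 l hl)).ne'
    have a3 : ContinuousOn xs (Set.Icc (1 / R) R) :=
      a2.div ((continuousOn_const.mul a2).add (continuousOn_id.log fun l hl => (a1 l hl).ne').neg)
        fun l hl => by
          rw [den (a1 l hl)]
          exact (add_pos (lp (a1 l hl)) (lp (one_div_pos.2 (a1 l hl)))).ne'
    exact ((a3.pow 2).div_const 2).add ((a3.mul (continuousOn_const.sub a3)).mul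
      (continuousOn_id.div (continuousOn_const.add continuousOn_id)
        fun l hl => by have := a1 l hl; positivity))
  have b1 : xs (1 / R) ≤ 2 / R := by
    rw [xs, den hR, one_div_one_div, add_comm (Real.log (1 + 1 / R))]
    exact frac h1
  have b2 : 1 - xs R ≤ 2 / R := by
    have := add_pos (lp (zero_lt_one.trans_le h1)) (lp hR)
    rw [xs, den (by linarith), one_sub_div this.ne', add_sub_cancel_left]
    exact frac h1
  have b3 : 3 / R ≤ δ := by
    rw [div_le_iff₀ (by linarith), mul_comm]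
    exact (div_le_iff₀ hδ).1 h2
  have b4 : 2 / R ≤ c := by
    rw [div_le_iff₀ (by linarith), mul_comm]
    exact (div_le_iff₀ hc).1 h3
  refine (intermediate_value_Icc ((div_le_one (by linarith)).2 h1 |>.trans h1) hcont
    (show (m : ℝ) / n ^ 2 ∈ Set.Icc _ _ from ⟨?_, ?_⟩)).imp fun l ⟨hl, e⟩ =>
      ⟨hl.1, hl.2, near (hR.trans_le hl.1) ?_⟩
  rotate_right
  · rw [show xs l ^ 2 / 2 + xs l * (1 - xs l) * (l / (1 + l)) = (m : ℝ) / n ^ 2 from e]
    field_simp
  · obtain ⟨x0, x1⟩ := xs_mem hR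
    have p1 : 1 / R / (1 + 1 / R) ≤ 1 := (div_le_one (by positivity)).2 (by linarith)
    have p2 : xs (1 / R) * (1 - xs (1 / R)) * (1 / R / (1 + 1 / R)) ≤ xs (1 / R) * 1 * 1 := by
      gcongr
      linarith
    refine le_trans ?_ ((le_div_iff₀ (by positivity)).2 h4)
    have : 3 / R = 3 / 2 * (2 / R) := by ring
    nlinarith
  · obtain ⟨x0, x1⟩ := xs_mem (zero_lt_one.trans_le h1)
    have p2 : 0 ≤ xs R * (1 - xs R) * (R / (1 + R)) :=
      mul_nonneg (mul_nonneg x0.le (by linarith)) (by positivity)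
    rw [Nat.cast_choose_two] at h5
    rw [div_le_iff₀ (by positivity)]
    have p3 : 1 / 2 - c ≤ xs R ^ 2 / 2 + xs R * (1 - xs R) * (R / (1 + R)) := by
      nlinarith [sq_nonneg (1 - xs R)]
    nlinarith [mul_le_mul_of_nonneg_right p3 (sq_nonneg (n : ℝ))]

end Pool.Agent.Lib.SPL
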