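import Pool.Agent.Lib.SPL.Kit2

/-! Row DLOW of the project spl. -/

open scoped Classical
open Finset

noncomputable section

namespace Pool.Agent.Lib.SPL

namespace DLOW17

theorem kk_bounds {ω l : ℝ} {n : ℕ} (h : Reg ω n l) (hω : 3 ≤ ω) :
    2 * kk n l ≤ n ∧ 9 ≤ kk n l ∧ (n : ℝ) * l ≤ 8 * bb l * kk n l := by
  have h1 : (1 : ℝ) ≤ ω := by linarith
  have hl := h.pos
  have hh := h.le_half h1
  have hb := h.b_ge h1
  have hn := h.n_pos h1
  have a1 := half_le_log hl.le (by linarith)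
  have a2 : Real.log (1 + l) ≤ l := by
    linarith [Real.log_le_sub_one_of_pos (x := 1 + l) (by linarith)]
  have hk : 0 < 2 * Real.log (1 + l) + bb l := by linarith
  have e1 : (243 : ℝ) ≤ ell n l := by
    have : (3 : ℝ) ^ 5 ≤ Real.log n ^ 5 := pow_le_pow_left₀ (by norm_num) (hω.trans h.hL) 5
    linarith [h.D_ge h1, h.D_le_ell h1]
  have e2 := h.b_ell h1
  have x1 : ell n l / 4 ≤ n * Real.log (1 + l) / (2 * Real.log (1 + l) + bb l) := by
    rw [le_div_iff₀ hk]
    nlinarith [mul_le_mul_of_nonneg_left a1 hn.le]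
  have x2 : n * Real.log (1 + l) / (2 * Real.log (1 + l) + bb l) ≤ n / 2 := by
    rw [div_le_iff₀ hk]
    nlinarith
  have f1 : (kk n l : ℝ) ≤ n / 2 := (Nat.floor_le (by linarith)).trans x2
  have f2 : ell n l / 4 < kk n l + 1 := x1.trans_lt (Nat.lt_floor_add_one _)
  refine ⟨?_, ?_, ?_⟩
  · have : (2 : ℝ) * kk n l ≤ n := by linarith
    exact_mod_cast this
  · have : (9 : ℝ) ≤ kk n l := by linarith
    exact_mod_cast this
  · rw [← e2]
    nlinarith

theorem sq_add_le {n : ℕ} (hn2 : 2 ≤ n) : (n : ℝ) ^ 2 + 1 ≤ Real.exp (3 * Real.log n) := by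
  have h2 : (2 : ℝ) ≤ n := by exact_mod_cast hn2
  rw [show (3 : ℝ) = (3 : ℕ) by norm_num, Real.exp_nat_mul, Real.exp_log (by linarith)]
  nlinarith

end DLOW17

theorem r_DLOW : R_DLOW := by
  rintro ⟨ω, hW⟩ hB hS
  refine ⟨124, max ω 3, fun α _ l m h hm => ?_⟩
  have h3 : (3 : ℝ) ≤ max ω 3 := le_max_right _ _
  have h1 : (1 : ℝ) ≤ max ω 3 := by linarith
  have w := hW _ l (h.mono (le_max_left _ _))
  obtain ⟨k1, k2, k3⟩ := DLOW17.kk_bounds h h3
  have hS' := hS α (kk (Fintype.card α) l)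
  have hl := h.pos
  have hh := h.le_half h1
  have hb := h.b_le h1
  have hL := h.L_ge h1
  have hn := h.n_pos h1
  have hn2 := h.two_le h1
  rw [Near] at hm
  rw [ww] at w
  generalize WW (Fintype.card α) l = W at *
  generalize kk (Fintype.card α) l = k at *
  generalize Fintype.card α = n at *
  have p0 : k * (n - k) ≤ n ^ 2 := by rw [sq]; exact Nat.mul_le_mul (by omega) (by omega)
  have p1 : k * n ≤ 2 * (k * (n - k)) := by
    rw [mul_left_comm]; exact Nat.mul_le_mul_left _ (by omega)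
  generalize k * (n - k) = P at *
  have p2 : (k : ℝ) * n ≤ 2 * P := by exact_mod_cast p1
  have k2' : (9 : ℝ) ≤ k := by exact_mod_cast k2
  have p3 : (9 : ℝ) * n ≤ 2 * P := by nlinarith
  have hP : (0 : ℝ) < P := by linarith
  obtain ⟨m1, m2⟩ := abs_le.1 hm
  have q1 : 2 / 3 * l ≤ l / (1 + l) := by rw [le_div_iff₀ (by linarith)]; nlinarith
  have q2 : l / (1 + l) ≤ 1 / 3 := by rw [div_le_iff₀ (by linarith)]; linarith
  have q3 : 4 / 9 * l ≤ l / (1 + l) ^ 2 := by
    rw [le_div_iff₀ (by positivity)]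
    have : (1 + l) ^ 2 ≤ 9 / 4 := by nlinarith
    nlinarith
  have j0 : k.choose 2 ≤ m := by
    have : ((k.choose 2 : ℕ) : ℝ) ≤ m := by
      nlinarith [mul_le_mul_of_nonneg_left q1 hP.le, mul_le_mul_of_nonneg_right p3 hl.le]
    exact_mod_cast this
  obtain ⟨j, rfl⟩ := Nat.exists_eq_add_of_le j0
  rw [Nat.cast_add, add_sub_cancel_left] at hm m1 m2
  have j1 : j ≤ P := by
    have : (j : ℝ) ≤ P := by
      nlinarith [mul_le_mul_of_nonneg_left q2 hP.le, mul_le_mul_of_nonneg_left hh hn.le]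
    exact_mod_cast this
  have b1 := hB P j l hl (by exact_mod_cast hP) j1
  have b2 : ((j : ℝ) - P * (l / (1 + l))) ^ 2 / (P * (l / (1 + l) ^ 2)) ≤ 108 * Real.log n := by
    rw [div_le_iff₀ (by positivity)]
    have c1 : ((j : ℝ) - P * (l / (1 + l))) ^ 2 ≤ (3 * n * l) ^ 2 := sq_le_sq' m1 m2
    have c2 : (n : ℝ) * l ≤ 8 / 3 * Real.log n * k := by nlinarith
    have c3 : (n : ℝ) * l * (n * l) ≤ 8 / 3 * Real.log n * k * (n * l) :=
      mul_le_mul_of_nonneg_right c2 (by positivity)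
    have c4 : Real.log n * l * (k * n) ≤ Real.log n * l * (2 * P) :=
      mul_le_mul_of_nonneg_left p2 (by positivity)
    have c5 : Real.log n * P * (4 / 9 * l) ≤ Real.log n * P * (l / (1 + l) ^ 2) :=
      mul_le_mul_of_nonneg_left q3 (by positivity)
    nlinarith
  have b3 : (1 + l) ^ P ≤ Real.exp (108 * Real.log n) * ((P + 1) * ((P.choose j : ℝ) * l ^ j)) := by
    refine le_trans ?_ (mul_le_mul_of_nonneg_left b1 (Real.exp_pos _).le)
    rw [mul_left_comm, ← Real.exp_add]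
    exact le_mul_of_one_le_right (by positivity) (Real.one_le_exp (by linarith))
  have n3 := DLOW17.sq_add_le hn2
  have s1 : (n.choose k : ℝ) * P.choose j ≤
      Real.exp (3 * Real.log n) * nsp α (k.choose 2 + j) := by
    refine le_trans ?_ (mul_le_mul_of_nonneg_right n3 (by positivity))
    exact_mod_cast hS' j
  have s2 : (P : ℝ) + 1 ≤ Real.exp (3 * Real.log n) := by
    refine le_trans ?_ n3
    exact_mod_cast Nat.succ_le_succ p0
  calc W ≤ _ := w
    _ ≤ Real.exp (10 * Real.log n ^ 2) * ((n.choose k : ℝ) * (l ^ k.choose 2 *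
        (Real.exp (108 * Real.log n) *
          (Real.exp (3 * Real.log n) * ((P.choose j : ℝ) * l ^ j))))) := by
      gcongr
      exact b3.trans (by gcongr)
    _ = Real.exp (10 * Real.log n ^ 2) * Real.exp (108 * Real.log n) * Real.exp (3 * Real.log n) *
        (((n.choose k : ℝ) * P.choose j) * l ^ (k.choose 2 + j)) := by ring
    _ ≤ Real.exp (10 * Real.log n ^ 2) * Real.exp (108 * Real.log n) * Real.exp (3 * Real.log n) *
        ((Real.exp (3 * Real.log n) * nsp α (k.choose 2 + j)) * l ^ (k.choose 2 + j)) := by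
      gcongr
    _ = Real.exp (10 * Real.log n ^ 2 + 108 * Real.log n + 3 * Real.log n + 3 * Real.log n) *
        (nsp α (k.choose 2 + j) * l ^ (k.choose 2 + j)) := by
      simp only [Real.exp_add]; ring
    _ ≤ _ := by
      gcongr
      nlinarith

end Pool.Agent.Lib.SPL
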