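import Pool.Agent.Lib.SPL.Blue2

open Finset

namespace Pool.Agent.Lib.SPL

namespace DLOW220

theorem sizes {R x n k : ℝ} (hR : 1 ≤ R) (h1 : 1 / (4 * R ^ 2) ≤ x) (h2 : x ≤ 1 - 1 / (4 * R ^ 2))
    (hn : 192 * R ^ 5 ≤ n) (hk1 : k ≤ n * x) (hk2 : n * x < k + 1) :
    k ≤ n ∧ n ^ 2 ≤ 32 * R ^ 4 * (k * (n - k)) := by
  have hR0 : 0 < R := by linarith
  have h5 : R ^ 2 ≤ R ^ 5 := pow_le_pow_right₀ hR (by norm_num)
  have h6 : 1 ≤ R ^ 2 := one_le_pow₀ hR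
  have hn0 : 0 < n := by linarith
  have a1 : 1 ≤ 4 * R ^ 2 * x := by rwa [div_le_iff₀ (by positivity), mul_comm] at h1
  have a2 : 1 ≤ 4 * R ^ 2 * (1 - x) := by
    have : 1 / (4 * R ^ 2) ≤ 1 - x := by linarith
    rwa [div_le_iff₀ (by positivity), mul_comm] at this
  have b1 : n ≤ 8 * R ^ 2 * k := by
    have c1 := mul_le_mul_of_nonneg_left a1 hn0.le
    have c2 := mul_le_mul_of_nonneg_left hk2.le (show 0 ≤ 4 * R ^ 2 by positivity)
    linarith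
  have b2 : n ≤ 4 * R ^ 2 * (n - k) := by
    have c1 := mul_le_mul_of_nonneg_left a2 hn0.le
    have c2 := mul_le_mul_of_nonneg_left hk1 (show 0 ≤ 4 * R ^ 2 by positivity)
    linarith
  refine ⟨?_, ?_⟩
  · by_contra! h
    nlinarith
  · calc n ^ 2 = n * n := sq n
      _ ≤ (8 * R ^ 2 * k) * (4 * R ^ 2 * (n - k)) := mul_le_mul b1 b2 hn0.le (by linarith)
      _ = _ := by ring

theorem probs {R l : ℝ} (hR : 1 ≤ R) (hl : 0 < l) (h1 : 1 / R ≤ l) (h2 : l ≤ R) :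
    1 ≤ 2 * R * (l / (1 + l)) ∧ 1 ≤ 2 * R * (1 - l / (1 + l)) ∧
      1 ≤ 4 * R ^ 2 * (l / (1 + l) ^ 2) := by
  have h3 : 1 ≤ l * R := by rwa [div_le_iff₀ (by linarith)] at h1
  have a1 : 1 ≤ 2 * R * (l / (1 + l)) := by
    rw [← mul_div_assoc, le_div_iff₀ (by linarith)]
    nlinarith
  have e : 1 - l / (1 + l) = 1 / (1 + l) := by
    field_simp
    ring
  have a2 : 1 ≤ 2 * R * (1 - l / (1 + l)) := by
    rw [e, ← mul_div_assoc, le_div_iff₀ (by linarith)]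
    linarith
  refine ⟨a1, a2, ?_⟩
  have a3 := one_le_mul_of_one_le_of_one_le a1 a2
  rw [e] at a3
  refine a3.trans (le_of_eq ?_)
  field_simp
  ring

end DLOW220

open DLOW220 in
theorem r_DLOW2 : R_DLOW2 := by
  intro hXS hDW hBIN hSPL R hR
  obtain ⟨K, n0, hK⟩ := hDW R hR
  refine ⟨K + (1152 * R ^ 6 + 6), max n0 ⌈192 * R ^ 5⌉₊, fun α _ l m hD hN => ?_⟩
  have h0 := hK _ l ⟨hD.lo, hD.hi, (le_max_left _ _).trans hD.big⟩
  obtain ⟨hl, -, -, -, -, -, x1, x2, -⟩ := hXS R l hR hD.lo hD.hi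
  have hn : 192 * R ^ 5 ≤ (Fintype.card α : ℝ) := Nat.ceil_le.mp ((le_max_right _ _).trans hD.big)
  have hS := hSPL α (kk (Fintype.card α) l)
  unfold Near2 at hN
  have hkk : kk (Fintype.card α) l = ⌊(Fintype.card α : ℝ) * xs l⌋₊ := by
    rw [kk, xs, mul_div_assoc]
  generalize Fintype.card α = n at *
  have hR0 : 0 < R := by linarith
  have hR5 : 1 ≤ R ^ 5 := one_le_pow₀ hR
  have hn0 : (0 : ℝ) < n := by linarith
  have hx0 : 0 ≤ xs l := le_trans (by positivity) x1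
  obtain ⟨k1, k2⟩ := sizes hR x1 x2 hn (k := kk n l)
    (hkk ▸ Nat.floor_le (mul_nonneg hn0.le hx0)) (hkk ▸ Nat.lt_floor_add_one _)
  generalize kk n l = k at *
  have kn : k ≤ n := by exact_mod_cast k1
  have hP : ((k * (n - k) : ℕ) : ℝ) = k * (n - k) := by rw [Nat.cast_mul, Nat.cast_sub kn]
  have hPn : k * (n - k) ≤ n ^ 2 := by
    rw [sq]
    exact Nat.mul_le_mul kn (Nat.sub_le _ _)
  rw [← hP] at k2
  rw [ww] at h0
  generalize k * (n - k) = P at *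
  obtain ⟨p1, p2, p3⟩ := probs hR hl hD.lo hD.hi
  have hP0 : (0 : ℝ) < P := by
    by_contra! h
    have : 32 * R ^ 4 * (P : ℝ) ≤ 0 := mul_nonpos_of_nonneg_of_nonpos (by positivity) h
    nlinarith
  have key : ∀ p : ℝ, 1 ≤ 2 * R * p → 3 * (n : ℝ) ≤ P * p := fun p hp => by
    have c1 := mul_le_mul_of_nonneg_left hp (show 0 ≤ 32 * R ^ 4 * (P : ℝ) by positivity)
    have c2 := mul_le_mul_of_nonneg_right hn hn0.le
    refine le_of_mul_le_mul_left ?_ (show 0 < 64 * R ^ 5 by positivity)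
    nlinarith
  obtain ⟨n1, n2⟩ := abs_le.mp hN
  have m1 : k.choose 2 ≤ m := by
    have := key _ p1
    exact_mod_cast (show ((k.choose 2 : ℕ) : ℝ) ≤ m by linarith)
  obtain ⟨j, rfl⟩ := Nat.exists_eq_add_of_le m1
  rw [Nat.cast_add, add_sub_cancel_left] at n1 n2
  have jP : j ≤ P := by
    have := key _ p2
    exact_mod_cast (show (j : ℝ) ≤ P by linarith)
  have hB := hBIN P j l hl (by exact_mod_cast hP0) jP
  have hχ : ((j : ℝ) - P * (l / (1 + l))) ^ 2 / (P * (l / (1 + l) ^ 2)) ≤ 1152 * R ^ 6 := by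
    rw [div_le_iff₀ (by positivity)]
    have c1 : ((j : ℝ) - P * (l / (1 + l))) ^ 2 ≤ (3 * n) ^ 2 := sq_le_sq' n1 n2
    have c2 := mul_le_mul_of_nonneg_left p3 (show 0 ≤ 32 * R ^ 4 * (P : ℝ) by positivity)
    linarith
  have hB' : (1 + l) ^ P ≤ Real.exp (1152 * R ^ 6) * ((P + 1) * ((P.choose j : ℝ) * l ^ j)) := by
    rw [Real.exp_neg, ← div_eq_mul_inv, div_le_iff₀ (Real.exp_pos _), mul_comm] at hB
    exact hB.trans (mul_le_mul_of_nonneg_right (Real.exp_le_exp.mpr hχ) (by positivity))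
  have hS' : (n.choose k : ℝ) * P.choose j ≤ ((n : ℝ) ^ 2 + 1) * nsp α (k.choose 2 + j) := by
    exact_mod_cast hS j
  have hL : 1 ≤ Real.log n := by
    rw [Real.le_log_iff_exp_le hn0]
    linarith [Real.exp_one_lt_d9]
  have hL2 : Real.log n ≤ Real.log n ^ 2 := le_self_pow₀ hL (by norm_num)
  have hsq : (n : ℝ) ^ 2 + 1 ≤ Real.exp (3 * Real.log n ^ 2) := by
    have c1 : (n : ℝ) ^ 3 = Real.exp (3 * Real.log n) := by
      rw [show (3 : ℝ) = (3 : ℕ) by norm_num, Real.exp_nat_mul, Real.exp_log hn0]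
    have c2 : (n : ℝ) ^ 2 + 1 ≤ (n : ℝ) ^ 3 := by nlinarith
    exact c2.trans (c1 ▸ Real.exp_le_exp.mpr (by linarith))
  have hP1 : (P : ℝ) + 1 ≤ Real.exp (3 * Real.log n ^ 2) := by
    have : (P : ℝ) ≤ (n : ℝ) ^ 2 := by exact_mod_cast hPn
    linarith
  have hc : Real.exp (1152 * R ^ 6) ≤ Real.exp (1152 * R ^ 6 * Real.log n ^ 2) :=
    Real.exp_le_exp.mpr (le_mul_of_one_le_right (by positivity) (hL.trans hL2))
  calc WW n l ≤ _ := h0
    _ ≤ Real.exp (K * Real.log n ^ 2) * ((n.choose k : ℝ) * (l ^ k.choose 2 *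
        (Real.exp (1152 * R ^ 6) * ((P + 1) * ((P.choose j : ℝ) * l ^ j))))) := by gcongr
    _ = Real.exp (K * Real.log n ^ 2) * (Real.exp (1152 * R ^ 6) * (P + 1) *
        ((n.choose k : ℝ) * P.choose j) * l ^ (k.choose 2 + j)) := by ring
    _ ≤ Real.exp (K * Real.log n ^ 2) * (Real.exp (1152 * R ^ 6 * Real.log n ^ 2) *
        Real.exp (3 * Real.log n ^ 2) * (Real.exp (3 * Real.log n ^ 2) * nsp α (k.choose 2 + j)) *
        l ^ (k.choose 2 + j)) := by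
        have c1 := hS'.trans (mul_le_mul_of_nonneg_right hsq (Nat.cast_nonneg _))
        gcongr _ * (?_ * ?_ * ?_ * _)
    _ = _ := by
        rw [show (K + (1152 * R ^ 6 + 6)) * Real.log n ^ 2 = K * Real.log n ^ 2 +
          (1152 * R ^ 6 * Real.log n ^ 2 + 3 * Real.log n ^ 2 + 3 * Real.log n ^ 2) by ring]
        simp only [Real.exp_add]
        ring

end Pool.Agent.Lib.SPL
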