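import Pool.Agent.Lib.SPL.Kit2

/-! Row DP of the project spl. -/

open scoped Classical
open Finset

namespace Pool.Agent.Lib.SPL

namespace DP30

theorem num1 {ε t b N i d : ℝ} (e0 : 0 < ε) (b1 : 1 ≤ b) (i0 : 0 < i) (hi : i ≤ N) (d0 : 0 < d)
    (hd : d ≤ i) (h1 : 16 * b ^ 3 * t ≤ ε ^ 14 * N ^ 2) (h2 : N ≤ ε ^ 3 * (t / b))
    (h3 : ε ^ 2 * (t / b) * N ≤ d ^ 2 * i) : i ≤ ε * d ^ 2 ∧ 2 * t ≤ ε ^ 2 * i * d := by
  have b0 : 0 < b := by linarith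
  have N0 : 0 < N := by linarith
  obtain ⟨u, rfl⟩ : ∃ u, t = u * b := ⟨t / b, by field_simp⟩
  rw [mul_div_cancel_right₀ _ b0.ne'] at h2 h3
  have u0 : 0 < u := by
    by_contra hn
    have : ε ^ 3 * u ≤ 0 := mul_nonpos_of_nonneg_of_nonpos (by positivity) (not_lt.mp hn)
    linarith
  have h4 : ε ^ 2 * u ≤ d ^ 2 := by
    refine le_of_mul_le_mul_right (h3.trans ?_) N0
    exact mul_le_mul_of_nonneg_left hi (by positivity)
  refine ⟨?_, ?_⟩
  · calc i ≤ ε * (ε ^ 2 * u) := by linarith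
      _ ≤ ε * d ^ 2 := mul_le_mul_of_nonneg_left h4 e0.le
  · refine le_of_pow_le_pow_left₀ (n := 4) (by norm_num) (by positivity) ?_
    have h5 : (ε ^ 2 * u * N) ^ 2 ≤ (d ^ 2 * i) ^ 2 := pow_le_pow_left₀ (by positivity) h3 2
    have h6 : ε ^ 2 * u ≤ i ^ 2 := h4.trans (pow_le_pow_left₀ d0.le hd 2)
    calc (2 * (u * b)) ^ 4 = 16 * b ^ 3 * (u * b) * u ^ 3 := by ring
      _ ≤ ε ^ 14 * N ^ 2 * u ^ 3 := mul_le_mul_of_nonneg_right h1 (by positivity)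
      _ = ε ^ 8 * (ε ^ 2 * u * (ε ^ 2 * u * N) ^ 2) := by ring
      _ ≤ ε ^ 8 * (i ^ 2 * (d ^ 2 * i) ^ 2) :=
        mul_le_mul_of_nonneg_left (mul_le_mul h6 h5 (by positivity) (by positivity))
          (by positivity)
      _ = _ := by ring

theorem num2 {ε i c D x y z : ℝ} (e0 : 0 < ε) (e1 : ε ≤ 1 / 100) (i0 : 0 < i) (hi : i ≤ ε * D)
    (hc : (1 - ε) * i ≤ c) (y0 : 0 ≤ y) (z0 : 0 ≤ z) (hx : y + z ≤ x)
    (hD : (1 + 10 * ε) ^ 2 * x ≤ D) : 0 ≤ (1 - 3 * ε) * D - y ∧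
      (1 + ε) * i ^ 2 * (i + ε * D + z) ≤ ((1 - 3 * ε) * D - y) * c ^ 2 := by
  have D0 : 0 ≤ D := le_trans (mul_nonneg (sq_nonneg _) (by linarith)) hD
  have h1 : x ≤ (1 - 10 * ε) * D := by
    have h2 : 1 ≤ (1 - 10 * ε) * (1 + 10 * ε) ^ 2 := by nlinarith [mul_pos e0 e0]
    calc x ≤ (1 - 10 * ε) * (1 + 10 * ε) ^ 2 * x := le_mul_of_one_le_left (by linarith) h2
      _ ≤ _ := by rw [mul_assoc]; exact mul_le_mul_of_nonneg_left hD (by linarith)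
  have h3 : 0 ≤ (1 - 3 * ε) * D - y := by nlinarith [mul_nonneg e0.le D0]
  refine ⟨h3, ?_⟩
  have h4 : ((1 - ε) * i) ^ 2 ≤ c ^ 2 := pow_le_pow_left₀ (mul_nonneg (by linarith) i0.le) hc 2
  have h5 : (1 + ε) * (i + ε * D + z) ≤ ((1 - 3 * ε) * D - y) * (1 - ε) ^ 2 := by
    have h6 : (1 + ε) * (1 - 8 * ε) ≤ (1 - 3 * ε) * (1 - ε) ^ 2 := by nlinarith [mul_pos e0 e0]
    have h7 : y * (1 - ε) ^ 2 ≤ y * (1 + ε) := mul_le_mul_of_nonneg_left (by nlinarith) y0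
    have h8 : (1 + ε) * (i + ε * D + z + y) ≤ (1 + ε) * ((1 - 8 * ε) * D) :=
      mul_le_mul_of_nonneg_left (by linarith) (by linarith)
    nlinarith [mul_le_mul_of_nonneg_right h6 D0]
  calc (1 + ε) * i ^ 2 * (i + ε * D + z) = (1 + ε) * (i + ε * D + z) * i ^ 2 := by ring
    _ ≤ ((1 - 3 * ε) * D - y) * (1 - ε) ^ 2 * i ^ 2 := mul_le_mul_of_nonneg_right h5 (sq_nonneg _)
    _ = ((1 - 3 * ε) * D - y) * ((1 - ε) * i) ^ 2 := by ring
    _ ≤ _ := mul_le_mul_of_nonneg_left h4 h3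

end DP30

theorem r_DP : R_DP := by
  intro hM α _ ε t b Λ E F hD hE hΛ hL V hV
  by_contra hn
  simp only [not_exists, not_and, not_lt] at hn
  have e0 := hD.e0
  have e1 := hD.e1
  have Λ0 : 0 ≤ Λ := (Real.sqrt_nonneg _).trans hΛ
  obtain ⟨d, hd⟩ : ∃ d, d = ⌈(1 + 10 * ε) * Real.sqrt (ar E V) +
    ε * Λ * Real.sqrt ((Fintype.card α : ℝ) / V.card) + 1⌉₊ := ⟨_, rfl⟩
  have hdeg : ∀ v ∈ V, d ≤ dg (F \ E) v V := fun v hv => hd ▸ Nat.ceil_le.mpr (hn v hv)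
  have hd1 : (1 + 10 * ε) * Real.sqrt (ar E V) +
    ε * Λ * Real.sqrt ((Fintype.card α : ℝ) / V.card) + 1 ≤ d := hd ▸ Nat.le_ceil _
  have i0 : (0 : ℝ) < V.card := by exact_mod_cast hV.card_pos
  have iN : (V.card : ℝ) ≤ Fintype.card α := by exact_mod_cast card_le_univ V
  have s1 : 0 ≤ (1 + 10 * ε) * Real.sqrt (ar E V) := by positivity
  have s2 : 0 ≤ ε * Λ * Real.sqrt ((Fintype.card α : ℝ) / V.card) := by positivity
  have d0 : (0 : ℝ) < d := by linarith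
  have di : (d : ℝ) ≤ V.card := by
    obtain ⟨v, hv⟩ := hV
    exact_mod_cast (hdeg v hv).trans (dg_le_card _ _ _)
  have k1 : (1 + 10 * ε) ^ 2 * (ar E V : ℝ) ≤ (d : ℝ) ^ 2 := by
    have := pow_le_pow_left₀ s1 (show _ ≤ (d : ℝ) by linarith) 2
    rwa [mul_pow, Real.sq_sqrt (Nat.cast_nonneg _)] at this
  have k2 : ε ^ 2 * Λ ^ 2 * Fintype.card α ≤ (d : ℝ) ^ 2 * V.card := by
    have := pow_le_pow_left₀ s2 (show _ ≤ (d : ℝ) by linarith) 2
    rw [mul_pow, Real.sq_sqrt (by positivity), ← mul_div_assoc, div_le_iff₀ i0] at this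
    linarith
  have t0 : 0 ≤ t / b := div_nonneg ((Nat.cast_nonneg _).trans hE) (by linarith [hD.b1])
  have k3 : t / b ≤ Λ ^ 2 := by
    have := pow_le_pow_left₀ (Real.sqrt_nonneg _) hΛ 2
    rwa [Real.sq_sqrt t0] at this
  obtain ⟨n1, n2⟩ := DP30.num1 e0 hD.b1 i0 iN d0 di hD.h1 hD.h2
    (le_trans (mul_le_mul_of_nonneg_right (mul_le_mul_of_nonneg_left k3 (by positivity))
      (Nat.cast_nonneg _)) k2)
  obtain ⟨H, hH⟩ : ∃ H, H = V.filter (fun v => ε * d ≤ (dg E v V : ℝ)) := ⟨_, rfl⟩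
  have HV : H ⊆ V := hH ▸ filter_subset _ _
  have hH1 : (H.card : ℝ) ≤ ε * V.card := by
    have a1 : (H.card : ℝ) * (ε * d) ≤ ∑ v ∈ H, (dg E v V : ℝ) := by
      have := card_nsmul_le_sum H (fun v => (dg E v V : ℝ)) (ε * d)
        (fun v hv => by rw [hH] at hv; exact (mem_filter.mp hv).2)
      rwa [nsmul_eq_mul] at this
    have a2 : ∑ v ∈ H, dg E v V ≤ 2 * ed E := (sum_le_sum_of_subset HV).trans (ar_le_ed E V)
    have a3 : ∑ v ∈ H, (dg E v V : ℝ) ≤ 2 * ed E := by exact_mod_cast a2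
    refine le_of_mul_le_mul_right ?_ (mul_pos e0 d0)
    linarith
  have hC : (1 - ε) * V.card ≤ ((V \ H).card : ℝ) := by
    have : ((V \ H).card : ℝ) + H.card = V.card := by exact_mod_cast card_sdiff_add_card_eq_card HV
    linarith
  have hyz : (ar E H : ℝ) + ar E (V \ H) ≤ ar E V := by
    exact_mod_cast ar_add_le E disjoint_sdiff HV sdiff_subset
  obtain ⟨m1, m2⟩ := DP30.num2 e0 e1 i0 n1 hC (Nat.cast_nonneg _) (Nat.cast_nonneg _) hyz k1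
  have hB : ∀ u, ∃ B : Finset α, u ∈ V → B ⊆ nb (F \ E) u V ∧ B.card = d := fun u => by
    by_cases hu : u ∈ V
    · obtain ⟨B, h1, h2⟩ := exists_subset_card_eq (hdeg u hu)
      exact ⟨B, fun _ => ⟨h1, h2⟩⟩
    · exact ⟨∅, fun h => absurd h hu⟩
  choose B hB using hB
  have h1 := hL V (V \ H) B d (hM α ε _ E F V (V \ H) B d e0 m1 hV (by exact_mod_cast d0)
    sdiff_subset (fun u hu => by
      obtain ⟨b1, b2⟩ := hB u (mem_sdiff.mp hu).1
      refine ⟨b1, b2, ?_⟩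
      have BV : B u ⊆ V := b1.trans (nb_subset _ _ _)
      have a1 : (ar E (B u) : ℝ) + ar Eᶜ (B u) + d = (d : ℝ) ^ 2 := by
        rw [← b2]; exact_mod_cast ar_add_compl E (B u)
      have a2 : (ar E (B u) : ℝ) ≤ ar E H + 2 * ∑ x ∈ B u \ H, (dg E x V : ℝ) := by
        have := (ar_le_inter E (B u) H).trans (add_le_add (ar_mono le_rfl inter_subset_right)
          (Nat.mul_le_mul_left 2 (sum_le_sum fun x _ => dg_mono le_rfl BV x)))
        exact_mod_cast this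
      have a3 : ∑ x ∈ B u \ H, (dg E x V : ℝ) ≤ d * (ε * d) := by
        have := sum_le_card_nsmul (B u \ H) (fun x => (dg E x V : ℝ)) (ε * d) fun x hx => by
          have := (mem_sdiff.mp hx).2
          rw [hH, mem_filter, not_and, not_le] at this
          exact (this (BV (mem_sdiff.mp hx).1)).le
        rw [nsmul_eq_mul] at this
        refine this.trans (mul_le_mul_of_nonneg_right ?_ (by positivity))
        rw [← b2]; exact_mod_cast card_le_card sdiff_subset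
      linarith) m2)
  linarith

end Pool.Agent.Lib.SPL
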