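import Pool.Agent.Lib.SPL.Kit2

/-! Row DQ of the project spl. -/

open scoped Classical
open Finset

namespace Pool.Agent.Lib.SPL

theorem r_DQ : R_DQ := by
  intro hM α _ ε Λ h E F V C d e0 e1 hΛ hL hCV hC hd hN hdeg hεΛ hNd hh
  by_contra hn
  have hB : ∀ u, ∃ B : Finset α, u ∈ C → B ⊆ nb (F \ E) u V ∧ B.card = d := fun u => by
    by_cases hu : u ∈ C
    · obtain ⟨B, h1, h2⟩ := exists_subset_card_eq (hdeg u hu)
      exact ⟨B, fun _ => ⟨h1, h2⟩⟩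
    · exact ⟨∅, fun h => absurd h hu⟩
  choose B hB using hB
  have a0 : (0 : ℝ) ≤ ar E C := Nat.cast_nonneg _
  have d0 : (0 : ℝ) < d := by exact_mod_cast hd
  have v1 : (V.card : ℝ) ≤ Fintype.card α := by exact_mod_cast card_le_univ V
  have v2 : (C.card : ℝ) ≤ V.card := by exact_mod_cast card_le_card hCV
  have v3 : (Fintype.card α : ℝ) ≤ 3 * C.card := by exact_mod_cast hN
  have c0 : (0 : ℝ) ≤ C.card := Nat.cast_nonneg _
  have n0 : (0 : ℝ) ≤ Fintype.card α := Nat.cast_nonneg _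
  have s0 : 0 ≤ 2 * ε * (d : ℝ) ^ 2 + ar E C := by positivity
  rw [not_le] at hn
  have h1 := hL V C B d (hM α ε h E F V C B d e0 (by linarith) (hC.mono hCV) hd hCV
    (fun u hu => ⟨(hB u hu).1, (hB u hu).2, hh _ (hB u hu).2⟩) (by
      have b1 : (V.card : ℝ) ^ 2 ≤ 9 * (C.card : ℝ) ^ 2 := by nlinarith
      have b2 : (1 + ε) * (V.card : ℝ) ^ 2 ≤ 10 * (C.card : ℝ) ^ 2 := by
        nlinarith [sq_nonneg (V.card : ℝ), sq_nonneg (C.card : ℝ)]
      calc _ ≤ 10 * (C.card : ℝ) ^ 2 * (2 * ε * (d : ℝ) ^ 2 + ar E C) :=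
            mul_le_mul b2 (by linarith) (by positivity) (by positivity)
        _ ≤ _ := by nlinarith [sq_nonneg (C.card : ℝ)]))
  have h2 : (2 * ε * Λ) ^ 2 ≤ (d : ℝ) ^ 2 := pow_le_pow_left₀ (by positivity) hεΛ 2
  have h3 : (2 * ε * Λ) ^ 2 * C.card ≤ (d : ℝ) ^ 2 * V.card :=
    mul_le_mul h2 v2 c0 (by positivity)
  nlinarith [mul_nonneg (sq_nonneg (ε * Λ)) c0, mul_le_mul_of_nonneg_left v3 (sq_nonneg (ε * Λ))]

end Pool.Agent.Lib.SPL
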