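import Pool.Agent.Lib.SPL.Kit2

/-! spl block DR: peeling. -/

open scoped Classical
open Finset

noncomputable section

namespace Pool.Agent.Lib.SPL

namespace DR45

theorem sqrt_step (N : ℝ) (i : ℕ) :
    Real.sqrt (N / ((i : ℝ) + 1)) ≤ 2 * Real.sqrt N * (Real.sqrt ((i : ℝ) + 1) - Real.sqrt i) := by
  have h0 : (0 : ℝ) ≤ i := Nat.cast_nonneg i
  have h1 : 0 < Real.sqrt ((i : ℝ) + 1) := Real.sqrt_pos.mpr (by linarith)
  have h2 : Real.sqrt ((i : ℝ) + 1) ^ 2 = i + 1 := Real.sq_sqrt (by linarith)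
  have h3 : Real.sqrt (i : ℝ) ^ 2 = i := Real.sq_sqrt h0
  rw [Real.sqrt_div' _ (by linarith), div_le_iff₀ h1]
  have h4 : 1 ≤ 2 * (Real.sqrt ((i : ℝ) + 1) - Real.sqrt i) * Real.sqrt ((i : ℝ) + 1) := by
    nlinarith [sq_nonneg (Real.sqrt ((i : ℝ) + 1) - Real.sqrt i)]
  nlinarith [mul_le_mul_of_nonneg_left h4 (Real.sqrt_nonneg N)]

end DR45

theorem r_DR : R_DR := by
  intro α _ κ y E M hκ hy hP V j hj
  obtain ⟨m, hm⟩ := Nat.exists_eq_add_of_le hj
  induction m generalizing V with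
  | zero =>
    refine ⟨V, Subset.rfl, by simpa using hm, ?_⟩
    rw [hm]
    simp
  | succ m ih =>
    obtain ⟨v, hv, hd⟩ := hP V (card_pos.mp (by omega))
    have hc : (V.erase v).card = j + m := by rw [card_erase_of_mem hv]; omega
    obtain ⟨V', h1, h2, h3⟩ := ih (V.erase v) (by omega) hc
    refine ⟨V', h1.trans (erase_subset _ _), h2, ?_⟩
    have h4 : (ar M V : ℝ) = ar M (V.erase v) + 2 * dg M v V := by
      exact_mod_cast ar_erase M hv
    have h5 : Real.sqrt (ar E (V.erase v)) ≤ Real.sqrt (ar E V) :=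
      Real.sqrt_le_sqrt (by exact_mod_cast ar_mono le_rfl (erase_subset _ _))
    have h6 := DR45.sqrt_step (Fintype.card α) (j + m)
    have e1 : (V.card : ℝ) = ((j + m : ℕ) : ℝ) + 1 := by rw [hm]; push_cast; ring
    rw [hc] at h3
    rw [e1] at hd ⊢
    have h7 := mul_le_mul_of_nonneg_left h6 hy
    have h8 := mul_le_mul_of_nonneg_left h5 hκ
    have h9 : (0 : ℝ) ≤ ((j + m : ℕ) : ℝ) - j := by push_cast; simp
    have h10 := mul_le_mul_of_nonneg_left h8 h9
    nlinarith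

end Pool.Agent.Lib.SPL
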