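import Pool.Agent.Lib.SPL.Kit2

/-! Row DSPL: a lower bound for the number of split graphs. -/

open scoped Classical
open Finset

noncomputable section

namespace Pool.Agent.Lib.SPL

namespace DSPL87

variable {α : Type}

/-- the clique on `K` together with the pairs in `S` -/
def mk (K : Finset α) (S : Finset (α × α)) : Gr α :=
  SimpleGraph.fromRel (fun x y => (x ∈ K ∧ y ∈ K) ∨ (x, y) ∈ S)

theorem mk_adj {K : Finset α} {S : Finset (α × α)} {x y : α} :
    (mk K S).Adj x y ↔ x ≠ y ∧ ((x ∈ K ∧ y ∈ K) ∨ (x, y) ∈ S ∨ (y, x) ∈ S) := by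
  simp only [mk, SimpleGraph.fromRel_adj]
  tauto

variable [Fintype α] {K : Finset α} {S : Finset (α × α)}

theorem mem_of (h : S ⊆ K ×ˢ Kᶜ) {x y : α} (hp : (x, y) ∈ S) : x ∈ K ∧ y ∉ K := by
  simpa using h hp

omit [Fintype α] in
theorem clq (K : Finset α) (S : Finset (α × α)) : Clq (mk K S) K :=
  fun _ hx _ hy hne => mk_adj.2 ⟨hne, Or.inl ⟨hx, hy⟩⟩

theorem ind (h : S ⊆ K ×ˢ Kᶜ) : Ind (mk K S) Kᶜ := by
  intro x hx y hy e
  rw [mem_compl] at hx hy
  rcases (mk_adj.1 e).2 with e | e | e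
  · exact hx e.1
  · exact hx (mem_of h e).1
  · exact hy (mem_of h e).1

theorem mem_iff (h : S ⊆ K ×ˢ Kᶜ) (x y : α) :
    (x, y) ∈ S ↔ x ∈ K ∧ y ∉ K ∧ (mk K S).Adj x y := by
  constructor
  · intro hp
    obtain ⟨h1, h2⟩ := mem_of h hp
    exact ⟨h1, h2, mk_adj.2 ⟨fun e => h2 (e ▸ h1), Or.inr (Or.inl hp)⟩⟩
  · rintro ⟨h1, h2, e⟩
    rcases (mk_adj.1 e).2 with e | e | e
    · exact absurd e.2 h2
    · exact e
    · exact absurd (mem_of h e).1 h2

theorem ed_mk (h : S ⊆ K ×ˢ Kᶜ) : ed (mk K S) = K.card.choose 2 + S.card := by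
  have h1 := ar_univ (mk K S)
  rw [ar_eq_card] at h1
  have h2 : ((univ ×ˢ univ : Finset (α × α)).filter (fun p => (mk K S).Adj p.1 p.2)) =
      K.offDiag ∪ (S ∪ S.image Prod.swap) := by
    ext ⟨x, y⟩
    have e : (x, y) ∈ S.image Prod.swap ↔ (y, x) ∈ S := by
      simp only [mem_image, Prod.exists, Prod.swap_prod_mk, Prod.mk.injEq]
      exact ⟨fun ⟨a, b, hab, e1, e2⟩ => e1 ▸ e2 ▸ hab, fun hp => ⟨y, x, hp, rfl, rfl⟩⟩
    simp only [mem_filter, mem_product, mem_univ, true_and, mem_union, mem_offDiag, e, mk_adj]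
    constructor
    · rintro ⟨hne, e | e | e⟩
      · exact Or.inl ⟨e.1, e.2, hne⟩
      · exact Or.inr (Or.inl e)
      · exact Or.inr (Or.inr e)
    · rintro (e | e | e)
      · exact ⟨e.2.2, Or.inl ⟨e.1, e.2.1⟩⟩
      · exact ⟨fun q => (mem_of h e).2 (q ▸ (mem_of h e).1), Or.inr (Or.inl e)⟩
      · exact ⟨fun q => (mem_of h e).2 (q ▸ (mem_of h e).1), Or.inr (Or.inr e)⟩
  have d1 : Disjoint S (S.image Prod.swap) := by
    rw [disjoint_left]
    rintro ⟨x, y⟩ hp hq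
    obtain ⟨⟨a, b⟩, hab, e⟩ := mem_image.1 hq
    obtain ⟨rfl, rfl⟩ := Prod.mk.inj e
    exact (mem_of h hab).2 (mem_of h hp).1
  have d2 : Disjoint K.offDiag (S ∪ S.image Prod.swap) := by
    rw [disjoint_left]
    rintro ⟨x, y⟩ hp hq
    obtain ⟨hx, hy, -⟩ := mem_offDiag.1 hp
    rcases mem_union.1 hq with hq | hq
    · exact (mem_of h hq).2 hy
    · obtain ⟨⟨a, b⟩, hab, e⟩ := mem_image.1 hq
      obtain ⟨rfl, rfl⟩ := Prod.mk.inj e
      exact (mem_of h hab).2 hx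
  rw [h2, card_union_of_disjoint d2, card_union_of_disjoint d1,
    card_image_of_injective _ Prod.swap_injective, offDiag_card] at h1
  have h3 : 2 * K.card.choose 2 = K.card * K.card - K.card := by
    rw [Nat.choose_two_right, Nat.mul_div_cancel' (Nat.even_mul_pred_self _).two_dvd,
      Nat.mul_sub_one]
  omega

/-- a graph has at most `n ^ 2 + 1` split partitions with a given clique size -/
theorem few (G : Gr α) (k : ℕ) (Ks : Finset (Finset α))
    (h : ∀ K ∈ Ks, K.card = k ∧ Clq G K ∧ Ind G Kᶜ) : Ks.card ≤ Fintype.card α ^ 2 + 1 := by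
  rcases Ks.eq_empty_or_nonempty with rfl | ⟨K₀, h0⟩
  · simp
  have key : ∀ A ∈ Ks, ∀ B ∈ Ks, (A \ B).card ≤ 1 := fun A hA B hB =>
    card_le_one.2 fun x hx y hy => by
      by_contra hne
      exact (h B hB).2.2 x (mem_compl.2 (mem_sdiff.1 hx).2) y (mem_compl.2 (mem_sdiff.1 hy).2)
        ((h A hA).2.1 x (mem_sdiff.1 hx).1 y (mem_sdiff.1 hy).1 hne)
  have sub : Ks ⊆ insert K₀ ((univ : Finset (α × α)).image fun p => insert p.1 (K₀.erase p.2)) := by
    intro A hA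
    have e : (A \ K₀).card = (K₀ \ A).card :=
      card_sdiff_comm ((h A hA).1.trans (h K₀ h0).1.symm)
    rcases Nat.le_one_iff_eq_zero_or_eq_one.1 (key A hA K₀ h0) with h1 | h1
    · rw [h1] at e
      refine mem_insert.2 (Or.inl (Subset.antisymm ?_ ?_))
      · exact sdiff_eq_empty_iff_subset.1 (card_eq_zero.1 h1)
      · exact sdiff_eq_empty_iff_subset.1 (card_eq_zero.1 e.symm)
    · rw [h1] at e
      obtain ⟨a, ha⟩ := card_eq_one.1 h1
      obtain ⟨b, hb⟩ := card_eq_one.1 e.symm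
      refine mem_insert.2 (Or.inr (mem_image.2 ⟨(a, b), mem_univ _, ?_⟩))
      ext x
      have e1 : x ∈ A ∧ x ∉ K₀ ↔ x = a := by rw [← mem_sdiff, ha, mem_singleton]
      have e2 : x ∈ K₀ ∧ x ∉ A ↔ x = b := by rw [← mem_sdiff, hb, mem_singleton]
      simp only [mem_insert, mem_erase]
      tauto
  refine (card_le_card sub).trans ((card_insert_le _ _).trans (Nat.add_le_add_right ?_ 1))
  refine card_image_le.trans (le_of_eq ?_)
  rw [card_univ, Fintype.card_prod, sq]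

end DSPL87

open DSPL87 in
theorem r_DSPL : R_DSPL := by
  intro α _ k j
  let s : Finset (Σ _ : Finset α, Finset (α × α)) :=
    (powersetCard k univ).sigma fun K => powersetCard j (K ×ˢ Kᶜ)
  have hs : ∀ p ∈ s, p.1.card = k ∧ p.2 ⊆ p.1 ×ˢ p.1ᶜ ∧ p.2.card = j := fun p hp => by
    obtain ⟨h1, h2⟩ := mem_sigma.1 hp
    exact ⟨(mem_powersetCard.1 h1).2, mem_powersetCard.1 h2⟩
  have hc : s.card = (Fintype.card α).choose k * (k * (Fintype.card α - k)).choose j := by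
    rw [card_sigma, sum_congr rfl (g := fun _ => (k * (Fintype.card α - k)).choose j)
      fun K hK => by rw [card_powersetCard, card_product, card_compl, (mem_powersetCard.1 hK).2],
      sum_const, card_powersetCard, card_univ, smul_eq_mul]
  let t : Finset (Gr α) := univ.filter fun G => ed G = k.choose 2 + j ∧ IsSplit G
  have ht : t.card = nsp α (k.choose 2 + j) := by
    rw [nsp, ← Set.ncard_coe_finset]
    congr 1
    ext G
    simp [t]
  rw [← hc, ← ht]
  refine card_le_mul_card_image_of_maps_to (s := s)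
    (f := fun p => DSPL87.mk p.1 p.2) (fun p hp => ?_) _
    fun G _ => ?_
  · obtain ⟨h1, h2, h3⟩ := hs p hp
    refine mem_filter.2 ⟨mem_univ _, by rw [ed_mk h2, h1, h3], p.1, ?_, ?_⟩
    · exact fun x hx y hy hne => clq p.1 p.2 x hx y hy hne
    · exact fun x hx y hy _ => ind h2 x (mem_compl.2 hx) y (mem_compl.2 hy)
  · rw [← card_image_of_injOn (f := fun p : (Σ _ : Finset α, Finset (α × α)) => p.1)]
    · refine few G k _ fun K hK => ?_
      obtain ⟨p, hp, rfl⟩ := mem_image.1 hK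
      obtain ⟨hp1, hp2⟩ := mem_filter.1 hp
      obtain ⟨h1, h2, -⟩ := hs p hp1
      exact ⟨h1, hp2 ▸ clq p.1 p.2, hp2 ▸ ind h2⟩
    · rintro ⟨K, S⟩ hp ⟨K', S'⟩ hq e
      obtain rfl : K = K' := e
      obtain ⟨hp1, hp2⟩ := mem_filter.1 (mem_coe.1 hp)
      obtain ⟨hq1, hq2⟩ := mem_filter.1 (mem_coe.1 hq)
      have e' : DSPL87.mk K S = DSPL87.mk K S' := hp2.trans hq2.symm
      obtain rfl : S = S' := by
        ext ⟨x, y⟩
        rw [mem_iff (hs _ hp1).2.1, mem_iff (hs _ hq1).2.1, e']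
      rfl

end Pool.Agent.Lib.SPL
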