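import Pool.Agent.Lib.SPL.Kit2

/-! Row DW: the total weight is comparable with its term at `kk`. -/

open scoped Classical
open Finset

noncomputable section

namespace Pool.Agent.Lib.SPL

namespace DW62

theorem up (n k d : ℕ) : n.choose (k + d) ≤ n ^ d * n.choose k := by
  induction d with
  | zero => simp
  | succ d ih =>
    have h := Nat.choose_succ_right_eq n (k + d)
    calc n.choose (k + d + 1) ≤ n.choose (k + d + 1) * (k + d + 1) :=
          Nat.le_mul_of_pos_right _ (by omega)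
      _ ≤ n ^ d * n.choose k * n := by rw [h]; exact Nat.mul_le_mul ih (Nat.sub_le _ _)
      _ = _ := by ring

theorem down (n k d : ℕ) (h : k + d ≤ n) : n.choose k ≤ n ^ d * n.choose (k + d) := by
  have := up n (n - (k + d)) d
  rwa [show n - (k + d) + d = n - k by omega, Nat.choose_symm h, Nat.choose_symm (by omega)] at this

theorem choose_le {n j k : ℕ} (hn : 0 < n) (hk : k ≤ n) :
    (n.choose j : ℝ) ≤ Real.exp (Real.log n * |(j : ℝ) - k|) * n.choose k := by
  have e : ∀ d : ℕ, Real.exp (Real.log n * d) = (n : ℝ) ^ d := fun d => by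
    rw [mul_comm, Real.exp_nat_mul, Real.exp_log (by exact_mod_cast hn)]
  rcases le_total k j with h | h
  · obtain ⟨d, rfl⟩ := Nat.exists_eq_add_of_le h
    rw [Nat.cast_add, add_sub_cancel_left, Nat.abs_cast, e]
    exact_mod_cast up n k d
  · obtain ⟨d, rfl⟩ := Nat.exists_eq_add_of_le h
    rw [Nat.cast_add, sub_add_cancel_left, abs_neg, Nat.abs_cast, e]
    exact_mod_cast down n j d hk

theorem ww_eq {n j : ℕ} {l : ℝ} (hl : 0 < l) (hj : j ≤ n) : ww n l j =
    Real.exp (-(bb l * (j * (j - 1) / 2)) + Real.log (1 + l) * (j * (n - j))) := by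
  rw [ww, pow_eq_exp hl, Real.exp_add, Nat.cast_choose_two, ← Nat.cast_sub hj, ← Nat.cast_mul j,
    mul_comm (Real.log _), Real.exp_nat_mul, Real.exp_log (by linarith)]

theorem quad {a b L x n j k : ℝ} (ha : 0 ≤ a) (ha' : a ≤ 1 / 2) (hb : 1 ≤ b) (hL : 1 ≤ L)
    (hbL : 3 * b ≤ L) (hx : (2 * a + b) * x = n * a) (h1 : k ≤ x) (h2 : x ≤ k + 1) :
    L * |j - k| + (-(b * (j * (j - 1) / 2)) + a * (j * (n - j))) ≤
      4 * L ^ 2 + (-(b * (k * (k - 1) / 2)) + a * (k * (n - k))) := by
  have e : (-(b * (j * (j - 1) / 2)) + a * (j * (n - j))) -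
      (-(b * (k * (k - 1) / 2)) + a * (k * (n - k))) =
      -((2 * a + b) * (j - k) ^ 2 / 2) + (j - k) * ((2 * a + b) * (x - k) + b / 2) := by
    linear_combination (k - j) * hx
  have p0 : 0 ≤ (2 * a + b) * (x - k) := mul_nonneg (by linarith) (by linarith)
  have p1 : (2 * a + b) * (x - k) ≤ 2 * a + b := mul_le_of_le_one_right (by linarith) (by linarith)
  have p2 : (j - k) * ((2 * a + b) * (x - k) + b / 2) ≤ |j - k| * (3 / 2 * L) :=
    (mul_le_mul_of_nonneg_right (le_abs_self _) (by linarith)).trans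
      (mul_le_mul_of_nonneg_left (by linarith) (abs_nonneg _))
  have p3 : |j - k| ^ 2 ≤ (2 * a + b) * (j - k) ^ 2 := by
    rw [sq_abs]
    exact le_mul_of_one_le_left (sq_nonneg _) (by linarith)
  nlinarith [sq_nonneg (|j - k| - 5 / 2 * L), sq_nonneg L]

end DW62

open DW62 in
theorem r_DW : R_DW := by
  refine ⟨1, fun n l h => ?_⟩
  have hl := h.pos
  have hb := h.b_ge le_rfl
  have hL := h.L_ge le_rfl
  have hn := h.n_pos le_rfl
  have h2 : (2 : ℝ) ≤ n := by exact_mod_cast h.two_le le_rfl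
  have a0 : 0 ≤ Real.log (1 + l) := Real.log_nonneg (by linarith)
  have a1 : Real.log (1 + l) ≤ 1 / 2 :=
    (Real.log_le_sub_one_of_pos (by linarith)).trans (by linarith [h.le_half le_rfl])
  have hκ : 0 < 2 * Real.log (1 + l) + bb l := by linarith
  have x0 : 0 ≤ n * Real.log (1 + l) / (2 * Real.log (1 + l) + bb l) := by positivity
  have k1 : (kk n l : ℝ) ≤ n * Real.log (1 + l) / (2 * Real.log (1 + l) + bb l) := Nat.floor_le x0
  have k2 : n * Real.log (1 + l) / (2 * Real.log (1 + l) + bb l) ≤ kk n l + 1 :=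
    (Nat.lt_floor_add_one _).le
  have hk : kk n l ≤ n := by
    have : (kk n l : ℝ) ≤ n := k1.trans ((div_le_iff₀ hκ).2 (by nlinarith))
    exact_mod_cast this
  have t0 : 0 ≤ (n.choose (kk n l) : ℝ) * ww n l (kk n l) :=
    mul_nonneg (by positivity) (ww_pos n hl _).le
  have key : ∀ j ∈ range (n + 1), (n.choose j : ℝ) * ww n l j ≤
      Real.exp (4 * Real.log n ^ 2) * ((n.choose (kk n l) : ℝ) * ww n l (kk n l)) := fun j hj => by
    refine (mul_le_mul_of_nonneg_right (choose_le (by exact_mod_cast hn) hk)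
      (ww_pos n hl j).le).trans ?_
    rw [mul_right_comm, mul_left_comm, mul_comm (n.choose _ : ℝ)]
    refine mul_le_mul_of_nonneg_right ?_ (by positivity)
    rw [ww_eq hl (Nat.lt_succ_iff.1 (mem_range.1 hj)), ww_eq hl hk, ← Real.exp_add, ← Real.exp_add]
    exact Real.exp_le_exp.2 (quad a0 a1 hb hL (h.b_le le_rfl) (mul_div_cancel₀ _ hκ.ne') k1 k2)
  refine (sum_le_card_nsmul _ _ _ key).trans ?_
  rw [card_range, nsmul_eq_mul, ← mul_assoc]
  refine mul_le_mul_of_nonneg_right ?_ t0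
  have e : Real.exp (2 * Real.log n) = (n : ℝ) ^ 2 := by
    rw [show (2 : ℝ) * Real.log n = (2 : ℕ) * Real.log n by norm_num, Real.exp_nat_mul,
      Real.exp_log hn]
  calc ((n + 1 : ℕ) : ℝ) * Real.exp (4 * Real.log n ^ 2)
      ≤ Real.exp (2 * Real.log n) * Real.exp (4 * Real.log n ^ 2) :=
        mul_le_mul_of_nonneg_right (by rw [e]; push_cast; nlinarith) (Real.exp_pos _).le
    _ ≤ _ := by
        rw [← Real.exp_add]
        exact Real.exp_le_exp.2 (by nlinarith)

end Pool.Agent.Lib.SPL
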