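import Pool.Agent.Lib.SPL.Kit2
import Pool.Agent.Lib.SPL.Blue2

/-! Row DW2 of the project spl: the split weight is dominated by its main term. -/

open Finset

namespace Pool.Agent.Lib.SPL

namespace DW219

theorem ch_le (n k u : ℕ) : n.choose (k + u) ≤ n ^ u * n.choose k := by
  induction u with
  | zero => simp
  | succ u ih =>
    have h := Nat.choose_succ_right_eq n (k + u)
    calc n.choose (k + (u + 1)) ≤ n.choose (k + u + 1) * (k + u + 1) :=
          Nat.le_mul_of_pos_right _ (Nat.succ_pos _)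
      _ ≤ n ^ u * n.choose k * n := h ▸ Nat.mul_le_mul ih (Nat.sub_le _ _)
      _ = _ := by ring

theorem ch_ge (n k u : ℕ) (hu : k + u ≤ n) : n.choose k ≤ n ^ u * n.choose (k + u) := by
  induction u with
  | zero => simp
  | succ u ih =>
    have h := Nat.choose_succ_right_eq n (k + u)
    have h1 : n.choose (k + u) ≤ n.choose (k + u + 1) * n :=
      (Nat.le_mul_of_pos_right _ (by omega)).trans (h.symm.le.trans (Nat.mul_le_mul_left _ hu))
    calc n.choose k ≤ n ^ u * (n.choose (k + u + 1) * n) :=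
          (ih (by omega)).trans (Nat.mul_le_mul_left _ h1)
      _ = _ := by rw [← add_assoc]; ring

theorem ch_exp {n j k : ℕ} (hn : 0 < n) (hk : k ≤ n) :
    (n.choose j : ℝ) ≤ Real.exp (|(j : ℝ) - k| * Real.log n) * n.choose k := by
  have e : ∀ u : ℕ, Real.exp (u * Real.log n) = (n : ℝ) ^ u := fun u => by
    rw [Real.exp_nat_mul, Real.exp_log (by positivity)]
  rcases le_total k j with h | h
  · obtain ⟨u, rfl⟩ := Nat.exists_eq_add_of_le h
    rw [Nat.cast_add, add_sub_cancel_left, Nat.abs_cast, e]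
    exact_mod_cast ch_le n k u
  · obtain ⟨u, rfl⟩ := Nat.exists_eq_add_of_le h
    rw [abs_sub_comm, Nat.cast_add, add_sub_cancel_left, Nat.abs_cast, e]
    exact_mod_cast ch_ge n j u hk

theorem num {R κ b L t s : ℝ} (hR : 1 ≤ R) (h1 : 1 / R ≤ κ) (h2 : κ ≤ 2 * R) (hb : |b| ≤ R)
    (hL : 1 ≤ L) (hs : s ^ 2 ≤ 1) :
    |t| * L - κ / 2 * (t + s) ^ 2 + κ / 2 * s ^ 2 + b * t / 2 ≤
      (R * (R + 1) ^ 2 + 2 * R) * L ^ 2 := by
  have hR0 : 0 < R := by linarith
  have hκ : 0 < κ := lt_of_lt_of_le (by positivity) h1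
  have h3 : b * t ≤ R * |t| :=
    (le_abs_self _).trans (by rw [abs_mul]; exact mul_le_mul_of_nonneg_right hb (abs_nonneg t))
  have h4 : |t| ^ 2 / 2 - 2 ≤ (t + s) ^ 2 - s ^ 2 := by
    rw [sq_abs]; nlinarith [sq_nonneg (t + 2 * s)]
  have h5 := mul_le_mul_of_nonneg_left h4 hκ.le
  have h6 : |t| ^ 2 / R ≤ κ * |t| ^ 2 := by
    rw [div_eq_mul_one_div, mul_comm]; exact mul_le_mul_of_nonneg_right h1 (sq_nonneg _)
  have h7 : |t| * ((R + 1) * L) ≤ |t| ^ 2 / R / 4 + R * (R + 1) ^ 2 * L ^ 2 := by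
    have : |t| ^ 2 / R / 4 + R * (R + 1) ^ 2 * L ^ 2 - |t| * ((R + 1) * L) =
        (|t| - 2 * R * ((R + 1) * L)) ^ 2 / (4 * R) := by field_simp; ring
    have h : 0 ≤ (|t| - 2 * R * ((R + 1) * L)) ^ 2 / (4 * R) := by positivity
    linarith
  have h8 : R * |t| ≤ R * |t| * L := le_mul_of_one_le_right (by positivity) hL
  have h9 : R ≤ R * L ^ 2 := le_mul_of_one_le_right hR0.le (one_le_pow₀ hL)
  have h10 : 0 ≤ R * |t| := by positivity
  nlinarith

end DW219

open DW219

theorem r_DW2 : R_DW2 := by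
  intro hX R hR
  refine ⟨R * (R + 1) ^ 2 + 2 * R + 2, 3, fun n l h => ?_⟩
  obtain ⟨hl, a1, a2, a3, a4, a5, a6, a7, hw⟩ := hX R l hR h.lo h.hi
  have hn : (3 : ℝ) ≤ n := by exact_mod_cast h.big
  have hL : 1 ≤ Real.log n := by
    rw [Real.le_log_iff_exp_le (by linarith)]
    linarith [Real.exp_one_lt_d9]
  have hx0 : 0 ≤ n * xs l := mul_nonneg (by linarith) (le_trans (by positivity) a6)
  have hx1 : n * xs l ≤ n := mul_le_of_le_one_right (by linarith)
    (a7.trans (sub_le_self _ (by positivity)))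
  have hk : kk n l = ⌊n * xs l⌋₊ := by rw [kk, xs, mul_div_assoc]
  have k1 : (kk n l : ℝ) ≤ n * xs l := hk ▸ Nat.floor_le hx0
  have k2 : n * xs l < kk n l + 1 := hk ▸ Nat.lt_floor_add_one _
  have k3 : kk n l ≤ n := by exact_mod_cast k1.trans hx1
  have hκ : 1 / R ≤ 2 * Real.log (1 + l) + bb l := by
    have : 1 / R = 1 / (2 * R) + 1 / (2 * R) := by field_simp; ring
    linarith
  have key : ∀ j ∈ range (n + 1), (n.choose j : ℝ) * ww n l j ≤
      Real.exp ((R * (R + 1) ^ 2 + 2 * R) * Real.log n ^ 2) *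
        ((n.choose (kk n l) : ℝ) * ww n l (kk n l)) := fun j hj => by
    have hj' : j ≤ n := Nat.lt_succ_iff.1 (mem_range.1 hj)
    refine (mul_le_mul_of_nonneg_right (ch_exp (by have := h.big; omega) k3)
      (ww_pos n hl j).le).trans ?_
    rw [mul_right_comm, mul_comm (n.choose (kk n l) : ℝ), ← mul_assoc]
    refine mul_le_mul_of_nonneg_right ?_ (Nat.cast_nonneg _)
    rw [hw n j hj', hw n _ k3, ← Real.exp_add, ← Real.exp_add]
    have := num (t := (j : ℝ) - kk n l) (s := kk n l - n * xs l) hR hκ (by linarith) a5 hL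
      (by nlinarith)
    rw [sub_add_sub_cancel] at this
    exact Real.exp_le_exp.2 (by linarith)
  refine (sum_le_card_nsmul _ _ _ key).trans ?_
  rw [card_range, nsmul_eq_mul, ← mul_assoc, add_mul _ 2, Real.exp_add,
    mul_comm (Real.exp _) (Real.exp _)]
  refine mul_le_mul_of_nonneg_right (mul_le_mul_of_nonneg_right ?_ (Real.exp_pos _).le)
    (mul_nonneg (Nat.cast_nonneg _) (ww_pos n hl _).le)
  have e : Real.exp (2 * Real.log n) = (n : ℝ) ^ 2 := by
    rw [← Nat.cast_ofNat, Real.exp_nat_mul, Real.exp_log (by linarith)]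
  refine le_trans ?_ (Real.exp_le_exp.2 (show 2 * Real.log n ≤ _ by nlinarith))
  rw [e]
  push_cast
  nlinarith

end Pool.Agent.Lib.SPL
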