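import Pool.Agent.Lib.SPL.Kit2

open scoped Classical
open Finset

noncomputable section

namespace Pool.Agent.Lib.SPL

theorem r_EST : R_EST := by
  intro α _ Gs E F C2 A v hG hA hp
  let Ls : Finset (α → Finset α) := Fintype.piFinset (fun u =>
    if u ∈ C2 then (univ : Finset (α × α)).biUnion (fun p => (A u p).powerset) else {∅})
  refine Cov.of_label Ls (fun a => E ⊔ stg C2 a) (fun _ => F) ?_ (fun G hGs => ?_)
  · rw [Fintype.card_piFinset, ← prod_subset (subset_univ C2) (fun u _ e => by simp [e])]
    have a1 : ∀ u ∈ C2, (((if u ∈ C2 then (univ : Finset (α × α)).biUnion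
        (fun p => (A u p).powerset) else {∅}).card : ℕ) : ℝ) ≤
        Real.exp (2 * lg (Fintype.card α) + v) := by
      intro u hu
      rw [if_pos hu]
      have b1 : ((univ : Finset (α × α)).biUnion (fun p => (A u p).powerset)).card
          ≤ (Fintype.card α + 1) ^ 2 * 2 ^ v := by
        refine (card_biUnion_le_card_mul _ _ (2 ^ v) (fun p _ => ?_)).trans ?_
        · rw [card_powerset]
          exact Nat.pow_le_pow_right (by norm_num) (hA u hu p).1
        · rw [card_univ, Fintype.card_prod]
          exact Nat.mul_le_mul_right _ (by nlinarith)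
      have b2 := exp_mul_lg (Fintype.card α) 2
      have b3 := two_pow_le_exp v
      have b4 : ((((univ : Finset (α × α)).biUnion (fun p => (A u p).powerset)).card : ℕ) : ℝ)
          ≤ ((Fintype.card α : ℝ) + 1) ^ 2 * 2 ^ v := by exact_mod_cast b1
      push_cast at b2
      rw [Real.exp_add, b2]
      exact b4.trans (mul_le_mul_of_nonneg_left b3 (by positivity))
    push_cast
    refine (prod_le_prod (fun _ _ => by positivity) a1).trans (le_of_eq ?_)
    rw [prod_const, ← Real.exp_nat_mul]
  · choose! p hp' using hp G hGs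
    let a : α → Finset α := fun u => if u ∈ C2 then nb G u (A u (p u)) else ∅
    have hM : ∀ u ∈ C2, ∀ y ∈ a u, (G \ E).Adj u y := fun u hu y hy => by
      simp only [a, if_pos hu, mem_nb] at hy
      exact ⟨hy.2, (hA u hu (p u)).2 y hy.1⟩
    have hle : stg C2 a ≤ G \ E := stg_le hM
    have hEG : E ⊔ stg C2 a ≤ G := sup_le (hG G hGs).1 (hle.trans sdiff_le)
    refine ⟨a, Fintype.mem_piFinset.2 (fun u => ?_),
      ⟨rfl, le_sup_left, hEG.trans (hG G hGs).2, ?_⟩, hEG, (hG G hGs).2⟩
    · by_cases e : u ∈ C2
      · simp only [a, if_pos e]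
        exact mem_biUnion.2 ⟨p u, mem_univ _, mem_powerset.2 (nb_subset _ _ _)⟩
      · simp [a, e]
    · have a0 : Disjoint E (stg C2 a) := disjoint_sdiff_self_right.mono_right hle
      have a1 : (ed (E ⊔ stg C2 a) : ℝ) = ed E + ed (stg C2 a) := by
        exact_mod_cast ed_sup_of_disjoint a0
      have a2 : ∑ u ∈ C2, ((a u).card : ℝ) ≤ 2 * ed (stg C2 a) := by
        exact_mod_cast le_ed_stg (fun u hu e => (hM u hu u e).ne rfl)
      have a3 := card_nsmul_le_sum C2 (fun u => ((a u).card : ℝ)) ((v : ℝ) / 2) (fun u hu => by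
        have e1 : (v : ℝ) ≤ 2 * (dg G u (A u (p u)) : ℝ) := by exact_mod_cast hp' u hu
        have e2 : (a u).card = dg G u (A u (p u)) := by
          simp only [a, if_pos hu, dg]
        rw [e2]
        linarith)
      rw [nsmul_eq_mul] at a3
      linarith

end Pool.Agent.Lib.SPL
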