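import Pool.Agent.Lib.SPL.Kit2

open scoped Classical
open Finset

noncomputable section

namespace Pool.Agent.Lib.SPL

namespace FACT24

variable {α : Type} [Fintype α]

theorem ed_split (G : Gr α) (A : Finset α) :
    ed G + ed (rs Gᶜ A) = A.card.choose 2 + ed (rs G Aᶜ) + ∑ i, (crs G A i).card := by
  have h1 : ∀ v, dg G v univ = dg G v A + dg G v Aᶜ := fun v => by
    simp only [dg_eq_sum, sum_add_sum_compl]
  have h2 : ar G univ = ar G A + ar G Aᶜ + 2 * ∑ v ∈ Aᶜ, dg G v A := by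
    rw [ar, ← sum_add_sum_compl A]
    simp only [h1, sum_add_distrib]
    rw [sum_dg_comm G A Aᶜ, ar, ar]
    ring
  have h3 : ∑ i, (crs G A i).card = ∑ v ∈ Aᶜ, dg G v A := by
    rw [← sum_add_sum_compl A, sum_eq_zero fun i hi => by simp [crs, hi], zero_add]
    exact sum_congr rfl fun i hi => by simp [crs, mem_compl.1 hi, dg]
  have h4 := ar_add_compl G A
  have h5 : 2 * A.card.choose 2 + A.card = A.card ^ 2 := by
    induction A.card with
    | zero => simp
    | succ k ih => rw [Nat.choose_succ_succ' k 1, Nat.choose_one_right]; nlinarith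
  rw [ar_univ, ar_eq_ed G Aᶜ] at h2
  rw [ar_eq_ed Gᶜ A] at h4
  omega

theorem inj {G G' : Gr α} {A : Finset α} (h1 : rs Gᶜ A = rs G'ᶜ A) (h2 : rs G Aᶜ = rs G' Aᶜ)
    (h3 : crs G A = crs G' A) : G = G' := by
  have k : ∀ x y, x ∉ A → y ∈ A → (G.Adj x y ↔ G'.Adj x y) := fun x y hx hy => by
    simpa [crs, hx, hy] using Finset.ext_iff.1 (congrFun h3 x) y
  ext x y
  by_cases hx : x ∈ A <;> by_cases hy : y ∈ A
  · by_cases e : x = y
    · simp [e]
    · simpa [hx, hy, e, not_iff_not] using congrArg (fun H : Gr α => H.Adj x y) h1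
  · rw [G.adj_comm, G'.adj_comm]
    exact k y x hy hx
  · exact k x y hx hy
  · simpa [hx, hy] using congrArg (fun H : Gr α => H.Adj x y) h2

end FACT24

open FACT24

theorem r_FACT : R_FACT := by
  intro α _ l A Gs As Ts Φ hl h1 h2
  rw [← sum_product', mul_sum]
  refine sum_le_sum_label Gs (As ×ˢ Ts) (fun p G => rs Gᶜ A = p.1 ∧ rs G Aᶜ = p.2) _ _
    (fun _ _ => by positivity) (fun G hG => ⟨(_, _), mem_product.2 (h1 G hG), rfl, rfl⟩)
    fun p hp t ht hq => ?_
  have h3 := h2 p.1 (mem_product.1 hp).1 p.2 (mem_product.1 hp).2 (t.image fun G => crs G A)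
    fun f hf => by
      obtain ⟨G, hG, rfl⟩ := mem_image.1 hf
      exact ⟨G, ht hG, (hq G hG).1, (hq G hG).2, rfl⟩
  rw [fw, sum_image fun G hG G' hG' e => inj ((hq G hG).1.trans (hq G' hG').1.symm)
    ((hq G hG).2.trans (hq G' hG').2.symm) e] at h3
  rw [← mul_assoc]
  refine le_trans (le_of_eq ?_) (mul_le_mul_of_nonneg_left h3 (by positivity))
  rw [mul_sum]
  refine sum_congr rfl fun G hG => ?_
  have h4 := congrArg (l ^ ·) (ed_split G A)
  simp only [pow_add, (hq G hG).1, (hq G hG).2] at h4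
  rw [prod_pow_eq_pow_sum, inv_pow]
  field_simp
  linear_combination h4

end Pool.Agent.Lib.SPL
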