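import Pool.Agent.Lib.SPL.Blue2

/-! block FARB (helper6): few maximal cliques in graphs with no induced 4-cycle. -/

open scoped Classical
open Finset

noncomputable section

namespace Pool.Agent.Lib.SPL

theorem r_FARB : R_FARB := by
  intro α G U hG
  induction U using Finset.induction_on with
  | empty =>
    refine ⟨{∅}, by simp, fun K hK => ?_, fun S hS _ => ⟨∅, mem_singleton_self _, hS⟩⟩
    rw [mem_singleton.1 hK]
    exact ⟨Subset.rfl, fun x hx => absurd hx (notMem_empty x)⟩
  | insert v U hv ih =>
    obtain ⟨Ks, hc, hK, hS⟩ := ih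
    have ins : ∀ K : Finset α, Clq G K → (∀ x ∈ K, G.Adj v x) → Clq G (insert v K) := by
      intro K a b x hx y hy hxy
      rcases mem_insert.1 hx with ex | hx
      · rcases mem_insert.1 hy with ey | hy
        · exact absurd (ex.trans ey.symm) hxy
        · rw [ex]; exact b y hy
      · rcases mem_insert.1 hy with ey | hy
        · rw [ey]; exact (b x hx).symm
        · exact a x hx y hy hxy
    refine ⟨Ks.image (fun K => if ∀ x ∈ K, G.Adj v x then insert v K else K) ∪
      (U.filter fun u => ¬ G.Adj v u).image
        (fun u => insert v (U.filter fun x => G.Adj u x ∧ G.Adj v x)), ?_, ?_, ?_⟩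
    · have h1 := card_image_le (s := Ks)
        (f := fun K => if ∀ x ∈ K, G.Adj v x then insert v K else K)
      have h2 := card_image_le (s := U.filter fun u => ¬ G.Adj v u)
        (f := fun u => insert v (U.filter fun x => G.Adj u x ∧ G.Adj v x))
      have h3 := card_filter_le U fun u => ¬ G.Adj v u
      refine (card_union_le _ _).trans ?_
      rw [card_insert_of_notMem hv]
      nlinarith
    · intro K h
      rcases mem_union.1 h with h | h
      · obtain ⟨K', h', rfl⟩ := mem_image.1 h
        split_ifs with c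
        · exact ⟨insert_subset_insert _ (hK K' h').1, ins K' (hK K' h').2 c⟩
        · exact ⟨(hK K' h').1.trans (subset_insert _ _), (hK K' h').2⟩
      · obtain ⟨u, h', rfl⟩ := mem_image.1 h
        obtain ⟨hu, n⟩ := mem_filter.1 h'
        refine ⟨insert_subset_insert _ (filter_subset _ _), ins _ ?_ fun x hx =>
          (mem_filter.1 hx).2.2⟩
        intro x hx y hy hxy
        obtain ⟨_, a, b⟩ := mem_filter.1 hx
        obtain ⟨_, c, d⟩ := mem_filter.1 hy
        exact (hG u x v y (fun e => hv (e ▸ hu)) hxy a b.symm d c.symm).resolve_left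
          fun e => n e.symm
    · intro S h1 h2
      obtain ⟨K, k1, k2⟩ := hS (S.erase v) (subset_insert_iff.1 h1)
        fun x hx y hy => h2 x (mem_of_mem_erase hx) y (mem_of_mem_erase hy)
      by_cases c : ∀ x ∈ K, G.Adj v x
      · refine ⟨insert v K, mem_union_left _ (mem_image.2 ⟨K, k1, if_pos c⟩), ?_⟩
        exact subset_insert_iff.2 k2
      by_cases hvS : v ∈ S
      · push Not at c
        obtain ⟨u, hu, n⟩ := c
        refine ⟨_, mem_union_right _ (mem_image.2 ⟨u, mem_filter.2 ⟨(hK K k1).1 hu, n⟩, rfl⟩),
          subset_insert_iff.2 fun x hx => ?_⟩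
        have a : G.Adj v x := h2 v hvS x (mem_of_mem_erase hx) (ne_of_mem_erase hx).symm
        exact mem_filter.2 ⟨(hK K k1).1 (k2 hx),
          (hK K k1).2 u hu x (k2 hx) (fun e => n (e ▸ a)), a⟩
      · refine ⟨K, mem_union_left _ (mem_image.2 ⟨K, k1, if_neg c⟩), ?_⟩
        rwa [erase_eq_of_notMem hvS] at k2

end Pool.Agent.Lib.SPL
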