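import Pool.Agent.Lib.SPL.Kit2

/-! Row FIN of the project spl. -/

open scoped Classical
open Finset

noncomputable section

namespace Pool.Agent.Lib.SPL

namespace FIN60

theorem gw_three {α : Type} {l : ℝ} (hl : 0 ≤ l) (Gs : Finset (Gr α)) (P1 P2 P3 : Gr α → Prop)
    {a b c : ℝ} (h : ∀ G ∈ Gs, P1 G ∨ P2 G ∨ P3 G)
    (h1 : ∀ Hs : Finset (Gr α), Hs ⊆ Gs → (∀ G ∈ Hs, P1 G) → gw l Hs ≤ a)
    (h2 : ∀ Hs : Finset (Gr α), Hs ⊆ Gs → (∀ G ∈ Hs, P2 G) → gw l Hs ≤ b)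
    (h3 : ∀ Hs : Finset (Gr α), Hs ⊆ Gs → (∀ G ∈ Hs, P3 G) → gw l Hs ≤ c) :
    gw l Gs ≤ a + b + c := by
  have := sum_le_sum_label Gs (univ : Finset (Fin 3)) (fun i G => ![P1 G, P2 G, P3 G] i)
    (fun G => l ^ ed G) ![a, b, c] (fun _ _ => by positivity)
    (fun G hG => by
      rcases h G hG with e | e | e
      exacts [⟨0, mem_univ _, e⟩, ⟨1, mem_univ _, e⟩, ⟨2, mem_univ _, e⟩])
    (fun i _ Hs hH hQ => by
      fin_cases i
      exacts [h1 Hs hH hQ, h2 Hs hH hQ, h3 Hs hH hQ])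
  simpa [Fin.sum_univ_three, gw] using this

theorem numer {c0 K L D ω : ℝ} (hc : 0 < c0) (hω : 2 * (|K| + 2) / c0 ≤ ω) (h1 : 1 ≤ L)
    (hL : ω ≤ L) (hD : L ^ 5 ≤ D) :
    3 * Real.exp (-(c0 * D)) * Real.exp (K * L ^ 2) ≤ Real.exp (-(c0 * D / 2)) := by
  have h3 : (3 : ℝ) ≤ Real.exp 2 := by linarith [Real.add_one_le_exp (2 : ℝ)]
  have h4 : 2 * (|K| + 2) ≤ c0 * L := by
    rw [div_le_iff₀ hc] at hω
    nlinarith
  have h5 : 1 ≤ L ^ 2 := one_le_pow₀ h1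
  have h6 : L ^ 3 ≤ D := (pow_le_pow_right₀ h1 (by norm_num)).trans hD
  have h7 : K * L ^ 2 ≤ |K| * L ^ 2 := mul_le_mul_of_nonneg_right (le_abs_self K) (by positivity)
  have h8 : 2 * (|K| + 2) * L ^ 2 ≤ c0 * L * L ^ 2 := mul_le_mul_of_nonneg_right h4 (by positivity)
  have h9 : c0 * L ^ 3 ≤ c0 * D := mul_le_mul_of_nonneg_left h6 hc.le
  calc 3 * Real.exp (-(c0 * D)) * Real.exp (K * L ^ 2)
      ≤ Real.exp 2 * Real.exp (-(c0 * D)) * Real.exp (K * L ^ 2) := by gcongr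
    _ = Real.exp (2 + -(c0 * D) + K * L ^ 2) := by rw [Real.exp_add, Real.exp_add]
    _ ≤ _ := Real.exp_le_exp.2 (by nlinarith)

end FIN60

theorem r_FIN : R_FIN := by
  intro hA1 hY hCLS hS hLAM hW hLOW
  obtain ⟨cY, zY, ωY, hcY, hzY, hY⟩ := hY
  obtain ⟨cS, zS, ωS, hcS, hzS, hS⟩ := hS
  obtain ⟨z, hz0, hz1, hz2, hz3⟩ : ∃ z : ℝ, 0 < z ∧ z ≤ 1 / 1000 ∧ 1000 * z ≤ zY ∧ 1000 * z ≤ zS := by
    refine ⟨min 1 (min zY zS) / 1000, by positivity, ?_, ?_, ?_⟩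
    · linarith [min_le_left 1 (min zY zS)]
    · linarith [min_le_right 1 (min zY zS), min_le_left zY zS]
    · linarith [min_le_right 1 (min zY zS), min_le_right zY zS]
  obtain ⟨cA, ωA, hcA, hA⟩ := hA1 z hz0 hz1
  obtain ⟨ωW, hW⟩ := hW (cA / 2) (by positivity)
  obtain ⟨K, ωL, hLOW⟩ := hLOW
  obtain ⟨c0, hc0, hc1, hc2, hc3⟩ : ∃ c0 : ℝ, 0 < c0 ∧ c0 ≤ cS ∧ c0 ≤ cY ∧ c0 ≤ cA / 2 :=
    ⟨min cS (min cY (cA / 2)), by positivity, min_le_left _ _,
      (min_le_right _ _).trans (min_le_left _ _), (min_le_right _ _).trans (min_le_right _ _)⟩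
  obtain ⟨ω, o1, o2, o3, o4, o5, o6, o7⟩ : ∃ ω : ℝ, 2 ≤ ω ∧ ωY ≤ ω ∧ ωS ≤ ω ∧ ωA ≤ ω ∧ ωW ≤ ω ∧
      ωL ≤ ω ∧ 2 * (|K| + 2) / c0 ≤ ω :=
    ⟨max 2 (max ωY (max ωS (max ωA (max ωW (max ωL (2 * (|K| + 2) / c0)))))), by simp⟩
  obtain ⟨C, δ, n0, hδ, hLAM⟩ := hLAM ω
  refine ⟨C, δ, c0 / 4, n0, hδ, by positivity, fun α _ m Gs hn hC hm hG => ?_⟩
  obtain ⟨l, hR, hQ1, hQ2, hN⟩ := hLAM _ m hn hC hm
  set n := Fintype.card α with hn'
  have o0 : 1 ≤ ω := by linarith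
  have hl := hR.pos
  have hD := hR.D_pos o0
  have hDQ := hR.D_le_Q o0
  have hQ := hR.Q_pos o0
  have hell := hR.ell_pos o0
  have hWp := WW_pos n hl
  have hL1 := hR.L_ge o0
  have hell2 : 2 ≤ ell n l := by
    have h1 : Real.log n ≤ Real.log n ^ 5 := le_self_pow₀ hL1 (by norm_num)
    linarith [hR.D_ge o0, hR.D_le_ell o0, hR.hL]
  have e1 : ∀ x : ℝ, c0 * DD n l ≤ x → Real.exp (-x) * WW n l ≤ Real.exp (-(c0 * DD n l)) * WW n l :=
    fun x hx => mul_le_mul_of_nonneg_right (Real.exp_le_exp.2 (by linarith)) hWp.le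
  have key : gw l Gs ≤ Real.exp (-(c0 * DD n l)) * WW n l + Real.exp (-(c0 * DD n l)) * WW n l
      + Real.exp (-(c0 * DD n l)) * WW n l := by
    refine FIN60.gw_three hl.le Gs (fun G => ¬ Good z l G)
      (fun G => ∃ K : Finset α, Clq G K ∧ ell n l / 2 ≤ K.card ∧
        (ed (rs G Kᶜ) : ℝ) ≤ zY * QQ n l ∧ ell n l / 50000 < (big G K).card)
      (fun G => ∃ A : Finset α, Cls zS l G A) (fun G _ => ?_) (fun Hs hH h => ?_)
      (fun Hs hH h => ?_) (fun Hs hH h => ?_)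
    · by_cases hg : Good z l G
      · right
        obtain ⟨K, k1, k2, k3, k4⟩ := hg
        have k5 : 9 / 10 * ell n l ≤ K.card := by
          refine le_trans ?_ k2
          exact mul_le_mul_of_nonneg_right (by linarith) hell.le
        by_cases hb : ell n l / 50000 < (big G K).card
        · exact Or.inl ⟨K, k1, by linarith,
            k4.trans (mul_le_mul_of_nonneg_right hz2 hQ.le), hb⟩
        · exact Or.inr (hCLS α zS l G K hell2 k1 k5 k3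
            (k4.trans (mul_le_mul_of_nonneg_right hz3 hQ.le)) (not_lt.1 hb))
      · exact Or.inl hg
    · have h1 := hA α l m Hs (hR.mono o4) hQ1 hQ2
        (fun G hG' => ⟨(hG G (hH hG')).1, (hG G (hH hG')).2.1, h G hG'⟩)
      have h2 := hW n l (hR.mono o5)
      refine h1.trans (le_trans ?_ (e1 (cA / 2 * QQ n l) (by nlinarith)))
      calc Real.exp ((1 / 2 - cA) * QQ n l)
          = Real.exp (-(cA / 2 * QQ n l)) * Real.exp ((1 / 2 - cA / 2) * QQ n l) := by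
            rw [← Real.exp_add]; congr 1; ring
        _ ≤ _ := mul_le_mul_of_nonneg_left h2 (Real.exp_pos _).le
    · exact (hY α l Hs (hR.mono o2) (fun G hG' => ⟨(hG G (hH hG')).1, h G hG'⟩)).trans
        (e1 _ (by nlinarith))
    · have h1 := sum_le_sum_label Hs (univ : Finset (Finset α)) (fun A G => Cls zS l G A)
        (fun G => l ^ ed G) (fun A => Real.exp (-(cS * DD n l)) * ww n l A.card)
        (fun _ _ => by positivity) (fun G hG' => (h G hG').imp fun A hA' => ⟨mem_univ _, hA'⟩)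
        (fun A _ T hT hQ' => hS α l A T (hR.mono o3)
          (fun G hG' => ⟨(hG G (hH (hT hG'))).1, hQ' G hG', (hG G (hH (hT hG'))).2.2⟩))
      rw [← mul_sum, sum_ww] at h1
      exact le_trans h1 (e1 _ (by nlinarith))
  have hlow := hLOW α l m (hR.mono o6) hN
  have hlm : 0 < l ^ m := pow_pos hl m
  have hns : 0 < nsp α m := by
    rcases Nat.eq_zero_or_pos (nsp α m) with e | e
    · rw [e] at hlow
      simp at hlow
      linarith
    · exact e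
  refine ⟨hns, ?_⟩
  rw [gw_of_ed (fun G hG' => (hG G hG').2.1)] at key
  have hnum := FIN60.numer (K := K) hc0 o7 hL1 hR.hL (hR.D_ge o0)
  have hnp := hR.n_pos o0
  have hmn : c0 / 4 * m / n ≤ c0 * DD n l / 2 := by
    rw [div_le_iff₀ hnp]
    unfold QQ at hQ2
    nlinarith
  have hs : (0 : ℝ) ≤ nsp α m * l ^ m := by positivity
  refine le_of_mul_le_mul_right ?_ hlm
  calc (Gs.card : ℝ) * l ^ m ≤ 3 * Real.exp (-(c0 * DD n l)) * WW n l := by linarith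
    _ ≤ 3 * Real.exp (-(c0 * DD n l)) *
        (Real.exp (K * Real.log n ^ 2) * (nsp α m * l ^ m)) := by gcongr
    _ = 3 * Real.exp (-(c0 * DD n l)) * Real.exp (K * Real.log n ^ 2) * (nsp α m * l ^ m) := by ring
    _ ≤ Real.exp (-(c0 * DD n l / 2)) * (nsp α m * l ^ m) := by gcongr
    _ ≤ Real.exp (-(c0 / 4 * m / n)) * (nsp α m * l ^ m) := by gcongr
    _ = _ := by ring

end Pool.Agent.Lib.SPL
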