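import Pool.Agent.Lib.SPL.K92
import Pool.Agent.Lib.SPL.Blue2

/-! Row FSUM of the project spl. -/

open scoped Classical
open Finset

noncomputable section

namespace Pool.Agent.Lib.SPL

namespace FSUM92

variable {α : Type}

theorem ev_lg {c : ℝ} (hc : 0 < c) : ∃ n0 : ℕ, ∀ n : ℕ, n0 ≤ n → lg n + 1 ≤ c * n := by
  refine ⟨⌈1 + 2 / c * Real.log (2 / c)⌉₊, fun n hn => ?_⟩
  have h1 : 1 + 2 / c * Real.log (2 / c) ≤ n := (Nat.le_ceil _).trans (by exact_mod_cast hn)
  have h2 := Real.log_le_sub_one_of_pos (x := c / 2 * ((n : ℝ) + 1)) (by positivity)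
  have h3 : lg n = Real.log (c / 2 * ((n : ℝ) + 1)) + Real.log (2 / c) := by
    rw [← Real.log_mul (by positivity) (by positivity), lg]
    congr 1
    field_simp
  have h4 := mul_le_mul_of_nonneg_left h1 (by positivity : 0 ≤ c / 2)
  have h5 : c / 2 * (1 + 2 / c * Real.log (2 / c)) = c / 2 + Real.log (2 / c) := by field_simp
  linarith

theorem clq_card {G : Gr α} {S : Finset α} (h : Clq G S) : ar G S + S.card = S.card ^ 2 := by
  have e : ar Gᶜ S = 0 := by
    rw [ar_eq_sum]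
    refine sum_eq_zero (fun x hx => sum_eq_zero (fun y hy => if_neg (fun a => ?_)))
    exact a.2 (h x hx y hy a.1)
  have := ar_add_compl G S
  omega

/-- few vertices off `U` see many non-edges -/
theorem few_bad [Fintype α] {G : Gr α} (hG : NoC4 G) (U : Finset α) {ρ : ℝ} (hρ : 0 < ρ)
    (h2 : 2 ≤ ρ ^ 3 * Fintype.card α)
    (h : (ar G Uᶜ : ℝ) ≤ ρ ^ 6 / 4 * (Fintype.card α : ℝ) ^ 2) :
    ((Uᶜ.filter (fun u => (ρ * Fintype.card α) ^ 2 < (ar (rs Gᶜ U) (crs G U u) : ℝ))).card : ℝ) ≤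
      ρ * Fintype.card α := by
  set n : ℝ := (Fintype.card α : ℝ) with hn
  have hn0 : 0 < n := by
    by_contra c
    have : ρ ^ 3 * n ≤ 0 := mul_nonpos_of_nonneg_of_nonpos (by positivity) (not_lt.1 c)
    linarith
  have k1 : ∀ x y, (∑ u ∈ Uᶜ, if (rs Gᶜ U).Adj x y ∧ x ∈ crs G U u ∧ y ∈ crs G U u then (1 : ℝ)
      else 0) ≤ ρ ^ 3 * n := by
    intro x y
    by_cases c : (rs Gᶜ U).Adj x y
    · rw [sum_boole]
      set S := Uᶜ.filter (fun u => (rs Gᶜ U).Adj x y ∧ x ∈ crs G U u ∧ y ∈ crs G U u) with hS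
      have hq : Clq G S := fun u hu v hv e => by
        have u1 := (mem_filter.1 hu).2
        have v1 := (mem_filter.1 hv).2
        exact (hG x u y v c.1.1 e (mem_crs.1 u1.2.1).2.2.symm (mem_crs.1 u1.2.2).2.2
          (mem_crs.1 v1.2.2).2.2.symm (mem_crs.1 v1.2.1).2.2).resolve_left c.1.2
      have e1 : (ar G S : ℝ) + S.card = (S.card : ℝ) ^ 2 := by exact_mod_cast clq_card hq
      have e2 : (ar G S : ℝ) ≤ ar G Uᶜ := by exact_mod_cast ar_mono le_rfl (filter_subset _ _)
      by_contra c'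
      have c2 := not_le.1 c'
      have e3 : ρ ^ 6 / 4 * n ^ 2 = (ρ ^ 3 * n) ^ 2 / 4 := by ring
      nlinarith
    · simp only [c, false_and, if_false, sum_const_zero]
      positivity
  have k2 : ∀ u, (ar (rs Gᶜ U) (crs G U u) : ℝ) = ∑ x, ∑ y,
      if (rs Gᶜ U).Adj x y ∧ x ∈ crs G U u ∧ y ∈ crs G U u then (1 : ℝ) else 0 := by
    intro u
    rw [ar_eq_ed, ← ar_univ, ar_cast]
    exact sum_congr rfl (fun x _ => sum_congr rfl (fun y _ => if_congr Iff.rfl rfl rfl))
  have k3 : ∑ u ∈ Uᶜ, (ar (rs Gᶜ U) (crs G U u) : ℝ) ≤ n ^ 2 * (ρ ^ 3 * n) := by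
    simp only [k2]
    rw [sum_comm]
    refine (sum_le_sum (fun x _ => ?_) : _ ≤ ∑ _x : α, n * (ρ ^ 3 * n)).trans (le_of_eq ?_)
    · rw [sum_comm]
      simpa using sum_le_card_nsmul univ _ _ (fun y _ => k1 x y)
    · simp only [sum_const, card_univ, nsmul_eq_mul]
      ring
  have k4 := card_nsmul_le_sum
    (Uᶜ.filter (fun u => (ρ * n) ^ 2 < (ar (rs Gᶜ U) (crs G U u) : ℝ)))
    (fun u => (ar (rs Gᶜ U) (crs G U u) : ℝ)) ((ρ * n) ^ 2) (fun u hu => (mem_filter.1 hu).2.le)
  have k5 := k4.trans ((sum_le_sum_of_subset_of_nonneg (filter_subset _ _)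
    (fun _ _ _ => by positivity)).trans k3)
  rw [nsmul_eq_mul] at k5
  refine le_of_mul_le_mul_right (k5.trans (le_of_eq ?_)) (by positivity : 0 < (ρ * n) ^ 2)
  ring

end FSUM92

theorem r_FSUM : R_FSUM := by
  intro hC hF hZ R δ hR hδ
  have hR0 : 0 < R := by linarith
  obtain ⟨ζ, hζ, -, hZ2⟩ := hZ R (δ / 4) hR (by positivity)
  obtain ⟨ρ, hρ, hρ2, hρ3⟩ : ∃ ρ : ℝ, 0 < ρ ∧ 2 * ρ ≤ ζ ∧ ρ * R ≤ δ / 4 :=
    ⟨min (ζ / 2) (δ / (4 * R)), by positivity, by linarith [min_le_left (ζ / 2) (δ / (4 * R))], by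
      have := mul_le_mul_of_nonneg_right (min_le_right (ζ / 2) (δ / (4 * R))) hR0.le
      have e : δ / (4 * R) * R = δ / 4 := by field_simp
      linarith⟩
  obtain ⟨n1, hn1⟩ := FSUM92.ev_lg (c := ρ ^ 3 / 2) (by positivity)
  obtain ⟨n2, hn2⟩ := FSUM92.ev_lg (c := δ / 4) (by positivity)
  refine ⟨ρ ^ 6 / 4, max n1 n2, by positivity, fun α _ l U w Γ Fs hD h => ?_⟩
  have hl : 0 < l := (by positivity : 0 < 1 / R).trans_le hD.lo
  rcases Fs.eq_empty_or_nonempty with rfl | ⟨f0, hf0⟩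
  · simp only [fw, sum_empty]
    positivity
  obtain ⟨G0, hG0, hO, -, hΓ, -⟩ := h f0 hf0
  obtain ⟨Ks, hK1, hK2, hK3⟩ := hF α G0 U hG0
  have hlg := lg_nonneg (Fintype.card α)
  have m1 := hn1 _ ((le_max_left _ _).trans hD.big)
  have m2 := hn2 _ ((le_max_right _ _).trans hD.big)
  set N := Fintype.card α with hN
  have hN0 : (0 : ℝ) ≤ N := by positivity
  let SS : Finset (Finset α) := univ.filter (fun S => ∃ K ∈ Ks, ((S \ K).card : ℝ) ≤ ζ * N)
  let X : ℝ := (1 + l) ^ w * Real.exp (2 * lg N + δ / 4 * N)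
  have hX : 1 ≤ X := one_le_mul_of_one_le_of_one_le (one_le_pow₀ (by linarith))
    (Real.one_le_exp (by positivity))
  have hSS : ∑ S ∈ SS, l ^ S.card ≤ X := by
    have k := sum_le_label SS Ks (fun K S => ((S \ K).card : ℝ) ≤ ζ * N) (fun S => l ^ S.card)
      ((1 + l) ^ w * Real.exp (δ / 4 * N)) (fun _ _ => by positivity)
      (fun S hS => (mem_filter.1 hS).2) (fun K hK t _ hq => by
        refine (K92.split_le hl.le K t K.powerset (t.image (fun S => S \ K))
          (fun S hS => ⟨mem_powerset.2 inter_subset_right, mem_image_of_mem _ hS⟩)).trans ?_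
        rw [sum_powerset_pow]
        refine mul_le_mul (pow_le_pow_right₀ (by linarith) (hO.2 K (hK2 K hK).1 (hK2 K hK).2))
          (hZ2 α l _ hl.le hD.hi (fun Y hY => ?_)) (sum_nonneg (fun _ _ => by positivity))
          (by positivity)
        obtain ⟨S, hS, rfl⟩ := mem_image.1 hY
        exact hq S hS)
    have e1 : (Ks.card : ℝ) ≤ Real.exp (2 * lg N) := by
      have e2 := exp_mul_lg N 2
      push_cast at e2
      have e3 : (Ks.card : ℝ) ≤ (U.card : ℝ) ^ 2 + 1 := by exact_mod_cast hK1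
      have e4 : (U.card : ℝ) ≤ N := by exact_mod_cast card_le_univ U
      have e5 : (0 : ℝ) ≤ U.card := by positivity
      rw [e2]
      nlinarith
    refine k.trans ((mul_le_mul_of_nonneg_right e1 (by positivity)).trans (le_of_eq ?_))
    simp only [X, Real.exp_add]
    ring
  have k := sum_le_label Fs (univ.filter (fun B : Finset α => (B.card : ℝ) ≤ ρ * N))
    (fun B f => ∀ u ∈ Uᶜ, u ∉ B → f u ∈ SS) (fun f => ∏ i, l ^ (f i).card)
    (X ^ Uᶜ.card * Real.exp (δ / 4 * (N : ℝ) ^ 2))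
    (fun f _ => prod_nonneg (fun _ _ => by positivity)) (fun f hf => by
      obtain ⟨G, hG, -, h1, h2, rfl⟩ := h f hf
      refine ⟨_, mem_filter.2 ⟨mem_univ _, FSUM92.few_bad hG U hρ (by linarith) h1⟩,
        fun u hu hB => ?_⟩
      have e1 : (ar (rs Gᶜ U) (crs G U u) : ℝ) ≤ (ρ * N) ^ 2 :=
        not_lt.1 (fun c => hB (mem_filter.2 ⟨hu, c⟩))
      have e0 : crs G U u ⊆ U := fun x hx => (mem_crs.1 hx).2.1
      have e2 : ar Gᶜ (crs G U u) ≤ ar (rs Gᶜ U) (crs G U u) := by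
        rw [← ar_rs]
        exact ar_mono (rs_mono le_rfl e0) Subset.rfl
      obtain ⟨K, k1, k2, k3⟩ := hC α G (crs G U u) (ρ * N) hG (by positivity)
        (le_trans (by exact_mod_cast e2) e1)
      obtain ⟨K', k4, k5⟩ := hK3 K (k1.trans e0) (fun x hx y hy e => by
        by_contra c
        have c1 : (rs G0ᶜ U).Adj x y := ⟨⟨e, c⟩, e0 (k1 hx), e0 (k1 hy)⟩
        rw [hΓ, ← h2] at c1
        exact c1.1.2 (k2 x hx y hy e))
      refine mem_filter.2 ⟨mem_univ _, K', k4, ?_⟩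
      have e3 : (crs G U u \ K').card + K.card ≤ (crs G U u).card := by
        rw [← card_sdiff_add_card_eq_card k1]
        exact Nat.add_le_add_right (card_le_card (sdiff_subset_sdiff Subset.rfl k5)) _
      have e4 : ((crs G U u \ K').card : ℝ) + K.card ≤ (crs G U u).card := by exact_mod_cast e3
      nlinarith)
    (fun B hB t ht hq => by
      have e1 := fw_le_fam hl.le (Fs := t) (I := Uᶜ) (fun u => if u ∈ B then univ else SS)
        (fun u => X * if u ∈ B then Real.exp (R * N) else 1) (fun f hf i hi => by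
          obtain ⟨G, -, -, -, -, rfl⟩ := h f (ht hf)
          exact crs_of_mem (by simpa using hi))
        (fun f hf i hi => by
          by_cases c : i ∈ B
          · simp [c]
          · simpa [c] using hq f hf i hi c)
        (fun i _ => by
          by_cases c : i ∈ B
          · rw [if_pos c, if_pos c]
            refine (sum_pow_le hl.le (A := univ) (fun _ _ => subset_univ _)).trans
              ((one_add_pow_le_exp hl.le _).trans (le_trans ?_
                (le_mul_of_one_le_left (Real.exp_pos _).le hX)))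
            rw [card_univ]
            exact Real.exp_le_exp.2 (mul_le_mul_of_nonneg_right hD.hi hN0)
          · rw [if_neg c, if_neg c, mul_one]
            exact hSS)
      refine e1.trans ?_
      rw [prod_mul_distrib, prod_const, prod_ite_mem, prod_const, ← Real.exp_nat_mul]
      refine mul_le_mul_of_nonneg_left (Real.exp_le_exp.2 ?_) (by positivity)
      have e2 : ((Uᶜ ∩ B).card : ℝ) ≤ B.card := by exact_mod_cast card_le_card inter_subset_right
      have e3 := mul_le_mul_of_nonneg_right (e2.trans (mem_filter.1 hB).2)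
        (by positivity : (0 : ℝ) ≤ R * N)
      have e4 := mul_le_mul_of_nonneg_right hρ3 (by positivity : (0 : ℝ) ≤ (N : ℝ) ^ 2)
      nlinarith)
  have e1 := card_subsets_exp (A := univ)
    (Ss := univ.filter (fun B : Finset α => (B.card : ℝ) ≤ ρ * N)) (fun _ _ => subset_univ _)
  rw [card_univ, ← hN] at e1
  refine k.trans ((mul_le_mul_of_nonneg_right e1 (by positivity)).trans ?_)
  simp only [X]
  rw [mul_pow, ← pow_mul, ← Real.exp_nat_mul, mul_left_comm, mul_assoc, ← Real.exp_add,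
    ← Real.exp_add]
  refine mul_le_mul_of_nonneg_left (Real.exp_le_exp.2 ?_) (by positivity)
  have e2 : (Uᶜ.card : ℝ) ≤ N := by exact_mod_cast card_le_univ Uᶜ
  have e3 := mul_le_mul_of_nonneg_right e2 (by positivity : (0 : ℝ) ≤ 2 * lg N + δ / 4 * N)
  have e4 := mul_le_mul_of_nonneg_right m2 hN0
  nlinarith

end Pool.Agent.Lib.SPL
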