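import Pool.Agent.Lib.SPL.Defs

/-! Blueprint of the project spl: statements `St_X`, rows `R_X`, glue `main_of`. -/

open scoped Classical
open Finset

noncomputable section

namespace Pool.Agent.Lib.SPL

/-! ### Part A -/

def St_KW : Prop := ∀ (α : Type) (H : Gr α) (B : Finset α) (d : ℕ) (θ c : ℝ),
  0 < c → 0 < θ → B.card ≤ d → (∀ x ∈ B, (dg H x B : ℝ) ≤ θ) → c * θ * d ≤ ar H B →
  (∀ T : Finset α, c * d / 4 ≤ (excl H B (c * θ / 4) T).card) ∧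
  ∀ (S : Finset α) (ν' : ℕ), S ⊆ B → (∀ x ∈ S, dg H x S ≤ ν') →
    ∃ T : Finset α, T ⊆ S ∧ (T.card : ℝ) * (c * θ) ≤ 4 * d ∧
      (S ∩ excl H B (c * θ / 4) T).card ≤ T.card * ν'

def St_SHR : Prop := ∀ (α : Type) [Fintype α] (Gs : Finset (Gr α)) (E F : Gr α) (C1 : Finset α)
  (B : α → Finset α) (H : α → Gr α) (d ν ν' : ℕ) (θ c : ℝ),
  0 < c → 0 < θ → (∀ G ∈ Gs, E ≤ G ∧ G ≤ F) →
  (∀ u ∈ C1, B u ⊆ nb (F \ E) u univ ∧ (B u).card ≤ d ∧ (∀ x ∈ B u, (dg (H u) x (B u) : ℝ) ≤ θ) ∧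
    c * θ * d ≤ ar (H u) (B u)) →
  (∀ G ∈ Gs, ∀ u ∈ C1, ∃ S : Finset α, S.card ≤ ν ∧
    ∀ x ∈ nb G u (B u) \ S, dg (H u) x (nb G u (B u) \ S) ≤ ν') →
  4 * (d : ℝ) ≤ c * θ * ν → 4 * (d : ℝ) * ν' ≤ c * θ * ν → 16 * (ν : ℝ) ≤ c * d →
  Cov Gs (3 * ν * C1.card * lg (Fintype.card α)) (Mstep E F (c * d * C1.card / 16))

def St_EST : Prop := ∀ (α : Type) [Fintype α] (Gs : Finset (Gr α)) (E F : Gr α) (C2 : Finset α)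
  (A : α → α × α → Finset α) (v : ℕ),
  (∀ G ∈ Gs, E ≤ G ∧ G ≤ F) →
  (∀ w ∈ C2, ∀ p, (A w p).card ≤ v ∧ ∀ u ∈ A w p, ¬ E.Adj w u) →
  (∀ G ∈ Gs, ∀ w ∈ C2, ∃ p, v ≤ 2 * dg G w (A w p)) →
  Cov Gs (C2.card * (2 * lg (Fintype.card α) + v)) (Estep E F (v * C2.card / 4))

def St_COL0 : Prop := ∀ (α : Type) [Fintype α] (k : ℕ) (f : α → α → ℝ), 0 < k →
  ∃ φ : α → Fin k, ∑ p ∈ (univ : Finset α).offDiag, f p.1 p.2 ≤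
    k * ∑ p ∈ (univ : Finset α).offDiag.filter (fun p => φ p.1 = φ p.2), f p.1 p.2

def St_COL : Prop := ∀ (α : Type) [Fintype α] (ε t g : ℝ) (E F G : Gr α) (V C : Finset α)
  (B : α → Finset α) (d k : ℕ),
  0 < ε → 0 < t → 0 ≤ g → 0 < k → Rich ε E F V C B d → E ≤ G → (ed G : ℝ) ≤ t →
  (∀ x y, G.Adj x y → ¬ E.Adj x y → (dg G x univ : ℝ) ≤ g ∨ (dg G y univ : ℝ) ≤ g) →
  8 * g ≤ ε ^ 2 * d → 32 * (k : ℝ) ≤ ε ^ 2 * d →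
  ∃ φ : α → Fin k, (ed (mo G φ) : ℝ) ≤ 16 * t / (ε ^ 2 * k) ∧
    Pre ε E (nR G φ V) V C (fun u => trim φ d (B u)) d k

def St_SRV : Prop := ∀ (α : Type) (ε : ℝ) (E R : Gr α) (V C : Finset α) (B : α → Finset α)
  (Γ : α → Gr α) (d k θ ν' v : ℕ),
  0 < ε → Pre ε E R V C B d k → 0 < θ → 2 * ν' ≤ θ → k * θ ≤ d →
  4 * (V.card : ℝ) * v ≤ ε ^ 2 * (d : ℝ) ^ 2 →
  ((∑ u ∈ C, ar (Γ u) (B u) : ℕ) : ℝ) < ε ^ 2 / 100 * θ * d * V.card →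
  ε ^ 2 * V.card / 32 ≤
    (C.filter (fun w => ε ^ 2 / 32 * (2 * d / k) * d ≤ (ar (lam E R C B Γ θ ν' v w) (B w) : ℝ))).card

def St_SAT : Prop := ∀ (α : Type) [Fintype α] (H : Gr α) (S : Finset α) (ν ν' : ℕ),
  (∃ K : Gr α, K ≤ H ∧ Sup K S ∧ (∀ x ∈ S, dg K x S ≤ ν') ∧ ν * ν' ≤ ar K S) ∨
  ∃ Z : Finset α, Z.card ≤ ν ∧ ∀ x ∈ S \ Z, dg H x (S \ Z) ≤ ν'

def St_TRI : Prop := ∀ (α : Type) [Fintype α] (ε t g : ℝ) (E R G : Gr α) (V C : Finset α)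
  (B : α → Finset α) (d k ν ν' θ v Δ W0 j0 : ℕ),
  0 < ε → Pre ε E R V C B d k → Par ε t g V.card d k ν ν' θ v Δ W0 j0 → (ed G : ℝ) ≤ t →
  ∃ W C1 : Finset α, W.card ≤ W0 ∧ (∀ w ∈ W, dg G w univ ≤ Δ) ∧ C1 ⊆ C ∧
    ε ^ 2 * V.card / 200 ≤ C1.card ∧
    ((∀ u ∈ C1, ε ^ 2 / 200 * θ * d ≤ (ar (gam G R B θ W u) (B u) : ℝ)) ∨
     (∀ u ∈ C1, ε ^ 2 / 200 * (2 * d / k) * d ≤
          (ar (lam E R C B (gam G R B θ W) θ ν' v u) (B u) : ℝ) ∧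
        ∃ S : Finset α, S.card ≤ ν ∧ ∀ x ∈ nb G u (B u) \ S,
          dg (lam E R C B (gam G R B θ W) θ ν' v u) x (nb G u (B u) \ S) ≤ ν') ∨
     (∀ u ∈ C1, ∃ p, v ≤ 2 * dg G u (asel E C B (gam G R B θ W) θ ν' v u p)))

def St_RND : Prop := ∀ (α : Type) [Fintype α] (ε t g : ℝ) (Gs : Finset (Gr α)) (E F : Gr α)
  (V C : Finset α) (B : α → Finset α) (d k ν ν' θ v Δ W0 j0 : ℕ),
  0 < ε → 0 ≤ g → Rich ε E F V C B d → Par ε t g V.card d k ν ν' θ v Δ W0 j0 →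
  (∀ G ∈ Gs, NoC4 G ∧ E ≤ G ∧ G ≤ F ∧ (ed G : ℝ) ≤ t ∧
    ∀ x y, G.Adj x y → ¬ E.Adj x y → (dg G x univ : ℝ) ≤ g ∨ (dg G y univ : ℝ) ≤ g) →
  ∃ G1 G2 : Finset (Gr α), (∀ G ∈ Gs, G ∈ G1 ∨ G ∈ G2) ∧
    Cov G1 (xM (Fintype.card α) V.card k ν j0) (Mstep E F ((ε ^ 2 / 200) ^ 2 * V.card * d / 16)) ∧
    Cov G2 (xE (Fintype.card α) V.card k v j0) (Estep E F (ε ^ 2 / 200 * V.card * v / 4))

def St_PAR : Prop := ∀ ε β : ℝ, 0 < ε → ε ≤ 1 → 0 < β → β ≤ ε ^ 2 → ∃ ω : ℝ,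
  ∀ (N i d : ℕ) (t b : ℝ), ω ≤ Real.log N → 1 ≤ b → b ≤ Real.log N →
  ω * ((N : ℝ) ^ 4 * Real.log N ^ 10) ≤ t ^ 3 → d ≤ i → i ≤ N →
  ε ^ 2 * (t / b) * N ≤ (d : ℝ) ^ 2 * i →
  ∃ k ν ν' θ v Δ W0 j0 : ℕ, Par ε t (ε ^ 3 * Real.sqrt (t / b) / 8) i d k ν ν' θ v Δ W0 j0 ∧
    xM N i k ν j0 + 1 ≤ β * (t / Real.log N) * Real.sqrt ((i : ℝ) / N) ∧
    xE N i k v j0 + 1 ≤ 4 * (d : ℝ) ^ 2 ∧ ε ^ 2 * (d : ℝ) ^ 2 ≤ 8 * i * v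

def St_ITER : Prop := ∀ ε : ℝ, 0 < ε → ε ≤ 1 → ∃ ω : ℝ,
  ∀ (α : Type) [Fintype α] (Gs : Finset (Gr α)) (Y : Finset α) (t b χ B0 : ℝ),
  Tha ω ε t b χ (Fintype.card α) → 0 ≤ B0 →
  (∀ G ∈ Gs, NoC4 G ∧ (ed G : ℝ) ≤ t ∧
    ∀ x, x ∉ Y → (dg G x univ : ℝ) ≤ ε ^ 3 * Real.sqrt (t / b) / 8) →
  LeafBd ε t b χ B0 Gs →
  ∀ E F : Gr α, E ≤ F → Ind (F \ E) Y →
    ((box Gs E F).card : ℝ) ≤ Real.exp (ε * t / 2) * (B0 * Real.exp (-χ * ed E))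

def St_THA : Prop := ∀ ε : ℝ, 0 < ε → ε ≤ 1 → ∃ ω : ℝ,
  ∀ (α : Type) [Fintype α] (Gs : Finset (Gr α)) (t b χ B0 : ℝ),
  Tha ω ε t b χ (Fintype.card α) → 0 ≤ B0 →
  (∀ G ∈ Gs, NoC4 G ∧ (ed G : ℝ) ≤ t) → LeafBd ε t b χ B0 Gs →
  (Gs.card : ℝ) ≤ Real.exp (ε * t) * B0

/-! ### Part A' -/

def St_MASS : Prop := ∀ (α : Type) (ε h : ℝ) (E F : Gr α) (V C : Finset α) (B : α → Finset α)
  (d : ℕ), 0 < ε → 0 ≤ h → V.Nonempty → 0 < d → C ⊆ V →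
  (∀ u ∈ C, B u ⊆ nb (F \ E) u V ∧ (B u).card = d ∧ h ≤ ar Eᶜ (B u)) →
  (1 + ε) * (V.card : ℝ) ^ 2 * (V.card + ε * (d : ℝ) ^ 2 + ar E C) ≤ h * (C.card : ℝ) ^ 2 →
  Rich ε E F V C B d

def St_DP : Prop := ∀ (α : Type) [Fintype α] (ε t b Λ : ℝ) (E F : Gr α),
  Det ε t b (Fintype.card α) → (ed E : ℝ) ≤ t → Real.sqrt (t / b) ≤ Λ → Leaf ε Λ E F →
  Peel (1 + 10 * ε) (ε * Λ) E (F \ E)

def St_DQ : Prop := ∀ (α : Type) [Fintype α] (ε Λ h : ℝ) (E F : Gr α) (V C : Finset α) (d : ℕ),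
  0 < ε → ε ≤ 1 / 100 → 0 ≤ Λ → Leaf ε Λ E F → C ⊆ V → C.Nonempty → 0 < d →
  Fintype.card α ≤ 3 * C.card → (∀ u ∈ C, d ≤ dg (F \ E) u V) → 2 * ε * Λ ≤ d →
  (Fintype.card α : ℝ) ≤ ε * (d : ℝ) ^ 2 →
  (∀ U : Finset α, U.card = d → h ≤ ar Eᶜ U) → h ≤ 10 * (2 * ε * (d : ℝ) ^ 2 + ar E C)

def St_DR : Prop := ∀ (α : Type) [Fintype α] (κ y : ℝ) (E M : Gr α), 0 ≤ κ → 0 ≤ y →
  Peel κ y E M → ∀ (V : Finset α) (j : ℕ), j ≤ V.card → ∃ V' : Finset α, V' ⊆ V ∧ V'.card = j ∧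
    (ar M V : ℝ) ≤ ar M V' + 2 * ((V.card : ℝ) - j) * (κ * Real.sqrt (ar E V) + 1) +
      4 * y * Real.sqrt (Fintype.card α) * (Real.sqrt V.card - Real.sqrt j)

def St_L1 : Prop := ∀ (α : Type) [Fintype α] (ε t b : ℝ) (E F : Gr α),
  Det ε t b (Fintype.card α) → (ed E : ℝ) ≤ t → Leaf ε (scl t b E F) E F →
  (ed (F \ E) : ℝ) ≤ (1 + 13 * ε) * Fintype.card α * Real.sqrt (2 * ed E) +
    3 * ε * Fintype.card α * Real.sqrt (t / b)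

def St_STAB : Prop := ∀ (α : Type) [Fintype α] (ε t b Λ z l : ℝ) (E F : Gr α),
  Det ε t b (Fintype.card α) → (ed E : ℝ) ≤ t → Real.sqrt (t / b) ≤ Λ → Leaf ε Λ E F →
  0 < z → z ^ 2 ≤ 1 / 1000 → ε ≤ z ^ 2 → Λ ≤ 2 * l →
  2 * (ed E : ℝ) ≤ (1 + z ^ 2) * l ^ 2 → (1 - z ^ 2) * l * Fintype.card α ≤ ed (F \ E) →
  ∃ U : Finset α, (1 - 100 * z ^ 2) * l ≤ U.card ∧ (U.card : ℝ) ≤ l ∧
    (ar Eᶜ U : ℝ) ≤ 2000 * z ^ 2 * l ^ 2 ∧ (ar (F \ E) Uᶜ : ℝ) ≤ 100 * z * l * Fintype.card α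

def St_CLQ : Prop := ∀ (α : Type) (G : Gr α) (U : Finset α) (y : ℝ), NoC4 G → 0 ≤ y →
  (ar Gᶜ U : ℝ) ≤ y ^ 2 → ∃ K : Finset α, K ⊆ U ∧ Clq G K ∧ (U.card : ℝ) ≤ K.card + 2 * y

/-! ### Part B -/

def St_BOX : Prop := ∀ (α : Type) [Fintype α] (Gs : Finset (Gr α)) (E F : Gr α) (l z : ℝ),
  0 < l → (∀ G ∈ Gs, E ≤ G ∧ G ≤ F) →
  (∀ t : ℕ, 0 < z → (∀ G ∈ Gs, ed G = t) → (Gs.card : ℝ) * l ^ t ≤
    l ^ ed E * Real.exp (z * l * ed (F \ E) - ((t : ℝ) - ed E) * Real.log z)) ∧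
  ∀ (M1 : Gr α) (y : ℝ), 1 ≤ z → (∀ G ∈ Gs, y ≤ ed ((G \ E) ⊓ M1)) →
    gw l Gs ≤ l ^ ed E * (1 + l) ^ ed (F \ E) * Real.exp (z * l * ed M1 - y * Real.log z)

def St_A1a : Prop := ∀ z : ℝ, 0 < z → z ≤ 1 / 1000 → ∃ ω : ℝ,
  ∀ (α : Type) [Fintype α] (l : ℝ) (Gs : Finset (Gr α)) (E F : Gr α) (U : Finset α),
  Reg ω (Fintype.card α) l → (ed E : ℝ) ≤ ell (Fintype.card α) l ^ 2 →
  (1 - 100 * z ^ 2) * ell (Fintype.card α) l ≤ U.card → (U.card : ℝ) ≤ ell (Fintype.card α) l →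
  (ar Eᶜ U : ℝ) ≤ 2000 * z ^ 2 * ell (Fintype.card α) l ^ 2 →
  (ar (F \ E) Uᶜ : ℝ) ≤ 100 * z * ell (Fintype.card α) l * Fintype.card α →
  (∀ G ∈ Gs, E ≤ G ∧ G ≤ F ∧ NoC4 G ∧ ¬ Good z l G) →
  gw l Gs ≤ l ^ ed E * (1 + l) ^ ed (F \ E) * Real.exp (-(200 * z * QQ (Fintype.card α) l))

/-- the leaf bound behind `St_A1` -/
def St_A1b : Prop := ∀ z : ℝ, 0 < z → z ≤ 1 / 1000 → ∃ ω : ℝ,
  ∀ (α : Type) [Fintype α] (l : ℝ) (m : ℕ) (Gs : Finset (Gr α)) (E F : Gr α),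
  Reg ω (Fintype.card α) l → QQ (Fintype.card α) l / 2 ≤ m → (m : ℝ) ≤ 2 * QQ (Fintype.card α) l →
  (ed E : ℝ) ≤ m → Leaf (z ^ 4 / 10000) (scl m (bb l) E F) E F →
  (∀ G ∈ Gs, E ≤ G ∧ G ≤ F ∧ NoC4 G ∧ ¬ Good z l G) →
  gw l Gs ≤ Real.exp ((1 / 2 - z ^ 4 / 50) * QQ (Fintype.card α) l - z ^ 4 / 10000 * bb l * ed E)

def St_A1 : Prop := ∀ z : ℝ, 0 < z → z ≤ 1 / 1000 → ∃ c ω : ℝ, 0 < c ∧
  ∀ (α : Type) [Fintype α] (l : ℝ) (m : ℕ) (Gs : Finset (Gr α)),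
  Reg ω (Fintype.card α) l → QQ (Fintype.card α) l / 2 ≤ m → (m : ℝ) ≤ 2 * QQ (Fintype.card α) l →
  (∀ G ∈ Gs, NoC4 G ∧ ed G = m ∧ ¬ Good z l G) →
  gw l Gs ≤ Real.exp ((1 / 2 - c) * QQ (Fintype.card α) l)

def St_A23 : Prop := ∀ δ : ℝ, 0 < δ → ∃ ω : ℝ,
  ∀ (β : Type) [Fintype β] (n t : ℕ) (l z : ℝ) (Gs : Finset (Gr β)),
  Reg ω n l → Fintype.card β ≤ n → 0 < z → z ≤ Real.exp 1 → (∀ G ∈ Gs, NoC4 G ∧ ed G = t) →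
  (Gs.card : ℝ) * l ^ t ≤ Real.exp (δ * (t + Fintype.card β * DD n l) +
    4 * z ^ 2 * (Fintype.card β : ℝ) ^ 2 * l ^ 2 / bb l - t * Real.log z)

def St_ZS1 : Prop := ∀ δ : ℝ, 0 < δ → ∃ ω : ℝ,
  ∀ (α : Type) [Fintype α] (l : ℝ) (X : Finset α) (Ts : Finset (Gr α)),
  Reg ω (Fintype.card α) l → (∀ T ∈ Ts, NoC4 T ∧ Sup T X) →
  gw l Ts ≤ 3 * Real.exp (δ * (X.card * DD (Fintype.card α) l) +
    30 * (X.card : ℝ) ^ 2 * l ^ 2 / bb l)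

def St_ZS2 : Prop := ∀ δ : ℝ, 0 < δ → ∃ z ω : ℝ, 0 < z ∧
  ∀ (α : Type) [Fintype α] (l : ℝ) (Ts : Finset (Gr α)),
  Reg ω (Fintype.card α) l → (∀ T ∈ Ts, NoC4 T ∧ (ed T : ℝ) ≤ z * QQ (Fintype.card α) l) →
  gw l Ts ≤ Real.exp (δ * QQ (Fintype.card α) l)

/-! ### Part C -/

def St_FACT : Prop := ∀ (α : Type) [Fintype α] (l : ℝ) (A : Finset α) (Gs As Ts : Finset (Gr α))
  (Φ : Gr α → Gr α → ℝ), 0 < l → (∀ G ∈ Gs, rs Gᶜ A ∈ As ∧ rs G Aᶜ ∈ Ts) →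
  (∀ Γ ∈ As, ∀ T ∈ Ts, ∀ Fs : Finset (α → Finset α),
    (∀ f ∈ Fs, ∃ G ∈ Gs, rs Gᶜ A = Γ ∧ rs G Aᶜ = T ∧ crs G A = f) → fw l Fs ≤ Φ Γ T) →
  gw l Gs ≤ l ^ A.card.choose 2 * ∑ Γ ∈ As, ∑ T ∈ Ts, l⁻¹ ^ ed Γ * l ^ ed T * Φ Γ T

def St_YBIG : Prop := ∃ c z ω : ℝ, 0 < c ∧ 0 < z ∧
  ∀ (α : Type) [Fintype α] (l : ℝ) (Gs : Finset (Gr α)), Reg ω (Fintype.card α) l →
  (∀ G ∈ Gs, NoC4 G ∧ ∃ K : Finset α, Clq G K ∧ ell (Fintype.card α) l / 2 ≤ K.card ∧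
    (ed (rs G Kᶜ) : ℝ) ≤ z * QQ (Fintype.card α) l ∧
    ell (Fintype.card α) l / 50000 < (big G K).card) →
  gw l Gs ≤ Real.exp (-(c * QQ (Fintype.card α) l)) * WW (Fintype.card α) l

def St_CLS : Prop := ∀ (α : Type) [Fintype α] (z l : ℝ) (G : Gr α) (K : Finset α),
  2 ≤ ell (Fintype.card α) l → Clq G K → 9 / 10 * ell (Fintype.card α) l ≤ K.card →
  (K.card : ℝ) ≤ ell (Fintype.card α) l + 1 → (ed (rs G Kᶜ) : ℝ) ≤ z * QQ (Fintype.card α) l →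
  ((big G K).card : ℝ) ≤ ell (Fintype.card α) l / 50000 → ∃ A : Finset α, Cls z l G A

def St_CONS : Prop := ∀ (α : Type) [Fintype α] (G : Gr α) (A : Finset α), NoC4 G →
  Fam A Aᶜ (crs G A) ∧
  (∀ g : ℕ, (∀ x ∈ A, dg Gᶜ x A ≤ g) → ∀ i, Ind (rs Gᶜ A) (crs G A i) ∨
    (A \ crs G A i).card ≤ 2 * g) ∧
  (∀ (K : Finset α) (u v : α), K ⊆ A → Ind (rs Gᶜ A) K → (rs G Aᶜ).Adj u v →
    crs G A u ∩ K ⊆ crs G A v ∨ crs G A v ∩ K ⊆ crs G A u) ∧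
  ∀ j j' c : α, j ≠ j' → ¬ (rs G Aᶜ).Adj j j' → (rs G Aᶜ).Adj c j → (rs G Aᶜ).Adj c j' →
    crs G A j ∩ crs G A j' ⊆ crs G A c

def St_NEST : Prop := ∀ (α : Type) [Fintype α] (l : ℝ) (A I K : Finset α) (H : Gr α)
  (P : Finset (α × α)) (Fs : Finset (α → Finset α)),
  0 < l → l ≤ 1 → K ⊆ A → 8 ≤ K.card * l → Mat H P → vs P ⊆ I →
  (∀ f ∈ Fs, Fam A I f ∧ ∀ p ∈ P, f p.1 ∩ K ⊆ f p.2 ∨ f p.2 ∩ K ⊆ f p.1) →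
  fw l Fs ≤ (1 + l) ^ (A.card * I.card) * Real.exp (-(P.card * (K.card * l) / 8))

def St_STAR : Prop := ∀ (α : Type) [Fintype α] (l h : ℝ) (A I J : Finset α) (c : α → α) (r : ℕ)
  (Fs : Finset (α → Finset α)),
  0 < l → l ≤ 1 → 0 ≤ h → 32 ≤ r * l → J ⊆ I → Stars J c r →
  (∀ f ∈ Fs, Fam A I f ∧ (∀ j ∈ J, h ≤ (A \ f (c j)).card) ∧
    ∀ j ∈ J, ∀ j' ∈ J, j ≠ j' → c j = c j' → f j ∩ f j' ⊆ f (c j)) →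
  fw l Fs ≤ (1 + l) ^ (A.card * I.card) * Real.exp (-(l * h * J.card / 4))

def St_CORE : Prop := ∀ (α : Type) [Fintype α] (T : Gr α) (r : ℕ), 0 < r →
  ∃ s : ℕ, Str T r s ∧ (T ≠ ⊥ → 0 < s)

def St_TSAV : Prop := ∃ ω : ℝ, ∀ (α : Type) [Fintype α] (z l : ℝ) (A : Finset α) (Γ T : Gr α)
  (s : ℕ) (Fs : Finset (α → Finset α)), Reg ω (Fintype.card α) l → Str T ⌈32 / l⌉₊ s →
  (∀ f ∈ Fs, Src z l A Γ T f) →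
  fw l Fs ≤ (1 + l) ^ (A.card * Aᶜ.card) * Real.exp (-(s * DD (Fintype.card α) l / 64000))

def St_TSUM : Prop := ∀ c : ℝ, 0 < c → ∃ z ω : ℝ, 0 < z ∧
  ∀ (α : Type) [Fintype α] (l : ℝ) (Ts : Finset (Gr α)) (s : Gr α → ℕ),
  Reg ω (Fintype.card α) l →
  (∀ T ∈ Ts, NoC4 T ∧ (ed T : ℝ) ≤ z * QQ (Fintype.card α) l ∧ 0 < s T ∧
    ∃ X : Finset α, X.card ≤ 3 * s T ∧ ed (T \ rs T X) ≤ 2 * ⌈32 / l⌉₊ * s T) →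
  ∑ T ∈ Ts, l ^ ed T * Real.exp (-(c * s T * DD (Fintype.card α) l)) ≤
    Real.exp (-(c * DD (Fintype.card α) l / 4))

def St_IND : Prop := ∀ (α : Type) (l : ℝ) (Γ : Gr α) (A : Finset α) (Ss : Finset (Finset α)),
  0 < l → (∀ S ∈ Ss, S ⊆ A ∧ Ind Γ S) →
  (∀ P : Finset (α × α), Mat Γ P → vs P ⊆ A →
    ∑ S ∈ Ss, l ^ S.card ≤ (1 + l) ^ A.card * (1 - (l / (1 + l)) ^ 2) ^ P.card) ∧
  ∀ (Y : Finset α) (g : ℕ), Y ⊆ A → (∀ x ∈ Y, g ≤ dg Γ x A) →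
    ∑ S ∈ Ss, l ^ S.card ≤
      (1 + l) ^ A.card * ((1 + l)⁻¹ ^ Y.card + Y.card * (1 + l)⁻¹ ^ g)

def St_GST : Prop := ∀ (α : Type) [Fintype α] (Γ : Gr α) (A : Finset α) (D : ℝ),
  ∃ ν t : ℕ, GStr Γ A D ν t ∧ (Γ ≠ ⊥ → 0 < ν) ∧ ∀ Z : Finset α, Cvr Γ Z → ν ≤ Z.card

def St_GSAV : Prop := ∃ ω : ℝ, ∀ (α : Type) [Fintype α] (z l : ℝ) (A : Finset α) (Γ T : Gr α)
  (ν t : ℕ) (Fs : Finset (α → Finset α)), Reg ω (Fintype.card α) l →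
  GStr Γ A (DD (Fintype.card α) l) ν t → (∀ f ∈ Fs, Src z l A Γ T f) →
  fw l Fs ≤ (1 + l) ^ (A.card * Aᶜ.card) *
    Real.exp (-(Fintype.card α * l ^ 2 * ν / 32) - Fintype.card α * l * t / 32)

def St_GSUM : Prop := ∃ ω : ℝ, ∀ (α : Type) [Fintype α] (l : ℝ) (A : Finset α)
  (As : Finset (Gr α)) (ν t : Gr α → ℕ), Reg ω (Fintype.card α) l →
  ell (Fintype.card α) l / 2 ≤ A.card → (A.card : ℝ) ≤ 2 * ell (Fintype.card α) l →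
  (∀ Γ ∈ As, Sup Γ A ∧ (∀ x ∈ A, 2000 * dg Γ x A ≤ A.card) ∧ 0 < ν Γ ∧ 20000 * ν Γ ≤ A.card ∧
    GStr Γ A (DD (Fintype.card α) l) (ν Γ) (t Γ)) →
  ∑ Γ ∈ As, l⁻¹ ^ ed Γ *
      Real.exp (-(Fintype.card α * l ^ 2 * ν Γ / 64) - Fintype.card α * l * t Γ / 64) ≤
    Real.exp (-DD (Fintype.card α) l)

def St_CSUM : Prop := ∃ c z ω : ℝ, 0 < c ∧ 0 < z ∧
  ∀ (α : Type) [Fintype α] (l : ℝ) (A : Finset α) (Gs : Finset (Gr α)),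
  Reg ω (Fintype.card α) l → (∀ G ∈ Gs, NoC4 G ∧ Cls z l G A ∧ ¬ IsSplit G) →
  gw l Gs ≤ Real.exp (-(c * DD (Fintype.card α) l)) * ww (Fintype.card α) l A.card

/-! ### Part D -/

def St_DLAM : Prop := ∀ ω : ℝ, ∃ (C δ : ℝ) (n0 : ℕ), 0 < δ ∧ ∀ n m : ℕ, n0 ≤ n →
  C * ((n : ℝ) ^ 4 * Real.log n ^ 10) ≤ (m : ℝ) ^ 3 → (m : ℝ) ≤ δ * (n : ℝ) ^ 2 →
  ∃ l : ℝ, Reg ω n l ∧ QQ n l / 2 ≤ m ∧ (m : ℝ) ≤ 2 * QQ n l ∧ Near n m l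

def St_DW : Prop := ∃ ω : ℝ, ∀ (n : ℕ) (l : ℝ), Reg ω n l →
  WW n l ≤ Real.exp (10 * Real.log n ^ 2) * ((n.choose (kk n l) : ℝ) * ww n l (kk n l))

def St_WLOW : Prop := ∀ δ : ℝ, 0 < δ → ∃ ω : ℝ, ∀ (n : ℕ) (l : ℝ), Reg ω n l →
  Real.exp ((1 / 2 - δ) * QQ n l) ≤ WW n l

def St_DBIN : Prop := ∀ (P j : ℕ) (l : ℝ), 0 < l → 0 < P → j ≤ P →
  (1 + l) ^ P * Real.exp (-(((j : ℝ) - P * (l / (1 + l))) ^ 2 / (P * (l / (1 + l) ^ 2)))) ≤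
    (P + 1) * ((P.choose j : ℝ) * l ^ j)

def St_DSPL : Prop := ∀ (α : Type) [Fintype α] (k j : ℕ),
  (Fintype.card α).choose k * (k * (Fintype.card α - k)).choose j ≤
    (Fintype.card α ^ 2 + 1) * nsp α (k.choose 2 + j)

def St_DLOW : Prop := ∃ K ω : ℝ, ∀ (α : Type) [Fintype α] (l : ℝ) (m : ℕ),
  Reg ω (Fintype.card α) l → Near (Fintype.card α) m l →
  WW (Fintype.card α) l ≤ Real.exp (K * Real.log (Fintype.card α) ^ 2) * (nsp α m * l ^ m)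

def St_MAIN : Prop := ∃ (C δ c : ℝ) (n0 : ℕ), 0 < δ ∧ 0 < c ∧
  ∀ (α : Type) [Fintype α] (m : ℕ) (Gs : Finset (Gr α)), n0 ≤ Fintype.card α →
  C * ((Fintype.card α : ℝ) ^ 4 * Real.log (Fintype.card α) ^ 10) ≤ (m : ℝ) ^ 3 →
  (m : ℝ) ≤ δ * (Fintype.card α : ℝ) ^ 2 → (∀ G ∈ Gs, NoC4 G ∧ ed G = m ∧ ¬ IsSplit G) →
  0 < nsp α m ∧ (Gs.card : ℝ) ≤ Real.exp (-(c * m / Fintype.card α)) * nsp α m

/-! ### Rows -/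

def R_KW : Prop := St_KW
def R_SHR : Prop := St_KW → St_SHR
def R_EST : Prop := St_EST
def R_COL0 : Prop := St_COL0
def R_COL : Prop := St_COL0 → St_COL
def R_SRV : Prop := St_SRV
def R_SAT : Prop := St_SAT
def R_TRI : Prop := St_SRV → St_SAT → St_TRI
def R_RND : Prop := St_SHR → St_EST → St_COL → St_TRI → St_RND
def R_PAR : Prop := St_PAR
def R_ITER : Prop := St_RND → St_PAR → St_ITER
def R_THA : Prop := St_ITER → St_THA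
def R_MASS : Prop := St_MASS
def R_DP : Prop := St_MASS → St_DP
def R_DQ : Prop := St_MASS → St_DQ
def R_DR : Prop := St_DR
def R_L1 : Prop := St_DP → St_DR → St_L1
def R_STAB : Prop := St_DP → St_DQ → St_DR → St_STAB
def R_CLQ : Prop := St_CLQ
def R_BOX : Prop := St_BOX
def R_A1a : Prop := St_CLQ → St_BOX → St_A1a
def R_A1b : Prop := St_L1 → St_STAB → St_BOX → St_A1a → St_A1b
def R_A1 : Prop := St_THA → St_A1b → St_A1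
def R_A23 : Prop := St_THA → St_L1 → St_BOX → St_A23
def R_ZS1 : Prop := St_A23 → St_ZS1
def R_ZS2 : Prop := St_A23 → St_ZS2
def R_FACT : Prop := St_FACT
def R_YBIG : Prop := St_FACT → St_ZS2 → St_YBIG
def R_CLS : Prop := St_CLS
def R_CONS : Prop := St_CONS
def R_NEST : Prop := St_NEST
def R_STAR : Prop := St_STAR
def R_CORE : Prop := St_CORE
def R_TSAV : Prop := St_CONS → St_NEST → St_STAR → St_TSAV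
def R_TSUM : Prop := St_ZS1 → St_ZS2 → St_TSUM
def R_IND : Prop := St_IND
def R_GST : Prop := St_GST
def R_GSAV : Prop := St_CONS → St_IND → St_GSAV
def R_GSUM : Prop := St_GSUM
def R_CSUM : Prop := St_FACT → St_CORE → St_TSAV → St_TSUM → St_GST → St_GSAV → St_GSUM → St_CSUM
def R_DLAM : Prop := St_DLAM
def R_DW : Prop := St_DW
def R_WLOW : Prop := St_WLOW
def R_DBIN : Prop := St_DBIN
def R_DSPL : Prop := St_DSPL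
def R_DLOW : Prop := St_DW → St_DBIN → St_DSPL → St_DLOW
def R_FIN : Prop := St_A1 → St_YBIG → St_CLS → St_CSUM → St_DLAM → St_WLOW → St_DLOW → St_MAIN

theorem main_of (kw : R_KW) (shr : R_SHR) (est : R_EST) (col0 : R_COL0) (col : R_COL)
    (srv : R_SRV) (sat : R_SAT) (tri : R_TRI) (rnd : R_RND) (par : R_PAR) (iter : R_ITER)
    (tha : R_THA) (mass : R_MASS) (dp : R_DP) (dq : R_DQ) (dr : R_DR) (l1 : R_L1) (stab : R_STAB)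
    (clq : R_CLQ) (bx : R_BOX) (a1a : R_A1a) (a1b : R_A1b) (a1 : R_A1) (a23 : R_A23)
    (zs1 : R_ZS1) (zs2 : R_ZS2) (fact : R_FACT) (ybig : R_YBIG) (cls : R_CLS) (cons : R_CONS)
    (nest : R_NEST) (star : R_STAR) (core : R_CORE) (tsav : R_TSAV) (tsum : R_TSUM) (ind : R_IND)
    (gst : R_GST) (gsav : R_GSAV) (gsum : R_GSUM) (csum : R_CSUM) (dlam : R_DLAM) (dw : R_DW)
    (wlow : R_WLOW) (dbin : R_DBIN) (dspl : R_DSPL) (dlow : R_DLOW) (fin : R_FIN) : St_MAIN := by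
  have hTHA : St_THA := tha (iter (rnd (shr kw) est (col col0) (tri srv sat)) par)
  have hDP : St_DP := dp mass
  have hL1 : St_L1 := l1 hDP dr
  have hA23 : St_A23 := a23 hTHA hL1 bx
  have hZ2 : St_ZS2 := zs2 hA23
  exact fin (a1 hTHA (a1b hL1 (stab hDP (dq mass) dr) bx (a1a clq bx))) (ybig fact hZ2) cls
    (csum fact core (tsav cons nest star) (tsum (zs1 hA23) hZ2) gst (gsav cons ind) gsum)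
    dlam wlow (dlow dw dbin dspl)

end Pool.Agent.Lib.SPL
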