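import Pool.Agent.Lib.SPL.Kit2
import Pool.Agent.Lib.SPL.Blue

/-! Row GSAV: the saving that comes from the non-edges inside `A`. -/

open scoped Classical
open Finset

noncomputable section

namespace Pool.Agent.Lib.SPL

namespace GSAV34

theorem exp_neg_le {u x : ℝ} (h0 : 0 ≤ u) (h1 : u ≤ 1) (h : u ≤ x) :
    Real.exp (-x) ≤ 1 - u / 2 := by
  have h2 : 1 + u ≤ Real.exp x := by linarith [Real.add_one_le_exp x]
  rw [Real.exp_neg, inv_le_iff_one_le_mul₀ (Real.exp_pos x)]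
  have h3 := mul_le_mul_of_nonneg_left h2 (show 0 ≤ 1 - u / 2 by linarith)
  nlinarith

theorem inv_pow_le {l : ℝ} (h0 : 0 ≤ l) (h1 : l ≤ 1) (k : ℕ) :
    (1 + l)⁻¹ ^ k ≤ Real.exp (-(l * k / 2)) := by
  rw [inv_pow, Real.exp_neg]
  exact inv_anti₀ (Real.exp_pos _) (exp_le_one_add_pow h0 h1 k)

variable {n : ℕ} {l : ℝ}

theorem tail (h : Reg 20 n l) {k x : ℝ} (hk : ell n l / 2 ≤ k) (hx : x ≤ n * l / 2) :
    Real.exp (-(bb l * k / 4)) ≤ Real.exp (-(x / 8)) * (l ^ 2 / 8) := by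
  have hb := h.hb
  have h1 := h.b_ell (by norm_num)
  have h2 : (20 : ℝ) ^ 5 ≤ ell n l :=
    ((pow_le_pow_left₀ (by norm_num) h.hL 5).trans (h.D_ge (by norm_num))).trans
      (h.D_le_ell (by norm_num))
  have h3 : Real.exp (-(3 : ℝ)) ≤ 1 / 8 := by
    have := two_pow_le_exp 3
    rw [Real.exp_neg, inv_eq_one_div]
    exact one_div_le_one_div_of_le (by norm_num) (by push_cast at this; linarith)
  have h4 : Real.exp (-(bb l * (2 : ℕ))) * Real.exp (-3) ≤ l ^ 2 / 8 := by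
    rw [← pow_eq_exp h.pos]
    nlinarith [sq_nonneg l]
  refine le_trans ?_ (mul_le_mul_of_nonneg_left h4 (Real.exp_pos _).le)
  rw [← Real.exp_add, ← Real.exp_add]
  refine Real.exp_le_exp.2 ?_
  have h5 := mul_le_mul_of_nonneg_left hk (show 0 ≤ bb l by linarith)
  have h6 := mul_le_mul_of_nonneg_left h2 (show 0 ≤ bb l by linarith)
  push_cast
  linarith

theorem num1 (h : Reg 20 n l) {k : ℝ} {ν : ℕ} (hk : ell n l / 2 ≤ k) (hk' : k ≤ 2 * ell n l)
    (h0 : 0 < ν) (h1 : ν ≤ k) :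
    (1 - (l / (1 + l)) ^ 2) ^ ν + Real.exp (-(bb l * k / 4)) ≤ Real.exp (-(l ^ 2 * ν / 8)) := by
  have hl := h.pos
  have hl' := h.le_half (by norm_num)
  have hν : (1 : ℝ) ≤ ν := by exact_mod_cast h0
  have h2 : 2 * l / 3 ≤ l / (1 + l) := by
    rw [le_div_iff₀ (by linarith)]
    nlinarith
  have h3 : l / (1 + l) ≤ 1 := by
    rw [div_le_one (by linarith)]
    linarith
  have h4 : 3 * l ^ 2 / 8 ≤ (l / (1 + l)) ^ 2 := by nlinarith
  have h5 : (1 - (l / (1 + l)) ^ 2) ^ ν ≤ Real.exp (-(3 * l ^ 2 / 8)) ^ ν :=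
    pow_le_pow_left₀ (by nlinarith) (by linarith [Real.add_one_le_exp (-(3 * l ^ 2 / 8))]) _
  rw [← Real.exp_nat_mul, show (ν : ℝ) * -(3 * l ^ 2 / 8) = -(l ^ 2 * ν / 8) + -(l ^ 2 * ν / 4) by
    ring, Real.exp_add] at h5
  have h6 := exp_neg_le (u := l ^ 2 / 4) (x := l ^ 2 * ν / 4) (by positivity) (by nlinarith)
    (by nlinarith [sq_nonneg l])
  have h7 := mul_le_mul_of_nonneg_left h6 (Real.exp_pos (-(l ^ 2 * ν / 8))).le
  have h8 := h.ell_le (by norm_num)
  have h9 := tail h hk (x := l ^ 2 * ν) (by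
    have : l ^ 2 * ν ≤ 1 / 4 * ν := mul_le_mul_of_nonneg_right (by nlinarith) (by linarith)
    linarith)
  linarith

theorem num2 (h : Reg 20 n l) {k : ℝ} {t g : ℕ} (hk : ell n l / 2 ≤ k) (hk' : k ≤ 2 * ell n l)
    (h0 : 0 < t) (h1 : t ≤ k) (hn : t ≤ n) (hg : max (2 * (t : ℝ)) (DD n l / 2000) ≤ g) :
    (1 + l)⁻¹ ^ t + t * (1 + l)⁻¹ ^ g + Real.exp (-(bb l * k / 4)) ≤ Real.exp (-(l * t / 8)) := by
  have hl := h.pos
  have hl' := h.le_half (by norm_num)
  have hb := h.hb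
  have hL := h.hL
  have ht : (1 : ℝ) ≤ t := by exact_mod_cast h0
  have h2 := inv_pow_le hl.le (by linarith) t
  rw [show -(l * t / 2) = -(l * t / 8) + -(3 * (l * t) / 8) by ring, Real.exp_add] at h2
  have h3 := exp_neg_le (u := 3 * l / 8) (x := 3 * (l * t) / 8) (by positivity) (by linarith)
    (by nlinarith)
  have h4 := mul_le_mul_of_nonneg_left h3 (Real.exp_pos (-(l * t / 8))).le
  have h5 : Real.exp (-(4 : ℝ)) ≤ 1 / 16 := by
    have := two_pow_le_exp 4
    rw [Real.exp_neg, inv_eq_one_div]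
    exact one_div_le_one_div_of_le (by norm_num) (by push_cast at this; linarith)
  have h6 : t * (1 + l)⁻¹ ^ g ≤ Real.exp (-(l * t / 8)) * (l / 16) := by
    have e1 : (t : ℝ) ≤ Real.exp (Real.log n) := by
      rw [Real.exp_log (h.n_pos (by norm_num))]
      exact_mod_cast hn
    have e2 : Real.exp (-bb l) * Real.exp (-4) ≤ l / 16 := by
      rw [exp_neg_bb hl]
      nlinarith
    refine (mul_le_mul e1 (inv_pow_le hl.le (by linarith) g) (by positivity)
      (Real.exp_pos _).le).trans (le_trans ?_ (mul_le_mul_of_nonneg_left e2 (Real.exp_pos _).le))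
    rw [← Real.exp_add, ← Real.exp_add, ← Real.exp_add]
    refine Real.exp_le_exp.2 ?_
    have e3 := mul_le_mul_of_nonneg_left ((le_max_left _ _).trans hg) hl.le
    have e4 := mul_le_mul_of_nonneg_left ((le_max_right _ _).trans hg) hl.le
    have e5 := h.D_l (by norm_num)
    have e6 := h.b_le (by norm_num)
    have e7 : (20 : ℝ) ^ 4 * Real.log n ≤ Real.log n ^ 5 := by
      rw [pow_succ (Real.log n) 4]
      exact mul_le_mul_of_nonneg_right (pow_le_pow_left₀ (by norm_num) hL 4) (by linarith)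
    have e8 : 0 ≤ l * t := by positivity
    linarith
  have h7 := tail h hk (x := l * t) (by
    have e1 := h.b_ell (by norm_num)
    have e2 := h.ell_pos (by norm_num)
    have e3 : l * t ≤ 1 / 2 * t := mul_le_mul_of_nonneg_right hl' (by linarith)
    nlinarith)
  have h8 : Real.exp (-(l * t / 8)) * (l ^ 2 / 8) ≤ Real.exp (-(l * t / 8)) * (l / 16) :=
    mul_le_mul_of_nonneg_left (by nlinarith) (Real.exp_pos _).le
  have h9 : 0 ≤ Real.exp (-(l * t / 8)) * l := by positivity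
  linarith

end GSAV34

open GSAV34 in
theorem r_GSAV : R_GSAV := by
  intro hC hI
  refine ⟨20, fun α _ z l A Γ T ν t Fs h hS hF => ?_⟩
  have hl := h.pos
  rcases Fs.eq_empty_or_nonempty with rfl | ⟨f0, hf0⟩
  · rw [fw, sum_empty]
    positivity
  obtain ⟨G0, -, hG0, hΓ, -, -⟩ := hF f0 hf0
  obtain ⟨⟨P, hP, -, hPν⟩, ⟨Y, hY, hYt, hYd⟩, -⟩ := hS
  have hPA : vs P ⊆ A := fun x hx => by
    obtain ⟨p, hp, e⟩ := mem_vs.1 hx
    have := hP.1 p hp
    rw [← hΓ] at this
    rcases e with rfl | rfl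
    · exact this.2.1
    · exact this.2.2
  have hν : ν ≤ A.card := by
    have := card_le_card hPA
    rw [hP.card_vs] at this
    omega
  have ht : t ≤ A.card := hYt ▸ card_le_card hY
  obtain ⟨S1, hS1⟩ : ∃ S1, S1 = A.powerset.filter fun S => Ind Γ S := ⟨_, rfl⟩
  obtain ⟨S2, hS2⟩ : ∃ S2, S2 = A.powerset.filter fun S => A.card ≤ 2 * S.card := ⟨_, rfl⟩
  have hpw : (1 : ℝ) ≤ (1 + l) ^ A.card := one_le_pow₀ (by linarith)
  have hall : ∑ S ∈ S1 ∪ S2, l ^ S.card ≤ (1 + l) ^ A.card := sum_pow_le hl.le fun S h => by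
    rw [hS1, hS2, ← filter_or] at h
    exact mem_powerset.1 (mem_filter.1 h).1
  have hun : ∑ S ∈ S1 ∪ S2, l ^ S.card ≤
      ∑ S ∈ S1, l ^ S.card + (1 + l) ^ A.card * Real.exp (-(bb l * A.card / 4)) := by
    have h1 : ∑ S ∈ S2, l ^ S.card ≤ Real.exp (-(bb l * A.card / 4)) :=
      sum_big_le hl (by linarith [h.hb]) fun S h => by
        rw [hS2, mem_filter, mem_powerset] at h
        exact h
    have h2 := sum_union_inter (s₁ := S1) (s₂ := S2) (f := fun S => l ^ S.card)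
    have h3 : 0 ≤ ∑ S ∈ S1 ∩ S2, l ^ S.card := sum_nonneg fun _ _ => by positivity
    have h4 := mul_le_mul_of_nonneg_right hpw (Real.exp_pos (-(bb l * A.card / 4))).le
    linarith
  obtain ⟨hI1, hI2⟩ := hI α l Γ A S1 hl fun S h => by
    rw [hS1, mem_filter, mem_powerset] at h
    exact h
  have b1 : ∑ S ∈ S1 ∪ S2, l ^ S.card ≤ (1 + l) ^ A.card * Real.exp (-(l ^ 2 * ν / 8)) := by
    rcases Nat.eq_zero_or_pos ν with h0 | h0
    · simpa [h0] using hall
    · have h1 := hI1 P hP hPA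
      have h2 := mul_le_mul_of_nonneg_left (num1 h hG0.lo hG0.hi h0 (by exact_mod_cast hν))
        (zero_le_one.trans hpw)
      rw [hPν] at h1
      linarith
  have b2 : ∑ S ∈ S1 ∪ S2, l ^ S.card ≤ (1 + l) ^ A.card * Real.exp (-(l * t / 8)) := by
    rcases Nat.eq_zero_or_pos t with h0 | h0
    · simpa [h0] using hall
    · have h1 := hI2 Y _ hY fun x hx => Nat.ceil_le.2 (hYd x hx)
      have h2 := mul_le_mul_of_nonneg_left (num2 h hG0.lo hG0.hi h0 (by exact_mod_cast ht)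
        (ht.trans (card_le_univ A)) (Nat.le_ceil _)) (zero_le_one.trans hpw)
      rw [hYt] at h1
      linarith
  have b3 : ∑ S ∈ S1 ∪ S2, l ^ S.card ≤
      (1 + l) ^ A.card * Real.exp (-(l ^ 2 * ν / 16) - l * t / 16) := by
    rcases le_total (l ^ 2 * ν) (l * t) with c | c
    · exact b2.trans (mul_le_mul_of_nonneg_left (Real.exp_le_exp.2 (by linarith))
        (zero_le_one.trans hpw))
    · exact b1.trans (mul_le_mul_of_nonneg_left (Real.exp_le_exp.2 (by linarith))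
        (zero_le_one.trans hpw))
  refine (fw_le_fam hl.le (I := Aᶜ) (fun _ => S1 ∪ S2) _ (fun f hf => ?_) (fun f hf i hi => ?_)
    fun _ _ => b3).trans ?_
  · obtain ⟨G, hG, -, -, -, rfl⟩ := hF f hf
    exact (hC α G A hG).1.2
  · obtain ⟨G, hG, hc, e, -, rfl⟩ := hF f hf
    have h1 := (hC α G A hG).1.1 i hi
    rw [hS1, hS2, ← filter_or, mem_filter, mem_powerset]
    refine ⟨h1, ((hC α G A hG).2.1 (A.card / 2000) (fun x hx => ?_) i).imp (e ▸ id) fun h2 => ?_⟩
    · have := hc.deg x hx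
      omega
    · rw [card_sdiff_of_subset h1] at h2
      omega
  · rw [prod_const, mul_pow, ← pow_mul, ← Real.exp_nat_mul]
    refine mul_le_mul_of_nonneg_left (Real.exp_le_exp.2 ?_) (by positivity)
    have h1 : (Fintype.card α : ℝ) / 2 ≤ (Aᶜ.card : ℕ) := by
      have e1 : ((A.card : ℝ) + (Aᶜ.card : ℕ)) = Fintype.card α := by
        exact_mod_cast card_add_card_compl A
      have e2 := h.b_ell (by norm_num)
      have e3 := h.ell_pos (by norm_num)
      have e4 := h.n_pos (by norm_num)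
      have e5 := h.le_half (by norm_num)
      have e6 := h.hb
      have e7 := hG0.hi
      nlinarith
    have h2 : 0 ≤ l ^ 2 * ν / 16 + l * t / 16 := by positivity
    have h3 := mul_le_mul_of_nonneg_right h1 h2
    linarith

end Pool.Agent.Lib.SPL
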