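import Pool.Agent.Lib.SPL.Kit2
import Pool.Agent.Lib.SPL.Blue2

/-! the saving from the non-edges inside the clique side, dense range -/

open scoped Classical
open Finset

namespace Pool.Agent.Lib.SPL

namespace GSAV2h23

theorem two_exp {a y u w : ℝ} (ha : 0 < a) (hy : 0 < y) (h : 1 ≤ a * y) (h1 : a ≤ u)
    (h2 : u + y ≤ w) : Real.exp (-(2 * u)) + Real.exp (-w) ≤ Real.exp (-u) := by
  have e (x : ℝ) (hx : 0 < x) : Real.exp (-x) ≤ 1 / (1 + x) := by
    rw [Real.exp_neg, one_div]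
    exact inv_anti₀ (by linarith) (by linarith [Real.add_one_le_exp x])
  have h3 : 1 / (1 + a) + 1 / (1 + y) ≤ 1 := by
    rw [div_add_div _ _ (by linarith) (by linarith), div_le_one (by positivity)]
    nlinarith
  have h4 : Real.exp (-(2 * u)) ≤ Real.exp (-u) * Real.exp (-a) := by
    rw [← Real.exp_add]
    exact Real.exp_le_exp.2 (by linarith)
  have h5 : Real.exp (-w) ≤ Real.exp (-u) * Real.exp (-y) := by
    rw [← Real.exp_add]
    exact Real.exp_le_exp.2 (by linarith)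
  nlinarith [e a ha, e y hy, Real.exp_pos (-u)]

theorem pow_le {R l : ℝ} (hR : 1 ≤ R) (h : 1 / R ≤ l) (ν : ℕ) :
    (1 - (l / (1 + l)) ^ 2) ^ ν ≤ Real.exp (-(2 * (ν / (8 * R ^ 2)))) := by
  have hl : 0 < l := lt_of_lt_of_le (by positivity) h
  have h1 : 1 / (2 * R) ≤ l / (1 + l) := by
    rw [div_le_iff₀ (by linarith)] at h
    rw [div_le_div_iff₀ (by linarith) (by linarith)]
    nlinarith
  have h2 : l / (1 + l) ≤ 1 := (div_le_one (by linarith)).2 (by linarith)
  have h3 : (1 / (2 * R)) ^ 2 ≤ (l / (1 + l)) ^ 2 := by gcongr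
  have h4 : (l / (1 + l)) ^ 2 ≤ 1 := pow_le_one₀ (by positivity) h2
  rw [show -(2 * ((ν : ℝ) / (8 * R ^ 2))) = ν * -(1 / (2 * R)) ^ 2 by field_simp; ring,
    Real.exp_nat_mul]
  exact pow_le_pow_left₀ (by linarith) (by linarith [Real.add_one_le_exp (-(1 / (2 * R)) ^ 2)]) _

end GSAV2h23

open GSAV2h23

theorem r_GSAV2 : R_GSAV2 := by
  intro hC hI hM R κ hR hκ
  refine ⟨⌈64 * R ^ 3 / κ⌉₊, fun α _ θ ζ l A Γ T P Fs hD hθ hP hF => ?_⟩
  have hl : 0 < l := lt_of_lt_of_le (by positivity) hD.lo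
  have hfam : ∀ f ∈ Fs, Fam A Aᶜ f := fun f hf => by
    obtain ⟨G, h1, -, -, -, rfl⟩ := hF f hf
    exact (hC α G A h1).1
  rcases P.card.eq_zero_or_pos with h0 | h0
  · simpa [h0] using fw_le_total hl.le hfam
  rcases Fs.eq_empty_or_nonempty with rfl | ⟨f₀, hf₀⟩
  · simp only [fw, sum_empty]
    positivity
  obtain ⟨G₀, -, c₀, e₀, -, -⟩ := hF f₀ hf₀
  obtain ⟨Z, hZ, hZ'⟩ := c₀.cov
  rw [e₀] at hZ
  have h1 : (P.card : ℝ) ≤ Z.card := by exact_mod_cast hP.card_le hZ
  have h2 : (1 : ℝ) ≤ P.card := by exact_mod_cast h0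
  have h3 : 64 * R ^ 3 ≤ A.card := by
    have := (div_le_iff₀ hκ).1 (Nat.ceil_le.1 hD.big)
    linarith [c₀.lo]
  have h4 : vs P ⊆ A := fun x hx => by
    obtain ⟨p, hp, h⟩ := mem_vs.1 hx
    have := hP.1 p hp
    rw [← e₀] at this
    rcases h with rfl | rfl
    exacts [this.2.1, this.2.2]
  have hk : (0 : ℝ) < A.card := lt_of_lt_of_le (by positivity) h3
  have h5 := two_exp (a := 1 / (8 * R ^ 2)) (y := A.card / (8 * R)) (u := P.card / (8 * R ^ 2))
    (w := A.card / (4 * R)) (by positivity) (by positivity)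
    (by rw [div_mul_div_comm, one_le_div (by positivity)]; linarith) (by gcongr) (by
      have : (P.card : ℝ) / (8 * R ^ 2) ≤ A.card / (8 * R) := by
        exact div_le_div₀ hk.le (by linarith [c₀.lo]) (by positivity) (by nlinarith)
      have e : (A.card : ℝ) / (4 * R) = A.card / (8 * R) + A.card / (8 * R) := by
        field_simp; ring
      linarith)
  refine (fw_le_fam hl.le (I := Aᶜ) (fun _ => A.powerset.filter (fun S => Ind Γ S) ∪
    A.powerset.filter (fun S => ((A \ S).card : ℝ) ≤ A.card / (64 * R ^ 3)))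
    (fun _ => (1 + l) ^ A.card * Real.exp (-(P.card / (8 * R ^ 2))))
    (fun f hf => (hfam f hf).2) (fun f hf i hi => ?_) fun i _ => ?_).trans ?_
  · have h6 := mem_powerset.2 ((hfam f hf).1 i hi)
    obtain ⟨G, g1, g2, rfl, -, rfl⟩ := hF f hf
    rcases (hC α G A g1).2.1 ⌊(A.card : ℝ) / (128 * R ^ 3)⌋₊ (fun x hx => Nat.le_floor
      ((g2.deg x hx).trans (by
        calc 2 * θ * A.card ≤ 2 * (1 / (256 * R ^ 3)) * A.card := by gcongr
          _ = _ := by field_simp; ring))) i with h | h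
    · exact mem_union_left _ (mem_filter.2 ⟨h6, h⟩)
    · refine mem_union_right _ (mem_filter.2 ⟨h6, ?_⟩)
      have h7 := Nat.floor_le (show 0 ≤ (A.card : ℝ) / (128 * R ^ 3) by positivity)
      have h8 : (A.card : ℝ) / (64 * R ^ 3) = 2 * (A.card / (128 * R ^ 3)) := by field_simp; ring
      have h9 : ((A \ crs G A i).card : ℝ) ≤ 2 * ⌊(A.card : ℝ) / (128 * R ^ 3)⌋₊ := by
        exact_mod_cast h
      linarith
  · have h6 := (hI α l Γ A (A.powerset.filter (fun S => Ind Γ S)) hl fun S hS =>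
      ⟨mem_powerset.1 (mem_filter.1 hS).1, (mem_filter.1 hS).2⟩).1 P hP h4
    have h7 := hM α R l A (A.powerset.filter
      (fun S => ((A \ S).card : ℝ) ≤ A.card / (64 * R ^ 3))) hR hD.lo hD.hi fun S hS =>
      ⟨mem_powerset.1 (mem_filter.1 hS).1, (mem_filter.1 hS).2⟩
    have h8 := mul_le_mul_of_nonneg_left (pow_le hR hD.lo P.card)
      (show 0 ≤ (1 + l) ^ A.card by positivity)
    have h9 := mul_le_mul_of_nonneg_left h5 (show 0 ≤ (1 + l) ^ A.card by positivity)
    have h10 := sum_union_inter (s₁ := A.powerset.filter (fun S => Ind Γ S))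
      (s₂ := A.powerset.filter (fun S => ((A \ S).card : ℝ) ≤ A.card / (64 * R ^ 3)))
      (f := fun S => l ^ S.card)
    have h11 : 0 ≤ ∑ S ∈ A.powerset.filter (fun S => Ind Γ S) ∩ A.powerset.filter
      (fun S => ((A \ S).card : ℝ) ≤ A.card / (64 * R ^ 3)), l ^ S.card := by positivity
    linarith
  · rw [prod_const, mul_pow, ← pow_mul, ← Real.exp_nat_mul]
    gcongr
    have := mul_le_mul_of_nonneg_left c₀.hi (show 0 ≤ (P.card : ℝ) / (8 * R ^ 2) by positivity)
    have e : κ / (8 * R ^ 2) * P.card * Fintype.card α =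
      P.card / (8 * R ^ 2) * (κ * Fintype.card α) := by ring
    linarith

end Pool.Agent.Lib.SPL
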