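import Pool.Agent.Lib.SPL.Kit2

/-! structure of the graph of non-edges -/

open scoped Classical
open Finset

namespace Pool.Agent.Lib.SPL

theorem r_GST : R_GST := by
  intro α _ Γ A D
  obtain ⟨P, h1, -, h2⟩ := exists_mat Γ univ
  have h3 : Cvr Γ (vs P) := fun x y h => h2 x (mem_univ _) y (mem_univ _) h
  let Q : ℕ → Prop := fun t =>
    t ≤ (A.filter (fun x => max (2 * (t : ℝ)) (D / 2000) ≤ dg Γ x A)).card
  have h4 : Q (Nat.findGreatest Q (A.card + 1)) :=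
    Nat.findGreatest_spec (m := 0) (Nat.zero_le _) (Nat.zero_le _)
  have h5 (t : ℕ) (ht : Q t) : t ≤ A.card := ht.trans (card_filter_le _ _)
  have h6 : ¬ Q (Nat.findGreatest Q (A.card + 1) + 1) :=
    Nat.findGreatest_is_greatest (Nat.lt_succ_self _) (Nat.succ_le_succ (h5 _ h4))
  generalize Nat.findGreatest Q (A.card + 1) = t at h4 h6
  obtain ⟨Y, hY, hc⟩ := exists_subset_card_eq h4
  refine ⟨P.card, t, ⟨⟨P, h1, h3, rfl⟩, ⟨Y, hY.trans (filter_subset _ _), hc,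
    fun x hx => (mem_filter.1 (hY hx)).2⟩, ?_⟩, fun h => ?_, fun Z hZ => h1.card_le hZ⟩
  · simp only [Q, not_le, Nat.cast_add, Nat.cast_one, mul_add, mul_one] at h6
    exact Nat.lt_succ_iff.1 h6
  · obtain ⟨x, y, hxy⟩ := SimpleGraph.ne_bot_iff_exists_adj.1 h
    rcases h3 x y hxy with e | e <;> obtain ⟨p, hp, -⟩ := mem_vs.1 e <;> exact card_pos.2 ⟨p, hp⟩

end Pool.Agent.Lib.SPL
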