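import Pool.Agent.Lib.SPL.Kit2

/-! Row GSUM: the sum over the graphs of non-edges inside the clique side. -/

open scoped Classical
open Finset

noncomputable section

namespace Pool.Agent.Lib.SPL

namespace GSUM79

variable {α : Type}

theorem small (A : Finset α) {l g c : ℝ} (hl : 0 < l) (hg : 0 < g) (h1 : l * g ≤ A.card)
    (h2 : Real.log (A.card / (l * g)) + 1 ≤ c) :
    ∑ S ∈ A.powerset.filter (fun S => (S.card : ℝ) ≤ g), l⁻¹ ^ S.card ≤ Real.exp (c * g) := by
  have hlg : 0 < l * g := mul_pos hl hg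
  have hk : (0 : ℝ) < A.card := hlg.trans_le h1
  set y : ℝ := A.card / (l * g) with hy
  have y1 : 1 ≤ y := (one_le_div hlg).2 h1
  have y0 : 0 < y := by linarith
  have e1 : ∀ S ∈ A.powerset.filter (fun S => (S.card : ℝ) ≤ g),
      l⁻¹ ^ S.card ≤ (l * y)⁻¹ ^ S.card * Real.exp (g * Real.log y) := by
    intro S hS
    have : l⁻¹ ^ S.card = (l * y)⁻¹ ^ S.card * Real.exp (S.card * Real.log y) := by
      rw [Real.exp_nat_mul, Real.exp_log y0, ← mul_pow]
      congr 1
      field_simp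
    rw [this]
    exact mul_le_mul_of_nonneg_left (Real.exp_le_exp.2 (mul_le_mul_of_nonneg_right
      (mem_filter.1 hS).2 (Real.log_nonneg y1))) (by positivity)
  refine (sum_le_sum e1).trans ?_
  rw [← sum_mul]
  have e2 : ∑ S ∈ A.powerset.filter (fun S => (S.card : ℝ) ≤ g), (l * y)⁻¹ ^ S.card ≤
      Real.exp g := by
    refine (sum_pow_le (A := A) (by positivity)
      fun S hS => mem_powerset.1 (mem_filter.1 hS).1).trans
      ((one_add_pow_le_exp (by positivity) _).trans (le_of_eq ?_))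
    congr 1
    rw [hy]
    field_simp
  refine (mul_le_mul_of_nonneg_right e2 (by positivity)).trans ?_
  rw [← Real.exp_add]
  exact Real.exp_le_exp.2 (by nlinarith)

theorem inner [Fintype α] (A Z H : Finset α) (Ts : Finset (Gr α)) {l g1 g2 c : ℝ} (hl : 0 < l)
    (hl1 : l ≤ 1) (hc : 0 ≤ c) (hg1 : 0 ≤ g1) (hg2 : 0 ≤ g2)
    (h1 : ∑ S ∈ A.powerset.filter (fun S => (S.card : ℝ) ≤ g1), l⁻¹ ^ S.card ≤ Real.exp (c * g1))
    (h2 : ∑ S ∈ A.powerset.filter (fun S => (S.card : ℝ) ≤ g2), l⁻¹ ^ S.card ≤ Real.exp (c * g2))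
    (h : ∀ Γ ∈ Ts, Sup Γ A ∧ Cvr Γ Z ∧
      ∀ z ∈ Z, (dg Γ z A : ℝ) ≤ if z ∈ H then g1 else g2) :
    ∑ Γ ∈ Ts, l⁻¹ ^ ed Γ ≤ Real.exp (c * (g1 * H.card + g2 * Z.card)) := by
  let f : Gr α → α → Finset α := fun Γ z => if z ∈ Z then nb Γ z A else ∅
  have hinj : Set.InjOn f Ts := by
    have key : ∀ Γ ∈ Ts, ∀ Γ' ∈ Ts, f Γ = f Γ' → ∀ x y, x ∈ Z → Γ.Adj x y → Γ'.Adj x y := by
      intro Γ hΓ Γ' _ e x y hx a
      have e' := congrFun e x
      simp only [f, if_pos hx] at e'
      have : y ∈ nb Γ x A := mem_nb.2 ⟨((h Γ hΓ).1 x y a).2, a⟩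
      rw [e'] at this
      exact (mem_nb.1 this).2
    have key2 : ∀ Γ ∈ Ts, ∀ Γ' ∈ Ts, f Γ = f Γ' → Γ ≤ Γ' := by
      intro Γ hΓ Γ' hΓ' e x y a
      rcases (h Γ hΓ).2.1 x y a with hx | hy
      · exact key Γ hΓ Γ' hΓ' e x y hx a
      · exact (key Γ hΓ Γ' hΓ' e y x hy a.symm).symm
    exact fun Γ hΓ Γ' hΓ' e => le_antisymm (key2 Γ hΓ Γ' hΓ' e) (key2 Γ' hΓ' Γ hΓ e.symm)
  have e1 : ∑ Γ ∈ Ts, l⁻¹ ^ ed Γ ≤ fw l⁻¹ (Ts.image f) := by
    rw [fw, sum_image hinj]
    refine sum_le_sum fun Γ hΓ => ?_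
    rw [prod_pow_eq_pow_sum]
    refine pow_le_pow_right₀ ((one_le_inv₀ hl).2 hl1) ((h Γ hΓ).2.1.ed_le.trans ?_)
    refine le_trans (sum_le_sum fun z hz => ?_) (sum_le_sum_of_subset (subset_univ Z))
    simp only [f, if_pos hz]
    exact card_le_card fun y hy => mem_nb.2 ⟨((h Γ hΓ).1 z y (mem_nb.1 hy).2).2, (mem_nb.1 hy).2⟩
  refine e1.trans ((fw_le_fam (I := Z) (by positivity)
    (fun z => A.powerset.filter (fun S => (S.card : ℝ) ≤ if z ∈ H then g1 else g2))
    (fun z => Real.exp (c * if z ∈ H then g1 else g2)) ?_ ?_ ?_).trans ?_)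
  · intro F hF i hi
    obtain ⟨Γ, _, rfl⟩ := mem_image.1 hF
    simp only [f, if_neg hi]
  · intro F hF i hi
    obtain ⟨Γ, hΓ, rfl⟩ := mem_image.1 hF
    simp only [f, if_pos hi]
    exact mem_filter.2 ⟨mem_powerset.2 (nb_subset _ _ _), (h Γ hΓ).2.2 i hi⟩
  · intro i _
    by_cases c : i ∈ H
    · simpa only [if_pos c] using h1
    · simpa only [if_neg c] using h2
  · rw [← Real.exp_sum, ← mul_sum]
    refine Real.exp_le_exp.2 (mul_le_mul_of_nonneg_left ?_ hc)
    have e2 : ∀ z ∈ Z, (if z ∈ H then g1 else g2) ≤ (if z ∈ H then g1 else 0) + g2 := by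
      intro z _
      split_ifs <;> linarith
    refine (sum_le_sum e2).trans ?_
    rw [sum_add_distrib, ← sum_filter, sum_const, sum_const, nsmul_eq_mul, nsmul_eq_mul]
    have : ((Z.filter (· ∈ H)).card : ℝ) ≤ H.card := by
      exact_mod_cast card_le_card fun z hz => (mem_filter.1 hz).2
    nlinarith

end GSUM79

open GSUM79 in
theorem r_GSUM : R_GSUM := by
  refine ⟨4000, fun α _ l A As ν t hR hlo hhi h => ?_⟩
  have ω1 : (1 : ℝ) ≤ 4000 := by norm_num
  have hl := hR.pos
  have hb := hR.hb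
  have hL := hR.hL
  have hn := hR.n_pos ω1
  have hell := hR.ell_pos ω1
  have hD := hR.D_pos ω1
  have hbl := hR.b_ell ω1
  have hbD := hR.b_D ω1
  have hlD : l * ell (Fintype.card α) l = DD (Fintype.card α) l := Reg.l_ell
  have hl4 : l ≤ 1 / 4 := by nlinarith [hR.mul_le_one]
  have hDL : 4000 * Real.log (Fintype.card α) ≤ DD (Fintype.card α) l := by
    refine le_trans ?_ (hR.D_ge ω1)
    have h4 : (4000 : ℝ) ≤ Real.log (Fintype.card α) ^ 4 :=
      hL.trans (le_self_pow₀ (by linarith) (by norm_num))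
    rw [pow_succ]
    exact mul_le_mul_of_nonneg_right h4 (by linarith)
  have hlg := lg_le (hR.two_le ω1)
  have hlg0 := lg_nonneg (Fintype.card α)
  have hbe : Real.log l = -bb l := by rw [bb, neg_neg]
  have sm : ∀ g : ℝ, DD (Fintype.card α) l / 2000 ≤ g → l * g ≤ A.card →
      ∑ S ∈ A.powerset.filter (fun S => (S.card : ℝ) ≤ g), l⁻¹ ^ S.card ≤
        Real.exp (3 * bb l * g) := by
    intro g h1 h2
    have g0 : 0 < g := by linarith
    refine small A hl g0 h2 ?_
    have e1 : (A.card : ℝ) / (l * g) ≤ 4000 / l ^ 2 := by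
      rw [div_le_div_iff₀ (by positivity) (by positivity)]
      have : l * (l * A.card) ≤ l * (4000 * g) :=
        mul_le_mul_of_nonneg_left (by nlinarith) hl.le
      nlinarith
    have e2 := Real.log_le_log (div_pos (by linarith) (by positivity)) e1
    rw [Real.log_div (x := 4000) (by norm_num) (by positivity), Real.log_pow, hbe] at e2
    have e3 := Real.log_le_sub_one_of_pos (show (0 : ℝ) < 4000 by norm_num)
    push_cast at e2
    linarith
  set n := Fintype.card α with hn'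
  set D := DD n l
  set b := bb l
  set L := Real.log n
  have hA : A.card ≤ n := card_le_univ A
  have hk1 : (1 : ℝ) ≤ A.card := by nlinarith
  refine (sum_le_label As (range (n + 1) ×ˢ range (n + 1)) (fun a Γ => ν Γ = a.1 ∧ t Γ = a.2) _
    (Real.exp (-D - 2 * lg n)) (fun _ _ => by positivity) (fun Γ hΓ => ?_) ?_).trans ?_
  · obtain ⟨-, -, -, h4, -, ⟨Y, hY, hY', -⟩, -⟩ := h Γ hΓ
    have := card_le_card hY
    exact ⟨(ν Γ, t Γ), mem_product.2 ⟨mem_range.2 (by simp only; omega),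
      mem_range.2 (by simp only; omega)⟩, rfl, rfl⟩
  · rintro ⟨a, s⟩ - Ts hTs hq
    simp only at hq
    rcases Ts.eq_empty_or_nonempty with rfl | ⟨Γ0, hΓ0⟩
    · simp only [sum_empty]; positivity
    obtain ⟨-, -, a1, a2, -, ⟨Y, hY, hY', -⟩, -⟩ := h Γ0 (hTs hΓ0)
    rw [(hq Γ0 hΓ0).1] at a1 a2
    rw [(hq Γ0 hΓ0).2] at hY'
    have s1 : (s : ℝ) ≤ A.card := by exact_mod_cast hY' ▸ card_le_card hY
    have s0 : (0 : ℝ) ≤ s := Nat.cast_nonneg _
    have a1' : (1 : ℝ) ≤ a := by exact_mod_cast a1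
    have a2' : 20000 * (a : ℝ) ≤ A.card := by exact_mod_cast a2
    rw [sum_congr rfl fun Γ hΓ => by rw [(hq Γ hΓ).1, (hq Γ hΓ).2], ← sum_mul]
    set g2 : ℝ := max (2 * (s : ℝ) + 2) (D / 2000) with hg2
    have g20 : 0 ≤ g2 := le_max_of_le_left (by linarith)
    have m1 := sm (A.card / 2000) (by nlinarith) (by nlinarith)
    have m2 := sm g2 (le_max_right _ _) (by
      have : g2 ≤ 4 * A.card := max_le (by linarith) (by nlinarith)
      nlinarith)
    let Sm : Finset (Finset α) := univ.filter fun S => S.card ≤ 2 * a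
    have cS : (Sm.card : ℝ) ≤ Real.exp ((2 * a : ℕ) * lg n) :=
      card_small_sets_exp fun S hS => (mem_filter.1 hS).2
    have e1 := sum_le_label Ts (Sm ×ˢ Sm) (fun p Γ => p.2.card ≤ s ∧ Sup Γ A ∧ Cvr Γ p.1 ∧
        ∀ z ∈ p.1, (dg Γ z A : ℝ) ≤ if z ∈ p.2 then (A.card : ℝ) / 2000 else g2)
      (fun Γ => l⁻¹ ^ ed Γ) (Real.exp (3 * b * (A.card / 2000 * s + g2 * (2 * a))))
      (fun _ _ => by positivity) (fun Γ hΓ => ?_) (fun p hp T hT hQ => ?_)
    · refine (mul_le_mul_of_nonneg_right e1 (by positivity)).trans ?_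
      rw [card_product, Nat.cast_mul]
      refine (mul_le_mul_of_nonneg_right (mul_le_mul_of_nonneg_right
        (mul_le_mul cS cS (by positivity) (by positivity)) (by positivity)) (by positivity)).trans ?_
      rw [← Real.exp_add, ← Real.exp_add, ← Real.exp_add]
      refine Real.exp_le_exp.2 ?_
      push_cast
      have nl : 0 < (n : ℝ) * l := by positivity
      have f1 : b * A.card ≤ 2 * (n * l) := by nlinarith
      have f2 : 3 * b * (A.card / 2000 * s) ≤ 3 / 1000 * (n * l * s) := by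
        nlinarith [mul_le_mul_of_nonneg_right f1 s0]
      have f3 : 3 * b * (g2 * (2 * a)) ≤ 3 / 1000 * (b * D * a) + 24 / 10000 * (n * l * s) := by
        have p1 : 0 ≤ b * D * a := by positivity
        have p2 : 0 ≤ n * l * s := by positivity
        rcases le_total (2 * (s : ℝ) + 2) (D / 2000) with c | c
        · rw [hg2, max_eq_right c]; nlinarith
        · rw [hg2, max_eq_left c]
          have q1 : (1 : ℝ) ≤ s := by linarith
          have q2 : b * a ≤ n * l / 10000 := by nlinarith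
          have q3 : b * a * (2 * s + 2) ≤ n * l / 10000 * (4 * s) :=
            mul_le_mul q2 (by linarith) (by linarith) (by positivity)
          nlinarith
      have f4 : 4000 * (D * a) ≤ b * D * a := by
        have : 0 ≤ D * a := by positivity
        nlinarith
      have f5 : lg n * a ≤ D * a := mul_le_mul_of_nonneg_right (by linarith) (by linarith)
      have f6 : D ≤ D * a := le_mul_of_one_le_right hD.le a1'
      have f7 : (n : ℝ) * l ^ 2 * a = b * D * a := by rw [hbD]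
      have p2 : 0 ≤ n * l * s := by positivity
      rw [f7]
      nlinarith
    · obtain ⟨b1, b2, -, -, ⟨P, hP, hC, hc⟩, -, b3⟩ := h Γ (hTs hΓ)
      rw [(hq Γ hΓ).1] at hc
      rw [(hq Γ hΓ).2] at b3
      have hZ : (vs P).card ≤ 2 * a := by rw [hP.card_vs, hc]
      refine ⟨(vs P, (A.filter fun x => g2 ≤ dg Γ x A) ∩ vs P), mem_product.2
        ⟨mem_filter.2 ⟨mem_univ _, hZ⟩, mem_filter.2 ⟨mem_univ _,
          (card_le_card inter_subset_right).trans hZ⟩⟩,
        (card_le_card inter_subset_left).trans b3, b1, hC, fun z hz => ?_⟩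
      split_ifs with c
      · have : (2000 : ℝ) * dg Γ z A ≤ A.card := by
          exact_mod_cast b2 z (mem_filter.1 (mem_inter.1 c).1).1
        linarith
      · by_cases cz : z ∈ A
        · exact (not_le.1 fun c' => c (mem_inter.2 ⟨mem_filter.2 ⟨cz, c'⟩, hz⟩)).le
        · have : dg Γ z A = 0 := card_eq_zero.2 (eq_empty_of_forall_notMem fun y hy =>
            cz (b1 z y (mem_nb.1 hy).2).1)
          rw [this, Nat.cast_zero]
          exact g20
    · rcases T.eq_empty_or_nonempty with rfl | ⟨Γ1, hΓ1⟩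
      · simp only [sum_empty]; positivity
      refine (inner A p.1 p.2 T hl (by linarith) (by linarith) (by positivity) g20 m1 m2
        fun Γ hΓ => (hQ Γ hΓ).2).trans (Real.exp_le_exp.2 (mul_le_mul_of_nonneg_left ?_
          (by linarith)))
      have c1 : (p.2.card : ℝ) ≤ s := by exact_mod_cast (hQ Γ1 hΓ1).1
      have c2 : (p.1.card : ℝ) ≤ 2 * a := by exact_mod_cast (mem_filter.1 (mem_product.1 hp).1).2
      gcongr
  · have := exp_mul_lg n 2
    rw [card_product, card_range, Real.exp_sub]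
    push_cast at this ⊢
    rw [this]
    exact le_of_eq (by field_simp)

end Pool.Agent.Lib.SPL
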