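import Pool.Agent.Lib.SPL.Kit2
import Pool.Agent.Lib.SPL.Blue2

open scoped Classical
open Finset

noncomputable section

namespace Pool.Agent.Lib.SPL

namespace GSUM267

variable {α : Type} [Fintype α]

/-- graphs with a given vertex cover and small degrees -/
theorem cover_sum {x y ρ : ℝ} (hx : 1 ≤ x) (Z : Finset α) (t : Finset (Gr α))
    (ht : ∀ Γ ∈ t, Cvr Γ Z ∧ ∀ v, (dg Γ v univ : ℝ) ≤ y)
    (hρ : ∑ S ∈ univ.filter (fun S : Finset α => (S.card : ℝ) ≤ y), x ^ S.card ≤ ρ) :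
    ∑ Γ ∈ t, x ^ ed Γ ≤ ρ ^ Z.card := by
  let F : Gr α → α → Finset α := fun Γ i => if i ∈ Z then nb Γ i univ else ∅
  have hinj : ∀ Γ ∈ t, ∀ Γ' ∈ t, F Γ = F Γ' → Γ ≤ Γ' := by
    intro Γ hΓ Γ' _ e
    have key : ∀ u v, u ∈ Z → Γ.Adj u v → Γ'.Adj u v := fun u v hu h => by
      have h1 := congrFun e u
      simp only [F, if_pos hu] at h1
      exact (mem_nb.1 (h1 ▸ mem_nb.2 ⟨mem_univ v, h⟩)).2
    intro u v h
    exact ((ht Γ hΓ).1 u v h).elim (fun hu => key u v hu h) fun hv => (key v u hv h.symm).symm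
  have h1 := fw_le_fam (zero_le_one.trans hx) (Fs := t.image F) (I := Z)
    (fun _ => univ.filter (fun S : Finset α => (S.card : ℝ) ≤ y)) (fun _ => ρ)
    (fun f hf i hi => by
      obtain ⟨Γ, -, rfl⟩ := mem_image.1 hf
      exact if_neg hi)
    (fun f hf i hi => by
      obtain ⟨Γ, hΓ, rfl⟩ := mem_image.1 hf
      simp only [F, if_pos hi]
      exact mem_filter.2 ⟨mem_univ _, (ht Γ hΓ).2 i⟩)
    (fun _ _ => hρ)
  rw [prod_const, fw, sum_image fun Γ h Γ' h' e =>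
    le_antisymm (hinj Γ h Γ' h' e) (hinj Γ' h' Γ h e.symm)] at h1
  refine le_trans (sum_le_sum fun Γ hΓ => ?_) h1
  rw [prod_pow_eq_pow_sum]
  refine pow_le_pow_right₀ hx ((ht Γ hΓ).1.ed_le.trans ?_)
  refine le_trans (le_of_eq (sum_congr rfl fun i hi => ?_)) (sum_le_sum_of_subset (subset_univ Z))
  simp only [F, if_pos hi, dg]

end GSUM267

theorem r_GSUM2 : R_GSUM2 := by
  intro hZ R c hR hc
  obtain ⟨ζ, hζ, -, hz⟩ := hZ R (c / 8) hR (by positivity)
  refine ⟨ζ / 2, ⌈32 / c ^ 2⌉₊, by positivity, fun α _ l As ν hD hA => ?_⟩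
  set n : ℝ := (Fintype.card α : ℝ) with hn
  have hl : 0 < l := lt_of_lt_of_le (by positivity) hD.lo
  have hn0 : 32 / c ^ 2 ≤ n := (Nat.le_ceil _).trans (by rw [hn]; exact_mod_cast hD.big)
  have hn1 : 0 < n := lt_of_lt_of_le (by positivity) hn0
  have hx : max 1 l⁻¹ ≤ R := max_le hR (by
    rw [inv_le_comm₀ hl (by linarith), ← one_div]
    exact hD.lo)
  have hy : Real.exp (-(c * n / 8)) ≤ c / 4 := by
    have h1 := Real.add_one_le_exp (c * n / 8)
    rw [div_le_iff₀ (by positivity)] at hn0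
    rw [Real.exp_neg, inv_le_comm₀ (Real.exp_pos _) (by positivity), inv_div]
    refine le_trans ?_ h1
    rw [div_le_iff₀ hc]
    nlinarith
  refine (sum_le_sum_label As (univ : Finset α).powerset
    (fun Z Γ => Cvr Γ Z ∧ Z.card ≤ 2 * ν Γ) _
    (fun Z => Real.exp (-(c * n / 2)) * Real.exp (-(c * n / 8)) ^ Z.card)
    (fun _ _ => by positivity) (fun Γ hΓ => ?_) fun Z _ t ht hq => ?_).trans ?_
  · obtain ⟨Z, h⟩ := (hA Γ hΓ).2.2
    exact ⟨Z, mem_powerset.2 (subset_univ Z), h⟩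
  · have h1 := GSUM267.cover_sum (le_max_left 1 l⁻¹) Z t (y := ζ * n)
      (fun Γ hΓ => ⟨(hq Γ hΓ).1, fun v => ((hA Γ (ht hΓ)).1 v).trans_eq (by ring)⟩)
      (hz α _ _ (zero_le_one.trans (le_max_left 1 l⁻¹)) hx fun S hS => (mem_filter.1 hS).2)
    have h2 : ∀ Γ ∈ t, l⁻¹ ^ ed Γ * Real.exp (-(c * ν Γ * n)) ≤
        max 1 l⁻¹ ^ ed Γ * Real.exp (-(c * n / 2) - Z.card * (c * n / 4)) := by
      intro Γ hΓ
      refine mul_le_mul (pow_le_pow_left₀ (by positivity) (le_max_right _ _) _)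
        (Real.exp_le_exp.2 ?_) (Real.exp_pos _).le (by positivity)
      have a1 : (1 : ℝ) ≤ ν Γ := by exact_mod_cast (hA Γ (ht hΓ)).2.1
      have a2 : (Z.card : ℝ) ≤ 2 * ν Γ := by exact_mod_cast (hq Γ hΓ).2
      nlinarith [mul_pos hc hn1]
    refine (sum_le_sum h2).trans ?_
    rw [← sum_mul]
    refine (mul_le_mul_of_nonneg_right h1 (Real.exp_pos _).le).trans (le_of_eq ?_)
    rw [← Real.exp_nat_mul, ← Real.exp_nat_mul, ← Real.exp_add, ← Real.exp_add]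
    congr 1
    ring
  · rw [← mul_sum, sum_powerset_pow, card_univ]
    refine (mul_le_mul_of_nonneg_left (one_add_pow_le_exp (Real.exp_pos _).le _)
      (Real.exp_pos _).le).trans ?_
    rw [← Real.exp_add]
    refine Real.exp_le_exp.2 ?_
    nlinarith [mul_le_mul_of_nonneg_right hy hn1.le]

end Pool.Agent.Lib.SPL
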