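import Pool.Agent.Lib.SPL.K92

/-! weight of the independent sets: savings from a matching and from large degrees -/

open scoped Classical
open Finset

namespace Pool.Agent.Lib.SPL

theorem ind_drop {α : Type} {l : ℝ} (hl : 0 < l) {A Z : Finset α} {Ss : Finset (Finset α)}
    {g : ℕ} (hZ : Z ⊆ A) (hg : g ≤ Z.card) (h : ∀ S ∈ Ss, S ⊆ A \ Z) :
    ∑ S ∈ Ss, l ^ S.card ≤ (1 + l) ^ A.card * (1 + l)⁻¹ ^ g := by
  refine (sum_pow_le hl.le h).trans ?_
  have h1 : (1 + l) ^ (A \ Z).card = (1 + l) ^ A.card * (1 + l)⁻¹ ^ Z.card := by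
    rw [← card_sdiff_add_card_eq_card hZ, pow_add, mul_assoc, ← mul_pow,
      mul_inv_cancel₀ (by positivity), one_pow, mul_one]
  rw [h1]
  exact mul_le_mul_of_nonneg_left (pow_le_pow_of_le_one (by positivity)
    (inv_le_one_of_one_le₀ (by linarith)) hg) (by positivity)

theorem r_IND : R_IND := by
  intro α l Γ A Ss hl hS
  refine ⟨fun P hP hA => ?_, fun Y g hY hg => ?_⟩
  · have hρ : 0 ≤ 1 - (l / (1 + l)) ^ 2 := by
      have : l / (1 + l) ≤ 1 := (div_le_one (by positivity)).2 (by linarith)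
      have h0 : 0 ≤ l / (1 + l) := by positivity
      nlinarith
    have := K92.blocks_le hl.le (fun p : α × α => ({p.1, p.2} : Finset α))
      (fun p => (powerset ({p.1, p.2} : Finset α)).erase {p.1, p.2})
      (fun _ => 1 - (l / (1 + l)) ^ 2) P A Ss
      (fun p hp x hx => hA (mem_vs.2 ⟨p, hp, by
        rcases mem_insert.1 hx with e | e
        exacts [Or.inl e.symm, Or.inr (mem_singleton.1 e).symm]⟩))
      (fun p hp q hq n => by
        obtain ⟨a, b, c, d⟩ := hP.2 p hp q hq n
        simp only [disjoint_left, mem_insert, mem_singleton]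
        rintro x (rfl | rfl) (e | e)
        exacts [a e, b e, c e, d e])
      (fun _ _ => hρ)
      (fun p hp => by
        have hc : ({p.1, p.2} : Finset α).card = 2 := card_pair (hP.1 p hp).ne
        have h1 := add_sum_erase (powerset ({p.1, p.2} : Finset α)) (fun T => l ^ T.card)
          (mem_powerset_self _)
        rw [sum_powerset_pow] at h1
        simp only [hc] at h1 ⊢
        refine le_of_eq ?_
        rw [eq_sub_of_add_eq' h1]
        field_simp)
      (fun S h => ⟨(hS S h).1, fun p hp => mem_erase.2 ⟨fun e => by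
        have e1 : p.1 ∈ S := mem_of_mem_inter_left (e.symm ▸ mem_insert_self p.1 {p.2})
        have e2 : p.2 ∈ S := mem_of_mem_inter_left
          (e.symm ▸ mem_insert_of_mem (mem_singleton_self p.2) : p.2 ∈ S ∩ {p.1, p.2})
        exact (hS S h).2 _ e1 _ e2 (hP.1 p hp), mem_powerset.2 inter_subset_right⟩⟩)
    simpa using this
  · rw [← sum_filter_add_sum_filter_not Ss (fun S => Disjoint S Y), mul_add]
    refine add_le_add (ind_drop hl hY le_rfl (fun S h =>
      subset_sdiff.2 ⟨(hS S (mem_filter.1 h).1).1, (mem_filter.1 h).2⟩)) ?_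
    rw [mul_left_comm]
    refine sum_le_label _ Y (fun y S => y ∈ S) _ _ (fun _ _ => by positivity)
      (fun S h => ?_) (fun y hy t ht hq => ?_)
    · obtain ⟨y, h1, h2⟩ := not_disjoint_iff.1 (mem_filter.1 h).2
      exact ⟨y, h2, h1⟩
    · refine ind_drop hl (nb_subset Γ y A) (hg y hy) (fun S h x hx => ?_)
      have k := hS S (mem_filter.1 (ht h)).1
      exact mem_sdiff.2 ⟨k.1 hx, fun e => k.2 _ (hq S h) _ hx (mem_nb.1 e).2⟩

end Pool.Agent.Lib.SPL
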