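import Pool.Agent.Lib.SPL.Kit2

open scoped Classical
open Finset

noncomputable section

namespace Pool.Agent.Lib.SPL

namespace ITER90

theorem log_step {μ μ' y z : ℝ} (h0 : 0 ≤ μ') (h1 : 1 ≤ μ) (h2 : μ' + y ≤ μ) (hz : 0 ≤ z)
    (h3 : z * μ ≤ y) : Real.log (μ' + 1) ≤ Real.log (μ + 1) - z / 2 := by
  have a1 := Real.log_le_sub_one_of_pos (x := (μ' + 1) / (μ + 1)) (by positivity)
  rw [Real.log_div (by positivity) (by positivity)] at a1
  have a2 : (μ' + 1) / (μ + 1) ≤ 1 - z / 2 := by
    rw [div_le_iff₀ (by positivity)]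
    nlinarith
  linarith

theorem two_exp {x y T : ℝ} (hx : x ≤ -1) (hy : y ≤ -1) (hT : 0 ≤ T) :
    Real.exp x * T + Real.exp y * T ≤ T := by
  have h : Real.exp (-1) ≤ 1 / 2 := by
    rw [Real.exp_neg, one_div]
    exact inv_anti₀ (by norm_num) (by linarith [Real.add_one_le_exp (1 : ℝ)])
  have := Real.exp_le_exp.2 hx
  have := Real.exp_le_exp.2 hy
  nlinarith

end ITER90

open ITER90 in
theorem r_ITER : R_ITER := by
  intro hRND hPAR ε hε hε1
  set cM : ℝ := (ε ^ 2 / 200) ^ 2 / 16 with hcM
  have hcM0 : 0 < cM := by positivity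
  have he2 : ε ^ 2 ≤ 1 := pow_le_one₀ hε.le hε1
  have hcM1 : cM ≤ 1 := by
    have : 0 < ε ^ 2 := by positivity
    rw [hcM]
    nlinarith
  obtain ⟨ω, hω⟩ := hPAR ε (cM * ε ^ 2 / 12) hε hε1 (by positivity)
    (by nlinarith [sq_nonneg ε])
  refine ⟨max ω 1, fun α _ Gs Y t b χ B0 hT hB0 hG hL => ?_⟩
  set N := Fintype.card α with hN
  have hL1 : 1 ≤ Real.log N := (le_max_right _ _).trans hT.hL
  have hN2 : 2 ≤ N := by
    by_contra c
    have : N = 0 ∨ N = 1 := by omega
    rcases this with e | e <;> simp [e] at hL1 <;> linarith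
  have hN0 : (0 : ℝ) < N := by positivity
  have hNL : (0 : ℝ) < (N : ℝ) ^ 4 * Real.log N ^ 10 := by positivity
  have ht3 : ω * ((N : ℝ) ^ 4 * Real.log N ^ 10) ≤ t ^ 3 :=
    (mul_le_mul_of_nonneg_right (le_max_left _ _) hNL.le).trans hT.ht
  have ht : 0 < t := by
    have a1 := (mul_le_mul_of_nonneg_right (le_max_right ω 1) hNL.le).trans hT.ht
    exact lt_of_pow_lt_pow_left₀ 3 (by
      by_contra c
      have := Odd.pow_neg (n := 3) (by decide) (not_le.1 c)
      linarith) (by simpa using (by linarith : 0 < t ^ 3))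
  have hb := hT.b1
  have hχ : 0 ≤ χ := le_trans (by positivity) hT.c1
  set A : ℝ := 2 * (cM * ε ^ 2 / 12) * t / (Real.log N * cM * ε) with hA
  have hA0 : 0 ≤ A := by positivity
  have key : ∀ μ : ℕ, ∀ E F : Gr α, ed (F \ E) = μ → E ≤ F → Ind (F \ E) Y →
      ((box Gs E F).card : ℝ) ≤
        Real.exp (A * Real.log (μ + 1)) * (B0 * Real.exp (-χ * ed E)) := by
    intro μ
    induction μ using Nat.strong_induction_on with
    | _ μ ih =>
    intro E F hμ hEF hY
    rcases (box Gs E F).eq_empty_or_nonempty with e | ⟨G0, hG0⟩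
    · rw [e]
      simp only [card_empty, Nat.cast_zero]
      positivity
    have hEt : (ed E : ℝ) ≤ t :=
      le_trans (by exact_mod_cast ed_mono (mem_box.1 hG0).2.1) (hG G0 (mem_box.1 hG0).1).2.1
    by_cases hleaf : Leaf ε (scl t b E F) E F
    · refine (hL E F hEF hEt hleaf).trans (le_mul_of_one_le_left (by positivity) ?_)
      exact Real.one_le_exp (mul_nonneg hA0 (Real.log_nonneg (by simp)))
    simp only [Leaf, not_forall, not_lt] at hleaf
    obtain ⟨V, C, B, d, hR, hd⟩ := hleaf
    rw [← hN] at hd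
    have hi : (0 : ℝ) < V.card := by exact_mod_cast hR.vpos.card_pos
    have hd0 : (0 : ℝ) < d := by exact_mod_cast hR.dpos
    have hdi : d ≤ V.card := by
      rcases C.eq_empty_or_nonempty with e | ⟨u, hu⟩
      · have := hR.mass
        rw [e, sum_empty] at this
        have : 0 < (1 + ε) * (V.card : ℝ) ^ 2 := by positivity
        linarith
      · rw [← hR.bcard u hu]
        exact card_le_card ((hR.bsub u hu).trans (nb_subset _ _ _))
    have hs1 : t / b ≤ scl t b E F ^ 2 := by
      rw [← Real.sq_sqrt (by positivity : 0 ≤ t / b)]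
      exact pow_le_pow_left₀ (Real.sqrt_nonneg _) (le_max_right _ _) 2
    have hs2 : ((μ : ℝ) / N) ^ 2 ≤ scl t b E F ^ 2 := by
      rw [← hμ]
      exact pow_le_pow_left₀ (by positivity) (le_max_left _ _) 2
    obtain ⟨k, ν, ν', θ, v, Δ, W0, j0, hp, p1, p2, p3⟩ := hω N V.card d t b
      ((le_max_left _ _).trans hT.hL) hb hT.b2 ht3 hdi (card_le_univ _)
      (le_trans (by gcongr) hd)
    obtain ⟨G1, G2, g0, g1, g2⟩ := hRND α ε t _ (box Gs E F) E F V C B d k ν ν' θ v Δ W0 j0 hε
      (by positivity) hR hp (fun G h => by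
        obtain ⟨a1, a2, a3⟩ := mem_box.1 h
        refine ⟨(hG G a1).1, a2, a3, (hG G a1).2.1, fun x y e n => ?_⟩
        by_cases c : x ∈ Y
        · exact Or.inr ((hG G a1).2.2 y (fun c' => hY x c y c' ⟨a3 e, n⟩))
        · exact Or.inl ((hG G a1).2.2 x c))
    rw [← hN] at g1 g2
    set s := Real.sqrt ((V.card : ℝ) / N) with hs
    set T := Real.exp (A * Real.log (μ + 1)) * (B0 * Real.exp (-χ * ed E)) with hTd
    have hT0 : 0 ≤ T := by positivity
    have hμF : (μ : ℝ) + ed E = ed F := by
      rw [← hμ]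
      exact_mod_cast ed_sdiff hEF
    have c1 := (g1.mono (Gs' := (box Gs E F).filter (· ∈ G1)) (fun G h => (mem_filter.1 h).2)
      le_rfl (fun _ _ e => e)).card_le (Hs := Gs)
      (z := Real.exp (-(cM * ε ^ 2 / 12 * (t / Real.log N) * s)) * T)
      (fun G h => (mem_box.1 (mem_filter.1 h).1).1) (by positivity) (fun E' F' h => by
        obtain ⟨rfl, a2, a3, a4⟩ := h
        have a5 : (ed (F' \ E') : ℝ) + ed E' = ed F' := by exact_mod_cast ed_sdiff a2
        have a6 : (ed (F' \ E') : ℝ) + cM * (V.card * d) ≤ μ := by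
          rw [hcM]
          linarith
        have a7 : 0 < cM * (V.card * d) := by positivity
        have a8 : ed (F' \ E') < μ := by exact_mod_cast (by linarith : (ed (F' \ E') : ℝ) < μ)
        refine (ih _ a8 E' F' rfl a2 (fun x hx y hy e => hY x hx y hy ⟨a3 e.1, e.2⟩)).trans ?_
        rw [hTd, ← mul_assoc (Real.exp _) (Real.exp _), ← Real.exp_add]
        refine mul_le_mul_of_nonneg_right (Real.exp_le_exp.2 ?_) (by positivity)
        have a9 : ε * s * μ ≤ V.card * d := by
          refine le_of_pow_le_pow_left₀ two_ne_zero (by positivity) ?_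
          have b1 : s ^ 2 = V.card / N := Real.sq_sqrt (by positivity)
          have b2 : ε ^ 2 * ((μ : ℝ) / N) ^ 2 * N ≤ d ^ 2 * V.card := le_trans (by gcongr) hd
          have b3 : (ε * s * μ) ^ 2 = ε ^ 2 * ((μ : ℝ) / N) ^ 2 * N * V.card := by
            rw [mul_pow, mul_pow, b1]
            field_simp
          rw [b3]
          nlinarith
        have a10 := log_step (μ := μ) (μ' := ed (F' \ E')) (z := cM * (ε * s)) (by positivity)
          (by exact_mod_cast (by omega : 1 ≤ μ)) a6 (by positivity) (by nlinarith)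
        have a11 : A * (cM * (ε * s) / 2) = cM * ε ^ 2 / 12 * (t / Real.log N) * s := by
          rw [hA]
          field_simp
        have := mul_le_mul_of_nonneg_left a10 hA0
        rw [mul_sub, a11] at this
        linarith)
    have c2 := (g2.mono (Gs' := (box Gs E F).filter (· ∈ G2)) (fun G h => (mem_filter.1 h).2)
      le_rfl (fun _ _ e => e)).card_le (Hs := Gs) (z := Real.exp (-(4 * (d : ℝ) ^ 2)) * T)
      (fun G h => (mem_box.1 (mem_filter.1 h).1).1) (by positivity) (fun E' F' h => by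
        obtain ⟨rfl, a2, a3, a4⟩ := h
        have a5 : (ed (F' \ E') : ℝ) + ed E' = ed F' := by exact_mod_cast ed_sdiff a3
        have hv : (0 : ℝ) < v := by exact_mod_cast hp.vpos
        have a7 : 0 < ε ^ 2 / 200 * V.card * v / 4 := by positivity
        have a8 : ed (F' \ E') < μ := by exact_mod_cast (by linarith : (ed (F' \ E') : ℝ) < μ)
        refine (ih _ a8 E' F' rfl a3
          (fun x hx y hy e => hY x hx y hy ⟨e.1, fun c => e.2 (a2 c)⟩)).trans ?_
        have a9 : Real.log ((ed (F' \ E') : ℝ) + 1) ≤ Real.log (μ + 1) :=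
          Real.log_le_log (by positivity) (by linarith)
        have a10 : -χ * ed E' ≤ -(4 * (d : ℝ) ^ 2) + -χ * ed E := by
          have b1 : 25600 / ε ^ 4 * (ε ^ 2 / 200 * (ε ^ 2 * d ^ 2 / 8) / 4) = 4 * (d : ℝ) ^ 2 := by
            field_simp
            ring
          have b2 : 25600 / ε ^ 4 * (ε ^ 2 / 200 * (ε ^ 2 * d ^ 2 / 8) / 4) ≤
              χ * (ε ^ 2 / 200 * (V.card * v) / 4) := by
            have := hT.c1
            gcongr
            linarith
          have b3 := mul_le_mul_of_nonneg_left a4 hχ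
          linarith
        have a11 : Real.exp (-(4 * (d : ℝ) ^ 2)) * T = Real.exp (A * Real.log (μ + 1)) *
            (B0 * Real.exp (-(4 * (d : ℝ) ^ 2) + -χ * ed E)) := by
          rw [hTd, Real.exp_add]
          ring
        rw [a11]
        exact mul_le_mul (Real.exp_le_exp.2 (mul_le_mul_of_nonneg_left a9 hA0))
          (mul_le_mul_of_nonneg_left (Real.exp_le_exp.2 a10) hB0) (by positivity) (by positivity))
    have c3 : ((box Gs E F).card : ℝ) ≤ ((box Gs E F).filter (· ∈ G1)).card +
        ((box Gs E F).filter (· ∈ G2)).card := by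
      have : box Gs E F ⊆ (box Gs E F).filter (· ∈ G1) ∪ (box Gs E F).filter (· ∈ G2) := by
        intro G h
        rcases g0 G h with c | c
        · exact mem_union_left _ (mem_filter.2 ⟨h, c⟩)
        · exact mem_union_right _ (mem_filter.2 ⟨h, c⟩)
      exact_mod_cast (card_le_card this).trans (card_union_le _ _)
    rw [← mul_assoc, ← Real.exp_add] at c1 c2
    exact c3.trans ((add_le_add c1 c2).trans (two_exp (by linarith) (by linarith) hT0))
  intro E F hEF hY
  refine (key _ E F rfl hEF hY).trans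
    (mul_le_mul_of_nonneg_right (Real.exp_le_exp.2 ?_) (by positivity))
  have a1 : Real.log ((ed (F \ E) : ℝ) + 1) ≤ 3 * Real.log N := by
    have b1 : Real.log ((N : ℝ) ^ 3) = 3 * Real.log N := by simp
    have b2 : 2 * (ed (F \ E) : ℝ) ≤ (N : ℝ) ^ 2 := by exact_mod_cast two_ed_le (F \ E)
    have b3 : (2 : ℝ) ≤ N := by exact_mod_cast hN2
    rw [← b1]
    exact Real.log_le_log (by positivity) (by nlinarith)
  refine (mul_le_mul_of_nonneg_left a1 hA0).trans (le_of_eq ?_)
  rw [hA]
  field_simp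
  ring

end Pool.Agent.Lib.SPL
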