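import Pool.Agent.Lib.SPL.Kit2

open scoped Classical
open Finset

noncomputable section

namespace Pool.Agent.Lib.SPL

theorem r_KW : R_KW := by
  intro α H B d θ c hc hθ hB hdeg har
  have hB' : (B.card : ℝ) ≤ d := by exact_mod_cast hB
  have ha : 0 < c * θ / 4 := by positivity
  refine ⟨fun T => ?_, fun S ν' hS hν => ?_⟩
  · set N := nbs H T B with hN
    set Hi := B.filter (fun x => c * θ / 4 ≤ ((nb H x B \ N).card : ℝ)) with hHi
    have hNB : N ⊆ B := filter_subset _ _
    have h1 : (N.card : ℝ) ≤ (excl H B (c * θ / 4) T).card := by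
      exact_mod_cast card_le_card subset_union_left
    have h2 : (Hi.card : ℝ) ≤ (excl H B (c * θ / 4) T).card := by
      exact_mod_cast card_le_card subset_union_right
    have h3 : ∀ x ∈ B, (dg H x B : ℝ) ≤ dg H x N + ((if x ∈ Hi then θ else 0) + c * θ / 4) := by
      intro x hx
      have a1 : dg H x B ≤ dg H x N + (nb H x B \ N).card := by
        refine le_trans (card_le_card (fun y hy => ?_)) (card_union_le _ _)
        by_cases e : y ∈ N
        · exact mem_union_left _ (mem_nb.2 ⟨e, (mem_nb.1 hy).2⟩)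
        · exact mem_union_right _ (mem_sdiff.2 ⟨hy, e⟩)
      have a2 : (dg H x B : ℝ) ≤ dg H x N + (nb H x B \ N).card := by exact_mod_cast a1
      have a3 : (0 : ℝ) ≤ dg H x N := by positivity
      split_ifs with e
      · linarith [hdeg x hx]
      · have : ¬ c * θ / 4 ≤ ((nb H x B \ N).card : ℝ) := fun c => e (mem_filter.2 ⟨hx, c⟩)
        linarith
    have h4 := sum_le_sum h3
    have h5 : ∑ x ∈ B, (dg H x N : ℝ) ≤ N.card * θ := by
      have a1 : ∑ x ∈ B, (dg H x N : ℝ) = ∑ y ∈ N, (dg H y B : ℝ) := by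
        exact_mod_cast sum_dg_comm H B N
      rw [a1]
      simpa using sum_le_card_nsmul N _ θ (fun y hy => hdeg y (hNB hy))
    have h6 : ∑ x ∈ B, (if x ∈ Hi then θ else 0) = Hi.card * θ := by
      rw [← sum_filter, filter_mem_eq_inter, inter_eq_right.2 (filter_subset _ _), sum_const,
        nsmul_eq_mul]
    have h7 : (ar H B : ℝ) = ∑ x ∈ B, (dg H x B : ℝ) := by simp [ar]
    rw [sum_add_distrib, sum_add_distrib, h6, sum_const, nsmul_eq_mul, ← h7] at h4
    have h8 := mul_le_mul_of_nonneg_right hB' ha.le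
    refine le_of_mul_le_mul_right ?_ hθ
    have h9 := mul_le_mul_of_nonneg_right h1 hθ.le
    have h10 := mul_le_mul_of_nonneg_right h2 hθ.le
    linarith
  · obtain ⟨T, hT, hmax⟩ := exists_max_image (S.powerset.filter (fun T =>
      (T.card : ℝ) * (c * θ / 4) ≤ (nbs H T B).card)) card ⟨∅, by simp⟩
    obtain ⟨h1, h2⟩ := mem_filter.1 hT
    rw [mem_powerset] at h1
    have h3 : ((nbs H T B).card : ℝ) ≤ B.card := by
      exact_mod_cast card_le_card (filter_subset _ _)
    refine ⟨T, h1, by linarith, ?_⟩
    have h4 : S ∩ excl H B (c * θ / 4) T ⊆ T.biUnion (fun y => nb H y S) := by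
      intro x hx
      obtain ⟨x1, x2⟩ := mem_inter.1 hx
      rcases mem_union.1 x2 with e | e
      · obtain ⟨-, y, y1, y2⟩ := mem_nbs.1 e
        exact mem_biUnion.2 ⟨y, y1, mem_nb.2 ⟨x1, y2⟩⟩
      · exfalso
        have a1 := (mem_filter.1 e).2
        have a2 : x ∉ T := fun n => by
          have : nb H x B \ nbs H T B = ∅ := sdiff_eq_empty_iff_subset.2 (fun y hy =>
            mem_nbs.2 ⟨(mem_nb.1 hy).1, x, n, (mem_nb.1 hy).2⟩)
          rw [this] at a1
          simp only [card_empty, Nat.cast_zero] at a1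
          linarith
        have a3 : (nb H x B \ nbs H T B).card + (nbs H T B).card ≤ (nbs H (insert x T) B).card := by
          rw [card_sdiff_add_card]
          refine card_le_card (union_subset (fun y hy => ?_) (fun y hy => ?_))
          · exact mem_nbs.2 ⟨(mem_nb.1 hy).1, x, mem_insert_self _ _, (mem_nb.1 hy).2⟩
          · obtain ⟨b1, z, b2, b3⟩ := mem_nbs.1 hy
            exact mem_nbs.2 ⟨b1, z, mem_insert_of_mem b2, b3⟩
        have a4 : ((nb H x B \ nbs H T B).card : ℝ) + (nbs H T B).card ≤
          (nbs H (insert x T) B).card := by exact_mod_cast a3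
        have := hmax (insert x T) (mem_filter.2 ⟨mem_powerset.2 (insert_subset x1 h1), by
          rw [card_insert_of_notMem a2]
          push_cast
          linarith⟩)
        rw [card_insert_of_notMem a2] at this
        omega
    refine (card_le_card h4).trans (card_biUnion_le.trans ?_)
    simpa [dg] using sum_le_card_nsmul T _ ν' (fun y hy => hν y (h1 hy))

end Pool.Agent.Lib.SPL
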