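import Pool.Agent.Lib.SPL.Kit2

open scoped Classical
open Finset

noncomputable section

namespace Pool.Agent.Lib.SPL

theorem r_L1 : R_L1 := by
  intro hP hR α _ ε t b E F hD ht hL
  have e0 := hD.e0
  have e1 := hD.e1
  have hN : (1 : ℝ) ≤ Fintype.card α := by exact_mod_cast hD.npos
  have hl : Real.sqrt (t / b) ≤ scl t b E F := le_max_right _ _
  have hl0 := Real.sqrt_nonneg (t / b)
  obtain ⟨V', -, h1, h2⟩ := hR α (1 + 10 * ε) (ε * scl t b E F) E (F \ E) (by positivity)
    (mul_nonneg e0.le (hl0.trans hl)) (hP α ε t b _ E F hD ht hl hL) univ 0 (Nat.zero_le _)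
  obtain rfl := card_eq_zero.1 h1
  rw [ar_univ, ar_univ, card_univ, show ar (F \ E) ∅ = 0 from rfl] at h2
  push_cast at h2
  rw [Real.sqrt_zero, sub_zero, sub_zero, mul_assoc _ (Real.sqrt _),
    Real.mul_self_sqrt (by positivity)] at h2
  have h3 : 1 ≤ ε * Real.sqrt (t / b) := by
    have h4 : 0 < t / b :=
      pos_of_mul_pos_left (by linarith [hD.h2] : 0 < t / b * ε ^ 3) (by positivity)
    refine (one_le_sq_iff₀ (by positivity)).1 ?_
    rw [mul_pow, Real.sq_sqrt h4.le]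
    nlinarith [hD.h2, mul_pos (pow_pos e0 2) h4]
  have hs := Real.sqrt_nonneg (2 * (ed E : ℝ))
  generalize Real.sqrt (2 * (ed E : ℝ)) = s at h2 hs ⊢
  have h5 := mul_le_mul_of_nonneg_left h3 (by positivity : (0 : ℝ) ≤ Fintype.card α)
  have h6 : 0 ≤ ε * (Fintype.card α * s) := by positivity
  rcases le_total ((ed (F \ E) : ℝ) / Fintype.card α) (Real.sqrt (t / b)) with h | h
  · rw [scl, max_eq_right h] at h2
    nlinarith
  · rw [scl, max_eq_left h, mul_assoc 4, mul_assoc ε, div_mul_cancel₀ _ (by positivity)] at h2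
    refine le_of_mul_le_mul_left ?_ (by linarith : 0 < 1 - 2 * ε)
    nlinarith [mul_nonneg h6 (by linarith : 0 ≤ 1 - 26 * ε),
      mul_le_mul_of_nonneg_left h5 (by linarith : 0 ≤ 1 - 2 * ε)]

end Pool.Agent.Lib.SPL
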