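import Pool.Agent.Lib.SPL.Kit2

open scoped Classical
open Finset

namespace Pool.Agent.Lib.SPL

theorem r_MASS : R_MASS := by
  intro α ε h E F V C B d hε hh hV hd hCV hB hm
  refine ⟨hV, hd, hCV, fun u hu => (hB u hu).1, fun u hu => (hB u hu).2.1, ?_⟩
  have hv : (0 : ℝ) < V.card := by exact_mod_cast hV.card_pos
  have hcv : (C.card : ℝ) ≤ V.card := by exact_mod_cast card_le_card hCV
  have he : 0 ≤ ε * (d : ℝ) ^ 2 := by positivity
  obtain ⟨τ, hτ⟩ : ∃ τ : ℝ, τ = ε * (d : ℝ) ^ 2 / V.card := ⟨_, rfl⟩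
  rw [← hτ]
  have hτ0 : 0 ≤ τ := by rw [hτ]; positivity
  have hτV : τ * V.card = ε * (d : ℝ) ^ 2 := by rw [hτ]; field_simp
  have hpos : ∀ u ∈ C, (0 : ℝ) < 1 + (dg E u C : ℝ) + τ := fun u _ => by positivity
  have hS : ∑ u ∈ C, (1 + (dg E u C : ℝ) + τ) = C.card + ar E C + C.card * τ := by
    rw [sum_add_distrib, sum_add_distrib, sum_const, sum_const, nsmul_eq_mul, nsmul_eq_mul, mul_one,
      ar, Nat.cast_sum]
  have hST : ∑ u ∈ C, (1 + (dg E u C : ℝ) + τ) ≤ V.card + ε * (d : ℝ) ^ 2 + ar E C := by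
    rw [hS, ← hτV]
    nlinarith [mul_le_mul_of_nonneg_left hcv hτ0]
  have hA : (0 : ℝ) < (1 + ε) * (V.card : ℝ) ^ 2 := by positivity
  have hT : (0 : ℝ) < V.card + ε * (d : ℝ) ^ 2 + ar E C := by positivity
  have hC : C.Nonempty := by
    rw [nonempty_iff_ne_empty]
    rintro rfl
    have := mul_pos hA hT
    simp only [card_empty, Nat.cast_zero] at hm
    nlinarith
  have hS0 : 0 < ∑ u ∈ C, (1 + (dg E u C : ℝ) + τ) := sum_pos hpos hC
  have ht := sq_sum_div_le_sum_sq_div C (fun _ => (1 : ℝ)) hpos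
  simp only [sum_const, nsmul_eq_mul, mul_one, one_pow] at ht
  calc (1 + ε) * (V.card : ℝ) ^ 2
      ≤ h * ((C.card : ℝ) ^ 2 / ∑ u ∈ C, (1 + (dg E u C : ℝ) + τ)) := by
        rw [← mul_div_assoc, le_div_iff₀ hS0]
        exact (mul_le_mul_of_nonneg_left hST hA.le).trans hm
    _ ≤ h * ∑ u ∈ C, 1 / (1 + (dg E u C : ℝ) + τ) := mul_le_mul_of_nonneg_left ht hh
    _ = ∑ u ∈ C, wgt E C τ u * h := by
        rw [mul_sum]
        exact sum_congr rfl fun u _ => by rw [wgt, mul_comm]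
    _ ≤ _ := sum_le_sum fun u hu =>
        mul_le_mul_of_nonneg_left (hB u hu).2.2 (one_div_pos.2 (hpos u hu)).le

end Pool.Agent.Lib.SPL
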