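import Pool.Agent.Lib.SPL.K92
import Pool.Agent.Lib.SPL.Blue2

/-! Rows NEST0, NEST of the project spl. -/

open scoped Classical
open Finset

noncomputable section

namespace Pool.Agent.Lib.SPL

namespace NEST92

variable {α : Type}

theorem sum_three {β : Type} [DecidableEq β] (w : β → ℝ) (hw : ∀ x, 0 ≤ w x) (a b c : β) :
    ∑ x ∈ ({a, b, c} : Finset β), w x ≤ w a + w b + w c := by
  have k : ∀ (x : β) (s : Finset β), ∑ y ∈ insert x s, w y ≤ w x + ∑ y ∈ s, w y := by
    intro x s
    by_cases e : x ∈ s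
    · rw [insert_eq_of_mem e]
      linarith [hw x]
    · rw [sum_insert e]
  have k1 := k a {b, c}
  have k2 := k b {c}
  rw [sum_singleton] at k2
  linarith

/-- oriented version -/
theorem oriented [Fintype α] {l : ℝ} (hl : 0 < l) {A I K : Finset α} (P : Finset (α × α))
    (u v : α × α → α) (hK : K ⊆ A) (huv : ∀ p ∈ P, u p ≠ v p ∧ u p ∈ I ∧ v p ∈ I)
    (hd : ∀ p ∈ P, ∀ q ∈ P, p ≠ q → Disjoint ({u p, v p} : Finset α) {u q, v q})
    (Fs : Finset (α → Finset α))
    (h : ∀ f ∈ Fs, Fam A I f ∧ ∀ p ∈ P, f (u p) ∩ K ⊆ f (v p)) :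
    fw l Fs ≤ (1 + l) ^ (A.card * I.card) * ((1 - l / (1 + l) ^ 2) ^ K.card) ^ P.card := by
  have hρ : 0 ≤ 1 - l / (1 + l) ^ 2 := by
    rw [sub_nonneg, div_le_one (by positivity)]
    nlinarith
  have hA : ∀ f ∈ Fs, ∀ i, f i ⊆ A := fun f hf i => by
    by_cases c : i ∈ I
    · exact (h f hf).1.1 i c
    · rw [(h f hf).1.2 i c]
      exact empty_subset _
  have hI : ∀ f ∈ Fs, ∀ a, tr f a ⊆ I := fun f hf a i hi => by
    by_contra c
    have := mem_tr.1 hi
    rw [(h f hf).1.2 i c] at this
    exact notMem_empty _ this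
  have k := fw_le_cols hl.le (Fs := Fs) (A := A) (fun a => Fs.image (fun f => tr f a))
    (fun a => (1 + l) ^ I.card * if a ∈ K then (1 - l / (1 + l) ^ 2) ^ P.card else 1) hA
    (fun f hf a _ => mem_image_of_mem _ hf) (fun a _ => by
      by_cases c : a ∈ K
      · rw [if_pos c, ← prod_const (1 - l / (1 + l) ^ 2)]
        refine K92.blocks_le hl.le (fun p => {u p, v p})
          (fun p => {∅, {v p}, {u p, v p}}) _ P I _ (fun p hp => ?_) hd (fun _ _ => hρ)
          (fun p hp => ?_) (fun S hS => ?_)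
        · exact insert_subset (huv p hp).2.1 (singleton_subset_iff.2 (huv p hp).2.2)
        · have e := card_pair (huv p hp).1
          refine (sum_three (fun T : Finset α => l ^ T.card) (fun _ => by positivity) _ _ _).trans (le_of_eq ?_)
          rw [e, card_singleton, card_empty]
          field_simp
          ring
        · obtain ⟨f, hf, rfl⟩ := mem_image.1 hS
          refine ⟨hI f hf a, fun p hp => ?_⟩
          have k1 : a ∈ f (u p) → a ∈ f (v p) := fun e => (h f hf).2 p hp (mem_inter.2 ⟨e, c⟩)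
          simp only [mem_insert, mem_singleton]
          by_cases c1 : a ∈ f (u p)
          · refine Or.inr (Or.inr (inter_eq_right.2 ?_))
            exact insert_subset (mem_tr.2 c1) (singleton_subset_iff.2 (mem_tr.2 (k1 c1)))
          · rw [inter_insert_of_notMem (fun e => c1 (mem_tr.1 e))]
            by_cases c2 : a ∈ f (v p)
            · exact Or.inr (Or.inl (inter_singleton_of_mem (mem_tr.2 c2)))
            · exact Or.inl (inter_singleton_of_notMem (fun e => c2 (mem_tr.1 e)))
      · rw [if_neg c, mul_one]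
        refine sum_pow_le hl.le (fun S hS => ?_)
        obtain ⟨f, hf, rfl⟩ := mem_image.1 hS
        exact hI f hf a)
  refine k.trans (le_of_eq ?_)
  rw [prod_mul_distrib, prod_const, prod_ite_mem, inter_eq_right.2 hK, prod_const, ← pow_mul,
    ← pow_mul, ← pow_mul, mul_comm I.card, mul_comm P.card]

end NEST92

theorem r_NEST0 : R_NEST0 := by
  intro α _ l A I K H P Fs hl hK hP hI h
  have hρ : 0 ≤ 1 - l / (1 + l) ^ 2 := by
    rw [sub_nonneg, div_le_one (by positivity)]
    nlinarith
  have k := sum_le_label Fs P.powerset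
    (fun O f => ∀ p ∈ P, f (if p ∈ O then p.1 else p.2) ∩ K ⊆ f (if p ∈ O then p.2 else p.1))
    (fun f => ∏ i, l ^ (f i).card)
    ((1 + l) ^ (A.card * I.card) * ((1 - l / (1 + l) ^ 2) ^ K.card) ^ P.card)
    (fun f _ => prod_nonneg (fun _ _ => by positivity))
    (fun f hf => ⟨P.filter (fun p => f p.1 ∩ K ⊆ f p.2), mem_powerset.2 (filter_subset _ _),
      fun p hp => by
        by_cases c : f p.1 ∩ K ⊆ f p.2
        · simp [mem_filter, hp, c]
        · simpa [mem_filter, hp, c] using ((h f hf).2 p hp).resolve_left c⟩)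
    (fun O _ t ht hq => by
      refine NEST92.oriented hl P (fun p => if p ∈ O then p.1 else p.2)
        (fun p => if p ∈ O then p.2 else p.1) hK (fun p hp => ?_) (fun p hp q hq' e => ?_) t
        (fun f hf => ⟨(h f (ht hf)).1, hq f hf⟩)
      · have e := (hP.1 p hp).ne
        have m1 : p.1 ∈ I := hI (mem_vs.2 ⟨p, hp, Or.inl rfl⟩)
        have m2 : p.2 ∈ I := hI (mem_vs.2 ⟨p, hp, Or.inr rfl⟩)
        by_cases c : p ∈ O <;> simp [c, e, e.symm, m1, m2]
      · obtain ⟨e1, e2, e3, e4⟩ := hP.2 p hp q hq' e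
        by_cases c : p ∈ O <;> by_cases c' : q ∈ O <;>
          simp [c, c', e1.symm, e2.symm, e3.symm, e4.symm])
  refine k.trans (le_of_eq ?_)
  rw [card_powerset, mul_pow]
  push_cast
  ring

theorem r_NEST : R_NEST := by
  intro α _ l A I K H P Fs hl hl1 hK h8 hP hI h
  refine (r_NEST0 α l A I K H P Fs hl hK hP hI h).trans
    (mul_le_mul_of_nonneg_left ?_ (by positivity))
  have hρ : 0 ≤ 1 - l / (1 + l) ^ 2 := by
    rw [sub_nonneg, div_le_one (by positivity)]
    nlinarith
  have k1 : 1 - l / (1 + l) ^ 2 ≤ Real.exp (-(l / 4)) := by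
    have : l / 4 ≤ l / (1 + l) ^ 2 := div_le_div_of_nonneg_left hl.le (by positivity) (by nlinarith)
    linarith [Real.add_one_le_exp (-(l / 4))]
  have k2 : 2 * (1 - l / (1 + l) ^ 2) ^ K.card ≤ Real.exp (-(K.card * l / 8)) := by
    have e1 := pow_le_pow_left₀ hρ k1 K.card
    rw [← Real.exp_nat_mul] at e1
    have e2 : (2 : ℝ) ≤ Real.exp (K.card * l / 8) := by
      linarith [Real.add_one_le_exp (K.card * l / 8)]
    refine (mul_le_mul e2 e1 (by positivity) (by positivity)).trans (le_of_eq ?_)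
    rw [← Real.exp_add]
    congr 1
    ring
  refine (pow_le_pow_left₀ (by positivity) k2 _).trans (le_of_eq ?_)
  rw [← Real.exp_nat_mul]
  congr 1
  ring

end Pool.Agent.Lib.SPL
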