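import Pool.Agent.Lib.SPL.Kit2
import Pool.Agent.Lib.SPL.Blue2

/-! Row OPT: the optimisation over the clique number and the size of the union. -/

open scoped Classical
open Finset

noncomputable section

namespace Pool.Agent.Lib.SPL

namespace OPT59

theorem num (R ζ n a κ b t u v k : ℝ) (hR : 1 ≤ R) (hζ : 0 < ζ) (hζ1 : ζ ≤ 1) (hn : 0 ≤ n)
    (ha : 1 / (2 * R) ≤ a) (hκ : 1 / R ≤ κ) (hb : |b| ≤ R) (hk : 0 ≤ k) (hkn : k ≤ n)
    (hu : 0 ≤ u) (hv : 0 ≤ v)
    (h : ζ * n / 2 ≤ |t| ∨ (ζ * n / 2 ≤ u ∧ n / (8 * R ^ 2) ≤ v)) :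
    -(κ / 2 * t ^ 2) + b * k / 2 - a * (u * v) ≤ R * n - ζ ^ 2 * n ^ 2 / (32 * R ^ 3) := by
  have hR0 : 0 < R := by linarith
  have ha0 : 0 < 1 / (2 * R) := by positivity
  have hκ0 : 0 < 1 / R := by positivity
  have h1 : b * k / 2 ≤ R * n := by
    have h2 : b * k ≤ R * k := mul_le_mul_of_nonneg_right (le_trans (le_abs_self b) hb) hk
    have h3 : R * k ≤ R * n := mul_le_mul_of_nonneg_left hkn hR0.le
    have h4 : 0 ≤ R * n := by positivity
    linarith
  have hA : 0 ≤ κ / 2 * t ^ 2 := mul_nonneg (by linarith) (sq_nonneg t)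
  have hB : 0 ≤ a * (u * v) := mul_nonneg (by linarith) (mul_nonneg hu hv)
  have hz : 0 ≤ ζ * n / 2 := by positivity
  rcases h with h | ⟨h2, h3⟩
  · have h4 : (ζ * n / 2) ^ 2 ≤ t ^ 2 := by
      rw [← sq_abs t]
      exact pow_le_pow_left₀ hz h 2
    have h5 : 1 / R / 2 * (ζ * n / 2) ^ 2 ≤ κ / 2 * t ^ 2 :=
      mul_le_mul (by linarith) h4 (sq_nonneg _) (by linarith)
    have h6 : ζ ^ 2 * n ^ 2 / (32 * R ^ 3) ≤ 1 / R / 2 * (ζ * n / 2) ^ 2 := by
      have e : 1 / R / 2 * (ζ * n / 2) ^ 2 = ζ ^ 2 * n ^ 2 / (8 * R) := by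
        field_simp
        ring
      rw [e]
      refine div_le_div_of_nonneg_left (by positivity) (by positivity) ?_
      have h7 : R ≤ R ^ 3 := le_self_pow₀ hR (by norm_num)
      linarith
    linarith
  · have h4 : ζ * n / 2 * (n / (8 * R ^ 2)) ≤ u * v :=
      mul_le_mul h2 h3 (by positivity) hu
    have h5 : 1 / (2 * R) * (ζ * n / 2 * (n / (8 * R ^ 2))) ≤ a * (u * v) :=
      mul_le_mul ha h4 (by positivity) (by linarith)
    have h6 : ζ ^ 2 * n ^ 2 / (32 * R ^ 3) ≤ 1 / (2 * R) * (ζ * n / 2 * (n / (8 * R ^ 2))) := by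
      have e : 1 / (2 * R) * (ζ * n / 2 * (n / (8 * R ^ 2))) = ζ * n ^ 2 / (32 * R ^ 3) := by
        field_simp
        ring
      rw [e]
      refine div_le_div_of_nonneg_right ?_ (by positivity)
      refine mul_le_mul_of_nonneg_right ?_ (sq_nonneg n)
      nlinarith
    linarith

theorem pw (l : ℝ) (hl : 0 < l) (m d : ℕ) :
    (1 + l) ^ m = (1 + l) ^ (m + d) * Real.exp (-(Real.log (1 + l) * d)) := by
  have h1 : 0 < 1 + l := by linarith
  rw [Real.exp_neg, mul_comm (Real.log (1 + l)), Real.exp_nat_mul, Real.exp_log h1, pow_add]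
  field_simp

end OPT59

theorem r_OPT : R_OPT := by
  intro hXS R ζ l n q w e hR hl1 hl2 hζ hζ2 hwq hqn he hor
  obtain ⟨hl, ha1, -, hab1, -, hb, hx1, hx2, hww⟩ := hXS R l hR hl1 hl2
  have hR0 : 0 < R := by linarith
  have hR2 : 1 ≤ R ^ 2 := one_le_pow₀ hR
  have hζ1 : ζ ≤ 1 := by
    refine le_trans hζ2 ?_
    rw [div_le_one (by positivity)]
    linarith
  have hn : (0 : ℝ) ≤ n := Nat.cast_nonneg n
  have hκ : 1 / R ≤ 2 * Real.log (1 + l) + bb l := by
    have e1 : 1 / R = 1 / (2 * R) + 1 / (2 * R) := by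
      field_simp
      ring
    linarith
  have hwq' : (w : ℝ) ≤ q := by exact_mod_cast hwq
  have hqn' : (q : ℝ) ≤ n := by exact_mod_cast hqn
  have hw0 : (0 : ℝ) ≤ w := Nat.cast_nonneg w
  have e4 : (n : ℝ) * (1 / (4 * R ^ 2)) = 2 * (n / (8 * R ^ 2)) := by
    field_simp
    ring
  have hz : ζ * n ≤ n / (8 * R ^ 2) := by
    have h1 := mul_le_mul_of_nonneg_right hζ2 hn
    have e1 : 1 / (8 * R ^ 2) * (n : ℝ) = n / (8 * R ^ 2) := by ring
    linarith
  have hz0 : 0 ≤ ζ * n := by positivity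
  have hx3 := mul_le_mul_of_nonneg_left hx1 hn
  have hx4 := mul_le_mul_of_nonneg_left hx2 hn
  have h1l : 0 < 1 + l := by linarith
  rcases le_total l 1 with hle | hle
  · obtain ⟨d, hd⟩ := Nat.exists_eq_add_of_le he
    have h1 : l ^ q.choose 2 * l⁻¹ ^ e ≤ l ^ w.choose 2 := by
      rw [hd, pow_add, pow_add, inv_pow]
      have e1 : l ^ e * l ^ w.choose 2 * l ^ d * (l ^ e)⁻¹ = l ^ w.choose 2 * l ^ d := by
        field_simp
      rw [e1]
      exact mul_le_of_le_one_right (by positivity) (pow_le_one₀ hl.le hle)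
    have h2 : w * (n - q) + (q - w) * w = w * (n - w) := by
      rw [mul_comm (q - w) w, ← mul_add]
      congr 1
      omega
    have h3 := OPT59.pw l hl (w * (n - q)) ((q - w) * w)
    rw [h2] at h3
    have h4 := hww n w (le_trans hwq hqn)
    have h5 := OPT59.num R ζ n (Real.log (1 + l)) (2 * Real.log (1 + l) + bb l) (bb l)
      ((w : ℝ) - n * xs l) ((q : ℝ) - w) w w hR hζ hζ1 hn ha1 hκ hb hw0 (by linarith)
      (by linarith) hw0 (by
        by_cases hc : ζ * n < |(w : ℝ) - n * xs l|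
        · left
          linarith
        · right
          have h6 := (abs_le.mp (not_lt.mp hc)).1
          have h7 := hor.resolve_left hc
          constructor <;> linarith)
    calc l ^ q.choose 2 * l⁻¹ ^ e * (1 + l) ^ (w * (n - q))
        ≤ l ^ w.choose 2 * (1 + l) ^ (w * (n - q)) :=
          mul_le_mul_of_nonneg_right h1 (by positivity)
      _ = ww n l w * Real.exp (-(Real.log (1 + l) * (((q - w) * w : ℕ) : ℝ))) := by
          rw [h3, ww, mul_assoc]
      _ ≤ _ := by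
          rw [h4, ← Real.exp_add]
          refine Real.exp_le_exp.mpr ?_
          rw [Nat.cast_mul, Nat.cast_sub hwq]
          linarith
  · have h1 : l ^ q.choose 2 * l⁻¹ ^ e ≤ l ^ q.choose 2 :=
      mul_le_of_le_one_right (by positivity)
        (pow_le_one₀ (by positivity) (inv_le_one_of_one_le₀ hle))
    have h2 : w * (n - q) + (q - w) * (n - q) = q * (n - q) := by
      rw [← add_mul]
      congr 1
      omega
    have h3 := OPT59.pw l hl (w * (n - q)) ((q - w) * (n - q))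
    rw [h2] at h3
    have h4 := hww n q hqn
    have h5 := OPT59.num R ζ n (Real.log (1 + l)) (2 * Real.log (1 + l) + bb l) (bb l)
      ((q : ℝ) - n * xs l) ((q : ℝ) - w) ((n : ℝ) - q) q hR hζ hζ1 hn ha1 hκ hb (by linarith) hqn'
      (by linarith) (by linarith) (by
        by_cases hc : ζ * n / 2 ≤ |(q : ℝ) - n * xs l|
        · exact Or.inl hc
        · right
          obtain ⟨h6, h7⟩ := abs_lt.mp (not_le.mp hc)
          refine ⟨?_, by linarith⟩
          rcases hor with h8 | h8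
          · rcases lt_abs.mp h8 with h9 | h9 <;> linarith
          · linarith)
    calc l ^ q.choose 2 * l⁻¹ ^ e * (1 + l) ^ (w * (n - q))
        ≤ l ^ q.choose 2 * (1 + l) ^ (w * (n - q)) :=
          mul_le_mul_of_nonneg_right h1 (by positivity)
      _ = ww n l q * Real.exp (-(Real.log (1 + l) * (((q - w) * (n - q) : ℕ) : ℝ))) := by
          rw [h3, ww, mul_assoc]
      _ ≤ _ := by
          rw [h4, ← Real.exp_add]
          refine Real.exp_le_exp.mpr ?_
          rw [Nat.cast_mul, Nat.cast_sub hwq, Nat.cast_sub hqn]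
          linarith

end Pool.Agent.Lib.SPL
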