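import Pool.Agent.Lib.SPL.Kit2

/-! Row PAR of the project spl: the numeric parameters of one round. -/

open scoped Classical
open Finset

noncomputable section

namespace Pool.Agent.Lib.SPL

namespace PAR33

theorem ceil_two {x : ℝ} (h : 1 ≤ x) : (⌈x⌉₊ : ℝ) ≤ 2 * x := by
  have := Nat.ceil_lt_add_one (show 0 ≤ x by linarith)
  linarith

theorem floor_two {x : ℝ} (h : 1 ≤ x) : x ≤ 2 * (⌊x⌋₊ : ℝ) ∧ 0 < ⌊x⌋₊ := by
  have h1 := Nat.lt_floor_add_one x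
  have h2 : 0 < ⌊x⌋₊ := Nat.floor_pos.2 h
  have h3 : (1 : ℝ) ≤ ⌊x⌋₊ := by exact_mod_cast h2
  exact ⟨by linarith, h2⟩

/-- the constants -/
structure Cst (e β K c w M : ℝ) : Prop where
  e0 : 0 < e
  e1 : e ≤ 1
  b0 : 0 < β
  b1 : β ≤ e
  K1 : 512 ≤ e * β * K
  c1 : K ≤ c
  c2 : 10 ^ 12 * K ≤ e ^ 4 * β * c
  w1 : 96 * c ^ 4 ≤ e * β * w
  M1 : 20000 * c ≤ e * β * M

theorem exists_cst {e β : ℝ} (e0 : 0 < e) (e1 : e ≤ 1) (b0 : 0 < β) (b1 : β ≤ e) :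
    ∃ K c w M, Cst e β K c w M := by
  have h1 : 0 < e * β := by positivity
  have h2 : 0 < e ^ 4 * β := by positivity
  have h3 : e ^ 4 * β ≤ 1 := mul_le_one₀ (pow_le_one₀ e0.le e1) b0.le (b1.trans e1)
  obtain ⟨K, hK⟩ : ∃ K, K = 512 / (e * β) := ⟨_, rfl⟩
  have K0 : 0 < K := by rw [hK]; positivity
  obtain ⟨c, hc⟩ : ∃ c, c = 10 ^ 12 * K / (e ^ 4 * β) := ⟨_, rfl⟩
  refine ⟨K, c, 96 * c ^ 4 / (e * β), 20000 * c / (e * β), e0, e1, b0, b1, ?_, ?_, ?_, ?_, ?_⟩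
  · rw [hK, mul_div_cancel₀ _ h1.ne']
  · rw [hc, le_div_iff₀ h2]; nlinarith
  · rw [hc, mul_div_cancel₀ _ h2.ne']
  · rw [mul_div_cancel₀ _ h1.ne']
  · rw [mul_div_cancel₀ _ h1.ne']

/-- the scales -/
structure Scl (e w M y u s d i t : ℝ) : Prop where
  u1 : 1 ≤ u
  y1 : M * u ≤ y
  s0 : 0 < s
  s1 : s ≤ 1
  i1 : i = s ^ 2 * y ^ 9
  d0 : 0 ≤ d
  d1 : d ≤ i
  t1 : w * (y ^ 12 * u ^ 10) ≤ t
  t2 : e * t ≤ (d * s) ^ 2 * u ^ 3

variable {e β K c w M y u s d i t : ℝ}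

theorem Cst.eb (h : Cst e β K c w M) : 0 < e * β ∧ e * β ≤ e ∧ e * β ≤ β ∧ e * β ≤ 1 := by
  have := h.e0; have := h.e1; have := h.b0; have := h.b1
  refine ⟨by positivity, by nlinarith, by nlinarith, by nlinarith⟩

theorem Cst.big (h : Cst e β K c w M) : 512 ≤ K ∧ 512 ≤ c ∧ 20000 * c ≤ e * M ∧
    20000 * c ≤ β * M ∧ 20000 * c ≤ M ∧ 96 * c ^ 4 ≤ e * w ∧ 96 * c ≤ β * w ∧ 1 ≤ w := by
  obtain ⟨a1, a2, a3, a4⟩ := h.eb
  have k0 : 0 < K := by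
    by_contra hc
    nlinarith [h.K1, not_lt.1 hc]
  have k1 : 512 ≤ K := by nlinarith [h.K1]
  have c0 : 512 ≤ c := k1.trans h.c1
  have m0 : 0 < M := by
    by_contra hc
    nlinarith [h.M1, not_lt.1 hc]
  have c4 : c ≤ c ^ 4 := le_self_pow₀ (by linarith) (by norm_num)
  have w0 : 0 < w := by
    by_contra hc
    nlinarith [h.w1, not_lt.1 hc]
  refine ⟨k1, c0, by nlinarith [h.M1], by nlinarith [h.M1], by nlinarith [h.M1],
    by nlinarith [h.w1], by nlinarith [h.w1], by nlinarith [h.w1]⟩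

theorem facts (h : Cst e β K c w M) (g : Scl e w M y u s d i t) :
    M ≤ y ∧ 1 ≤ y ∧ 4 * c ^ 2 * (y ^ 6 * u ^ 3) ≤ d * s ∧ 1 ≤ s * y ∧ i ≤ y ^ 9 ∧
      y ^ 6 * u ^ 3 ≤ d * s ∧ y ^ 12 * u ^ 10 ≤ t ∧ d * s ≤ d := by
  obtain ⟨k1, c0, m1, m2, m3, w1, w2, w3⟩ := h.big
  have u1 := g.u1
  have s0 := g.s0
  have d0 := g.d0
  have e0 := h.e0
  have y0 : M ≤ y := by nlinarith [g.y1]
  have y1 : 1 ≤ y := by linarith
  have p1 : 0 < y ^ 12 * u ^ 10 := by positivity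
  have f1 : 4 * c ^ 2 * (y ^ 6 * u ^ 3) ≤ d * s := by
    refine le_of_pow_le_pow_left₀ (n := 2) (by norm_num) (by positivity) ?_
    refine le_of_mul_le_mul_right ?_ (show 0 < u ^ 3 by positivity)
    calc (4 * c ^ 2 * (y ^ 6 * u ^ 3)) ^ 2 * u ^ 3 = 16 * c ^ 4 * (y ^ 12 * u ^ 9) := by ring
      _ ≤ (e * w) * (y ^ 12 * u ^ 10) := by
        have c4 : 0 ≤ c ^ 4 := by positivity
        gcongr ?_ * (_ * u ^ ?_)
        · linarith
        · norm_num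
      _ ≤ e * t := by rw [mul_assoc]; exact mul_le_mul_of_nonneg_left g.t1 e0.le
      _ ≤ _ := g.t2
  have f2 : y ^ 6 * u ^ 3 ≤ d * s :=
    (le_mul_of_one_le_left (by positivity) (by nlinarith)).trans f1
  have f3 : y ^ 6 ≤ d * s := (le_mul_of_one_le_right (by positivity) (one_le_pow₀ u1)).trans f2
  refine ⟨y0, y1, f1, ?_, ?_, f2, (le_mul_of_one_le_left p1.le w3).trans g.t1,
    mul_le_of_le_one_right d0 g.s1⟩
  · refine le_of_pow_le_pow_left₀ (n := 3) (by norm_num) (by positivity) ?_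
    refine le_of_mul_le_mul_right ?_ (show 0 < y ^ 6 by positivity)
    calc 1 ^ 3 * y ^ 6 = y ^ 6 := by ring
      _ ≤ d * s := f3
      _ ≤ i * s := by gcongr; exact g.d1
      _ = _ := by rw [g.i1]; ring
  · rw [g.i1]
    exact mul_le_of_le_one_left (by positivity) (pow_le_one₀ s0.le g.s1)

/-- powers of `y` beat the constants -/
theorem beat (h : Cst e β K c w M) (g : Scl e w M y u s d i t) {x : ℝ} (hx : e * β ≤ x)
    (a b : ℕ) (hab : a ≤ b + 1) {z : ℝ} (hz : 0 ≤ z) :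
    20000 * c * u ^ a * z ≤ x * y ^ (b + 1) * z := by
  obtain ⟨k1, c0, m1, m2, m3, w1, w2, w3⟩ := h.big
  have u1 := g.u1
  have a1 := h.eb.1
  have x0 : 0 ≤ x := by linarith
  have M0 : 1 ≤ M := by linarith
  have a2 := h.M1
  have a3 := g.y1
  have a4 : M ≤ M ^ (b + 1) := le_self_pow₀ M0 (by omega)
  refine mul_le_mul_of_nonneg_right ?_ hz
  calc 20000 * c * u ^ a ≤ (e * β * M) * u ^ (b + 1) := by gcongr
    _ ≤ (x * M ^ (b + 1)) * u ^ (b + 1) := by gcongr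
    _ = x * (M * u) ^ (b + 1) := by ring
    _ ≤ x * y ^ (b + 1) := by gcongr

/-- the integer parameters, as reals -/
structure Prm (e K c y u s d i t k ν ν' θ v Δ W j : ℝ) : Prop where
  k1 : K * u ^ 6 ≤ k * s
  k2 : k * s ≤ 2 * (K * u ^ 6)
  n1 : c * (y ^ 3 * u ^ 4) ≤ ν
  n2 : ν ≤ 2 * (c * (y ^ 3 * u ^ 4))
  p1 : e * ν ≤ 800 * k * ν'
  q1 : e * ν * θ ≤ 1600 * d
  q0 : 0 ≤ θ
  v1 : e * d ^ 2 ≤ 8 * i * v
  D1 : e * i * Δ ≤ 512 * t
  D0 : 0 ≤ Δ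
  W1 : W ≤ 2 * i * d * θ / (ν * ν' * v) + 1
  j1 : j ≤ 16 * t / (e * k) + W * Δ + 1

variable {k ν ν' θ v Δ W j : ℝ}

theorem kn (h : Cst e β K c w M) (g : Scl e w M y u s d i t)
    (k1 : K * u ^ 6 ≤ k * s) (k2 : k * s ≤ 2 * (K * u ^ 6))
    (n1 : c * (y ^ 3 * u ^ 4) ≤ ν) (n2 : ν ≤ 2 * (c * (y ^ 3 * u ^ 4))) :
    0 < k ∧ 32 * k ≤ e * d ∧ 1600 * k ≤ e * ν ∧ 3200 * ν ≤ e * d ∧ ν ^ 2 ≤ k * d ∧
      4 * i ≤ e * d ^ 2 ∧ 256 ≤ e * i ∧ i ≤ t := by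
  obtain ⟨k0, c0, -⟩ := h.big
  obtain ⟨-, y1, f1, f2, f3, f4, f5, f6⟩ := facts h g
  obtain ⟨a1, a2, a3, a4⟩ := h.eb
  have u1 := g.u1
  have s0 := g.s0
  have e0 := h.e0
  have d0 := g.d0
  have c1 := h.c1
  have hk : 0 < k := by
    by_contra hc
    have : 0 < K * u ^ 6 := by positivity
    nlinarith [not_lt.1 hc]
  have f7 : y ^ 6 ≤ d * s := (le_mul_of_one_le_right (by positivity) (one_le_pow₀ u1)).trans f4
  have f8 : y ^ 6 ≤ d := f7.trans f6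
  refine ⟨hk, ?_, ?_, ?_, ?_, ?_, ?_, ?_⟩
  · refine le_of_mul_le_mul_right ?_ s0
    calc 32 * k * s ≤ 64 * K * u ^ 6 := by linarith
      _ ≤ 20000 * c * u ^ 6 := by gcongr; norm_num
      _ ≤ e * y ^ 6 := by simpa using beat h g a2 6 5 le_rfl zero_le_one
      _ ≤ e * (d * s) := by gcongr
      _ = _ := by ring
  · calc 1600 * k ≤ 1600 * (k * (s * y)) := by
          gcongr; exact le_mul_of_one_le_right hk.le f2
      _ = 1600 * (k * s) * y := by ring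
      _ ≤ 1600 * (2 * (K * u ^ 6)) * y := by gcongr
      _ = 3200 * K * u ^ 2 * (y * u ^ 4) := by ring
      _ ≤ 20000 * c * u ^ 2 * (y * u ^ 4) := by gcongr; norm_num
      _ ≤ e * y ^ 2 * (y * u ^ 4) := beat h g a2 2 1 le_rfl (by positivity)
      _ = e * (1 * (y ^ 3 * u ^ 4)) := by ring
      _ ≤ e * (c * (y ^ 3 * u ^ 4)) := by gcongr; linarith
      _ ≤ e * ν := by gcongr
  · calc 3200 * ν ≤ 6400 * c * u ^ 1 * (y ^ 3 * u ^ 3) := by linarith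
      _ ≤ 20000 * c * u ^ 1 * (y ^ 3 * u ^ 3) := by gcongr; norm_num
      _ ≤ e * y ^ 3 * (y ^ 3 * u ^ 3) := beat h g a2 1 2 (by norm_num) (by positivity)
      _ = e * (y ^ 6 * u ^ 3) := by ring
      _ ≤ e * d := by gcongr; exact f4.trans f6
  · have n0 : 0 ≤ ν := le_trans (by positivity) n1
    calc ν ^ 2 ≤ (2 * (c * (y ^ 3 * u ^ 4))) ^ 2 := by gcongr
      _ = (1 * u ^ 5) * (4 * c ^ 2 * (y ^ 6 * u ^ 3)) := by ring
      _ ≤ (K * u ^ 6) * (d * s) := by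
          gcongr
          · linarith
          · norm_num
      _ ≤ (k * s) * d := by gcongr
      _ ≤ k * d := by gcongr; exact mul_le_of_le_one_right hk.le g.s1
  · calc 4 * i ≤ 4 * y ^ 9 := by gcongr
      _ ≤ 20000 * c * u ^ 0 * y ^ 9 := by gcongr; linarith
      _ ≤ e * y ^ 3 * y ^ 9 := beat h g a2 0 2 (by norm_num) (by positivity)
      _ = e * (y ^ 6) ^ 2 := by ring
      _ ≤ e * d ^ 2 := by gcongr
  · calc (256 : ℝ) ≤ 20000 * c * u ^ 0 * 1 := by linarith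
      _ ≤ e * y ^ 6 * 1 := beat h g a2 0 5 (by norm_num) zero_le_one
      _ ≤ e * i := by rw [mul_one]; gcongr; exact f8.trans g.d1
  · calc i ≤ y ^ 9 := f3
      _ ≤ y ^ 12 := pow_le_pow_right₀ y1 (by norm_num)
      _ ≤ y ^ 12 * u ^ 10 := le_mul_of_one_le_right (by positivity) (one_le_pow₀ u1)
      _ ≤ t := f5

theorem wbd (h : Cst e β K c w M) (g : Scl e w M y u s d i t)
    (p : Prm e K c y u s d i t k ν ν' θ v Δ W j) :
    W ≤ e * β * (i * s) / (16384 * u ^ 6) + 1 := by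
  obtain ⟨k0, c0, -⟩ := h.big
  obtain ⟨-, y1, f1, f2, f3, f4, f5, f6⟩ := facts h g
  obtain ⟨hk, -, -, -, -, -, i0, -⟩ := kn h g p.k1 p.k2 p.n1 p.n2
  have u1 := g.u1
  have s0 := g.s0
  have e0 := h.e0
  have b0 := h.b0
  have q0 := p.q0
  have hd : 0 < d := lt_of_lt_of_le (by positivity) (f4.trans f6)
  have hi : 0 < i := hd.trans_le g.d1
  have hn : 0 < ν := lt_of_lt_of_le (by positivity) p.n1
  have hn' : 0 < ν' := by
    by_contra hc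
    have := p.p1
    nlinarith [not_lt.1 hc, mul_pos e0 hn]
  have hv : 0 < v := by
    by_contra hc
    have := p.v1
    nlinarith [not_lt.1 hc, mul_pos e0 (pow_pos hd 2)]
  refine p.W1.trans ?_
  gcongr ?_ + 1
  have a1 : θ ≤ 1600 * d / (e * ν) := by rw [le_div_iff₀ (by positivity)]; linarith [p.q1]
  have a2 : e * ν / (800 * k) ≤ ν' := by rw [div_le_iff₀ (by positivity)]; linarith [p.p1]
  have a3 : e * d ^ 2 / (8 * i) ≤ v := by rw [div_le_iff₀ (by positivity)]; linarith [p.v1]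
  have a4 : k ≤ 2 * (K * u ^ 6) / s := by rw [le_div_iff₀ s0]; exact p.k2
  calc 2 * i * d * θ / (ν * ν' * v)
      ≤ 2 * i * d * (1600 * d / (e * ν)) / (ν * (e * ν / (800 * k)) * (e * d ^ 2 / (8 * i))) := by
        gcongr
    _ = 20480000 * i * i * k / (e ^ 3 * ν ^ 3) := by field_simp; ring
    _ ≤ 20480000 * i * i * (2 * (K * u ^ 6) / s) / (e ^ 3 * (c * (y ^ 3 * u ^ 4)) ^ 3) := by
        gcongr
        exact p.n1
    _ = 40960000 * K * (i * s) / (e ^ 3 * c ^ 3 * u ^ 6) := by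
        nth_rewrite 2 [g.i1]
        field_simp
        ring
    _ ≤ _ := by
        rw [div_le_div_iff₀ (by positivity) (by positivity)]
        have c3 : c ≤ c ^ 3 := le_self_pow₀ (by linarith) (by norm_num)
        calc 40960000 * K * (i * s) * (16384 * u ^ 6)
            = (40960000 * 16384 * K) * (i * s * u ^ 6) := by ring
          _ ≤ (10 ^ 12 * K) * (i * s * u ^ 6) := by gcongr; norm_num
          _ ≤ (e ^ 4 * β * c ^ 3) * (i * s * u ^ 6) := by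
            gcongr ?_ * _
            exact h.c2.trans (by gcongr)
          _ = _ := by ring

theorem sums (h : Cst e β K c w M) (g : Scl e w M y u s d i t)
    (p : Prm e K c y u s d i t k ν ν' θ v Δ W j) :
    128 * W ≤ e * i ∧ 4 * u ^ 3 * j ≤ 3 / 8 * (β * (t / u ^ 3) * s) + 4 * u ^ 3 ∧
      9 * (y ^ 9 * u ^ 3) ≤ 1 / 8 * (β * (t / u ^ 3) * s) ∧
      6 * ν * i * u ^ 3 ≤ 1 / 8 * (β * (t / u ^ 3) * s) ∧
      β * (t / u ^ 3) * s ≤ d ^ 2 ∧ 4 * i * u ^ 3 ≤ d ^ 2 := by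
  have hW := wbd h g p
  obtain ⟨k0, c0, m1, m2, m3, w1, w2, w3⟩ := h.big
  obtain ⟨-, y1, f1, f2, f3, f4, f5, f6⟩ := facts h g
  obtain ⟨hk, -, -, -, -, -, i0, i1⟩ := kn h g p.k1 p.k2 p.n1 p.n2
  obtain ⟨a1, a2, a3, a4⟩ := h.eb
  have u1 := g.u1
  have s0 := g.s0
  have e0 := h.e0
  have b0 := h.b0
  have hd : 0 < d := lt_of_lt_of_le (by positivity) (f4.trans f6)
  have hi : 0 < i := hd.trans_le g.d1
  have ht : 0 < t := hi.trans_le i1
  have u6 : 1 ≤ u ^ 6 := one_le_pow₀ u1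
  have f7 : y ^ 6 ≤ d * s := (le_mul_of_one_le_right (by positivity) (one_le_pow₀ u1)).trans f4
  refine ⟨?_, ?_, ?_, ?_, ?_, ?_⟩
  · have : e * β * (i * s) / (16384 * u ^ 6) ≤ e * i / (16384 * 1) := by
      gcongr
      exact mul_le_of_le_one_right hi.le g.s1
    linarith
  · have b1 : 16 * t / (e * k) ≤ β * t * s / (32 * u ^ 6) := by
      rw [div_le_div_iff₀ (by positivity) (by positivity)]
      calc 16 * t * (32 * u ^ 6) = 512 * u ^ 6 * t := by ring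
        _ ≤ (e * β * K) * u ^ 6 * t := by gcongr; exact h.K1
        _ = e * β * (K * u ^ 6) * t := by ring
        _ ≤ e * β * (k * s) * t := by gcongr _ * ?_ * _; exact p.k1
        _ = _ := by ring
    have b2 : Δ ≤ 512 * t / (e * i) := by rw [le_div_iff₀ (by positivity)]; linarith [p.D1]
    have b3 : 512 * t / (e * i) ≤ β * t * s / (32 * u ^ 6) := by
      rw [div_le_div_iff₀ (by positivity) (by positivity)]
      calc 512 * t * (32 * u ^ 6) = 16384 * 1 * u ^ 6 * t := by ring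
        _ ≤ 20000 * c * u ^ 6 * t := by gcongr <;> linarith
        _ ≤ e * β * y ^ 6 * t := beat h g le_rfl 6 5 le_rfl ht.le
        _ ≤ e * β * (i * s) * t := by gcongr; exact f7.trans (by gcongr; exact g.d1)
        _ = _ := by ring
    have b4 : W * Δ ≤ β * t * s / (32 * u ^ 6) + 512 * t / (e * i) := by
      calc W * Δ ≤ (e * β * (i * s) / (16384 * u ^ 6) + 1) * (512 * t / (e * i)) :=
            mul_le_mul hW b2 p.D0 (by positivity)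
        _ = _ := by field_simp; ring
    calc 4 * u ^ 3 * j ≤ 4 * u ^ 3 * (3 * (β * t * s / (32 * u ^ 6)) + 1) := by
          gcongr; linarith [p.j1]
      _ = _ := by field_simp; ring
  · rw [← mul_le_mul_iff_left₀ (show 0 < 8 * u ^ 3 by positivity)]
    calc 9 * (y ^ 9 * u ^ 3) * (8 * u ^ 3) = 72 * 1 * u ^ 0 * (y ^ 9 * u ^ 6) * 1 := by ring
      _ ≤ 20000 * c * u ^ 0 * (y ^ 9 * u ^ 10) * (s * y) := by gcongr <;> linarith
      _ ≤ β * y ^ 2 * (y ^ 9 * u ^ 10) * (s * y) := by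
          gcongr ?_ * _; exact beat h g a3 0 1 (by norm_num) (by positivity)
      _ = β * (y ^ 12 * u ^ 10) * s := by ring
      _ ≤ β * t * s := by gcongr
      _ = _ := by field_simp
  · rw [← mul_le_mul_iff_left₀ (show 0 < 8 * u ^ 3 by positivity)]
    calc 6 * ν * i * u ^ 3 * (8 * u ^ 3)
        ≤ 6 * (2 * (c * (y ^ 3 * u ^ 4))) * i * u ^ 3 * (8 * u ^ 3) := by gcongr; exact p.n2
      _ = 96 * c * (y ^ 12 * u ^ 10) * s * s := by rw [g.i1]; ring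
      _ ≤ β * w * (y ^ 12 * u ^ 10) * s * 1 := by gcongr; exact g.s1
      _ = β * (w * (y ^ 12 * u ^ 10)) * s := by ring
      _ ≤ β * t * s := by gcongr; exact g.t1
      _ = _ := by field_simp
  · calc β * (t / u ^ 3) * s ≤ e * (t / u ^ 3) * 1 := by
          gcongr
          · exact h.b1
          · exact g.s1
      _ = e * t / u ^ 3 := by ring
      _ ≤ (d * s) ^ 2 := by rw [div_le_iff₀ (by positivity)]; exact g.t2
      _ ≤ d ^ 2 := by gcongr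
  · calc 4 * i * u ^ 3 ≤ 4 * y ^ 9 * u ^ 6 := by gcongr; norm_num
      _ ≤ 20000 * c * u ^ 0 * y ^ 9 * u ^ 6 := by gcongr; linarith
      _ ≤ 1 * y ^ 3 * y ^ 9 * u ^ 6 := by
          gcongr ?_ * _; exact beat h g a4 0 2 (by norm_num) (by positivity)
      _ = (y ^ 6 * u ^ 3) ^ 2 := by ring
      _ ≤ d ^ 2 := by gcongr; exact f4.trans f6

theorem scales {ω b : ℝ} {N i d : ℕ} (h : Cst e β K c w M) (hω : ω = 24 * M ^ 9 + w ^ 3)
    (hL : ω ≤ Real.log N) (b1 : 1 ≤ b) (b2 : b ≤ Real.log N)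
    (ht : ω * ((N : ℝ) ^ 4 * Real.log N ^ 10) ≤ t ^ 3) (hd : d ≤ i) (hi : i ≤ N)
    (hs : e * (t / b) * N ≤ (d : ℝ) ^ 2 * i) :
    ∃ y u : ℝ, y ^ 9 = N ∧ u ^ 3 = Real.log N ∧ 2 ≤ N ∧
      Scl e w M y u (Real.sqrt ((i : ℝ) / N)) d i t := by
  obtain ⟨k1, c0, m1, m2, m3, w1, w2, w3⟩ := h.big
  have e0 := h.e0
  have M1 : 1 ≤ M := by linarith
  have M9 : 1 ≤ M ^ 9 := one_le_pow₀ M1
  have w4 : 1 ≤ w ^ 3 := one_le_pow₀ w3
  have L1 : 1 ≤ Real.log N := by linarith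
  have N2 : 2 ≤ N := by
    by_contra hc
    have : N = 0 ∨ N = 1 := by omega
    rcases this with rfl | rfl <;> norm_num at L1
  have N0 : (0 : ℝ) < N := by positivity
  obtain ⟨y, y0, hy⟩ : ∃ y : ℝ, 0 ≤ y ∧ y ^ 9 = N :=
    ⟨(N : ℝ) ^ ((9 : ℕ) : ℝ)⁻¹, by positivity, Real.rpow_inv_natCast_pow N0.le (by norm_num)⟩
  obtain ⟨u, u0, hu⟩ : ∃ u : ℝ, 0 ≤ u ∧ u ^ 3 = Real.log N :=
    ⟨(Real.log N) ^ ((3 : ℕ) : ℝ)⁻¹, by positivity,
      Real.rpow_inv_natCast_pow (by linarith) (by norm_num)⟩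
  have u1 : 1 ≤ u := le_of_pow_le_pow_left₀ (n := 3) (by norm_num) u0 (by rw [hu]; linarith)
  have t0 : 0 < t := by
    by_contra hc
    have a1 : t ^ 3 ≤ 0 := Odd.pow_nonpos (by decide) (not_lt.1 hc)
    have a2 : 0 < ω * ((N : ℝ) ^ 4 * Real.log N ^ 10) := by
      have : 0 < ω := by linarith
      positivity
    linarith
  have t1 : w * (y ^ 12 * u ^ 10) ≤ t := by
    refine le_of_pow_le_pow_left₀ (n := 3) (by norm_num) t0.le (le_trans ?_ ht)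
    rw [← hy, hy, ← hu, ← hy]
    calc (w * (y ^ 12 * u ^ 10)) ^ 3 = w ^ 3 * ((y ^ 9) ^ 4 * (u ^ 3) ^ 10) := by ring
      _ ≤ _ := by gcongr; linarith
  have i0 : (0 : ℝ) < i := by
    by_contra hc
    have : 0 < e * (t / b) * N := by positivity
    nlinarith [not_lt.1 hc, sq_nonneg (d : ℝ)]
  have hi' : (i : ℝ) ≤ N := by exact_mod_cast hi
  have hq := Real.sq_sqrt (show 0 ≤ (i : ℝ) / N by positivity)
  refine ⟨y, u, hy, hu, N2, u1, ?_, Real.sqrt_pos.2 (by positivity),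
    Real.sqrt_le_one.2 ((div_le_one N0).2 hi'), ?_, by positivity, by exact_mod_cast hd, t1, ?_⟩
  · refine le_of_pow_le_pow_left₀ (n := 9) (by norm_num) y0 ?_
    have a1 := Real.pow_div_factorial_le_exp (Real.log N) (by linarith) 4
    rw [Real.exp_log N0] at a1
    calc (M * u) ^ 9 = 24 * M ^ 9 * (u ^ 3) ^ 3 / 24 := by ring
      _ ≤ Real.log N * Real.log N ^ 3 / 24 := by rw [hu]; gcongr; linarith
      _ = Real.log N ^ 4 / (Nat.factorial 4 : ℕ) := by norm_num [Nat.factorial]; ring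
      _ ≤ _ := by rw [hy]; exact a1
  · rw [hq, hy]; field_simp
  · rw [mul_pow, hq, hu]
    calc e * t = e * (t / b) * N / N * b := by field_simp
      _ ≤ (d : ℝ) ^ 2 * i / N * Real.log N := by gcongr
      _ = _ := by ring

end PAR33

open PAR33 in
theorem r_PAR : R_PAR := by
  intro ε β ε0 ε1 β0 β1
  have e0 : 0 < ε ^ 2 := by positivity
  obtain ⟨K, c, w, M, h⟩ := exists_cst e0 (pow_le_one₀ ε0.le ε1) β0 β1
  refine ⟨24 * M ^ 9 + w ^ 3, fun N i d t b hL b1 b2 ht hd hi hs => ?_⟩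
  obtain ⟨y, u, hy, hu, N2, g⟩ := scales h rfl hL b1 b2 ht hd hi hs
  generalize Real.sqrt ((i : ℝ) / N) = s at g ⊢
  obtain ⟨k0, c0, -⟩ := h.big
  obtain ⟨-, y1, -, -, -, f4, -, f6⟩ := facts h g
  have u1 := g.u1
  have s0 := g.s0
  have hd0 : (0 : ℝ) < d := lt_of_lt_of_le (by positivity) (f4.trans f6)
  have hi0 : (0 : ℝ) < i := hd0.trans_le g.d1
  have N0 : (0 : ℝ) < N := by positivity
  obtain ⟨k, hk⟩ : ∃ k, k = ⌈K * u ^ 6 / s⌉₊ := ⟨_, rfl⟩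
  obtain ⟨ν, hν⟩ : ∃ ν, ν = ⌈c * (y ^ 3 * u ^ 4)⌉₊ := ⟨_, rfl⟩
  have k1 : K * u ^ 6 ≤ k * s := by rw [← div_le_iff₀ s0, hk]; exact Nat.le_ceil _
  have k2 : k * s ≤ 2 * (K * u ^ 6) := by
    rw [← le_div_iff₀ s0, hk, mul_div_assoc 2]
    refine ceil_two ((one_le_div s0).2 (g.s1.trans ?_))
    exact one_le_mul_of_one_le_of_one_le (by linarith) (one_le_pow₀ u1)
  have n1 : c * (y ^ 3 * u ^ 4) ≤ ν := by rw [hν]; exact Nat.le_ceil _
  have n2 : (ν : ℝ) ≤ 2 * (c * (y ^ 3 * u ^ 4)) := by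
    rw [hν]
    exact ceil_two (one_le_mul_of_one_le_of_one_le (by linarith)
      (one_le_mul_of_one_le_of_one_le (one_le_pow₀ y1) (one_le_pow₀ u1)))
  obtain ⟨a1, a2, a3, a4, a5, a6, a7, a8⟩ := kn h g k1 k2 n1 n2
  have hn : (0 : ℝ) < ν := lt_of_lt_of_le (by positivity) n1
  have ht0 : 0 < t := hi0.trans_le a8
  have e1 : ε ^ 2 ≤ 1 := h.e1
  obtain ⟨ν', hν'⟩ : ∃ ν', ν' = ⌊ε ^ 2 * ν / (400 * k)⌋₊ := ⟨_, rfl⟩
  obtain ⟨θ, hθ⟩ : ∃ θ, θ = ⌈800 * (d : ℝ) / (ε ^ 2 * ν)⌉₊ := ⟨_, rfl⟩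
  obtain ⟨v, hv⟩ : ∃ v, v = ⌊ε ^ 2 * (d : ℝ) ^ 2 / (4 * i)⌋₊ := ⟨_, rfl⟩
  obtain ⟨Δ, hΔ⟩ : ∃ Δ, Δ = ⌈256 * t / (ε ^ 2 * i)⌉₊ := ⟨_, rfl⟩
  obtain ⟨W, hW⟩ : ∃ W, W = ⌈2 * (i : ℝ) * d * θ / (ν * ν' * v)⌉₊ := ⟨_, rfl⟩
  obtain ⟨j, hj⟩ : ∃ j, j = ⌈16 * t / (ε ^ 2 * k) + (W : ℝ) * Δ⌉₊ := ⟨_, rfl⟩
  obtain ⟨p1, p2⟩ := floor_two (x := ε ^ 2 * ν / (400 * k))
    ((one_le_div (by positivity)).2 (by linarith))
  obtain ⟨v1, v2⟩ := floor_two (x := ε ^ 2 * (d : ℝ) ^ 2 / (4 * i))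
    ((one_le_div (by positivity)).2 a6)
  have p3 := Nat.floor_le (show 0 ≤ ε ^ 2 * ν / (400 * k) by positivity)
  have v3 := Nat.floor_le (show 0 ≤ ε ^ 2 * (d : ℝ) ^ 2 / (4 * i) by positivity)
  have q1 := ceil_two (x := 800 * (d : ℝ) / (ε ^ 2 * ν))
    ((one_le_div (by positivity)).2
      (by linarith [mul_le_of_le_one_left hn.le e1, mul_le_of_le_one_left hd0.le e1]))
  have q2 := Nat.le_ceil (800 * (d : ℝ) / (ε ^ 2 * ν))
  have D1 := ceil_two (x := 256 * t / (ε ^ 2 * i))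
    ((one_le_div (by positivity)).2 (by linarith [mul_le_of_le_one_left hi0.le e1]))
  have D2 := Nat.le_ceil (256 * t / (ε ^ 2 * i))
  have W1 := Nat.ceil_lt_add_one (show 0 ≤ 2 * (i : ℝ) * d * θ / (ν * ν' * v) by positivity)
  have W2 := Nat.le_ceil (2 * (i : ℝ) * d * θ / (ν * ν' * v))
  have j1 := Nat.ceil_lt_add_one (show 0 ≤ 16 * t / (ε ^ 2 * k) + (W : ℝ) * Δ by positivity)
  have j2 := Nat.le_ceil (16 * t / (ε ^ 2 * k) + (W : ℝ) * Δ)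
  rw [← hν'] at p1 p2 p3
  rw [← hv] at v1 v2 v3
  rw [← hθ] at q1 q2
  rw [← hΔ] at D1 D2
  rw [← hW] at W1 W2
  rw [← hj] at j1 j2
  rw [div_le_iff₀ (by positivity)] at p1 v1 q2 D2 W2
  rw [le_div_iff₀ (by positivity)] at p3 v3
  rw [← mul_div_assoc, le_div_iff₀ (by positivity)] at q1 D1
  have p : Prm (ε ^ 2) K c y u s d i t k ν ν' θ v Δ W j :=
    ⟨k1, k2, n1, n2, by linarith, by linarith, by positivity, by linarith, by linarith,
      by positivity, W1.le, j1.le⟩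
  obtain ⟨z1, z2, z3, z4, z5, z6⟩ := sums h g p
  have l1 : lg N ≤ 2 * u ^ 3 := by
    have : (2 : ℝ) ≤ N := by exact_mod_cast N2
    rw [hu, lg, ← Real.log_rpow N0]
    refine Real.log_le_log (by positivity) ?_
    rw [Real.rpow_two]
    linarith [mul_le_mul_of_nonneg_left this N0.le]
  have l0 : 0 ≤ lg N := Real.log_nonneg (by linarith)
  have l2 : Real.log k ≤ u ^ 3 := by
    have : (d : ℝ) ≤ N := by exact_mod_cast hd.trans hi
    rw [hu]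
    exact Real.log_le_log a1 (by linarith [mul_le_of_le_one_left hd0.le e1])
  have u3 : 1 ≤ u ^ 3 := one_le_pow₀ u1
  have y9 : 1 ≤ y ^ 9 := one_le_pow₀ y1
  have l3 : N * Real.log k + 2 * N + 2 * j * lg N + 2 ≤ 1 / 2 * (β * (t / u ^ 3) * s) := by
    have r1 : N * Real.log k ≤ y ^ 9 * u ^ 3 := by rw [hy]; gcongr
    have r2 : 2 * j * lg N ≤ 2 * j * (2 * u ^ 3) := by gcongr
    have r3 : y ^ 9 ≤ y ^ 9 * u ^ 3 := le_mul_of_one_le_right (by positivity) u3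
    have r4 : u ^ 3 ≤ y ^ 9 * u ^ 3 := le_mul_of_one_le_left (by positivity) y9
    linarith
  have l4 : 3 * ν * i * lg N ≤ 3 * ν * i * (2 * u ^ 3) := by gcongr
  have l5 : i * lg N ≤ i * (2 * u ^ 3) := by gcongr
  have T0 : 0 ≤ β * (t / u ^ 3) * s := by positivity
  refine ⟨k, ν, ν', θ, v, Δ, W, j, ⟨ht0, by exact_mod_cast a1, by exact_mod_cast hn, p2, v2, ?_, a2,
    ?_, ?_, by linarith, by linarith, a4, by linarith, by linarith, by exact_mod_cast W2, z1, j2⟩,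
    ?_, ?_, by linarith⟩
  · have r1 : ε * Real.sqrt (t / b) ≤ d := by
      refine le_of_pow_le_pow_left₀ (n := 2) (by norm_num) hd0.le ?_
      rw [mul_pow, Real.sq_sqrt (by positivity)]
      refine le_of_mul_le_mul_right (hs.trans ?_) N0
      gcongr
    calc 8 * (ε ^ 3 * Real.sqrt (t / b) / 8) = ε ^ 2 * (ε * Real.sqrt (t / b)) := by ring
      _ ≤ _ := by gcongr
  · have : 2 * (ν' : ℝ) ≤ θ := by
      refine le_of_mul_le_mul_right ?_ (show 0 < 400 * (k : ℝ) * (ε ^ 2 * ν) by positivity)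
      calc 2 * (ν' : ℝ) * (400 * k * (ε ^ 2 * ν)) = 2 * (ν' * (400 * k)) * (ε ^ 2 * ν) := by ring
        _ ≤ 2 * (1 * (ν : ℝ)) * (1 * ν) := by gcongr 2 * ?_ * (?_ * _); exact p3.trans (by gcongr)
        _ = 2 * (ν : ℝ) ^ 2 := by ring
        _ ≤ 400 * (k : ℝ) * (800 * d) := by linarith [mul_pos a1 hd0]
        _ ≤ 400 * k * (θ * (ε ^ 2 * ν)) := by gcongr
        _ = _ := by ring
    exact_mod_cast this
  · have : (k : ℝ) * θ ≤ d := by
      refine le_of_mul_le_mul_right ?_ (show 0 < ε ^ 2 * ν by positivity)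
      calc (k : ℝ) * θ * (ε ^ 2 * ν) = k * (θ * (ε ^ 2 * ν)) := by ring
        _ ≤ (k : ℝ) * (2 * (800 * d)) := by gcongr
        _ = (d : ℝ) * (1600 * k) := by ring
        _ ≤ _ := by gcongr
    exact_mod_cast this
  · rw [xM, ← hu]
    linarith
  · rw [xE]
    linarith [mul_le_of_le_one_left (sq_nonneg (d : ℝ)) e1, sq_nonneg (d : ℝ)]

end Pool.Agent.Lib.SPL
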