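import Pool.Agent.Lib.SPL.Kit2

open scoped Classical
open Finset

noncomputable section

namespace Pool.Agent.Lib.SPL

namespace RND90

variable {α : Type}

/-- the part of `G` that is named -/
def g0 (G : Gr α) {k : ℕ} (φ : α → Fin k) (W : Finset α) : Gr α where
  Adj x y := G.Adj x y ∧ (φ x = φ y ∨ x ∈ W ∨ y ∈ W)
  symm := ⟨fun _ _ h => ⟨h.1.symm, by rcases h.2 with e | e | e <;> simp [e]⟩⟩
  loopless := ⟨fun x h => G.loopless.1 x h.1⟩

theorem nR_g0 (G : Gr α) {k : ℕ} (φ : α → Fin k) (W V : Finset α) :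
    nR (g0 G φ W) φ V = nR G φ V := by
  ext x y
  simp only [nR_adj, g0]
  tauto

theorem gam_g0 (G R : Gr α) {k : ℕ} (φ : α → Fin k) (W : Finset α) (B : α → Finset α) (θ : ℕ) :
    gam (g0 G φ W) R B θ W = gam G R B θ W := by
  funext u
  unfold gam
  congr 1
  ext x y
  simp only [full_adj, g0]
  refine and_congr_right (fun _ => and_congr_right (fun _ => and_congr_right (fun _ => ?_)))
  refine exists_congr (fun w => and_congr_right (fun hw => ?_))
  simp [hw]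

theorem ed_g0 [Fintype α] (G : Gr α) {k : ℕ} (φ : α → Fin k) (W : Finset α) (Δ : ℕ)
    (h : ∀ w ∈ W, dg G w univ ≤ Δ) : ed (g0 G φ W) ≤ ed (mo G φ) + W.card * Δ := by
  refine (ed_le_sdiff_add _ (mo G φ)).trans ?_
  have h1 : Cvr (g0 G φ W \ mo G φ) W := by
    intro x y e
    rcases e.1.2 with c | c
    · exact absurd ⟨e.1.1, c⟩ e.2
    · exact c
  have h2 := h1.ed_le
  have h3 : ∑ w ∈ W, dg (g0 G φ W \ mo G φ) w univ ≤ W.card * Δ := by
    simpa using sum_le_card_nsmul W _ Δ (fun w hw =>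
      (dg_mono (G := g0 G φ W \ mo G φ) (G' := G) (fun _ _ e => e.1.1) subset_rfl w).trans (h w hw))
  omega

abbrev Lb (α : Type) (k : ℕ) := (α → Fin k) × Finset α × Gr α × Finset α

def labs (α : Type) [Fintype α] (k j0 : ℕ) : Finset (Lb α k) :=
  univ ×ˢ univ ×ˢ (univ.filter (fun H : Gr α => ed H ≤ j0)) ×ˢ univ

theorem card_labs (α : Type) [Fintype α] {k : ℕ} (hk : 0 < k) (j0 : ℕ) :
    ((labs α k j0).card : ℝ) ≤ Real.exp (Fintype.card α * Real.log k + 2 * Fintype.card α +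
      2 * j0 * lg (Fintype.card α)) := by
  have h1 : (((univ : Finset (α → Fin k)).card : ℕ) : ℝ) =
      Real.exp (Fintype.card α * Real.log k) := by
    rw [Real.exp_nat_mul, Real.exp_log (by exact_mod_cast hk)]
    simp
  have h2 : (((univ : Finset (Finset α)).card : ℕ) : ℝ) ≤ Real.exp (Fintype.card α) :=
    card_subsets_exp (A := univ) (fun S _ => subset_univ S)
  have h3 := card_small_graphs_exp (Gs := univ.filter (fun H : Gr α => ed H ≤ j0)) (j := j0)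
    (fun G hG => (mem_filter.1 hG).2)
  rw [labs, card_product, card_product, card_product]
  push_cast
  rw [h1, show (Fintype.card α : ℝ) * Real.log k + 2 * Fintype.card α +
    2 * j0 * lg (Fintype.card α) = Fintype.card α * Real.log k + (Fintype.card α +
    (2 * j0 * lg (Fintype.card α) + Fintype.card α)) by ring, Real.exp_add, Real.exp_add,
    Real.exp_add]
  gcongr

end RND90

open RND90 in
theorem r_RND : R_RND := by
  intro hSHR hEST hCOL hTRI α _ ε t g Gs E F V C B d k ν ν' θ v Δ W0 j0 hε hg hR hp hG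
  let B' : (α → Fin k) → α → Finset α := fun φ u => trim φ d (B u)
  let Γ : Lb α k → α → Gr α := fun a => gam a.2.2.1 (nR a.2.2.1 a.1 V) (B' a.1) θ a.2.1
  let Λ : Lb α k → α → Gr α := fun a => lam E (nR a.2.2.1 a.1 V) C (B' a.1) (Γ a) θ ν' v
  let Q0 : Lb α k → Gr α → Prop := fun a G => a.2.2.1 = g0 G a.1 a.2.1 ∧ a.2.2.2 ⊆ C ∧
    ε ^ 2 * V.card / 200 ≤ a.2.2.2.card ∧ Pre ε E (nR a.2.2.1 a.1 V) V C (B' a.1) d k
  let Q1 : Lb α k → Gr α → Prop := fun a G => Q0 a G ∧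
    ∀ u ∈ a.2.2.2, ε ^ 2 / 200 * θ * d ≤ (ar (Γ a u) (B' a.1 u) : ℝ)
  let Q2 : Lb α k → Gr α → Prop := fun a G => Q0 a G ∧
    ∀ u ∈ a.2.2.2, ε ^ 2 / 200 * (2 * d / k) * d ≤ (ar (Λ a u) (B' a.1 u) : ℝ) ∧
      ∃ S : Finset α, S.card ≤ ν ∧ ∀ x ∈ nb G u (B' a.1 u) \ S,
        dg (Λ a u) x (nb G u (B' a.1 u) \ S) ≤ ν'
  let Q3 : Lb α k → Gr α → Prop := fun a G => Q0 a G ∧
    ∀ u ∈ a.2.2.2, ∃ p, v ≤ 2 * dg G u (asel E C (B' a.1) (Γ a) θ ν' v u p)
  have hall : ∀ G ∈ Gs, ∃ a ∈ labs α k j0, Q1 a G ∨ Q2 a G ∨ Q3 a G := by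
    intro G hGs
    obtain ⟨-, h1, -, h3, h4⟩ := hG G hGs
    obtain ⟨φ, c1, c2⟩ := hCOL α ε t g E F G V C B d k hε hp.tpos hg hp.kpos hR h1 h3 h4 hp.hg hp.hk
    obtain ⟨W, C1, w1, w2, w3, w4, w5⟩ :=
      hTRI α ε t g E (nR G φ V) G V C (B' φ) d k ν ν' θ v Δ W0 j0 hε c2 hp h3
    refine ⟨(φ, W, g0 G φ W, C1), ?_, ?_⟩
    · simp only [labs, mem_product, mem_univ, mem_filter, true_and, and_true]
      have a1 : (ed (g0 G φ W) : ℝ) ≤ ed (mo G φ) + W.card * Δ := by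
        exact_mod_cast ed_g0 G φ W Δ w2
      have a2 : (W.card : ℝ) * Δ ≤ W0 * Δ :=
        mul_le_mul_of_nonneg_right (by exact_mod_cast w1) (by positivity)
      have a3 := hp.h10
      exact_mod_cast (by linarith : (ed (g0 G φ W) : ℝ) ≤ j0)
    · simp only [Q1, Q2, Q3, Q0, Λ, Γ, nR_g0, gam_g0, true_and]
      rcases w5 with w5 | w5 | w5
      · exact Or.inl ⟨⟨w3, w4, c2⟩, w5⟩
      · exact Or.inr (Or.inl ⟨⟨w3, w4, c2⟩, w5⟩)
      · exact Or.inr (Or.inr ⟨⟨w3, w4, c2⟩, w5⟩)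
  have hθ : (0 : ℝ) < θ := by
    have := hp.h1
    have := hp.npos'
    exact_mod_cast (by omega : 0 < θ)
  have hd : (0 : ℝ) < d := by exact_mod_cast hR.dpos
  have hk : (0 : ℝ) < k := by exact_mod_cast hp.kpos
  have hν' : (1 : ℝ) ≤ ν' := by exact_mod_cast hp.npos'
  have hc : 0 < ε ^ 2 / 200 := by positivity
  have hCV : ∀ a G, Q0 a G → (a.2.2.2.card : ℝ) ≤ V.card := fun a G h => by
    exact_mod_cast card_le_card (h.2.1.trans hR.sub)
  have hB : ∀ φ, ∀ u ∈ C, B' φ u ⊆ nb (F \ E) u univ := fun φ u hu =>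
    (filter_subset _ _).trans ((hR.bsub u hu).trans (nb_mono le_rfl (subset_univ _) u))
  have hfin : ∀ (a : Lb α k) (G : Gr α) (Hs : Finset (Gr α)), Q0 a G →
      Cov Hs (3 * ν * a.2.2.2.card * lg (Fintype.card α))
        (Mstep E F (ε ^ 2 / 200 * d * a.2.2.2.card / 16)) →
      Cov Hs (3 * ν * V.card * lg (Fintype.card α))
        (Mstep E F ((ε ^ 2 / 200) ^ 2 * V.card * d / 16)) := by
    intro a G Hs h hcv
    have := hCV a G h
    have := lg_nonneg (Fintype.card α)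
    refine hcv.mono subset_rfl (by gcongr) (fun E' F' e => e.mono ?_)
    have := mul_le_mul_of_nonneg_left h.2.2.1 (mul_pos hc hd).le
    linarith
  have hemp : ∀ x P, Cov (∅ : Finset (Gr α)) x P := fun x P =>
    ⟨∅, by simpa using (Real.exp_pos x).le, by simp, by simp⟩
  have h1 : ∀ (a : Lb α k) (Hs : Finset (Gr α)), Hs ⊆ Gs → (∀ G ∈ Hs, Q1 a G) →
      Cov Hs (3 * ν * V.card * lg (Fintype.card α))
        (Mstep E F ((ε ^ 2 / 200) ^ 2 * V.card * d / 16)) := by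
    intro a Hs hH hq
    rcases Hs.eq_empty_or_nonempty with rfl | ⟨G0, hG0⟩
    · exact hemp _ _
    have q := hq G0 hG0
    refine hfin a G0 Hs q.1 (hSHR α Hs E F a.2.2.2 (B' a.1) (Γ a) d ν 0 θ (ε ^ 2 / 200) hc hθ
      (fun G h => ⟨(hG G (hH h)).2.1, (hG G (hH h)).2.2.1⟩)
      (fun u hu => ⟨hB _ u (q.1.2.1 hu), q.1.2.2.2.bcard u (q.1.2.1 hu), fun x hx => ?_, q.2 u hu⟩)
      (fun G h u hu => ⟨∅, by simp, fun x hx => ?_⟩) (by linarith [hp.h3])
      (by simp; positivity) (by linarith [hp.h5]))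
    · exact_mod_cast (cap_spec _ _ _).2.1 x hx
    · rw [sdiff_empty] at hx ⊢
      rw [dg, Nat.le_zero, card_eq_zero]
      refine eq_empty_of_forall_notMem (fun y hy => ?_)
      obtain ⟨y1, y2⟩ := mem_nb.1 hy
      have e := (hq G h).1.1
      simp only [Γ, e, nR_g0, gam_g0] at y2
      obtain ⟨r1, -, -, w, -, w2, w3, w4, w5⟩ := (cap_spec _ _ _).1 y2
      rcases (hG G (hH h)).1 u x w y w2.symm r1.1.1.1 (mem_nb.1 hx).2 w4.symm w5
        (mem_nb.1 y1).2.symm with c | c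
      · exact w3 c.symm
      · exact r1.1.1.2 c
  have h2 : ∀ (a : Lb α k) (Hs : Finset (Gr α)), Hs ⊆ Gs → (∀ G ∈ Hs, Q2 a G) →
      Cov Hs (3 * ν * V.card * lg (Fintype.card α))
        (Mstep E F ((ε ^ 2 / 200) ^ 2 * V.card * d / 16)) := by
    intro a Hs hH hq
    rcases Hs.eq_empty_or_nonempty with rfl | ⟨G0, hG0⟩
    · exact hemp _ _
    have q := hq G0 hG0
    have e1 : 4 * (d : ℝ) * ν' ≤ ε ^ 2 / 200 * (2 * d / k) * ν := by
      have := mul_le_mul_of_nonneg_left hp.h4 hd.le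
      rw [show ε ^ 2 / 200 * (2 * (d : ℝ) / k) * ν = d * (ε ^ 2 * ν) / 100 / k by ring,
        le_div_iff₀ hk]
      linarith
    refine hfin a G0 Hs q.1 (hSHR α Hs E F a.2.2.2 (B' a.1) (Λ a) d ν ν' (2 * d / k)
      (ε ^ 2 / 200) hc (by positivity)
      (fun G h => ⟨(hG G (hH h)).2.1, (hG G (hH h)).2.2.1⟩)
      (fun u hu => ⟨hB _ u (q.1.2.1 hu), q.1.2.2.2.bcard u (q.1.2.1 hu), fun x hx => ?_,
        (q.2 u hu).1⟩)
      (fun G h u hu => ((hq G h).2 u hu).2) (le_trans (by nlinarith) e1) e1 (by linarith [hp.h5]))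
    rw [le_div_iff₀ hk]
    have a1 := q.1.2.2.2.rdeg u (q.1.2.1 hu) x hx
    have a2 : dg (Λ a u) x (B' a.1 u) ≤ dg (nR a.2.2.1 a.1 V) x (B' a.1 u) :=
      dg_mono (G := Λ a u) (fun _ _ e => e.1) subset_rfl x
    exact_mod_cast (by nlinarith : dg (Λ a u) x (B' a.1 u) * k ≤ 2 * d)
  have h3 : ∀ (a : Lb α k) (Hs : Finset (Gr α)), Hs ⊆ Gs → (∀ G ∈ Hs, Q3 a G) →
      Cov Hs (V.card * (2 * lg (Fintype.card α) + v))
        (Estep E F (ε ^ 2 / 200 * V.card * v / 4)) := by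
    intro a Hs hH hq
    rcases Hs.eq_empty_or_nonempty with rfl | ⟨G0, hG0⟩
    · exact hemp _ _
    have q := hq G0 hG0
    have := hCV a G0 q.1
    have := lg_nonneg (Fintype.card α)
    refine (hEST α Hs E F a.2.2.2 (asel E C (B' a.1) (Γ a) θ ν' v) v
      (fun G h => ⟨(hG G (hH h)).2.1, (hG G (hH h)).2.2.1⟩)
      (fun w _ p => ⟨?_, fun u hu => (mem_far.1 ((sel_spec _ _).1 hu)).2.2⟩)
      (fun G h => (hq G h).2)).mono subset_rfl (by gcongr) (fun E' F' e => e.mono ?_)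
    · rw [asel, (sel_spec _ _).2]
      exact min_le_left _ _
    · have := mul_le_mul_of_nonneg_left q.1.2.2.1 (by positivity : (0 : ℝ) ≤ v)
      linarith
  refine ⟨Gs.filter (fun G => ∃ a ∈ labs α k j0, Q1 a G ∨ Q2 a G),
    Gs.filter (fun G => ∃ a ∈ labs α k j0, Q3 a G), fun G hGs => ?_, ?_, ?_⟩
  · obtain ⟨a, ha, h | h | h⟩ := hall G hGs
    · exact Or.inl (mem_filter.2 ⟨hGs, a, ha, Or.inl h⟩)
    · exact Or.inl (mem_filter.2 ⟨hGs, a, ha, Or.inr h⟩)
    · exact Or.inr (mem_filter.2 ⟨hGs, a, ha, h⟩)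
  · refine (Cov.label (labs α k j0) (fun a G => Q1 a G ∨ Q2 a G) (card_labs α hp.kpos j0)
      (fun G h => (mem_filter.1 h).2) (fun a _ Hs hH hq =>
        Cov.label (y := 1) (x := 3 * ν * V.card * lg (Fintype.card α)) (univ : Finset Bool)
          (fun s G => if s then Q1 a G else Q2 a G) ?_ ?_
          ?_)).mono subset_rfl (x' := xM (Fintype.card α) V.card k ν j0) ?_ (fun _ _ e => e)
    · have := Real.add_one_le_exp (1 : ℝ)
      simp only [card_univ, Fintype.card_bool]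
      push_cast
      linarith
    · intro G h
      rcases hq G h with e | e
      · exact ⟨true, mem_univ _, by simpa using e⟩
      · exact ⟨false, mem_univ _, by simpa using e⟩
    · intro s _ Ks hK hs
      have := hK.trans (hH.trans (filter_subset _ _))
      cases s
      · exact h2 a Ks this (fun G h => by simpa using hs G h)
      · exact h1 a Ks this (fun G h => by simpa using hs G h)
    · unfold xM
      linarith
  · exact (Cov.label (labs α k j0) Q3 (card_labs α hp.kpos j0) (fun G h => (mem_filter.1 h).2)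
      (fun a _ Hs hH hq => h3 a Hs (hH.trans (filter_subset _ _)) hq)).mono subset_rfl
      (le_of_eq (by unfold xE; ring)) (fun _ _ e => e)

end Pool.Agent.Lib.SPL
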