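import Pool.Agent.Lib.SPL.Kit2

open scoped Classical
open Finset

noncomputable section

namespace Pool.Agent.Lib.SPL

theorem r_SAT : R_SAT := by
  intro α _ H S ν ν'
  obtain ⟨h1, h2, h3⟩ := cap_spec (rs H S) S ν'
  set K := cap (rs H S) S ν'
  let Z := S.filter (fun x => dg K x S = ν')
  by_cases hZ : ν ≤ Z.card
  · refine Or.inl ⟨K, h1.trans (rs_le _ _), fun x y e => (h1 e).2, h2, ?_⟩
    calc ν * ν' ≤ Z.card * ν' := Nat.mul_le_mul_right _ hZ
      _ = ∑ x ∈ Z, dg K x S := by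
        rw [sum_congr rfl (fun x hx => (mem_filter.1 hx).2), sum_const, smul_eq_mul]
      _ ≤ ar K S := sum_le_sum_of_subset (filter_subset _ _)
  · refine Or.inr ⟨Z, (not_le.1 hZ).le, fun x hx => ?_⟩
    have hlt : ∀ y ∈ S \ Z, dg K y S < ν' := fun y hy => by
      obtain ⟨a, b⟩ := mem_sdiff.1 hy
      exact lt_of_le_of_ne (h2 y a) fun e => b (mem_filter.2 ⟨a, e⟩)
    have hxS := (mem_sdiff.1 hx).1
    refine le_trans (card_le_card fun y hy => ?_) (h2 x hxS)
    obtain ⟨hy1, hy2⟩ := mem_nb.1 hy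
    have hyS := (mem_sdiff.1 hy1).1
    refine mem_nb.2 ⟨hyS, ?_⟩
    by_contra hn
    have hadj : ∀ a b, (K ⊔ stg {x} (fun _ => {y})).Adj a b →
        K.Adj a b ∨ (a = x ∧ b = y) ∨ (a = y ∧ b = x) := fun a b e => by
      rcases e with e | e
      · exact Or.inl e
      · rcases (stg_adj.1 e).2 with e | e
        · exact Or.inr (Or.inl ⟨mem_singleton.1 e.1, mem_singleton.1 e.2⟩)
        · exact Or.inr (Or.inr ⟨mem_singleton.1 e.2, mem_singleton.1 e.1⟩)
    have hins : ∀ a c, a ∈ S \ Z → (∀ b, (a = x ∧ b = y) ∨ (a = y ∧ b = x) → b = c) →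
        dg (K ⊔ stg {x} (fun _ => {y})) a S ≤ ν' := fun a c ha hc => by
      refine le_trans (card_le_card (t := insert c (nb K a S)) fun b hb => ?_)
        ((card_insert_le _ _).trans (hlt a ha))
      obtain ⟨b1, b2⟩ := mem_nb.1 hb
      rcases hadj a b b2 with e | e
      · exact mem_insert_of_mem (mem_nb.2 ⟨b1, e⟩)
      · exact mem_insert.2 (Or.inl (hc b e))
    have h4 := h3 (K ⊔ stg {x} (fun _ => {y})) (sup_le h1 (stg_le fun u hu v hv => by
      rw [mem_singleton.1 hu, mem_singleton.1 hv]; exact ⟨hy2, hxS, hyS⟩)) fun a ha => by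
        by_cases c1 : a = x
        · exact hins a y (c1 ▸ hx) fun b e => e.elim (·.2) fun e => absurd (c1.symm.trans e.1) hy2.ne
        · by_cases c2 : a = y
          · exact hins a x (c2 ▸ hy1) fun b e => e.elim (fun e => absurd e.1 c1) (·.2)
          · refine le_trans (card_le_card fun b hb => ?_) (h2 a ha)
            obtain ⟨b1, b2⟩ := mem_nb.1 hb
            rcases hadj a b b2 with e | e | e
            · exact mem_nb.2 ⟨b1, e⟩
            · exact absurd e.1 c1
            · exact absurd e.1 c2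
    refine absurd h4 (not_le.2 (sum_lt_sum (fun a _ => dg_mono le_sup_left Subset.rfl a)
      ⟨x, hxS, card_lt_card ⟨nb_mono le_sup_left Subset.rfl x, fun hs => hn ?_⟩⟩))
    exact (mem_nb.1 (hs (mem_nb.2 ⟨hyS, Or.inr (stg_adj.2 ⟨hy2.ne, Or.inl
      ⟨mem_singleton_self _, mem_singleton_self _⟩⟩)⟩))).2

end Pool.Agent.Lib.SPL
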