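import Pool.Agent.Lib.SPL.Kit2

open scoped Classical
open Finset

noncomputable section

namespace Pool.Agent.Lib.SPL

theorem r_SHR : R_SHR := by
  intro hKW α _ Gs E F C1 B H d ν ν' θ c hc hθ hG hB hS h1 h2 h3
  let sm : ℕ → Finset (Finset α) := fun r => univ.filter (fun S => S.card ≤ r)
  let Ls : Finset (α → Finset α × Finset α) :=
    Fintype.piFinset (fun u => if u ∈ C1 then sm ν ×ˢ sm (2 * ν) else {(∅, ∅)})
  let D : (α → Finset α × Finset α) → α → Finset α :=
    fun a u => excl (H u) (B u) (c * θ / 4) (a u).1 \ (a u).2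
  have hcθ : 0 < c * θ := by positivity
  refine Cov.of_label Ls (fun _ => E) (fun a => F \ stg C1 (D a)) ?_ (fun G hGs => ?_)
  · rw [Fintype.card_piFinset, ← prod_subset (subset_univ C1) (fun u _ e => by simp [e])]
    have a1 : ∀ u ∈ C1, (((if u ∈ C1 then sm ν ×ˢ sm (2 * ν) else {(∅, ∅)}).card : ℕ) : ℝ) ≤
        Real.exp (3 * ν * lg (Fintype.card α)) := by
      intro u hu
      rw [if_pos hu, card_product]
      have b1 := card_small_sets_exp (Ss := sm ν) (r := ν) (fun S h => (mem_filter.1 h).2)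
      have b2 := card_small_sets_exp (Ss := sm (2 * ν)) (r := 2 * ν) (fun S h => (mem_filter.1 h).2)
      push_cast at b2 ⊢
      rw [show 3 * (ν : ℝ) * lg (Fintype.card α) = ν * lg (Fintype.card α) +
        2 * ν * lg (Fintype.card α) by ring, Real.exp_add]
      gcongr
    push_cast
    refine (prod_le_prod (fun _ _ => by positivity) a1).trans (le_of_eq ?_)
    rw [prod_const, ← Real.exp_nat_mul]
    ring_nf
  · have hex : ∀ u ∈ C1, ∃ T : Finset α, T.card ≤ ν ∧
        (nb G u (B u) ∩ excl (H u) (B u) (c * θ / 4) T).card ≤ 2 * ν := by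
      intro u hu
      obtain ⟨b1, b2, b3, b4⟩ := hB u hu
      obtain ⟨S, s1, s2⟩ := hS G hGs u hu
      obtain ⟨T, -, t2, t3⟩ := (hKW α (H u) (B u) d θ c hc hθ b2 b3 b4).2 (nb G u (B u) \ S) ν'
        (sdiff_subset.trans (nb_subset _ _ _)) s2
      have a1 : (T.card : ℝ) ≤ ν := le_of_mul_le_mul_right (by linarith) hcθ
      have a2 : (T.card : ℝ) * ν' ≤ ν := by
        have := mul_le_mul_of_nonneg_right t2 (by positivity : (0 : ℝ) ≤ ν')
        exact le_of_mul_le_mul_right (by linarith) hcθ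
      have a3 : T.card * ν' ≤ ν := by exact_mod_cast a2
      refine ⟨T, by exact_mod_cast a1, ?_⟩
      have a4 : nb G u (B u) ∩ excl (H u) (B u) (c * θ / 4) T ⊆
          S ∪ (nb G u (B u) \ S) ∩ excl (H u) (B u) (c * θ / 4) T := by
        intro x hx
        by_cases e : x ∈ S
        · exact mem_union_left _ e
        · exact mem_union_right _ (mem_inter.2 ⟨mem_sdiff.2 ⟨(mem_inter.1 hx).1, e⟩,
            (mem_inter.1 hx).2⟩)
      have := (card_le_card a4).trans (card_union_le _ _)
      omega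
    choose! T hT1 hT2 using hex
    let a : α → Finset α × Finset α := fun u => if u ∈ C1 then
      (T u, nb G u (B u) ∩ excl (H u) (B u) (c * θ / 4) (T u)) else (∅, ∅)
    have hM : ∀ u ∈ C1, ∀ y ∈ D a u, (F \ E).Adj u y := fun u hu y hy =>
      (mem_nb.1 ((hB u hu).1 (excl_subset _ _ _ _ (mem_sdiff.1 hy).1))).2
    have hle : stg C1 (D a) ≤ F \ E := stg_le hM
    have hN : stg C1 (D a) ≤ Gᶜ := stg_le (fun u hu y hy => by
      refine ⟨(hM u hu y hy).ne, fun e => ?_⟩
      simp only [D, a, if_pos hu, mem_sdiff, mem_inter, mem_nb] at hy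
      exact hy.2 ⟨⟨excl_subset _ _ _ _ hy.1, e⟩, hy.1⟩)
    have hGF : G ≤ F \ stg C1 (D a) := fun x y e => ⟨(hG G hGs).2 e, fun e' => (hN e').2 e⟩
    refine ⟨a, Fintype.mem_piFinset.2 (fun u => ?_),
      ⟨rfl, (hG G hGs).1.trans hGF, sdiff_le, ?_⟩, (hG G hGs).1, hGF⟩
    · by_cases e : u ∈ C1
      · simp only [a, if_pos e, mem_product, sm, mem_filter, mem_univ, true_and]
        exact ⟨hT1 u e, hT2 u e⟩
      · simp [a, e]
    · have a1 : (ed (F \ stg C1 (D a)) : ℝ) + ed (stg C1 (D a)) = ed F := by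
        exact_mod_cast ed_sdiff (hle.trans sdiff_le)
      have a2 : ∑ u ∈ C1, ((D a u).card : ℝ) ≤ 2 * ed (stg C1 (D a)) := by
        exact_mod_cast le_ed_stg (fun u hu e => (hM u hu u e).ne rfl)
      have a3 := card_nsmul_le_sum C1 (fun u => ((D a u).card : ℝ)) (c * d / 8) (fun u hu => by
        obtain ⟨b1, b2, b3, b4⟩ := hB u hu
        have e1 := (hKW α (H u) (B u) d θ c hc hθ b2 b3 b4).1 (T u)
        have e2 := le_card_sdiff (nb G u (B u) ∩ excl (H u) (B u) (c * θ / 4) (T u))
          (excl (H u) (B u) (c * θ / 4) (T u))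
        have e3 := hT2 u hu
        have e4 : (excl (H u) (B u) (c * θ / 4) (T u)).card ≤ (D a u).card + 2 * ν := by
          simp only [D, a, if_pos hu]
          omega
        have e5 : ((excl (H u) (B u) (c * θ / 4) (T u)).card : ℝ) ≤ (D a u).card + 2 * ν := by
          exact_mod_cast e4
        linarith)
      rw [nsmul_eq_mul] at a3
      linarith

end Pool.Agent.Lib.SPL
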