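import Pool.Agent.Lib.SPL.Kit2

/-! Row SRV: many centres serve many pairs. -/

open scoped Classical
open Finset

noncomputable section

namespace Pool.Agent.Lib.SPL

namespace SRV79

variable {α : Type}

theorem dg_cast (G : Gr α) (v : α) (A : Finset α) :
    (dg G v A : ℝ) = ∑ x ∈ A, if G.Adj v x then (1 : ℝ) else 0 := by
  rw [dg_eq_sum]; push_cast; rfl

theorem mu_le (E : Gr α) (C U : Finset α) (w : α → ℝ) (a : ℝ) (hU : U ⊆ C) (ha : 0 ≤ a)
    (h0 : ∀ u ∈ U, 0 ≤ w u) (h1 : ∀ u ∈ U, (1 + (dg E u C : ℝ)) * w u ≤ 1)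
    (h2 : ∀ x ∈ U, ∑ u ∈ far E x U, w u ≤ a) : ∑ u ∈ U, w u ≤ 1 + a := by
  have hA : ∀ x ∈ U, ∑ u ∈ U, w u ≤ w x + (∑ u ∈ U, if E.Adj x u then w u else 0) + a := by
    intro x hx
    have e1 : w x = ∑ u ∈ U, if u = x then w u else 0 := by rw [sum_ite_eq' U x, if_pos hx]
    have e2 := h2 x hx
    rw [far, sum_filter] at e2
    refine le_trans ?_ (add_le_add le_rfl e2)
    rw [e1, ← sum_add_distrib, ← sum_add_distrib]
    refine sum_le_sum fun u hu => ?_
    have := h0 u hu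
    by_cases c1 : u = x <;> by_cases c2 : E.Adj x u <;> simp [c1, c2]
  have hB : ∑ x ∈ U, w x * (∑ u ∈ U, if E.Adj x u then w u else 0) ≤
      ∑ x ∈ U, (dg E x C : ℝ) * w x ^ 2 := by
    have e1 : ∑ x ∈ U, ∑ u ∈ U, (if E.Adj x u then w u ^ 2 else 0) =
        ∑ x ∈ U, ∑ u ∈ U, (if E.Adj x u then w x ^ 2 else 0) := by
      rw [sum_comm]
      simp only [E.adj_comm]
    have e2 : ∑ x ∈ U, ∑ u ∈ U, (if E.Adj x u then w x ^ 2 else 0) ≤
        ∑ x ∈ U, (dg E x C : ℝ) * w x ^ 2 := by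
      refine sum_le_sum fun x _ => ?_
      have : (dg E x U : ℝ) ≤ dg E x C := by exact_mod_cast dg_mono le_rfl hU x
      refine le_trans (le_of_eq ?_) (mul_le_mul_of_nonneg_right this (sq_nonneg _))
      rw [dg_cast, sum_mul]
      exact sum_congr rfl fun u _ => by split_ifs <;> simp
    have e3 : 2 * ∑ x ∈ U, w x * (∑ u ∈ U, if E.Adj x u then w u else 0) ≤
        ∑ x ∈ U, ∑ u ∈ U, (if E.Adj x u then w u ^ 2 else 0) +
          ∑ x ∈ U, ∑ u ∈ U, (if E.Adj x u then w x ^ 2 else 0) := by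
      rw [mul_sum, ← sum_add_distrib]
      refine sum_le_sum fun x _ => ?_
      rw [mul_sum, mul_sum, ← sum_add_distrib]
      refine sum_le_sum fun u _ => ?_
      split_ifs
      · nlinarith [sq_nonneg (w x - w u)]
      · simp
    linarith
  have hμ : 0 ≤ ∑ u ∈ U, w u := sum_nonneg h0
  have hC : (∑ u ∈ U, w u) * (∑ u ∈ U, w u) ≤ (∑ u ∈ U, w u) * (1 + a) := by
    calc (∑ x ∈ U, w x) * (∑ u ∈ U, w u) = ∑ x ∈ U, w x * (∑ u ∈ U, w u) := sum_mul ..
      _ ≤ ∑ x ∈ U, (w x ^ 2 + w x * (∑ u ∈ U, if E.Adj x u then w u else 0) + w x * a) :=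
        sum_le_sum fun x hx => by
          have := mul_le_mul_of_nonneg_left (hA x hx) (h0 x hx)
          nlinarith
      _ ≤ ∑ x ∈ U, (w x ^ 2 + (dg E x C : ℝ) * w x ^ 2 + w x * a) := by
        simp only [sum_add_distrib]
        linarith
      _ ≤ ∑ x ∈ U, w x * (1 + a) := sum_le_sum fun x hx => by
          have := mul_le_mul_of_nonneg_left (h1 x hx) (h0 x hx)
          nlinarith
      _ = _ := (sum_mul ..).symm
  rcases hμ.eq_or_lt with h | h
  · rw [← h]; linarith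
  · exact le_of_mul_le_mul_left hC h

theorem loss (R Γ : Gr α) (B : Finset α) (d k θ ν' : ℕ) (hk : 0 < k) (hθ : 0 < θ)
    (h1 : 2 * ν' ≤ θ) (h2 : k * θ ≤ d) (hr : ∀ x ∈ B, k * dg R x B ≤ 2 * d) :
    (ar R B : ℝ) ≤ (∑ x ∈ B, ∑ y ∈ B, if R.Adj x y ∧ dg Γ x B + ν' ≤ θ ∧ dg Γ y B + ν' ≤ θ ∧
      ¬ Γ.Adj x y then (1 : ℝ) else 0) + 9 * d / (k * θ) * ar Γ B := by
  have hk' : (0 : ℝ) < k := by exact_mod_cast hk
  have hθ' : (0 : ℝ) < θ := by exact_mod_cast hθ
  have row : ∀ x ∈ B, (∑ y ∈ B, if ¬ dg Γ x B + ν' ≤ θ ∧ R.Adj x y then (1 : ℝ) else 0) ≤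
      4 * d / (k * θ) * dg Γ x B := by
    intro x hx
    by_cases c : dg Γ x B + ν' ≤ θ
    · simp only [c, not_true, false_and, if_false, sum_const_zero]
      positivity
    · simp only [c, not_false_iff, true_and]
      rw [← dg_cast, div_mul_eq_mul_div, le_div_iff₀ (by positivity)]
      have e1 : (k : ℝ) * dg R x B ≤ 2 * d := by exact_mod_cast hr x hx
      have e2 : (θ : ℝ) ≤ 2 * dg Γ x B := by
        have : θ ≤ 2 * dg Γ x B := by omega
        exact_mod_cast this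
      have := mul_le_mul e1 e2 hθ'.le (by positivity)
      nlinarith
  have s1 : ∑ x ∈ B, (∑ y ∈ B, if ¬ dg Γ x B + ν' ≤ θ ∧ R.Adj x y then (1 : ℝ) else 0) ≤
      4 * d / (k * θ) * ar Γ B := by
    refine (sum_le_sum row).trans (le_of_eq ?_)
    rw [ar, ← mul_sum]; push_cast; rfl
  have s2 : ∑ x ∈ B, (∑ y ∈ B, if ¬ dg Γ y B + ν' ≤ θ ∧ R.Adj y x then (1 : ℝ) else 0) ≤
      4 * d / (k * θ) * ar Γ B := by
    rw [sum_comm]; exact s1
  have s3 : (ar Γ B : ℝ) ≤ d / (k * θ) * ar Γ B := by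
    refine le_mul_of_one_le_left (by positivity) ?_
    rw [le_div_iff₀ (by positivity), one_mul]
    exact_mod_cast h2
  have s4 : (ar R B : ℝ) ≤ (∑ x ∈ B, ∑ y ∈ B, if R.Adj x y ∧ dg Γ x B + ν' ≤ θ ∧
      dg Γ y B + ν' ≤ θ ∧ ¬ Γ.Adj x y then (1 : ℝ) else 0) +
      ∑ x ∈ B, (∑ y ∈ B, if ¬ dg Γ x B + ν' ≤ θ ∧ R.Adj x y then (1 : ℝ) else 0) +
      ∑ x ∈ B, (∑ y ∈ B, if ¬ dg Γ y B + ν' ≤ θ ∧ R.Adj y x then (1 : ℝ) else 0) + ar Γ B := by
    rw [ar_cast, ar_cast, ← sum_add_distrib, ← sum_add_distrib, ← sum_add_distrib]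
    refine sum_le_sum fun x _ => ?_
    rw [← sum_add_distrib, ← sum_add_distrib, ← sum_add_distrib]
    refine sum_le_sum fun y _ => ?_
    rw [R.adj_comm y x]
    by_cases c1 : R.Adj x y <;> by_cases c2 : dg Γ x B + ν' ≤ θ <;>
      by_cases c3 : dg Γ y B + ν' ≤ θ <;> by_cases c4 : Γ.Adj x y <;> simp [c1, c2, c3, c4]
  have e : 9 * (d : ℝ) / (k * θ) * ar Γ B = 4 * d / (k * θ) * ar Γ B + 4 * d / (k * θ) * ar Γ B +
      d / (k * θ) * ar Γ B := by ring
  linarith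

end SRV79

open SRV79 in
theorem r_SRV : R_SRV := by
  intro α ε E R V C B Γ d k θ ν' v hε hP hθ h1 h2 h3 h4
  have hi : (0 : ℝ) < V.card := by exact_mod_cast hP.vpos.card_pos
  have hd : (0 : ℝ) < d := by exact_mod_cast hP.dpos
  have hk : (0 : ℝ) < k := by exact_mod_cast hP.kpos
  have hθ' : (0 : ℝ) < θ := by exact_mod_cast hθ
  have hm := hP.mass
  set τ : ℝ := ε * (d : ℝ) ^ 2 / V.card with hτ
  have τ0 : 0 < τ := by positivity
  have w0 : ∀ u, 0 ≤ wgt E C τ u := fun u => by unfold wgt; positivity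
  have w1 : ∀ u, wgt E C τ u ≤ 1 / τ := fun u => by
    unfold wgt
    exact one_div_le_one_div_of_le τ0 (by have : (0 : ℝ) ≤ dg E u C := Nat.cast_nonneg _; linarith)
  have w2 : ∀ u, (1 + (dg E u C : ℝ)) * wgt E C τ u ≤ 1 := fun u => by
    unfold wgt
    rw [mul_one_div, div_le_one (by positivity)]
    linarith
  generalize wgt E C τ = w at *
  set S : α → ℝ := fun u => (ar (lam E R C B Γ θ ν' v u) (B u) : ℝ) with hS
  let U : α → α → Finset α := fun x y =>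
    (cen C B Γ θ ν' x y).filter fun u => (far E u (cen C B Γ θ ν' x y)).card < v
  have hUC : ∀ x y, U x y ⊆ C := fun x y u hu => (mem_cen.1 (mem_filter.1 hu).1).1
  have hU : ∀ x y, ∑ u ∈ U x y, w u ≤ 1 + ε / 4 := fun x y => by
    refine mu_le E C _ w _ (hUC x y) (by positivity) (fun u _ => w0 u) (fun u _ => w2 u)
      fun z hz => ?_
    have c1 : (far E z (U x y)).card ≤ v :=
      (card_le_card (filter_subset_filter _ (filter_subset _ _))).trans (mem_filter.1 hz).2.le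
    have c2 : ((far E z (U x y)).card : ℝ) ≤ v := by exact_mod_cast c1
    refine (sum_le_card_nsmul _ _ _ fun u _ => w1 u).trans ?_
    rw [nsmul_eq_mul]
    refine (mul_le_mul_of_nonneg_right c2 (by positivity)).trans ?_
    rw [mul_one_div, div_le_iff₀ τ0, hτ, ← mul_div_assoc, le_div_iff₀ hi]
    nlinarith
  have key : ∀ u ∈ C, (ar R (B u) : ℝ) ≤ S u +
      (∑ x ∈ V, ∑ y ∈ V, if R.Adj x y ∧ u ∈ U x y then (1 : ℝ) else 0) +
        9 * d / (k * θ) * ar (Γ u) (B u) := by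
    intro u hu
    refine (loss R (Γ u) (B u) d k θ ν' hP.kpos hθ h1 h2 (hP.rdeg u hu)).trans
      (add_le_add ?_ le_rfl)
    have e1 : (∑ x ∈ B u, ∑ y ∈ B u, if R.Adj x y ∧ u ∈ U x y then (1 : ℝ) else 0) ≤
        ∑ x ∈ V, ∑ y ∈ V, if R.Adj x y ∧ u ∈ U x y then (1 : ℝ) else 0 := by
      refine le_trans (sum_le_sum fun x _ => sum_le_sum_of_subset_of_nonneg (hP.bsub u hu)
        fun y _ _ => by positivity) (sum_le_sum_of_subset_of_nonneg (hP.bsub u hu)
        fun x _ _ => sum_nonneg fun y _ => by positivity)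
    refine le_trans ?_ (add_le_add le_rfl e1)
    simp only [hS]
    rw [ar_cast, ← sum_add_distrib]
    refine sum_le_sum fun x hx => ?_
    rw [← sum_add_distrib]
    refine sum_le_sum fun y hy => ?_
    split_ifs with c1 c2 c3 <;> try norm_num
    have hc : u ∈ cen C B Γ θ ν' x y := mem_cen.2 ⟨hu, hx, hy, c1.2⟩
    by_cases c : v ≤ (far E u (cen C B Γ θ ν' x y)).card
    · exact c2 (lam_adj.2 ⟨c1.1, hc, c⟩)
    · rename_i c3
      exact c3 ⟨c1.1, mem_filter.2 ⟨hc, not_le.1 c⟩⟩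
  have t2 : ∑ u ∈ C, w u * (∑ x ∈ V, ∑ y ∈ V, if R.Adj x y ∧ u ∈ U x y then (1 : ℝ) else 0) ≤
      (1 + ε / 4) * ar R V := by
    simp only [mul_sum]
    rw [ar_cast, sum_comm, mul_sum]
    refine sum_le_sum fun x _ => ?_
    rw [sum_comm, mul_sum]
    refine sum_le_sum fun y _ => ?_
    by_cases c : R.Adj x y
    · simp only [c, true_and, if_true, mul_one, mul_ite, mul_zero]
      rw [← sum_filter, filter_mem_eq_inter, inter_eq_right.2 (hUC x y)]
      exact hU x y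
    · simp [c]
  have t3 : ∑ u ∈ C, w u * (9 * d / (k * θ) * ar (Γ u) (B u)) ≤ ε * (V.card : ℝ) ^ 2 / (8 * k) := by
    have e1 : ∑ u ∈ C, w u * (9 * d / (k * θ) * ar (Γ u) (B u)) ≤
        1 / τ * (9 * d / (k * θ) * ((∑ u ∈ C, ar (Γ u) (B u) : ℕ) : ℝ)) := by
      push_cast
      rw [mul_sum, mul_sum]
      exact sum_le_sum fun u _ => mul_le_mul_of_nonneg_right (w1 u) (by positivity)
    refine e1.trans ((mul_le_mul_of_nonneg_left (mul_le_mul_of_nonneg_left h4.le (by positivity))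
      (by positivity)).trans ?_)
    have e2 : 1 / τ * (9 * d / (k * θ) * (ε ^ 2 / 100 * θ * d * V.card)) =
        9 / 100 * (ε * (V.card : ℝ) ^ 2 / k) := by
      rw [hτ]; field_simp
    have e3 : ε * (V.card : ℝ) ^ 2 / (8 * k) = 1 / 8 * (ε * (V.card : ℝ) ^ 2 / k) := by field_simp
    rw [e2, e3]
    exact mul_le_mul_of_nonneg_right (by norm_num) (by positivity)
  have t1 : ∑ u ∈ C, w u * S u ≤ 1 / τ * ∑ u ∈ C, S u := by
    rw [mul_sum]
    exact sum_le_sum fun u _ => mul_le_mul_of_nonneg_right (w1 u) (by simp only [hS]; positivity)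
  have t4 : ε * (V.card : ℝ) ^ 2 / (8 * k) ≤ 1 / τ * ∑ u ∈ C, S u := by
    have e1 := sum_le_sum fun u hu => mul_le_mul_of_nonneg_left (key u hu) (w0 u)
    simp only [mul_add, sum_add_distrib] at e1
    have e2 : ε * (V.card : ℝ) ^ 2 / (4 * k) =
        ε * (V.card : ℝ) ^ 2 / (8 * k) + ε * (V.card : ℝ) ^ 2 / (8 * k) := by field_simp; ring
    linarith
  have t5 : ∀ u ∈ C, S u ≤ 2 * d / k * d := fun u hu => by
    have e1 : ar (lam E R C B Γ θ ν' v u) (B u) ≤ ar R (B u) :=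
      ar_mono (fun x y h => (lam_adj.1 h).1) le_rfl
    have e2 : k * ar R (B u) ≤ d * (2 * d) := by
      rw [ar, mul_sum]
      exact (sum_le_card_nsmul _ _ _ (hP.rdeg u hu)).trans
        (Nat.mul_le_mul_right _ (hP.bcard u hu))
    have e3 : (k : ℝ) * S u ≤ d * (2 * d) := by
      simp only [hS]
      exact_mod_cast (Nat.mul_le_mul_left k e1).trans e2
    rw [div_mul_eq_mul_div, le_div_iff₀ hk]
    linarith
  change _ ≤ ((C.filter fun u => ε ^ 2 / 32 * (2 * d / k) * d ≤ S u).card : ℝ)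
  have t6 : ∑ u ∈ C, S u ≤ (C.filter fun u => ε ^ 2 / 32 * (2 * d / k) * d ≤ S u).card *
      (2 * d / k * d) + V.card * (ε ^ 2 / 32 * (2 * d / k) * d) := by
    rw [← sum_filter_add_sum_filter_not C fun u => ε ^ 2 / 32 * (2 * d / k) * d ≤ S u]
    refine add_le_add ?_ ?_
    · rw [← nsmul_eq_mul]
      exact sum_le_card_nsmul _ _ _ fun u hu => t5 u (mem_filter.1 hu).1
    · refine (sum_le_card_nsmul _ _ _ fun u hu => (not_le.1 (mem_filter.1 hu).2).le).trans ?_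
      rw [nsmul_eq_mul]
      refine mul_le_mul_of_nonneg_right ?_ (by positivity)
      exact_mod_cast card_le_card ((filter_subset _ _).trans hP.sub)
  have t7 : ε ^ 2 * V.card / 16 * (2 * d / k * d) ≤ ∑ u ∈ C, S u := by
    rw [one_div, ← div_eq_inv_mul, le_div_iff₀ τ0, hτ] at t4
    refine le_trans (le_of_eq ?_) t4
    field_simp
    ring
  refine le_of_mul_le_mul_right ?_ (show (0 : ℝ) < 2 * d / k * d by positivity)
  nlinarith

end Pool.Agent.Lib.SPL
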