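import Pool.Agent.Lib.SPL.Kit2

/-! Row STAB: a leaf with nearly extremal parameters has an almost complete set. -/

open scoped Classical
open Finset

noncomputable section

namespace Pool.Agent.Lib.SPL

namespace STAB79

variable {α : Type}

theorem peel (M : Gr α) (d : ℕ) (x : ℝ) (hx : ∀ m : ℕ, m < d → (m : ℝ) ≤ x) (V : Finset α) :
    ∃ W : Finset α, W ⊆ V ∧ (∀ u ∈ W, d ≤ dg M u W) ∧
      (ar M V : ℝ) ≤ ar M W + 2 * ((V.card : ℝ) - W.card) * x := by
  induction V using Finset.strongInduction with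
  | H V ih =>
    by_cases c : ∀ u ∈ V, d ≤ dg M u V
    · exact ⟨V, Subset.rfl, c, by simp⟩
    · push Not at c
      obtain ⟨u, hu, hd⟩ := c
      obtain ⟨W, h1, h2, h3⟩ := ih (V.erase u) (erase_ssubset hu)
      refine ⟨W, h1.trans (erase_subset _ _), h2, ?_⟩
      have e1 : (ar M V : ℝ) = ar M (V.erase u) + 2 * dg M u V := by exact_mod_cast ar_erase M hu
      have e2 : ((V.erase u).card : ℝ) + 1 = V.card := by exact_mod_cast card_erase_add_one hu
      have e3 := hx _ hd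
      rw [e1, ← e2]
      linarith

theorem sqrt_le_of {a c : ℝ} (hc : 0 ≤ c) (h : a ≤ c ^ 2) : Real.sqrt a ≤ c :=
  Real.sqrt_le_iff.2 ⟨hc, h⟩

end STAB79

open STAB79 in
theorem r_STAB : R_STAB := by
  intro hDP hDQ hDR α _ ε t b Λ z l E F hD hE hΛ hLf hz hz2 hε hl h1 h2
  have hP := hDP α ε t b Λ E F hD hE hΛ hLf
  have e0 := hD.e0
  have Λ0 : 0 ≤ Λ := (Real.sqrt_nonneg _).trans hΛ
  have hR := hDR α (1 + 10 * ε) (ε * Λ) E (F \ E) (by linarith) (by positivity) hP
  have hN : (1 : ℝ) ≤ Fintype.card α := by exact_mod_cast hD.npos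
  have hM : (ar (F \ E) univ : ℝ) = 2 * ed (F \ E) := by exact_mod_cast ar_univ _
  have hM2 : 2 * (ed (F \ E) : ℝ) ≤ (Fintype.card α : ℝ) ^ 2 := by exact_mod_cast two_ed_le _
  have hEa : ∀ V, (ar E V : ℝ) ≤ (1 + z ^ 2) * l ^ 2 := fun V =>
    le_trans (by exact_mod_cast ar_le_ed E V) h1
  have hcard : ∀ V : Finset α, (V.card : ℝ) ≤ Fintype.card α := fun V => by
    exact_mod_cast card_le_univ V
  have hsq : ∀ V : Finset α, Real.sqrt (Fintype.card α) * Real.sqrt V.card ≤ Fintype.card α :=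
    fun V => (mul_le_mul_of_nonneg_left (Real.sqrt_le_sqrt (hcard V)) (Real.sqrt_nonneg _)).trans
      (Real.mul_self_sqrt (by linarith)).le
  have hNl : (Fintype.card α : ℝ) ≤ ε ^ 3 * (4 * l ^ 2) := by
    refine hD.h2.trans (mul_le_mul_of_nonneg_left ?_ (by positivity))
    have := Real.sqrt_le_iff.1 hΛ
    nlinarith
  have hcu : ((univ : Finset α).card : ℝ) = Fintype.card α := by rw [card_univ]
  generalize hMM : (F \ E) = M at *
  generalize hNN : (Fintype.card α : ℝ) = N at *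
  generalize hζ : z ^ 2 = ζ at *
  have ζ0 : 0 < ζ := by linarith
  have z1 : z ≤ 1 / 31 := by nlinarith only [hζ, hz2, hz]
  have z2 : ζ ≤ z / 31 := by nlinarith only [hζ, z1, hz]
  have z3 : ζ * z ≤ z / 1000 := by linarith [mul_le_mul_of_nonneg_right hz2 hz.le]
  have z4 : ζ * ζ ≤ ζ / 1000 := by linarith [mul_le_mul_of_nonneg_right hz2 ζ0.le]
  have l0 : 0 < l := by
    rcases (show 0 ≤ l by linarith).eq_or_lt with h | h
    · rw [← h] at hNl; norm_num at hNl; linarith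
    · exact h
  have ε3 : ε ^ 3 ≤ ε / 1000000 := by
    have : ε ^ 2 ≤ 1 / 1000000 := by nlinarith
    nlinarith
  have lN : l ≤ N := by
    have : (1 - ζ) * l * 2 ≤ N := le_of_mul_le_mul_right (by nlinarith) (show 0 < N by linarith)
    nlinarith
  have hNl' : N ≤ ε / 250000 * l ^ 2 := by nlinarith [sq_nonneg l]
  have big : 1000 ≤ ζ * l := by
    have : 1 * l ≤ (ε / 250000 * l) * l := by nlinarith
    have := le_of_mul_le_mul_right this l0
    nlinarith
  have yl : ε * Λ ≤ 2 * (ζ * l) := by nlinarith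
  have pb : ∀ (V : Finset α) (c : ℝ), 0 ≤ c → (ar E V : ℝ) ≤ (c * l) ^ 2 →
      (1 + 10 * ε) * Real.sqrt (ar E V) + 1 ≤ ((1 + 10 * ζ) * c + ζ / 1000) * l := by
    intro V c hc h
    have s1 := sqrt_le_of (by positivity) h
    have s2 := mul_le_mul (show 1 + 10 * ε ≤ 1 + 10 * ζ by linarith) s1 (Real.sqrt_nonneg _)
      (by linarith)
    linarith
  have p1 : ∀ V : Finset α, (1 + 10 * ε) * Real.sqrt (ar E V) + 1 ≤ (1 + 11 * ζ) * l := by
    intro V
    refine (pb V (1 + ζ / 2) (by linarith) ((hEa V).trans ?_)).trans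
      (mul_le_mul_of_nonneg_right (by linarith) l0.le)
    rw [mul_pow]
    exact mul_le_mul_of_nonneg_right (by linarith [sq_nonneg ζ]) (sq_nonneg _)
  have R0 : ∀ (V : Finset α) (p : ℝ), (1 + 10 * ε) * Real.sqrt (ar E V) + 1 ≤ p →
      (ar M V : ℝ) ≤ 2 * V.card * p + 4 * (ε * Λ) * (Real.sqrt N * Real.sqrt V.card) := by
    intro V p hp
    obtain ⟨V', -, c1, c2⟩ := hR V 0 (Nat.zero_le _)
    rw [card_eq_zero.1 c1] at c2
    have c3 := mul_le_mul_of_nonneg_left hp (show (0 : ℝ) ≤ 2 * V.card by positivity)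
    simp only [ar, sum_empty, Nat.cast_zero, Real.sqrt_zero, sub_zero, zero_add] at c2 c3 ⊢
    linarith
  have y8 : ∀ V : Finset α, 4 * (ε * Λ) * (Real.sqrt N * Real.sqrt V.card) ≤ 8 * (ζ * l * N) := by
    intro V
    have := mul_le_mul yl (hsq V) (by positivity) (by positivity)
    linarith
  have ζl1 : ζ * l ≤ l / 1000 := by linarith [mul_le_mul_of_nonneg_right hz2 l0.le]
  have εΛ : ε * Λ ≤ l / 500 := by linarith
  set d : ℕ := ⌈(1 - 100 * ζ) * l⌉₊ with hd
  have d1 : (1 - 100 * ζ) * l ≤ d := Nat.le_ceil _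
  have d2 : (d : ℝ) < (1 - 100 * ζ) * l + 1 := Nat.ceil_lt_add_one (by linarith)
  have d3 : (d : ℝ) ≤ l := by linarith
  have d4 : 9 / 10 * l ≤ d := by linarith
  have hU : ∃ U : Finset α, U.card = d ∧ (ar Eᶜ U : ℝ) < 2000 * ζ * l ^ 2 := by
    by_contra hc
    push Not at hc
    obtain ⟨W, -, w1, w2⟩ := peel M d ((1 - 100 * ζ) * l) (fun m hm => (Nat.lt_ceil.1 hm).le) univ
    rw [hM, hcu] at w2
    have ζl : 0 < ζ * l := by positivity
    have w3 : 95 * N ≤ 111 * W.card := by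
      have a1 := R0 W _ (p1 W)
      have a2 := y8 W
      refine le_of_mul_le_mul_left ?_ ζl
      linarith
    have N1 : 1000 ≤ N := by linarith
    set j : ℕ := ⌈N / 4⌉₊ with hj
    have j1 : N / 4 ≤ j := Nat.le_ceil _
    have j2 : (j : ℝ) < N / 4 + 1 := Nat.ceil_lt_add_one (by linarith)
    have j3 : j ≤ W.card := by
      have : (j : ℝ) ≤ W.card := by linarith
      exact_mod_cast this
    obtain ⟨X, x1, x2, x3⟩ := hR W j j3
    have x4 : ((W \ X).card : ℝ) + j = W.card := by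
      rw [← x2]; exact_mod_cast card_sdiff_add_card_eq_card x1
    have x5 : N ≤ 3 * ((W \ X).card : ℝ) := by linarith
    have q := hDQ α ε Λ (2000 * ζ * l ^ 2) E F W (W \ X) d e0 hD.e1 Λ0 hLf sdiff_subset
      (card_pos.1 (by
        have : (0 : ℝ) < (W \ X).card := by linarith
        exact_mod_cast this))
      (by
        have : (0 : ℝ) < d := by linarith
        exact_mod_cast this)
      (by rw [← hNN] at x5; exact_mod_cast x5)
      (fun u hu => by rw [hMM]; exact w1 u (mem_sdiff.1 hu).1) (by linarith)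
      (by
        rw [hNN]
        have : (9 / 10 * l) ^ 2 ≤ (d : ℝ) ^ 2 := pow_le_pow_left₀ (by positivity) d4 2
        linarith [mul_le_mul_of_nonneg_left this e0.le, mul_pos e0 (pow_pos l0 2)]) hc
    have x6 : (ar E (W \ X) : ℝ) + ar E X ≤ ar E W := by
      exact_mod_cast ar_add_le E sdiff_disjoint sdiff_subset x1
    have x7 : (ar E X : ℝ) ≤ ((1 - 197 / 2 * ζ) * l) ^ 2 := by
      have a1 : (d : ℝ) ^ 2 ≤ l ^ 2 := pow_le_pow_left₀ (by positivity) d3 2
      have a2 : ε * (d : ℝ) ^ 2 ≤ ζ * l ^ 2 := mul_le_mul hε a1 (by positivity) ζ0.le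
      have a3 := hEa W
      linarith [sq_nonneg (ζ * l)]
    have x8 : (1 + 10 * ε) * Real.sqrt (ar E X) + 1 ≤ (1 - 88 * ζ) * l :=
      (pb X _ (by linarith) x7).trans
        (mul_le_mul_of_nonneg_right (by linarith [sq_nonneg ζ]) l0.le)
    have x9 := R0 X _ x8
    rw [x2] at x9
    have x10 := mul_le_mul_of_nonneg_left (p1 W)
      (show (0 : ℝ) ≤ 2 * ((W.card : ℝ) - j) by linarith [Nat.cast_nonneg (α := ℝ) (W \ X).card])
    have x11 := y8 W
    have x12 : 95 * N ≤ 111 * W.card - 99 * j := by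
      refine le_of_mul_le_mul_left ?_ ζl
      linarith
    linarith [hcard W]
  obtain ⟨U, u1, u2⟩ := hU
  refine ⟨U, by rw [u1]; exact d1, by rw [u1]; exact d3, u2.le, ?_⟩
  have u3 : (ar E U : ℝ) + ar Eᶜ U + d = (d : ℝ) ^ 2 := by
    rw [← u1]; exact_mod_cast ar_add_compl E U
  have u4 : (ar E U : ℝ) + ar E Uᶜ ≤ ar E univ := by
    exact_mod_cast ar_add_le E disjoint_compl_right (subset_univ _) (subset_univ _)
  have u5 : (ar E Uᶜ : ℝ) ≤ (47 * z * l) ^ 2 := by
    have a1 : ((1 - 100 * ζ) * l) ^ 2 ≤ (d : ℝ) ^ 2 := pow_le_pow_left₀ (by linarith) d1 2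
    have a2 := hEa univ
    have a3 : 1000 * l ≤ ζ * l * l := mul_le_mul_of_nonneg_right big l0.le
    rw [mul_pow, mul_pow, hζ]
    linarith [sq_nonneg (ζ * l), mul_pos ζ0 (pow_pos l0 2)]
  have u6 : (1 + 10 * ε) * Real.sqrt (ar E Uᶜ) + 1 ≤ 48 * z * l :=
    (pb Uᶜ _ (by positivity) u5).trans (mul_le_mul_of_nonneg_right (by linarith) l0.le)
  have u7 := R0 Uᶜ _ u6
  have u8 := y8 Uᶜ
  have u9 := mul_le_mul_of_nonneg_right (hcard Uᶜ) (show 0 ≤ 48 * z * l by positivity)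
  have u10 : ζ * l * N ≤ z / 31 * l * N := by gcongr
  have u11 : 0 ≤ z * l * N := by positivity
  linarith

end Pool.Agent.Lib.SPL
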