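import Pool.Agent.Lib.SPL.K92
import Pool.Agent.Lib.SPL.Blue2

/-! Rows STAR0, STAR of the project spl. -/

open scoped Classical
open Finset

noncomputable section

namespace Pool.Agent.Lib.SPL

namespace STAR92

variable {α : Type}

theorem small_le (l : ℝ) (B : Finset α) :
    ∑ T ∈ insert ∅ (B.image (fun x => ({x} : Finset α))), l ^ T.card ≤ 1 + B.card * l := by
  rw [sum_insert (by simp), sum_image (fun x _ y _ e => singleton_injective e)]
  simp

theorem save {l : ℝ} (hl : 0 < l) {r : ℕ} (h : (1 + r * l) ^ 2 ≤ (1 + l) ^ r) :
    1 + r * l ≤ Real.exp (-(Real.log (1 + l) * r / 2)) * (1 + l) ^ r := by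
  have e : (1 + l) ^ r = Real.exp (Real.log (1 + l) * r / 2) ^ 2 := by
    rw [← Real.exp_nat_mul, ← Real.exp_log (x := (1 + l) ^ r) (by positivity), Real.log_pow]
    congr 1
    push_cast
    ring
  rw [e] at h
  have k2 := (pow_le_pow_iff_left₀ (by positivity) (Real.exp_pos _).le (by norm_num)).1 h
  refine k2.trans (le_of_eq ?_)
  rw [e, sq, ← mul_assoc, ← Real.exp_add]
  simp

end STAR92

theorem r_STAR0 : R_STAR0 := by
  intro α _ l h A I J c r Fs hl hh hr hJ hS hF
  have ha : 0 ≤ Real.log (1 + l) := Real.log_nonneg (by linarith)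
  have k := K92.fw_split hl.le (X := (1 + l) ^ (A.card * J.card) *
      Real.exp (-(Real.log (1 + l) * h * J.card / 2))) (by positivity) (J := J)
    (fun f hf => (hF f hf).1) (fun g hg Hs hH => by
      have hA : ∀ k ∈ Hs, ∀ i, k i ⊆ A := fun k hk i => by
        obtain ⟨f, hf, -, rfl⟩ := hH k hk
        by_cases e : i ∈ J
        · simpa [e] using (hF f hf).1.1 i (hJ e)
        · simp [e]
      let Bk : α → Finset α := fun z => J.filter (fun j => c j = z)
      have k1 := fw_le_cols hl.le (Fs := Hs) (A := A) (fun a => Hs.image (fun f => tr f a))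
        (fun a => (1 + l) ^ J.card * ∏ z ∈ J.image c,
          if a ∈ g z then 1 else Real.exp (-(Real.log (1 + l) * (Bk z).card / 2))) hA
        (fun f hf a _ => mem_image_of_mem _ hf) (fun a _ => by
          refine K92.blocks_le hl.le Bk (fun z => if a ∈ g z then (Bk z).powerset else
            insert ∅ ((Bk z).image (fun x => ({x} : Finset α)))) _ (J.image c) J _
            (fun z _ => filter_subset _ _) (fun z _ z' _ e => ?_) (fun z _ => ?_) (fun z hz => ?_)
            (fun S hS' => ?_)
          · exact disjoint_left.2 (fun x h1 h2 => e ((mem_filter.1 h1).2.symm.trans (mem_filter.1 h2).2))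
          · split_ifs <;> positivity
          · by_cases e : a ∈ g z
            · rw [if_pos e, if_pos e, one_mul, sum_powerset_pow]
            · rw [if_neg e, if_neg e]
              obtain ⟨j, hj, rfl⟩ := mem_image.1 hz
              exact (STAR92.small_le l _).trans (STAR92.save hl (hr _ (hS.fib j hj)))
          · obtain ⟨k, hk, rfl⟩ := mem_image.1 hS'
            obtain ⟨f, hf, hg', rfl⟩ := hH k hk
            refine ⟨fun i hi => ?_, fun z hz => ?_⟩
            · by_contra e
              simp [e] at hi
            · by_cases e : a ∈ g z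
              · rw [if_pos e]
                exact mem_powerset.2 inter_subset_right
              · rw [if_neg e]
                obtain ⟨j, hj, rfl⟩ := mem_image.1 hz
                rw [← hg' _ (hS.out j hj)] at e
                rcases (tr (fun i => if i ∈ J then f i else ∅) a ∩ Bk (c j)).eq_empty_or_nonempty
                  with e0 | ⟨x, hx⟩
                · rw [e0]
                  exact mem_insert_self _ _
                · refine mem_insert_of_mem (mem_image.2 ⟨x, (mem_inter.1 hx).2, ?_⟩)
                  refine (eq_singleton_iff_unique_mem.2 ⟨hx, fun y hy => ?_⟩).symm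
                  by_contra n
                  obtain ⟨x1, x2⟩ := mem_inter.1 hx
                  obtain ⟨y1, y2⟩ := mem_inter.1 hy
                  obtain ⟨x3, x4⟩ := mem_filter.1 x2
                  obtain ⟨y3, y4⟩ := mem_filter.1 y2
                  have x5 : a ∈ f x := by simpa [x3] using x1
                  have y5 : a ∈ f y := by simpa [y3] using y1
                  have := (hF f hf).2.2 y y3 x x3 n (y4.trans x4.symm) (mem_inter.2 ⟨y5, x5⟩)
                  exact e (y4 ▸ this))
      refine k1.trans ?_
      rw [prod_mul_distrib, prod_const, ← pow_mul, mul_comm J.card, prod_comm]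
      refine mul_le_mul_of_nonneg_left ?_ (by positivity)
      have k2 : ∀ z ∈ J.image c, (∏ a ∈ A, if a ∈ g z then 1 else
          Real.exp (-(Real.log (1 + l) * (Bk z).card / 2))) ≤
          Real.exp (-(Real.log (1 + l) * h * (Bk z).card / 2)) := by
        intro z hz
        obtain ⟨j, hj, rfl⟩ := mem_image.1 hz
        have e1 := (hF g hg).2.1 j hj
        have e2 : A.filter (fun a => ¬ a ∈ g (c j)) = A \ g (c j) := by
          ext x
          simp
        rw [prod_ite, prod_const_one, one_mul, prod_const, ← Real.exp_nat_mul, e2]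
        refine Real.exp_le_exp.2 ?_
        have : (0 : ℝ) ≤ Real.log (1 + l) * (Bk (c j)).card := by positivity
        nlinarith
      refine (prod_le_prod (fun z _ => prod_nonneg (fun a _ => by split_ifs <;> positivity))
        k2).trans (le_of_eq ?_)
      rw [← Real.exp_sum]
      congr 1
      have e3 : (J.card : ℝ) = ∑ z ∈ J.image c, ((Bk z).card : ℝ) := by
        exact_mod_cast card_eq_sum_card_image c J
      rw [e3, mul_sum, sum_div, ← sum_neg_distrib])
  refine k.trans (le_of_eq ?_)
  rw [← mul_assoc, ← pow_add, ← mul_add, card_sdiff_add_card_eq_card hJ]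

namespace STAR92

theorem cond_small {l : ℝ} (hl : 0 < l) (hl1 : l ≤ 1) {r : ℕ} (h : 32 ≤ r * l) :
    (1 + r * l) ^ 2 ≤ (1 + l) ^ r := by
  refine le_trans ?_ (exp_le_one_add_pow hl.le hl1 r)
  have e : Real.exp (l * r / 2) = Real.exp (r * l / 4) ^ 2 := by
    rw [← Real.exp_nat_mul]
    congr 1
    push_cast
    ring
  rw [e]
  refine pow_le_pow_left₀ (by positivity) ?_ 2
  have := Real.quadratic_le_exp_of_nonneg (x := r * l / 4) (by positivity)
  nlinarith

end STAR92

theorem r_STAR : R_STAR := by
  intro α _ l h A I J c r Fs hl hl1 hh hr hJ hS hF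
  refine (r_STAR0 α l h A I J c r Fs hl hh (fun r' e => STAR92.cond_small hl hl1 (hr.trans
    (mul_le_mul_of_nonneg_right (by exact_mod_cast e) hl.le))) hJ hS hF).trans
    (mul_le_mul_of_nonneg_left (Real.exp_le_exp.2 ?_) (by positivity))
  have := half_le_log hl.le hl1
  have k : (0 : ℝ) ≤ h * J.card := by positivity
  nlinarith

end Pool.Agent.Lib.SPL
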