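import Pool.Agent.Lib.SPL.Kit2

open scoped Classical
open Finset

noncomputable section

namespace Pool.Agent.Lib.SPL

theorem r_THA : R_THA := by
  intro hI ε hε hε1
  obtain ⟨ω, hω⟩ := hI ε hε hε1
  refine ⟨max ω (max 1 (64 / ε ^ 3)), fun α _ Gs t b χ B0 hT hB0 hG hL => ?_⟩
  set N := Fintype.card α with hN
  have hL1 : 1 ≤ Real.log N := ((le_max_left _ _).trans (le_max_right _ _)).trans hT.hL
  have hN2 : 2 ≤ N := by
    by_contra c
    have : N = 0 ∨ N = 1 := by omega
    rcases this with e | e <;> simp [e] at hL1 <;> linarith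
  have hN1 : (1 : ℝ) ≤ N := by exact_mod_cast (by omega : 1 ≤ N)
  have hNL : (0 : ℝ) < (N : ℝ) ^ 4 * Real.log N ^ 10 := by positivity
  have hT' : Tha ω ε t b χ N := ⟨(le_max_left _ _).trans hT.hL, hT.b1, hT.b2,
    (mul_le_mul_of_nonneg_right (le_max_left _ _) hNL.le).trans hT.ht, hT.c1, hT.c2⟩
  have hNt : 4 * (N : ℝ) / ε ≤ t := by
    have a1 := (mul_le_mul_of_nonneg_right ((le_max_right _ _).trans (le_max_right ω _))
      hNL.le).trans hT.ht
    have a2 : (N : ℝ) ^ 3 ≤ (N : ℝ) ^ 4 * Real.log N ^ 10 :=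
      (pow_le_pow_right₀ hN1 (by norm_num)).trans
        (le_mul_of_one_le_right (by positivity) (one_le_pow₀ hL1))
    have a3 : (4 * (N : ℝ) / ε) ^ 3 = 64 / ε ^ 3 * (N : ℝ) ^ 3 := by ring
    refine (Odd.pow_le_pow (n := 3) (by decide)).1 ?_
    rw [a3]
    exact le_trans (by gcongr) a1
  have ht : 0 < t := lt_of_lt_of_le (by positivity) hNt
  have hb := hT.b1
  set g := ε ^ 3 * Real.sqrt (t / b) / 8 with hg
  have hg0 : 0 < g := by positivity
  have hg2 : g ^ 2 = ε ^ 6 * (t / b) / 64 := by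
    rw [hg, div_pow, mul_pow, Real.sq_sqrt (by positivity)]
    ring
  have key := sum_le_label Gs (univ : Finset (Finset α))
    (fun Y G => Y = univ.filter (fun x => g < dg G x univ)) (fun _ => (1 : ℝ))
    (Real.exp (ε * t / 2) * B0 * Real.exp (ε * t / 4)) (by simp)
    (fun G _ => ⟨_, mem_univ _, rfl⟩) (fun Y _ Hs hH hq => by
      rcases Hs.eq_empty_or_nonempty with rfl | ⟨G0, hG0⟩
      · simp only [sum_empty]
        positivity
      have hY : (Y.card : ℝ) * g ≤ 2 * t := by
        have a1 := card_nsmul_le_sum Y (fun x => (dg G0 x univ : ℝ)) g (fun x hx => by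
          rw [hq G0 hG0] at hx
          exact (mem_filter.1 hx).2.le)
        have a2 : ∑ x ∈ Y, (dg G0 x univ : ℝ) ≤ 2 * ed G0 := by exact_mod_cast sum_dg_le G0 Y
        rw [nsmul_eq_mul] at a1
        linarith [(hG G0 (hH hG0)).2]
      have hit := hω α Hs Y t b χ B0 hT' hB0 (fun G h => ⟨(hG G (hH h)).1, (hG G (hH h)).2,
        fun x hx => by
          by_contra c
          exact hx (hq G h ▸ mem_filter.2 ⟨mem_univ _, not_le.1 c⟩)⟩)
        (fun E F a1 a2 a3 => le_trans (by
          exact_mod_cast card_le_card (fun G h =>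
            mem_box.2 ⟨hH (mem_box.1 h).1, (mem_box.1 h).2⟩)) (hL E F a1 a2 a3))
      refine (sum_le_sum_label Hs (univ.filter (fun E : Gr α => E ≤ rs ⊤ Y))
        (fun E G => E ≤ G ∧ G ≤ E ⊔ (rs ⊤ Y)ᶜ) (fun _ => (1 : ℝ))
        (fun E => Real.exp (ε * t / 2) * B0 * Real.exp (-χ) ^ ed E) (by simp)
        (fun G _ => ⟨rs G Y, mem_filter.2 ⟨mem_univ _, rs_mono le_top subset_rfl⟩, rs_le _ _,
          fun x y e => ?_⟩) (fun E _ Ks hK hk => ?_)).trans ?_
      · by_cases c : x ∈ Y ∧ y ∈ Y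
        · exact Or.inl ⟨e, c⟩
        · exact Or.inr ⟨e.ne, fun c' => c c'.2⟩
      · have a1 := hit E (E ⊔ (rs ⊤ Y)ᶜ) le_sup_left (fun x hx y hy e => by
          rcases e.1 with c | c
          · exact e.2 c
          · exact c.2 ⟨c.1, hx, hy⟩)
        rw [← Real.exp_nat_mul, mul_comm (ed E : ℝ), mul_assoc]
        refine le_trans ?_ a1
        simp only [sum_const, nsmul_eq_mul, mul_one, Nat.cast_le]
        exact card_le_card (fun G h => mem_box.2 ⟨hK h, hk G h⟩)
      · rw [← mul_sum]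
        refine mul_le_mul_of_nonneg_left ((gw_le_of_le (Real.exp_pos _).le
          (fun E h => (mem_filter.1 h).2)).trans ((one_add_pow_le_exp (Real.exp_pos _).le _).trans
          (Real.exp_le_exp.2 ?_))) (by positivity)
        have a1 : 2 * (ed (rs ⊤ Y) : ℝ) ≤ (Y.card : ℝ) ^ 2 := by
          have := ar_add_compl (⊤ : Gr α) Y
          rw [ar_eq_ed] at this
          exact_mod_cast (by omega : 2 * ed (rs ⊤ Y) ≤ Y.card ^ 2)
        have a2 : (Y.card : ℝ) ^ 2 * g ^ 2 ≤ (2 * t) ^ 2 := by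
          rw [← mul_pow]
          exact pow_le_pow_left₀ (by positivity) hY 2
        have a3 : (Y.card : ℝ) ^ 2 ≤ 256 * t / ε ^ 6 * b := by
          refine le_of_mul_le_mul_right (a2.trans (le_of_eq ?_)) (pow_pos hg0 2)
          rw [hg2]
          field_simp
          ring
        have a4 : Real.exp (-χ) * b * (256 * t / ε ^ 6) ≤ ε ^ 7 / 1024 * (256 * t / ε ^ 6) :=
          mul_le_mul_of_nonneg_right hT.c2 (by positivity)
        have a5 : ε ^ 7 / 1024 * (256 * t / ε ^ 6) = ε * t / 4 := by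
          field_simp
          ring
        have a6 : (ed (rs ⊤ Y) : ℝ) ≤ 256 * t / ε ^ 6 * b := by
          have : (0 : ℝ) ≤ ed (rs (⊤ : Gr α) Y) := by positivity
          linarith
        have a7 := mul_le_mul_of_nonneg_left a6 (Real.exp_pos (-χ)).le
        linarith)
  simp only [sum_const, nsmul_eq_mul, mul_one] at key
  have h2 : (((univ : Finset (Finset α)).card : ℕ) : ℝ) ≤ Real.exp (ε * t / 4) := by
    refine (card_subsets_exp (A := univ) (fun S _ => subset_univ S)).trans (Real.exp_le_exp.2 ?_)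
    rw [div_le_iff₀ hε] at hNt
    rw [card_univ, ← hN]
    linarith
  refine key.trans ((mul_le_mul_of_nonneg_right h2 (by positivity)).trans (le_of_eq ?_))
  rw [show ε * t = ε * t / 4 + ε * t / 2 + ε * t / 4 by ring, Real.exp_add, Real.exp_add]
  ring_nf

end Pool.Agent.Lib.SPL
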