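import Pool.Agent.Lib.SPL.Kit2

open scoped Classical
open Finset

noncomputable section

namespace Pool.Agent.Lib.SPL

namespace TRI90

variable {α : Type}

theorem full_mono (G R : Gr α) (B : α → Finset α) {W W' : Finset α} (h : W ⊆ W') (u : α) :
    full G R B W u ≤ full G R B W' u := by
  intro x y e
  obtain ⟨h1, h2, h3, w, h4, h5⟩ := e
  exact ⟨h1, h2, h3, w, h h4, h5⟩

/-- the pairs of `K` that are added at `u` -/
def new (G K : Gr α) (C : Finset α) (B : α → Finset α) (Γ : α → Gr α) (θ ν' : ℕ) (w u : α) :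
    Gr α where
  Adj x y := K.Adj x y ∧ u ∈ far G w (cen C B Γ θ ν' x y)
  symm := ⟨fun x y h => by rw [cen_comm C B Γ θ ν' y x]; exact ⟨h.1.symm, h.2⟩⟩
  loopless := ⟨fun x h => K.loopless.1 x h.1⟩

theorem dg_sup_le (H K : Gr α) (x : α) (B : Finset α) : dg (H ⊔ K) x B ≤ dg H x B + dg K x B := by
  refine le_trans (card_le_card (fun y hy => ?_)) (card_union_le (nb H x B) (nb K x B))
  rcases mem_nb.1 hy with ⟨h1, h2 | h2⟩
  · exact mem_union_left _ (mem_nb.2 ⟨h1, h2⟩)
  · exact mem_union_right _ (mem_nb.2 ⟨h1, h2⟩)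

theorem ar_sup (H K : Gr α) (B : Finset α) (h : ∀ x y, K.Adj x y → ¬ H.Adj x y) :
    ar (H ⊔ K) B = ar H B + ar K B := by
  rw [ar_eq_sum, ar_eq_sum, ar_eq_sum, ← sum_add_distrib]
  refine sum_congr rfl (fun x _ => ?_)
  rw [← sum_add_distrib]
  refine sum_congr rfl (fun y _ => ?_)
  have := h x y
  by_cases a : H.Adj x y <;> by_cases b : K.Adj x y <;> simp_all

/-- the gain from a new centre -/
theorem gain (E R G K : Gr α) (C : Finset α) (B : α → Finset α) (W : Finset α) (θ ν ν' v : ℕ)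
    (w : α) (hK : K ≤ lam E R C B (gam G R B θ W) θ ν' v w) (hS : Sup K (nb G w (B w)))
    (hd : ∀ x ∈ nb G w (B w), dg K x (nb G w (B w)) ≤ ν') (ha : ν * ν' ≤ ar K (nb G w (B w)))
    (hp : ∀ p, 2 * dg G w (asel E C B (gam G R B θ W) θ ν' v w p) < v) :
    2 * ∑ u ∈ C, ar (gam G R B θ W u) (B u) + ν * ν' * v ≤
      2 * ∑ u ∈ C, ar (gam G R B θ (insert w W) u) (B u) := by
  set Γ := gam G R B θ W with hΓ
  set S := nb G w (B w) with hSd
  have h1 : ∀ u ∈ C, ar (Γ u) (B u) + ar (new G K C B Γ θ ν' w u) (B u) ≤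
      ar (gam G R B θ (insert w W) u) (B u) := by
    intro u _
    rw [← ar_sup (Γ u) (new G K C B Γ θ ν' w u) _
      (fun x y e => (mem_cen.1 (mem_far.1 e.2).1).2.2.2.2.2)]
    refine (cap_spec _ _ _).2.2 _ (sup_le ?_ ?_) (fun x hx => ?_)
    · exact (cap_spec _ _ _).1.trans (full_mono G R B (subset_insert _ _) u)
    · intro x y e
      obtain ⟨c, n1, n2⟩ := mem_far.1 e.2
      have c' := mem_cen.1 c
      exact ⟨(hK e.1).1, c'.2.1, c'.2.2.1, w, mem_insert_self _ _, n1.symm, n2,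
        (mem_nb.1 (hS _ _ e.1).1).2, (mem_nb.1 (hS _ _ e.1).2).2⟩
    · refine (dg_sup_le _ _ _ _).trans ?_
      rcases (nb (new G K C B Γ θ ν' w u) x (B u)).eq_empty_or_nonempty with e | ⟨y, hy⟩
      · have : dg (new G K C B Γ θ ν' w u) x (B u) = 0 := by rw [dg, e, card_empty]
        rw [this]
        exact (cap_spec _ _ _).2.1 x hx
      · have e := (mem_nb.1 hy).2
        have c' := (mem_cen.1 (mem_far.1 e.2).1).2.2.2.1
        have : dg (new G K C B Γ θ ν' w u) x (B u) ≤ ν' := by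
          refine le_trans (card_le_card (fun y' hy' => ?_)) (hd x (hS _ _ e.1).1)
          have e' := (mem_nb.1 hy').2
          exact mem_nb.2 ⟨(hS _ _ e'.1).2, e'.1⟩
        omega
  have h2 : ∀ x y, K.Adj x y → v ≤ 2 * (far G w (cen C B Γ θ ν' x y)).card := by
    intro x y e
    have a1 := sel_spec (far E w (cen C B Γ θ ν' x y)) v
    have a2 : (asel E C B Γ θ ν' v w (x, y)).card = v := by
      rw [asel, a1.2]
      exact min_eq_left (hK e).2.2
    have a3 := hp (x, y)
    have a4 : asel E C B Γ θ ν' v w (x, y) ⊆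
        nb G w (asel E C B Γ θ ν' v w (x, y)) ∪ far G w (cen C B Γ θ ν' x y) := by
      intro u hu
      by_cases c : G.Adj w u
      · exact mem_union_left _ (mem_nb.2 ⟨hu, c⟩)
      · have := mem_far.1 (a1.1 hu)
        exact mem_union_right _ (mem_far.2 ⟨this.1, this.2.1, c⟩)
    have a5 := (card_le_card a4).trans (card_union_le _ _)
    unfold dg at a3
    omega
  have h3 : ∀ u ∈ C, ∑ x ∈ S, ∑ y ∈ S, (if (new G K C B Γ θ ν' w u).Adj x y then 1 else 0) ≤
      ar (new G K C B Γ θ ν' w u) (B u) := by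
    intro u _
    rw [← ar_eq_sum, ar_eq_card, ar_eq_card]
    refine card_le_card (fun p hp => ?_)
    have e := (mem_filter.1 hp).2
    have c' := mem_cen.1 (mem_far.1 e.2).1
    exact mem_filter.2 ⟨mem_product.2 ⟨c'.2.1, c'.2.2.1⟩, e⟩
  have h4 : ar K S * v ≤
      2 * ∑ u ∈ C, ∑ x ∈ S, ∑ y ∈ S, (if (new G K C B Γ θ ν' w u).Adj x y then 1 else 0) := by
    rw [ar_eq_sum, sum_comm (s := C), sum_mul, mul_sum]
    refine sum_le_sum (fun x _ => ?_)
    rw [sum_comm (s := C), sum_mul, mul_sum]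
    refine sum_le_sum (fun y _ => ?_)
    by_cases e : K.Adj x y
    · rw [if_pos e, one_mul, ← card_filter]
      refine (h2 x y e).trans (Nat.mul_le_mul_left _ (card_le_card (fun u hu => ?_)))
      exact mem_filter.2 ⟨(mem_cen.1 (mem_far.1 hu).1).1, e, hu⟩
    · simp [e]
  have h5 := sum_le_sum h1
  have h6 := sum_le_sum h3
  rw [sum_add_distrib] at h5
  have h7 := Nat.mul_le_mul_right v ha
  omega

/-- many terms are large -/
theorem many {C : Finset α} (f : α → ℝ) (a M : ℝ) (ha : 0 ≤ a) (hM : ∀ u ∈ C, f u ≤ M) :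
    ∑ u ∈ C, f u ≤ (C.filter (fun u => a ≤ f u)).card * M + C.card * a := by
  rw [← sum_filter_add_sum_filter_not C (fun u => a ≤ f u)]
  refine add_le_add ?_ ?_
  · simpa using sum_le_card_nsmul _ _ M (fun u hu => hM u (mem_filter.1 hu).1)
  · have := sum_le_card_nsmul (C.filter (fun u => ¬ a ≤ f u)) f a
      (fun u hu => (not_le.1 (mem_filter.1 hu).2).le)
    rw [nsmul_eq_mul] at this
    refine this.trans (mul_le_mul_of_nonneg_right ?_ ha)
    exact_mod_cast card_filter_le _ _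

end TRI90

open TRI90 in
theorem r_TRI : R_TRI := by
  intro hSRV hSAT α _ ε t g E R G V C B d k ν ν' θ v Δ W0 j0 hε hP hp hG
  let Ψ : Finset α → ℕ := fun W => ∑ u ∈ C, ar (gam G R B θ W u) (B u)
  obtain ⟨W, hW, hmax⟩ := exists_max_image (C.powerset.filter (fun W =>
    (∀ w ∈ W, dg G w univ ≤ Δ) ∧ ν * ν' * v * W.card ≤ 2 * Ψ W)) card ⟨∅, by simp⟩
  obtain ⟨hWC, hWd, hWs⟩ := mem_filter.1 hW
  rw [mem_powerset] at hWC
  have hθ : 0 < θ := by have := hp.h1; have := hp.npos'; omega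
  have hCV : C.card ≤ V.card := card_le_card hP.sub
  have hCV' : (C.card : ℝ) ≤ V.card := by exact_mod_cast hCV
  have hi : (0 : ℝ) < V.card := by exact_mod_cast hP.vpos.card_pos
  have hd : (0 : ℝ) < d := by exact_mod_cast hP.dpos
  have hθ' : (0 : ℝ) < θ := by exact_mod_cast hθ
  have hone : ∀ u ∈ C, ar (gam G R B θ W u) (B u) ≤ d * θ := fun u hu =>
    (ar_le_mul (cap_spec _ _ _).2.1).trans (Nat.mul_le_mul_right _ (hP.bcard u hu))
  have hW0 : W.card ≤ W0 := by
    have h1 : Ψ W ≤ C.card * (d * θ) := by simpa using sum_le_card_nsmul C _ _ hone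
    have h2 : C.card * (d * θ) ≤ V.card * (d * θ) := Nat.mul_le_mul_right _ hCV
    have h3 : 0 < ν * ν' * v := Nat.mul_pos (Nat.mul_pos hp.npos hp.npos') hp.vpos
    have h4 := hp.h8
    refine Nat.le_of_mul_le_mul_left ?_ h3
    nlinarith
  by_cases hc : ((Ψ W : ℕ) : ℝ) < ε ^ 2 / 100 * θ * d * V.card
  · have h1 := hSRV α ε E R V C B (gam G R B θ W) d k θ ν' v hε hP hθ hp.h1 hp.h2 hp.h6 hc
    set Hv := C.filter (fun w => ε ^ 2 / 32 * (2 * d / k) * d ≤
      (ar (lam E R C B (gam G R B θ W) θ ν' v w) (B w) : ℝ)) with hHv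
    let Hi := (univ : Finset α).filter (fun w => Δ < dg G w univ)
    let C2 := Hv.filter (fun u => ∃ S : Finset α, S.card ≤ ν ∧ ∀ x ∈ nb G u (B u) \ S,
      dg (lam E R C B (gam G R B θ W) θ ν' v u) x (nb G u (B u) \ S) ≤ ν')
    let C3 := C.filter (fun u => ∃ p, v ≤ 2 * dg G u (asel E C B (gam G R B θ W) θ ν' v u p))
    have hHi : 128 * (Hi.card : ℝ) ≤ ε ^ 2 * V.card := by
      have a1 : Hi.card * Δ ≤ 2 * ed G := by
        refine le_trans ?_ (sum_dg_le G Hi)
        simpa using card_nsmul_le_sum Hi (fun w => dg G w univ) Δ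
          (fun w hw => (mem_filter.1 hw).2.le)
      have a2 : (Hi.card : ℝ) * Δ ≤ 2 * ed G := by exact_mod_cast a1
      have a3 := hp.h7
      have a4 : (0 : ℝ) < Δ := by
        by_contra n
        have : (Δ : ℝ) = 0 := le_antisymm (not_lt.1 n) (by positivity)
        rw [this] at a3
        linarith [hp.tpos]
      refine le_of_mul_le_mul_right ?_ a4
      linarith
    have hsub : Hv ⊆ W ∪ Hi ∪ C2 ∪ C3 := by
      intro w hw
      by_contra n
      simp only [mem_union, not_or] at n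
      obtain ⟨⟨⟨n1, n2⟩, n3⟩, n4⟩ := n
      have hwC : w ∈ C := (mem_filter.1 hw).1
      rcases hSAT α (lam E R C B (gam G R B θ W) θ ν' v w) (nb G w (B w)) ν ν' with
        ⟨K, k1, k2, k3, k4⟩ | hs
      · have g1 := gain E R G K C B W θ ν ν' v w k1 k2 k3 k4 (fun p => by
          by_contra c
          exact n4 (mem_filter.2 ⟨hwC, p, not_lt.1 c⟩))
        have g2 := hmax (insert w W) (mem_filter.2 ⟨mem_powerset.2 (insert_subset hwC hWC),
          fun x hx => by
            rcases mem_insert.1 hx with rfl | hx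
            · exact not_lt.1 (fun c => n2 (mem_filter.2 ⟨mem_univ _, c⟩))
            · exact hWd x hx, by
            rw [card_insert_of_notMem n1, Nat.mul_add_one]
            exact (Nat.add_le_add_right hWs _).trans g1⟩)
        rw [card_insert_of_notMem n1] at g2
        omega
      · exact n3 (mem_filter.2 ⟨hw, hs⟩)
    have hcard : (Hv.card : ℝ) ≤ W.card + Hi.card + C2.card + C3.card := by
      have a1 := card_le_card hsub
      have a2 := card_union_le (W ∪ Hi ∪ C2) C3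
      have a3 := card_union_le (W ∪ Hi) C2
      have a4 := card_union_le W Hi
      exact_mod_cast (by omega : Hv.card ≤ W.card + Hi.card + C2.card + C3.card)
    have hW1 : (W.card : ℝ) ≤ W0 := by exact_mod_cast hW0
    have h9 := hp.h9
    have he : 0 ≤ ε ^ 2 * V.card := by positivity
    by_cases c2 : ε ^ 2 * V.card / 200 ≤ C2.card
    · refine ⟨W, C2, hW0, hWd, (filter_subset _ _).trans (filter_subset _ _), c2,
        Or.inr (Or.inl (fun u hu => ⟨le_trans ?_ (mem_filter.1 (mem_filter.1 hu).1).2,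
          (mem_filter.1 hu).2⟩))⟩
      have : 0 ≤ ε ^ 2 * (2 * (d : ℝ) / k) * d := by positivity
      linarith
    · exact ⟨W, C3, hW0, hWd, filter_subset _ _, by linarith,
        Or.inr (Or.inr (fun u hu => (mem_filter.1 hu).2))⟩
  · refine ⟨W, C.filter (fun u => ε ^ 2 / 200 * θ * d ≤ (ar (gam G R B θ W u) (B u) : ℝ)), hW0, hWd,
      filter_subset _ _, ?_, Or.inl (fun u hu => (mem_filter.1 hu).2)⟩
    have h1 := many (C := C) (fun u => (ar (gam G R B θ W u) (B u) : ℝ)) (ε ^ 2 / 200 * θ * d)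
      (d * θ) (by positivity) (fun u hu => by exact_mod_cast hone u hu)
    have h2 : ((Ψ W : ℕ) : ℝ) = ∑ u ∈ C, (ar (gam G R B θ W u) (B u) : ℝ) := by simp [Ψ]
    rw [not_lt, h2] at hc
    have h3 : (C.card : ℝ) * (ε ^ 2 / 200 * θ * d) ≤ V.card * (ε ^ 2 / 200 * θ * d) :=
      mul_le_mul_of_nonneg_right hCV' (by positivity)
    refine le_of_mul_le_mul_right ?_ (mul_pos hd hθ')
    linarith

end Pool.Agent.Lib.SPL
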