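import Pool.Agent.Lib.SPL.Kit2

open scoped Classical
open Finset

noncomputable section

namespace Pool.Agent.Lib.SPL

theorem r_TSAV : R_TSAV := by
  intro hC hN hS
  refine ⟨2, fun α _ z l A Γ T s Fs hR hT hF => ?_⟩
  have hl := hR.pos
  rcases Fs.eq_empty_or_nonempty with rfl | ⟨f0, hf0⟩
  · rw [fw, sum_empty]
    positivity
  obtain ⟨G0, -, hG0, hΓ0, hT0, -⟩ := hF f0 hf0
  obtain ⟨P, J, c, hP, -, hJ, hst, hcJ, hs, -⟩ := hT
  have hl1 : l ≤ 1 := (hR.le_half one_le_two).trans (by norm_num)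
  have hD : DD (Fintype.card α) l = ell (Fintype.card α) l * l := by
    unfold DD ell
    ring
  have hD32 : 32 ≤ DD (Fintype.card α) l := by
    refine le_trans ?_ (hR.D_ge one_le_two)
    calc (32 : ℝ) = 2 ^ 5 := by norm_num
      _ ≤ _ := pow_le_pow_left₀ (by norm_num) hR.hL 5
  have hA : DD (Fintype.card α) l ≤ 2 * (A.card * l) := by
    rw [hD]
    nlinarith [hG0.lo]
  have hoff : ∀ x y, T.Adj x y → x ∈ Aᶜ ∧ y ∈ Aᶜ := fun x y h => by
    rw [← hT0] at h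
    exact h.2
  have hmono : ∀ x : ℝ, s * DD (Fintype.card α) l / 64000 ≤ x →
      fw l Fs ≤ (1 + l) ^ (A.card * Aᶜ.card) * Real.exp (-x) →
      fw l Fs ≤ (1 + l) ^ (A.card * Aᶜ.card) *
        Real.exp (-(s * DD (Fintype.card α) l / 64000)) := fun x hx h =>
    h.trans (mul_le_mul_of_nonneg_left (Real.exp_le_exp.2 (neg_le_neg hx)) (by positivity))
  rcases max_choice P.card J.card with h | h
  · obtain ⟨Z, hZ, hZc⟩ := hG0.cov
    have hK : A.card ≤ 2 * (A \ Z).card := by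
      have := le_card_sdiff Z A
      omega
    have hK' : (A.card : ℝ) * l ≤ 2 * ((A \ Z).card * l) := by
      have : (A.card : ℝ) ≤ 2 * (A \ Z).card := by exact_mod_cast hK
      nlinarith
    refine hmono _ ?_ (hN α l A Aᶜ (A \ Z) T P Fs hl hl1 sdiff_subset (by linarith) hP
      (fun x hx => ?_) fun f hf => ?_)
    · rw [hs, h, mul_div_assoc, mul_div_assoc]
      exact mul_le_mul_of_nonneg_left (by linarith) (Nat.cast_nonneg _)
    · obtain ⟨p, hp, e | e⟩ := mem_vs.1 hx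
      · exact e ▸ (hoff _ _ (hP.1 p hp)).1
      · exact e ▸ (hoff _ _ (hP.1 p hp)).2
    · obtain ⟨G, h4, -, hΓ, hT1, rfl⟩ := hF f hf
      obtain ⟨c1, -, c3, -⟩ := hC α G A h4
      refine ⟨c1, fun p hp => c3 _ _ _ sdiff_subset (fun x hx y hy e => ?_) (hT1 ▸ hP.1 p hp)⟩
      rw [hΓ, ← hΓ0] at e
      exact (hZ x y e).elim (mem_sdiff.1 hx).2 (mem_sdiff.1 hy).2
  · refine hmono _ ?_ (hS α l (A.card / 8000) A Aᶜ J c ⌈32 / l⌉₊ Fs hl hl1 (by positivity)
      ((div_le_iff₀ hl).1 (Nat.le_ceil _)) (fun j hj => (hoff _ _ (hcJ j hj)).2) hst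
      fun f hf => ?_)
    · rw [hs, h]
      nlinarith [mul_le_mul_of_nonneg_left hA (Nat.cast_nonneg J.card)]
    · obtain ⟨G, h4, hG, -, hT1, rfl⟩ := hF f hf
      obtain ⟨c1, -, -, c4⟩ := hC α G A h4
      refine ⟨c1, fun j hj => ?_, fun j hj j' hj' hne e => ?_⟩
      · have h1 := mem_compl.1 (hoff _ _ (hcJ j hj)).1
        rw [crs_of_not_mem h1, div_le_iff₀ (by norm_num)]
        exact_mod_cast (hG.mis _ h1).trans_eq (mul_comm _ _)
      · exact c4 j j' (c j) hne (hT1 ▸ hJ j hj j' hj') (hT1 ▸ hcJ j hj) (hT1 ▸ e ▸ hcJ j' hj')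

end Pool.Agent.Lib.SPL
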