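import Pool.Agent.Lib.SPL.Kit2
import Pool.Agent.Lib.SPL.Blue2

open scoped Classical
open Finset

noncomputable section

namespace Pool.Agent.Lib.SPL

namespace TSAV243

theorem sq_le_pow {R l : ℝ} (hR : 1 ≤ R) (h1 : 1 / R ≤ l) {r : ℕ} (hr : 32 * R ≤ r) :
    (1 + r * l) ^ 2 ≤ (1 + l) ^ r := by
  have hR0 : 0 < R := by linarith
  have hl : 0 < l := lt_of_lt_of_le (by positivity) h1
  have h2 : 1 ≤ R * l := by rwa [div_le_iff₀' hR0] at h1
  have h3 : 32 ≤ r := by exact_mod_cast (show ((32 : ℕ) : ℝ) ≤ r by push_cast; linarith)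
  have h4 : (r : ℝ) ≤ 5 * (r / 4 : ℕ) := by exact_mod_cast (show r ≤ 5 * (r / 4) by omega)
  have h5 : 1 + (r / 4 : ℕ) * l ≤ (1 + l) ^ (r / 4) := one_add_mul_le_pow (by linarith) _
  have h6 : r * l ≤ 5 * ((r / 4 : ℕ) * l) := by nlinarith
  have h7 : 32 ≤ r * l := by nlinarith
  generalize ((r / 4 : ℕ) : ℝ) * l = u at h5 h6
  calc (1 + r * l) ^ 2 ≤ ((1 + u) ^ 2) ^ 2 := pow_le_pow_left₀ (by positivity) (by nlinarith) 2
    _ = (1 + u) ^ 4 := by ring
    _ ≤ ((1 + l) ^ (r / 4)) ^ 4 := pow_le_pow_left₀ (by linarith) h5 4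
    _ ≤ (1 + l) ^ r := by
      rw [← pow_mul]
      exact pow_le_pow_right₀ (by linarith) (by omega)

theorem nest_le {R l y : ℝ} (hR : 1 ≤ R) (h1 : 1 / R ≤ l) (h2 : l ≤ R) {k : ℕ} (hy : 1 ≤ y)
    (hk : 8 * R * y ≤ k) : 2 * (1 - l / (1 + l) ^ 2) ^ k ≤ Real.exp (-y) := by
  have hR0 : 0 < R := by linarith
  have hl : 0 < l := lt_of_lt_of_le (by positivity) h1
  have h3 : 1 ≤ R * l := by rwa [div_le_iff₀' hR0] at h1
  have h4 : 1 / (4 * R) ≤ l / (1 + l) ^ 2 := by
    rw [div_le_div_iff₀ (by positivity) (by positivity)]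
    rcases le_total l 1 with h | h <;> nlinarith
  have h5 : l / (1 + l) ^ 2 ≤ 1 := by
    rw [div_le_one (by positivity)]; nlinarith
  have h6 : (1 - l / (1 + l) ^ 2) ^ k ≤ Real.exp (-(1 / (4 * R))) ^ k :=
    pow_le_pow_left₀ (by linarith) (by linarith [Real.add_one_le_exp (-(1 / (4 * R)))]) k
  rw [← Real.exp_nat_mul] at h6
  have h7 : 2 * y ≤ k * (1 / (4 * R)) := by
    rw [mul_one_div, le_div_iff₀ (by positivity)]; linarith
  calc _ ≤ Real.exp y * Real.exp (k * -(1 / (4 * R))) :=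
        mul_le_mul (by linarith [Real.add_one_le_exp y]) h6 (pow_nonneg (by linarith) k)
          (Real.exp_pos _).le
    _ ≤ _ := by rw [← Real.exp_add]; exact Real.exp_le_exp.2 (by linarith)

end TSAV243

theorem r_TSAV2 : R_TSAV2 := by
  intro hX hC hN hS R κ θ hR hκ hθ
  have hR0 : 0 < R := by linarith
  refine ⟨min (κ / (16 * R)) (θ * κ / (8 * R)), ⌈16 * R / κ⌉₊, by positivity,
    fun α _ ζ l A Γ T s Fs hD hT hF => ?_⟩
  obtain ⟨hl, hlog, -⟩ := hX R l hR hD.lo hD.hi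
  rcases Fs.eq_empty_or_nonempty with rfl | ⟨f0, hf0⟩
  · rw [fw, sum_empty]
    positivity
  obtain ⟨G0, -, hG0, hΓ0, hT0, -⟩ := hF f0 hf0
  obtain ⟨P, J, c, hP, -, hJ, hst, hcJ, hs, -⟩ := hT
  have hn : 16 * R / κ ≤ Fintype.card α := Nat.ceil_le.1 hD.big
  have hn0 : (0 : ℝ) ≤ Fintype.card α := Nat.cast_nonneg _
  have hoff : ∀ x y, T.Adj x y → x ∈ Aᶜ ∧ y ∈ Aᶜ := fun x y h => by
    rw [← hT0] at h
    exact h.2
  rcases max_choice P.card J.card with h | h
  · obtain ⟨Z, hZ, hZc⟩ := hG0.cov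
    have hK : (A.card : ℝ) ≤ (A \ Z).card + Z.card := by
      exact_mod_cast card_le_card_sdiff_add_card
    refine (hN α l A Aᶜ (A \ Z) T P Fs hl sdiff_subset hP (fun x hx => ?_) fun f hf => ?_).trans
      (mul_le_mul_of_nonneg_left ?_ (by positivity))
    · obtain ⟨p, hp, e | e⟩ := mem_vs.1 hx
      · exact e ▸ (hoff _ _ (hP.1 p hp)).1
      · exact e ▸ (hoff _ _ (hP.1 p hp)).2
    · obtain ⟨G, h4, -, hΓ, hT1, rfl⟩ := hF f hf
      obtain ⟨c1, -, c3, -⟩ := hC α G A h4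
      refine ⟨c1, fun p hp => c3 _ _ _ sdiff_subset (fun x hx y hy e => ?_) (hT1 ▸ hP.1 p hp)⟩
      rw [hΓ, ← hΓ0] at e
      exact (hZ x y e).elim (mem_sdiff.1 hx).2 (mem_sdiff.1 hy).2
    · have h1 := TSAV243.nest_le hR hD.lo hD.hi (k := (A \ Z).card)
        (y := κ / (16 * R) * Fintype.card α)
        (by
          rw [div_mul_eq_mul_div, le_div_iff₀ (by positivity)]
          rw [div_le_iff₀ hκ] at hn
          linarith)
        (by
          have : 8 * R * (κ / (16 * R) * Fintype.card α) = κ * Fintype.card α / 2 := by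
            field_simp; ring
          linarith [hG0.lo])
      have h5 : l / (1 + l) ^ 2 ≤ 1 := by
        rw [div_le_one (by positivity)]; nlinarith
      refine (pow_le_pow_left₀ (mul_nonneg zero_le_two (pow_nonneg (by linarith) _)) h1 _).trans ?_
      rw [← Real.exp_nat_mul, hs, h]
      refine Real.exp_le_exp.2 ?_
      have := mul_le_mul_of_nonneg_right (min_le_left (κ / (16 * R)) (θ * κ / (8 * R)))
        (mul_nonneg (Nat.cast_nonneg P.card) hn0)
      linarith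
  · refine (hS α l (θ * A.card / 2) A Aᶜ J c ⌈32 * R⌉₊ Fs hl (by positivity)
      (fun r' hr' => TSAV243.sq_le_pow hR hD.lo (Nat.ceil_le.1 hr'))
      (fun j hj => (hoff _ _ (hcJ j hj)).2) hst fun f hf => ?_).trans
      (mul_le_mul_of_nonneg_left (Real.exp_le_exp.2 (neg_le_neg ?_)) (by positivity))
    · obtain ⟨G, h4, hG, -, hT1, rfl⟩ := hF f hf
      obtain ⟨c1, -, -, c4⟩ := hC α G A h4
      refine ⟨c1, fun j hj => ?_, fun j hj j' hj' hne e => ?_⟩
      · have h1 := mem_compl.1 (hoff _ _ (hcJ j hj)).1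
        rw [crs_of_not_mem h1]
        exact hG.mis _ h1
      · exact c4 j j' (c j) hne (hT1 ▸ hJ j hj j' hj') (hT1 ▸ hcJ j hj) (hT1 ▸ e ▸ hcJ j' hj')
    · rw [hs, h]
      have h1 := mul_le_mul_of_nonneg_right (min_le_right (κ / (16 * R)) (θ * κ / (8 * R)))
        (mul_nonneg (Nat.cast_nonneg J.card) hn0)
      have h2 : 1 / (2 * R) * (κ * Fintype.card α) ≤ Real.log (1 + l) * A.card :=
        mul_le_mul hlog hG0.lo (by positivity) (le_trans (by positivity) hlog)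
      have h3 := mul_le_mul_of_nonneg_right h2 (show 0 ≤ θ * J.card / 4 by positivity)
      have h4 : θ * κ / (8 * R) * (J.card * Fintype.card α) =
          1 / (2 * R) * (κ * Fintype.card α) * (θ * J.card / 4) := by
        field_simp; ring
      linarith

end Pool.Agent.Lib.SPL
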