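import Pool.Agent.Lib.SPL.Kit2

/-! Block TSUM of the project spl: the weighted sum over the outside graphs. -/

open scoped Classical
open Finset

namespace Pool.Agent.Lib.SPL

namespace TSUM10

variable {α : Type}

theorem one [Fintype α] {l : ℝ} (hl0 : 0 < l) (hl1 : l ≤ 1) (X : Finset α) (R : Gr α)
    (Ts : Finset (Gr α)) (h : ∀ T ∈ Ts, T \ rs T X = R) :
    gw l Ts ≤ gw l (Ts.image (fun T => rs T X)) := by
  unfold gw
  rw [sum_image]
  · exact sum_le_sum (fun T _ => pow_le_pow_of_le_one hl0.le hl1 (ed_mono (rs_le T X)))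
  · intro T hT T' hT' e
    have e' : rs T X = rs T' X := e
    have h1 : T = (T \ rs T X) ⊔ rs T X := (sdiff_sup_cancel (rs_le T X)).symm
    have h2 : T' = (T' \ rs T' X) ⊔ rs T' X := (sdiff_sup_cancel (rs_le T' X)).symm
    rw [h T hT] at h1
    rw [h T' hT', ← e'] at h2
    exact h1.trans h2.symm

theorem fix [Fintype α] {l y : ℝ} (hl0 : 0 < l) (hl1 : l ≤ 1) (hy : 0 ≤ y) (a j : ℕ)
    (hZ : ∀ X : Finset α, X.card ≤ a → ∀ Ts : Finset (Gr α),
      (∀ T ∈ Ts, NoC4 T ∧ Sup T X) → gw l Ts ≤ y)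
    (Ts : Finset (Gr α))
    (h : ∀ T ∈ Ts, NoC4 T ∧ ∃ X : Finset α, X.card ≤ a ∧ ed (T \ rs T X) ≤ j) :
    gw l Ts ≤ Real.exp (a * lg (Fintype.card α)) * Real.exp (2 * j * lg (Fintype.card α)) * y := by
  have k := sum_le_label Ts
    (((univ : Finset (Finset α)).filter (fun X => X.card ≤ a)) ×ˢ
      ((univ : Finset (Gr α)).filter (fun R => ed R ≤ j)))
    (fun p T => T \ rs T p.1 = p.2) (fun T => l ^ ed T) y (fun _ _ => by positivity)
    (fun T hT => by
      obtain ⟨X, h1, h2⟩ := (h T hT).2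
      exact ⟨(X, T \ rs T X), by simp [h1, h2], rfl⟩)
    (fun p hp t ht hq => by
      have hp1 : p.1.card ≤ a := (mem_filter.1 (mem_product.1 hp).1).2
      refine (one hl0 hl1 p.1 p.2 t hq).trans (hZ p.1 hp1 _ (fun G hG => ?_))
      obtain ⟨T, hT, rfl⟩ := mem_image.1 hG
      exact ⟨(h T (ht hT)).1.rs _, sup_rs _ _⟩)
  refine k.trans (mul_le_mul_of_nonneg_right ?_ hy)
  rw [card_product, Nat.cast_mul]
  exact mul_le_mul (card_small_sets_exp (fun S hS => (mem_filter.1 hS).2))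
    (card_small_graphs_exp (fun S hS => (mem_filter.1 hS).2)) (by positivity) (by positivity)

theorem num1 {c L D l g k r : ℝ} (hc : 0 < c) (hl : 0 < l) (hl1 : l ≤ 1) (hL : 1 ≤ L)
    (hcL : 2160 ≤ c * L) (hD : L ^ 5 ≤ D * l) (hg0 : 0 ≤ g) (hg : g ≤ 2 * L) (hk : 0 ≤ k)
    (hr : r * l ≤ 33) :
    3 * k * g + 2 * (2 * r * k) * g ≤ c * k * D / 8 := by
  have h1 : L ^ 2 ≤ L ^ 5 := pow_le_pow_right₀ hL (by norm_num)
  have h2 : 2160 * L ≤ c * (D * l) := by nlinarith
  have h3 : (3 + 4 * r) * l ≤ 135 := by nlinarith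
  have h4 : (3 + 4 * r) * l * g ≤ 135 * (2 * L) := mul_le_mul h3 hg hg0 (by norm_num)
  have h5 : (3 + 4 * r) * g * l ≤ c * D / 8 * l := by nlinarith
  have h6 : (3 + 4 * r) * g ≤ c * D / 8 := le_of_mul_le_mul_right h5 hl
  nlinarith [mul_le_mul_of_nonneg_left h6 hk]

theorem num2 {c n D l b k x : ℝ} (hc : 0 < c) (hn : 0 < n) (hb : 0 < b) (hD : 0 < D)
    (hbD : b * D = n * l ^ 2) (hk : 0 ≤ k) (hkn : k ≤ c / 2160 * n) (hx0 : 0 ≤ x)
    (hx : x ≤ 3 * k) : c / 24 * (x * D) + 30 * x ^ 2 * l ^ 2 / b ≤ c * k * D / 4 := by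
  have h1 : l ^ 2 / b = D / n := by
    field_simp
    linarith
  have h2 : 30 * x ^ 2 * l ^ 2 / b = 30 * x ^ 2 * D / n := by
    rw [mul_div_assoc, h1, mul_div_assoc]
  have h3 : x ^ 2 ≤ 9 * k * (c / 2160 * n) := by nlinarith
  have h4 : 30 * x ^ 2 * D / n ≤ c * k * D / 8 := by
    rw [div_le_iff₀ hn]
    nlinarith [mul_le_mul_of_nonneg_right h3 hD.le]
  have h5 : c / 24 * (x * D) ≤ c * k * D / 8 := by
    nlinarith [mul_le_mul_of_nonneg_left hx (mul_pos hc hD).le]
  rw [h2]
  linarith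

end TSUM10

open TSUM10 in
theorem r_TSUM : R_TSUM := by
  intro Z1 Z2 c hc
  obtain ⟨ω1, Z1⟩ := Z1 (c / 24) (by positivity)
  obtain ⟨z, ω2, hz, Z2⟩ := Z2 (c * (c / 2160) / 2) (by positivity)
  refine ⟨z, max (max ω1 ω2) (max (max 1 (c / 2160)) (2160 / c)), hz, ?_⟩
  intro α _ l Ts s hR h
  have R1 : Reg ω1 (Fintype.card α) l := hR.mono ((le_max_left _ _).trans (le_max_left _ _))
  have R2 : Reg ω2 (Fintype.card α) l := hR.mono ((le_max_right _ _).trans (le_max_left _ _))
  have R : Reg 1 (Fintype.card α) l :=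
    hR.mono (((le_max_left _ _).trans (le_max_left _ _)).trans (le_max_right _ _))
  have hLe : c / 2160 ≤ Real.log (Fintype.card α) :=
    (((le_max_right _ _).trans (le_max_left _ _)).trans (le_max_right _ _)).trans hR.hL
  have hLc : 2160 / c ≤ Real.log (Fintype.card α) :=
    ((le_max_right _ _).trans (le_max_right _ _)).trans hR.hL
  have Z1 := fun X Ts => Z1 α l X Ts R1
  have Z2 := fun Ts => Z2 α l Ts R2
  have F := @fix α _ l
  have hl := R.pos
  have hl1 : l ≤ 1 := (R.le_half le_rfl).trans (by norm_num)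
  have hL := R.L_ge le_rfl
  have hLn := R.L_le le_rfl
  have hn := R.n_pos le_rfl
  have hD := R.D_pos le_rfl
  have hDl := R.D_l le_rfl
  have hDg := R.D_ge le_rfl
  have hbD := R.b_D le_rfl
  have hb : 0 < bb l := lt_of_lt_of_le one_pos (R.b_ge le_rfl)
  have hg := lg_le (R.two_le le_rfl)
  have hg0 := lg_nonneg (Fintype.card α)
  have hexp : Real.exp (Real.log (Fintype.card α)) = Fintype.card α := Real.exp_log hn
  have hQ : QQ (Fintype.card α) l = Fintype.card α * DD (Fintype.card α) l := rfl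
  clear hR R1 R2 R
  generalize QQ (Fintype.card α) l = Q at *
  generalize DD (Fintype.card α) l = D at *
  generalize lg (Fintype.card α) = g at *
  generalize Real.log (Fintype.card α) = L at *
  generalize (Fintype.card α : ℝ) = n at *
  have hcL : 2160 ≤ c * L := by
    rw [div_le_iff₀ hc] at hLc
    linarith
  have hcD : 2160 * L ≤ c * D := by
    have h1 : L ^ 2 ≤ L ^ 5 := pow_le_pow_right₀ hL (by norm_num)
    nlinarith
  have hr : (⌈32 / l⌉₊ : ℝ) * l ≤ 33 := by
    have h1 := (Nat.ceil_lt_add_one (show 0 ≤ 32 / l by positivity)).le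
    have h2 := mul_le_mul_of_nonneg_right h1 hl.le
    rw [add_mul, div_mul_cancel₀ _ hl.ne'] at h2
    linarith
  rw [← sum_filter_add_sum_filter_not Ts (fun T => (s T : ℝ) ≤ c / 2160 * n)]
  have A : ∑ T ∈ Ts.filter (fun T => (s T : ℝ) ≤ c / 2160 * n),
      l ^ ed T * Real.exp (-(c * s T * D)) ≤ Real.exp (-(c * D / 4)) / 2 := by
    have k := sum_le_label (Ts.filter (fun T => (s T : ℝ) ≤ c / 2160 * n))
      (Icc 1 ⌊c / 2160 * n⌋₊) (fun k T => s T = k)
      (fun T => l ^ ed T * Real.exp (-(c * s T * D))) (3 * Real.exp (-(5 * (c * D) / 8)))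
      (fun _ _ => by positivity)
      (fun T hT => ⟨s T, mem_Icc.2 ⟨(h T (mem_filter.1 hT).1).2.2.1,
        Nat.le_floor (mem_filter.1 hT).2⟩, rfl⟩)
      (fun k hk t ht hq => by
        have hk1 : (1 : ℝ) ≤ k := by exact_mod_cast (mem_Icc.1 hk).1
        have hk2 : (k : ℝ) ≤ c / 2160 * n :=
          (Nat.le_floor_iff (by positivity)).1 (mem_Icc.1 hk).2
        have e1 : ∑ T ∈ t, l ^ ed T * Real.exp (-(c * s T * D)) =
            gw l t * Real.exp (-(c * k * D)) := by
          rw [gw, sum_mul]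
          exact sum_congr rfl (fun T hT => by rw [hq T hT])
        have f := F (y := 3 * Real.exp (c * k * D / 4)) hl hl1 (by positivity) (3 * k)
          (2 * ⌈32 / l⌉₊ * k)
          (fun X hX Ts hT => (Z1 X Ts hT).trans (mul_le_mul_of_nonneg_left
            (Real.exp_le_exp.2 (num2 hc hn hb hD hbD (by positivity) hk2 (by positivity)
              (by exact_mod_cast hX))) (by norm_num))) t
          (fun T hT => by
            obtain ⟨h1, -, -, h2⟩ := h T (mem_filter.1 (ht hT)).1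
            rw [hq T hT] at h2
            exact ⟨h1, h2⟩)
        have n1 := num1 (k := k) hc hl hl1 hL hcL hDl hg0 hg (by positivity) hr
        rw [e1]
        refine (mul_le_mul_of_nonneg_right f (by positivity)).trans ?_
        rw [← Real.exp_add, mul_left_comm, mul_assoc, ← Real.exp_add, ← Real.exp_add]
        refine mul_le_mul_of_nonneg_left (Real.exp_le_exp.2 ?_) (by norm_num)
        push_cast
        nlinarith [mul_le_mul_of_nonneg_left hk1 (mul_pos hc hD).le])
    refine k.trans ?_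
    have c1 : ((Icc 1 ⌊c / 2160 * n⌋₊).card : ℝ) ≤ Real.exp L * Real.exp L := by
      rw [Nat.card_Icc, Nat.add_sub_cancel, hexp]
      exact (Nat.floor_le (by positivity)).trans
        (mul_le_mul_of_nonneg_right (hLe.trans hLn) hn.le)
    have c2 : (6 : ℝ) ≤ Real.exp (5 * L) := by linarith [Real.add_one_le_exp (5 * L)]
    have c3 : Real.exp L * Real.exp L * Real.exp (5 * L) * Real.exp (-(5 * (c * D) / 8)) ≤
        Real.exp (-(c * D / 4)) := by
      rw [← Real.exp_add, ← Real.exp_add, ← Real.exp_add]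
      exact Real.exp_le_exp.2 (by linarith)
    have c4 := mul_le_mul c1 c2 (by norm_num) (by positivity)
    have c5 := mul_le_mul_of_nonneg_right c4 (Real.exp_pos (-(5 * (c * D) / 8))).le
    linarith
  have B : ∑ T ∈ Ts.filter (fun T => ¬ (s T : ℝ) ≤ c / 2160 * n),
      l ^ ed T * Real.exp (-(c * s T * D)) ≤ Real.exp (-(c * D / 4)) / 2 := by
    have b1 := Z2 (Ts.filter (fun T => ¬ (s T : ℝ) ≤ c / 2160 * n))
      (fun T hT => ⟨(h T (mem_filter.1 hT).1).1, (h T (mem_filter.1 hT).1).2.1⟩)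
    have b2 : ∑ T ∈ Ts.filter (fun T => ¬ (s T : ℝ) ≤ c / 2160 * n),
        l ^ ed T * Real.exp (-(c * s T * D)) ≤
        gw l (Ts.filter (fun T => ¬ (s T : ℝ) ≤ c / 2160 * n)) *
          Real.exp (-(c * (c / 2160 * n) * D)) := by
      rw [gw, sum_mul]
      refine sum_le_sum (fun T hT => mul_le_mul_of_nonneg_left (Real.exp_le_exp.2 ?_)
        (by positivity))
      have := (not_le.1 (mem_filter.1 hT).2).le
      nlinarith [mul_le_mul_of_nonneg_left this (mul_pos hc hD).le]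
    have b3 : 1 ≤ c / 2160 * n := by nlinarith
    have b4 : (2 : ℝ) ≤ Real.exp 1 := by linarith [Real.add_one_le_exp (1 : ℝ)]
    have b5 : Real.exp 1 * (Real.exp (c * (c / 2160) / 2 * Q) *
        Real.exp (-(c * (c / 2160 * n) * D))) ≤ Real.exp (-(c * D / 4)) := by
      rw [← Real.exp_add, ← Real.exp_add, hQ]
      refine Real.exp_le_exp.2 ?_
      nlinarith [mul_le_mul_of_nonneg_left b3 (mul_pos hc hD).le]
    have b6 := b2.trans (mul_le_mul_of_nonneg_right b1 (by positivity))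
    have b7 := mul_le_mul_of_nonneg_right b4 (show 0 ≤ Real.exp (c * (c / 2160) / 2 * Q) *
        Real.exp (-(c * (c / 2160 * n) * D)) by positivity)
    linarith
  linarith

end Pool.Agent.Lib.SPL
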