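import Pool.Agent.Lib.SPL.Kit2
import Pool.Agent.Lib.SPL.Blue2

/-! Block TSUM2 of the project spl: the weighted sum over the outside graphs, dense regime. -/

open scoped Classical
open Finset

noncomputable section

namespace Pool.Agent.Lib.SPL

namespace TSUM239

variable {α : Type}

theorem fiber_le [Fintype α] {l R : ℝ} (hl0 : 0 ≤ l) (hl : l ≤ R) (hR : 1 ≤ R) (X : Finset α)
    (Q : Gr α) (a j : ℕ) (hX : X.card ≤ a) (hQ : ed Q ≤ j) (Ts : Finset (Gr α))
    (h : ∀ T ∈ Ts, T \ rs T X = Q) :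
    gw l Ts ≤ Real.exp (R * j + R * a ^ 2 / 2) := by
  have e1 : gw l Ts = l ^ ed Q * gw l (Ts.image (fun T => rs T X)) := by
    unfold gw
    rw [sum_image, mul_sum]
    · refine sum_congr rfl (fun T hT => ?_)
      rw [← pow_add, ← h T hT, ed_sdiff (rs_le T X)]
    · intro T hT T' hT' e
      have e' : rs T X = rs T' X := e
      have h1 : T = (T \ rs T X) ⊔ rs T X := (sdiff_sup_cancel (rs_le T X)).symm
      have h2 : T' = (T' \ rs T' X) ⊔ rs T' X := (sdiff_sup_cancel (rs_le T' X)).symm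
      rw [h T hT] at h1
      rw [h T' hT', ← e'] at h2
      exact h1.trans h2.symm
  have e2 : gw l (Ts.image (fun T => rs T X)) ≤ (1 + l) ^ ed (rs (⊤ : Gr α) X) :=
    gw_le_of_le hl0 (fun G hG => by
      obtain ⟨T, -, rfl⟩ := mem_image.1 hG
      exact rs_mono le_top Subset.rfl)
  have e3 : 2 * ed (rs (⊤ : Gr α) X) ≤ a * a := by
    rw [← ar_eq_ed]
    exact (ar_le_mul (fun x _ => (dg_le_card _ x X).trans hX)).trans
      (Nat.mul_le_mul_right _ hX)
  have e4 : (2 : ℝ) * ed (rs (⊤ : Gr α) X) ≤ a * a := by exact_mod_cast e3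
  have e5 : (1 + l) ^ ed (rs (⊤ : Gr α) X) ≤ Real.exp (R * a ^ 2 / 2) := by
    refine (one_add_pow_le_exp hl0 _).trans (Real.exp_le_exp.2 ?_)
    have h0 : (0 : ℝ) ≤ ed (rs (⊤ : Gr α) X) := by positivity
    nlinarith [mul_le_mul_of_nonneg_right hl h0]
  have e6 : l ^ ed Q ≤ Real.exp (R * j) := by
    refine (pow_le_pow_left₀ hl0 (hl.trans (le_add_of_nonneg_left zero_le_one)) _).trans ?_
    refine (one_add_pow_le_exp (by linarith) _).trans (Real.exp_le_exp.2 ?_)
    exact mul_le_mul_of_nonneg_left (by exact_mod_cast hQ) (by linarith)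
  rw [e1, Real.exp_add]
  exact mul_le_mul e6 (e2.trans e5) (gw_nonneg hl0 _) (Real.exp_pos _).le

theorem level_le [Fintype α] {l R : ℝ} (hl0 : 0 ≤ l) (hl : l ≤ R) (hR : 1 ≤ R) (a j : ℕ)
    (Ts : Finset (Gr α)) (h : ∀ T ∈ Ts, ∃ X : Finset α, X.card ≤ a ∧ ed (T \ rs T X) ≤ j) :
    gw l Ts ≤ Real.exp (a * lg (Fintype.card α) + 2 * j * lg (Fintype.card α) +
      (R * j + R * a ^ 2 / 2)) := by
  have k := sum_le_label Ts
    (((univ : Finset (Finset α)).filter (fun X => X.card ≤ a)) ×ˢ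
      ((univ : Finset (Gr α)).filter (fun Q => ed Q ≤ j)))
    (fun p T => T \ rs T p.1 = p.2) (fun T => l ^ ed T) (Real.exp (R * j + R * a ^ 2 / 2))
    (fun _ _ => by positivity)
    (fun T hT => by
      obtain ⟨X, h1, h2⟩ := h T hT
      exact ⟨(X, T \ rs T X), by simp [h1, h2], rfl⟩)
    (fun p hp t _ hq => fiber_le hl0 hl hR p.1 p.2 a j (mem_filter.1 (mem_product.1 hp).1).2
      (mem_filter.1 (mem_product.1 hp).2).2 t hq)
  rw [Real.exp_add, Real.exp_add]
  refine k.trans (mul_le_mul_of_nonneg_right ?_ (Real.exp_pos _).le)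
  rw [card_product, Nat.cast_mul]
  exact mul_le_mul (card_small_sets_exp (fun S hS => (mem_filter.1 hS).2))
    (card_small_graphs_exp (fun S hS => (mem_filter.1 hS).2)) (by positivity) (by positivity)

theorem lg_small {K M c : ℝ} (hK : 0 < K) (hc : 0 < c) :
    ∃ n0 : ℕ, ∀ n : ℕ, n0 ≤ n → K * lg n + M ≤ c * n := by
  refine ⟨⌈2 * (M - K * Real.log (c / (4 * K))) / c⌉₊ + 1, fun n hn => ?_⟩
  have h1 : (⌈2 * (M - K * Real.log (c / (4 * K))) / c⌉₊ : ℝ) + 1 ≤ n := by exact_mod_cast hn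
  have h2 := Nat.le_ceil (2 * (M - K * Real.log (c / (4 * K))) / c)
  have h3 : (0 : ℝ) ≤ ⌈2 * (M - K * Real.log (c / (4 * K))) / c⌉₊ := by positivity
  have h4 : 2 * (M - K * Real.log (c / (4 * K))) / c ≤ n := by linarith
  rw [div_le_iff₀ hc] at h4
  have h5 := Real.log_le_sub_one_of_pos (show 0 < c / (4 * K) * ((n : ℝ) + 1) by positivity)
  rw [Real.log_mul (by positivity) (by positivity)] at h5
  have h6 := mul_le_mul_of_nonneg_left h5 hK.le
  have h7 : K * (c / (4 * K) * ((n : ℝ) + 1) - 1) = c * (n + 1) / 4 - K := by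
    field_simp
  rw [h7] at h6
  unfold lg
  have h8 : c * 1 ≤ c * n := mul_le_mul_of_nonneg_left (by linarith) hc.le
  nlinarith

end TSUM239

open TSUM239 in
theorem r_TSUM2 : R_TSUM2 := by
  intro _ hZ R c r hR hc
  have hR0 : 0 < R := by linarith
  obtain ⟨ζ, hζ, hz, -⟩ := hZ R (c * (c / (18 * R)) / 2) hR (by positivity)
  obtain ⟨n1, hn1⟩ := lg_small (K := 3 + 4 * r) (M := 2 * r * R) (c := c / 8)
    (by positivity) (by positivity)
  refine ⟨ζ, max n1 ⌈18 * R / c⌉₊, hζ, fun α _ l Ts s hD h => ?_⟩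
  have hl : 0 < l := lt_of_lt_of_le (by positivity) hD.lo
  have hg := hn1 _ ((le_max_left _ _).trans hD.big)
  have hn0 : 18 * R / c ≤ (Fintype.card α : ℝ) :=
    (Nat.le_ceil _).trans (by exact_mod_cast (le_max_right _ _).trans hD.big)
  have Z := fun Ts => hz α l Ts hl.le hD.hi
  have F := @level_le α _ l R hl.le hD.hi hR
  clear hD hn1 hz
  generalize lg (Fintype.card α) = g at *
  generalize (Fintype.card α : ℝ) = n at *
  have hn : 0 < n := lt_of_lt_of_le (by positivity) hn0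
  rw [div_le_iff₀ hc] at hn0
  obtain ⟨e, he⟩ : ∃ e, e = c / (18 * R) := ⟨_, rfl⟩
  rw [← he] at Z
  have he0 : 0 < e := by rw [he]; positivity
  have heR : e * (18 * R) = c := by rw [he]; field_simp
  have hen : 1 ≤ e * n := by
    refine le_of_mul_le_mul_right ?_ (show 0 < 18 * R by positivity)
    nlinarith
  have hcn : 0 < c * n := mul_pos hc hn
  rw [← sum_filter_add_sum_filter_not Ts (fun T => (s T : ℝ) ≤ e * n)]
  have A : ∑ T ∈ Ts.filter (fun T => (s T : ℝ) ≤ e * n),
      l ^ ed T * Real.exp (-(c * s T * n)) ≤ Real.exp (-(c * n / 4)) / 2 := by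
    have k := sum_le_label (Ts.filter (fun T => (s T : ℝ) ≤ e * n))
      (Icc 1 ⌊e * n⌋₊) (fun k T => s T = k)
      (fun T => l ^ ed T * Real.exp (-(c * s T * n))) (Real.exp (-(5 * (c * n) / 8)))
      (fun _ _ => by positivity)
      (fun T hT => ⟨s T, mem_Icc.2 ⟨(h T (mem_filter.1 hT).1).2.1,
        Nat.le_floor (mem_filter.1 hT).2⟩, rfl⟩)
      (fun k hk t ht hq => by
        have hk1 : (1 : ℝ) ≤ k := by exact_mod_cast (mem_Icc.1 hk).1
        have hk2 : (k : ℝ) ≤ e * n := (Nat.le_floor_iff (by positivity)).1 (mem_Icc.1 hk).2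
        have e1 : ∑ T ∈ t, l ^ ed T * Real.exp (-(c * s T * n)) =
            gw l t * Real.exp (-(c * k * n)) := by
          rw [gw, sum_mul]
          exact sum_congr rfl (fun T hT => by rw [hq T hT])
        have f := F (3 * k) (2 * r * k) t (fun T hT => by
          have h2 := (h T (mem_filter.1 (ht hT)).1).2.2
          rwa [hq T hT] at h2)
        rw [e1]
        refine (mul_le_mul_of_nonneg_right f (by positivity)).trans ?_
        rw [← Real.exp_add]
        refine Real.exp_le_exp.2 ?_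
        push_cast
        have a1 := mul_le_mul_of_nonneg_left hg (show (0 : ℝ) ≤ k by positivity)
        have a2 := mul_le_mul_of_nonneg_left hk2 (show (0 : ℝ) ≤ R * k by positivity)
        have a3 := mul_le_mul_of_nonneg_left hk1 hcn.le
        have a4 : R * k * (e * n) = c * k * n / 18 := by rw [← heR]; ring
        nlinarith)
    refine k.trans ?_
    have c1 : ((Icc 1 ⌊e * n⌋₊).card : ℝ) ≤ e * n := by
      rw [Nat.card_Icc, Nat.add_sub_cancel]
      exact Nat.floor_le (by positivity)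
    have c2 : 2 * (e * n) ≤ Real.exp (3 * (c * n) / 8) := by
      have b1 := Real.add_one_le_exp (3 * (c * n) / 8)
      have b2 : e * n * 18 ≤ c * n := by
        rw [← heR]
        nlinarith [mul_le_mul_of_nonneg_left hR (show 0 ≤ e * n by positivity)]
      linarith
    have c3 : Real.exp (3 * (c * n) / 8) * Real.exp (-(5 * (c * n) / 8)) =
        Real.exp (-(c * n / 4)) := by
      rw [← Real.exp_add]
      congr 1
      ring
    have c4 := mul_le_mul_of_nonneg_right c1 (Real.exp_pos (-(5 * (c * n) / 8))).le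
    have c5 := mul_le_mul_of_nonneg_right c2 (Real.exp_pos (-(5 * (c * n) / 8))).le
    linarith
  have B : ∑ T ∈ Ts.filter (fun T => ¬ (s T : ℝ) ≤ e * n),
      l ^ ed T * Real.exp (-(c * s T * n)) ≤ Real.exp (-(c * n / 4)) / 2 := by
    have b1 := Z (Ts.filter (fun T => ¬ (s T : ℝ) ≤ e * n))
      (fun T hT => (h T (mem_filter.1 hT).1).1)
    have b2 : ∑ T ∈ Ts.filter (fun T => ¬ (s T : ℝ) ≤ e * n),
        l ^ ed T * Real.exp (-(c * s T * n)) ≤
        gw l (Ts.filter (fun T => ¬ (s T : ℝ) ≤ e * n)) * Real.exp (-(c * (e * n) * n)) := by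
      rw [gw, sum_mul]
      refine sum_le_sum (fun T hT => mul_le_mul_of_nonneg_left (Real.exp_le_exp.2 ?_)
        (by positivity))
      have := (not_le.1 (mem_filter.1 hT).2).le
      nlinarith [mul_le_mul_of_nonneg_left this hcn.le]
    have b4 : (2 : ℝ) ≤ Real.exp 1 := by linarith [Real.add_one_le_exp (1 : ℝ)]
    have b5 : Real.exp 1 * (Real.exp (c * e / 2 * n ^ 2) *
        Real.exp (-(c * (e * n) * n))) ≤ Real.exp (-(c * n / 4)) := by
      rw [← Real.exp_add, ← Real.exp_add]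
      refine Real.exp_le_exp.2 ?_
      nlinarith [mul_le_mul_of_nonneg_left hen hcn.le]
    have b6 := b2.trans (mul_le_mul_of_nonneg_right b1 (by positivity))
    have b7 := mul_le_mul_of_nonneg_right b4 (show 0 ≤ Real.exp (c * e / 2 * n ^ 2) *
        Real.exp (-(c * (e * n) * n)) by positivity)
    linarith
  linarith

end Pool.Agent.Lib.SPL
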