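import Pool.Agent.Lib.SPL.Kit2

/-! Row WLOW: lower bound for the total weight of split graphs. -/

open scoped Classical
open Finset

noncomputable section

namespace Pool.Agent.Lib.SPL

namespace WLOW65

theorem log_ge {l : ℝ} (h0 : 0 ≤ l) : l * (1 - l) ≤ Real.log (1 + l) := by
  refine le_trans ?_ (Real.one_sub_inv_le_log_of_pos (x := 1 + l) (by linarith))
  have h1 : 1 - (1 + l)⁻¹ = l / (1 + l) := by field_simp; ring
  rw [h1, le_div_iff₀ (by linarith)]
  have := mul_nonneg h0 (mul_nonneg h0 h0)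
  nlinarith

theorem ww_eq (n k : ℕ) {l : ℝ} (hl : 0 < l) : ww n l k =
    Real.exp (-(bb l * (k.choose 2 : ℕ)) + ((k * (n - k) : ℕ) : ℝ) * Real.log (1 + l)) := by
  unfold ww bb
  rw [Real.exp_add, neg_mul, neg_neg, mul_comm (Real.log l), Real.exp_nat_mul, Real.exp_nat_mul,
    Real.exp_log hl, Real.exp_log (by linarith)]

theorem ww_le (n k : ℕ) {l : ℝ} (hl : 0 < l) (hk : k ≤ n) : ww n l k ≤ WW n l := by
  refine le_trans ?_ (single_le_sum (f := fun k => (n.choose k : ℝ) * ww n l k)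
    (fun j _ => mul_nonneg (Nat.cast_nonneg _) (ww_pos n hl j).le) (mem_range.2 (Nat.lt_succ_of_le hk)))
  exact le_mul_of_one_le_left (ww_pos n hl k).le (by exact_mod_cast Nat.choose_pos hk)

end WLOW65

theorem r_WLOW : R_WLOW := by
  intro δ hδ
  obtain ⟨η, e0, e1, e2⟩ : ∃ η : ℝ, 0 < η ∧ η ≤ 1 ∧ η ≤ δ / 3 :=
    ⟨min 1 (δ / 3), lt_min one_pos (by positivity), min_le_left _ _, min_le_right _ _⟩
  refine ⟨1 / η, fun n l h => ?_⟩
  have hω : 1 ≤ 1 / η := by rw [le_div_iff₀ e0]; linarith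
  have hl := h.pos
  have hn := h.n_pos hω
  have hb := h.b_ge hω
  have he := h.ell_pos hω
  have hQ := h.Q_pos hω
  have l1 : l ≤ η := by
    have h1 : 1 ≤ bb l * η := (div_le_iff₀ e0).1 h.hb
    have h2 := mul_le_mul_of_nonneg_right h.mul_le_one e0.le
    have h3 := mul_le_mul_of_nonneg_left h1 hl.le
    have h4 := mul_pos hl e0
    linarith
  have l2 : 1 ≤ ell n l * η := by
    refine (div_le_iff₀ e0).1 (h.hL.trans (le_trans ?_ ((h.D_ge hω).trans (h.D_le_ell hω))))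
    exact le_self_pow₀ (h.L_ge hω) (by norm_num)
  obtain ⟨k, k1, k2⟩ : ∃ k : ℕ, (k : ℝ) ≤ ell n l ∧ ell n l < k + 1 :=
    ⟨⌊ell n l⌋₊, Nat.floor_le he.le, Nat.lt_floor_add_one _⟩
  have k3 : (k : ℝ) ≤ n * η := k1.trans ((h.ell_le hω).trans (by gcongr))
  have k4 : k ≤ n := by
    have : (k : ℝ) ≤ n := k3.trans (mul_le_of_le_one_right hn.le e1)
    exact_mod_cast this
  refine le_trans ?_ (WLOW65.ww_le n k hl k4)
  rw [WLOW65.ww_eq n k hl, Real.exp_le_exp, Nat.cast_mul, Nat.cast_sub k4, Nat.cast_choose_two]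
  have k0 : (0 : ℝ) ≤ k := Nat.cast_nonneg k
  have a1 : (k : ℝ) * (k - 1) / 2 ≤ ell n l ^ 2 / 2 := by nlinarith
  have a2 : bb l * ((k : ℝ) * (k - 1) / 2) ≤ QQ n l / 2 := by
    rw [h.Q_eq hω]
    have := mul_le_mul_of_nonneg_left a1 (by linarith : 0 ≤ bb l)
    linarith
  have u0 : 0 ≤ 1 - η := by linarith
  have a3 : ell n l * (1 - η) ≤ k := by linarith
  have a4 : (n : ℝ) * (1 - η) ≤ n - k := by linarith
  have a5 : l * (1 - η) ≤ Real.log (1 + l) :=
    (mul_le_mul_of_nonneg_left (by linarith) hl.le).trans (WLOW65.log_ge hl.le)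
  have a6 : ell n l * (1 - η) * (n * (1 - η)) * (l * (1 - η)) ≤
      k * (n - k) * Real.log (1 + l) :=
    mul_le_mul (mul_le_mul a3 a4 (by positivity) k0) a5 (by positivity)
      (mul_nonneg k0 (le_trans (by positivity) a4))
  have a7 : 1 - δ ≤ (1 - η) ^ 3 := by nlinarith [mul_nonneg (sq_nonneg η) (by linarith : 0 ≤ 3 - η)]
  have a8 := mul_le_mul_of_nonneg_left a7 hQ.le
  have a9 : QQ n l * (1 - η) ^ 3 = ell n l * (1 - η) * (n * (1 - η)) * (l * (1 - η)) := by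
    rw [Reg.Q_eq']; ring
  linarith

end Pool.Agent.Lib.SPL
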