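import Pool.Agent.Lib.SPL.Kit2
import Pool.Agent.Lib.SPL.Blue2

/-! Row WLOW2 of the project spl: one term of the split weight is a lower bound. -/

open Finset

namespace Pool.Agent.Lib.SPL

theorem r_WLOW2 : R_WLOW2 := by
  intro hX R l n hR hlo hhi hn1
  obtain ⟨hl, a1, a2, a3, a4, a5, a6, a7, hw⟩ := hX R l hR hlo hhi
  have hn : (1 : ℝ) ≤ n := by exact_mod_cast hn1
  have hR0 : 0 < R := by linarith
  have hx0 : 0 ≤ n * xs l := mul_nonneg (by linarith) (le_trans (by positivity) a6)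
  have hx1 : n * xs l ≤ n := mul_le_of_le_one_right (by linarith)
    (a7.trans (sub_le_self _ (by positivity)))
  obtain ⟨k, k1, k2⟩ : ∃ k : ℕ, (k : ℝ) ≤ n * xs l ∧ n * xs l < k + 1 :=
    ⟨_, Nat.floor_le hx0, Nat.lt_floor_add_one _⟩
  have k4 : (k : ℝ) ≤ n := k1.trans hx1
  have k3 : k ≤ n := by exact_mod_cast k4
  have h1 : (n.choose k : ℝ) * ww n l k ≤ WW n l :=
    single_le_sum (f := fun j => (n.choose j : ℝ) * ww n l j)
      (fun j _ => mul_nonneg (Nat.cast_nonneg _) (ww_pos n hl j).le)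
      (mem_range.2 (Nat.lt_succ_of_le k3))
  have h2 : (1 : ℝ) ≤ n.choose k := by exact_mod_cast Nat.choose_pos k3
  refine le_trans ?_ ((le_mul_of_one_le_left (ww_pos n hl k).le h2).trans h1)
  rw [hw n k k3]
  refine Real.exp_le_exp.2 ?_
  have h3 : ((k : ℝ) - n * xs l) ^ 2 ≤ 1 := by nlinarith
  have h4 : (2 * Real.log (1 + l) + bb l) / 2 * ((k : ℝ) - n * xs l) ^ 2 ≤ R * 1 :=
    mul_le_mul (by linarith) h3 (sq_nonneg _) hR0.le
  have h5 : -R * k ≤ bb l * k := mul_le_mul_of_nonneg_right (abs_le.1 a5).1 (Nat.cast_nonneg _)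
  have h6 : R * k ≤ R * n := mul_le_mul_of_nonneg_left k4 hR0.le
  have h7 : R * 1 ≤ R * n := mul_le_mul_of_nonneg_left hn hR0.le
  nlinarith

end Pool.Agent.Lib.SPL
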