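import Pool.Agent.Lib.SPL.Kit2
import Pool.Agent.Lib.SPL.Blue2

/-! Rows XS, TILT, ZD, MISS of the project spl. -/

open scoped Classical
open Finset

noncomputable section

namespace Pool.Agent.Lib.SPL

namespace XS92

theorem log_bounds {R y : ℝ} (hR : 1 ≤ R) (h1 : 1 / R ≤ y) (h2 : y ≤ R) :
    1 / (2 * R) ≤ Real.log (1 + y) ∧ Real.log (1 + y) ≤ R := by
  have hR0 : 0 < R := by linarith
  have hi : 0 < 1 / R := by positivity
  have hy : 0 < y := hi.trans_le h1
  constructor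
  · have e := half_le_log (l := 1 / R) hi.le ((div_le_one hR0).2 hR)
    have e2 : Real.log (1 + 1 / R) ≤ Real.log (1 + y) :=
      Real.log_le_log (by positivity) (by linarith)
    have e3 : 1 / (2 * R) = 1 / R / 2 := by field_simp
    linarith
  · have := Real.log_le_sub_one_of_pos (x := 1 + y) (by positivity)
    linarith

theorem inv_bounds {R l : ℝ} (hR : 1 ≤ R) (h1 : 1 / R ≤ l) (h2 : l ≤ R) :
    1 / R ≤ l⁻¹ ∧ l⁻¹ ≤ R := by
  have hR0 : 0 < R := by linarith
  have hl : 0 < l := (by positivity : 0 < 1 / R).trans_le h1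
  constructor
  · rw [one_div]
    exact inv_anti₀ hl h2
  · rw [one_div] at h1
    exact inv_le_of_inv_le₀ hR0 h1

theorem log_inv_add {l : ℝ} (hl : 0 < l) : Real.log (1 + l) + bb l = Real.log (1 + l⁻¹) := by
  have : 1 + l⁻¹ = (1 + l) / l := by field_simp; ring
  rw [this, Real.log_div (by positivity) hl.ne', bb]
  ring

end XS92

theorem r_XS : R_XS := by
  intro R l hR h1 h2
  have hR0 : 0 < R := by linarith
  have hl : 0 < l := (by positivity : 0 < 1 / R).trans_le h1
  obtain ⟨a1, a2⟩ := XS92.log_bounds hR h1 h2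
  obtain ⟨i1, i2⟩ := XS92.inv_bounds hR h1 h2
  obtain ⟨g1, g2⟩ := XS92.log_bounds hR i1 i2
  rw [← XS92.log_inv_add hl] at g1 g2
  have hp : 0 < 1 / (2 * R) := by positivity
  have hκ : 0 < 2 * Real.log (1 + l) + bb l := by linarith
  have e4 : 1 / (4 * R ^ 2) * (2 * R) = 1 / (2 * R) := by field_simp; ring
  have p4 : 0 < 1 / (4 * R ^ 2) := by positivity
  refine ⟨hl, a1, a2, g1, g2, abs_le.2 ⟨?_, ?_⟩, ?_, ?_, fun n k hk => ?_⟩
  · linarith
  · linarith
  · rw [xs, le_div_iff₀ hκ]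
    nlinarith
  · rw [xs, div_le_iff₀ hκ]
    nlinarith
  · have e : (1 + l) ^ (k * (n - k)) = Real.exp (Real.log (1 + l) * (k * (n - k) : ℕ)) := by
      rw [mul_comm (Real.log _), Real.exp_nat_mul, Real.exp_log (by positivity)]
    rw [ww, pow_eq_exp hl, e, ← Real.exp_add]
    congr 1
    rw [Nat.cast_choose_two, ph, xs]
    push_cast [Nat.cast_sub hk]
    field_simp
    ring

namespace XS92

theorem tilt {β : Type} (s : Finset β) (c : β → ℕ) {x y z B : ℝ} (hx : 0 ≤ x) (hz : 0 < z)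
    (hz1 : z ≤ 1) (h : ∀ S ∈ s, (c S : ℝ) ≤ y) (hB : ∑ S ∈ s, (z * x) ^ c S ≤ Real.exp B) :
    ∑ S ∈ s, x ^ c S ≤ Real.exp (B - y * Real.log z) := by
  have k : ∀ S ∈ s, x ^ c S ≤ (z * x) ^ c S * Real.exp (-(y * Real.log z)) := by
    intro S hS
    have e : z ^ c S = Real.exp (c S * Real.log z) := by
      rw [Real.exp_nat_mul, Real.exp_log hz]
    rw [mul_pow, mul_comm (z ^ c S), mul_assoc, e, ← Real.exp_add]
    refine le_mul_of_one_le_right (by positivity) (Real.one_le_exp ?_)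
    have := Real.log_nonpos hz.le hz1
    nlinarith [h S hS]
  refine (sum_le_sum k).trans ?_
  rw [← sum_mul, sub_eq_add_neg, Real.exp_add]
  exact mul_le_mul_of_nonneg_right hB (Real.exp_pos _).le

end XS92

theorem r_TILT : R_TILT := by
  refine ⟨fun α A Ss x y z hx hz hz1 h => ?_, fun α _ Ts x y z hx hz hz1 h => ?_⟩
  · exact XS92.tilt Ss card hx hz hz1 (fun S hS => (h S hS).2)
      ((sum_pow_le (by positivity) (fun S hS => (h S hS).1)).trans
        (one_add_pow_le_exp (by positivity) _))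
  · refine XS92.tilt Ts ed hx hz hz1 h ((gw_le_of_le (M := ⊤) (by positivity)
      (fun _ _ => le_top)).trans ((one_add_pow_le_exp (by positivity) _).trans
        (Real.exp_le_exp.2 (mul_le_mul_of_nonneg_left ?_ (by positivity)))))
    have := two_ed_le (⊤ : Gr α)
    have : ed (⊤ : Gr α) ≤ Fintype.card α ^ 2 := by omega
    exact_mod_cast this

theorem r_ZD : R_ZD := by
  intro hT R δ hR hδ
  have hR0 : 0 < R := by linarith
  obtain ⟨z, hz, hz1, hz2⟩ : ∃ z : ℝ, 0 < z ∧ z ≤ 1 ∧ z * R ≤ δ / 2 :=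
    ⟨min 1 (δ / (2 * R)), by positivity, min_le_left _ _, by
      have := mul_le_mul_of_nonneg_right (min_le_right 1 (δ / (2 * R))) hR0.le
      have e : δ / (2 * R) * R = δ / 2 := by field_simp
      linarith⟩
  have hl := Real.log_nonpos hz.le hz1
  obtain ⟨ζ, h0, h1⟩ : ∃ ζ : ℝ, 0 < ζ ∧ -(ζ * Real.log z) ≤ δ / 2 :=
    ⟨δ / (2 * (1 - Real.log z)), by apply div_pos hδ; linarith, by
      rw [← mul_neg, div_mul_eq_mul_div, div_le_div_iff₀ (by linarith) (by norm_num)]
      nlinarith⟩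
  have key : ∀ x N : ℝ, x ≤ R → 0 ≤ N → z * x * N - ζ * N * Real.log z ≤ δ * N := by
    intro x N hx hN
    have : z * x ≤ z * R := mul_le_mul_of_nonneg_left hx hz.le
    nlinarith
  refine ⟨ζ, h0, fun α _ x Ts hx hxR h => ?_, fun α _ x Ss hx hxR h => ?_⟩
  · exact (hT.2 α Ts x _ z hx hz hz1 h).trans (Real.exp_le_exp.2 (key x _ hxR (by positivity)))
  · have := hT.1 α univ Ss x _ z hx hz hz1 (fun S hS => ⟨subset_univ _, h S hS⟩)
    rw [card_univ] at this
    exact this.trans (Real.exp_le_exp.2 (key x _ hxR (by positivity)))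

theorem r_MISS : R_MISS := by
  intro hX hT α R l A Ss hR h1 h2 h
  obtain ⟨hl, -, -, g1, -⟩ := hX R l hR h1 h2
  obtain ⟨-, i2⟩ := XS92.inv_bounds hR h1 h2
  have hR0 : 0 < R := by linarith
  have hz : 0 < 1 / (8 * R ^ 2) := by positivity
  have k1 := hT.1 α A (Ss.image (fun S => A \ S)) l⁻¹ (A.card / (64 * R ^ 3)) (1 / (8 * R ^ 2))
    (by positivity) hz (by rw [div_le_one (by positivity)]; nlinarith) (fun Y hY => by
      obtain ⟨S, hS, rfl⟩ := mem_image.1 hY
      exact ⟨sdiff_subset, (h S hS).2⟩)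
  rw [sum_image (fun S hS S' hS' e => by
    have e' : A \ S = A \ S' := e
    rw [← Finset.sdiff_sdiff_eq_self (h S hS).1, e', Finset.sdiff_sdiff_eq_self (h S' hS').1])] at k1
  have k2 : ∀ S ∈ Ss, l ^ S.card = l ^ A.card * l⁻¹ ^ (A \ S).card := by
    intro S hS
    rw [← card_sdiff_add_card_eq_card (h S hS).1, pow_add, inv_pow]
    field_simp
  rw [sum_congr rfl k2, ← mul_sum]
  refine (mul_le_mul_of_nonneg_left k1 (by positivity)).trans ?_
  have e : (1 + l) ^ A.card = Real.exp (Real.log (1 + l) * A.card) := by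
    rw [mul_comm, Real.exp_nat_mul, Real.exp_log (by positivity)]
  rw [pow_eq_exp hl, e, ← Real.exp_add, ← Real.exp_add]
  refine Real.exp_le_exp.2 ?_
  have hk : (0 : ℝ) ≤ A.card := by positivity
  have k3 : -Real.log (1 / (8 * R ^ 2)) ≤ 8 * R ^ 2 := by
    rw [one_div, Real.log_inv, neg_neg]
    linarith [Real.log_le_sub_one_of_pos (x := 8 * R ^ 2) (by positivity)]
  have k4 : 1 / (8 * R ^ 2) * l⁻¹ * A.card ≤ A.card / (8 * R) := by
    have := mul_le_mul_of_nonneg_right (mul_le_mul_of_nonneg_left i2 hz.le) hk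
    refine this.trans (le_of_eq ?_)
    field_simp
  have k5 : A.card / (64 * R ^ 3) * -Real.log (1 / (8 * R ^ 2)) ≤ A.card / (8 * R) := by
    refine (mul_le_mul_of_nonneg_left k3 (by positivity)).trans (le_of_eq ?_)
    field_simp
    ring
  have k6 := mul_le_mul_of_nonneg_right g1 hk
  have k7 : 1 / (2 * R) * (A.card : ℝ) = A.card / (8 * R) * 4 := by field_simp; ring
  have k8 : (A.card : ℝ) / (4 * R) = A.card / (8 * R) * 2 := by field_simp; ring
  nlinarith

end Pool.Agent.Lib.SPL
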