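import Pool.Agent.Lib.SPL.Kit2
import Pool.Agent.Lib.SPL.Blue2

/-! spl block YB2: many vertices almost complete to the clique are rare (dense range). -/

open scoped Classical
open Finset

noncomputable section

namespace Pool.Agent.Lib.SPL

namespace YB245

theorem phi (hM : St_MISS) {α : Type} [Fintype α] {R l : ℝ} (hR : 1 ≤ R) (h1 : 1 / R ≤ l)
    (h2 : l ≤ R) (K Y : Finset α) (hY : Y ⊆ Kᶜ) (Fs : Finset (α → Finset α))
    (h : ∀ f ∈ Fs, Fam K Kᶜ f ∧ ∀ i ∈ Y, ((K \ f i).card : ℝ) ≤ K.card / (64 * R ^ 3)) :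
    fw l Fs ≤ (1 + l) ^ (K.card * (Fintype.card α - K.card)) *
      Real.exp (-(Y.card * (K.card / (4 * R)))) := by
  have hl : 0 < l := lt_of_lt_of_le (by positivity) h1
  refine (fw_le_fam hl.le (I := Kᶜ)
    (fun i => K.powerset.filter fun S => i ∈ Y → ((K \ S).card : ℝ) ≤ K.card / (64 * R ^ 3))
    (fun i => (1 + l) ^ K.card * if i ∈ Y then Real.exp (-(K.card / (4 * R))) else 1)
    (fun f hf => (h f hf).1.2)
    (fun f hf i hi => mem_filter.2 ⟨mem_powerset.2 ((h f hf).1.1 i hi), (h f hf).2 i⟩)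
    (fun i _ => ?_)).trans (le_of_eq ?_)
  · split_ifs with c
    · exact hM α R l K _ hR h1 h2 fun S hS =>
        ⟨mem_powerset.1 (mem_filter.1 hS).1, (mem_filter.1 hS).2 c⟩
    · rw [mul_one]
      exact sum_pow_le hl.le fun S hS => mem_powerset.1 (mem_filter.1 hS).1
  · rw [prod_mul_distrib, prod_const, ← pow_mul, card_compl, prod_ite_mem, inter_eq_right.2 hY,
      prod_const, ← Real.exp_nat_mul, mul_neg]

end YB245

theorem r_YB2 : R_YB2 := by
  intro hF hZ hM R θ ρ κ hR hθ hρ hκ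
  have hδ : 0 < ρ * κ / (16 * R) := by positivity
  obtain ⟨ζ, hζ, hZ1, -⟩ := hZ R _ hR hδ
  set δ := ρ * κ / (16 * R) with hδe
  refine ⟨2 * δ, ζ, ⌈1 / δ⌉₊, by positivity, hζ, fun α _ l Gs hD hG => ?_⟩
  have hl : 0 < l := lt_of_lt_of_le (by positivity) hD.lo
  set n := Fintype.card α with hn
  have hn1 : (n : ℝ) ≤ δ * n ^ 2 := by
    have h1 : 1 / δ ≤ n := (Nat.le_ceil _).trans (by exact_mod_cast hD.big)
    rw [div_le_iff₀ hδ] at h1
    nlinarith [Nat.cast_nonneg (α := ℝ) n]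
  rw [← sum_ww, mul_sum]
  refine sum_le_sum_label Gs univ (fun K G => Clq G K ∧ κ * n ≤ K.card ∧
      (ed (rs G Kᶜ) : ℝ) ≤ ζ * (n : ℝ) ^ 2 ∧ ρ * n < (big2 θ G K).card) _ _
    (fun _ _ => by positivity) (fun G h => (hG G h).imp fun K hK => ⟨mem_univ _, hK⟩)
    fun K _ t _ ht => ?_
  rcases t.eq_empty_or_nonempty with rfl | ⟨G₀, hG₀⟩
  · rw [sum_empty]
    exact mul_nonneg (Real.exp_pos _).le (ww_pos _ hl _).le
  have hK := (ht G₀ hG₀).2.1
  set P := (1 + l) ^ (K.card * (n - K.card)) with hP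
  have hP0 : 0 ≤ P := by positivity
  have h1 := hF α l K t {⊥} (t.image fun G => rs G Kᶜ)
    (fun _ _ => Real.exp n * (P * Real.exp (-(4 * δ * n ^ 2)))) hl
    (fun G hGt => ⟨?_, mem_image_of_mem _ hGt⟩) fun Γ _ T _ Fs hFs => ?_
  · have h2 := hZ1 α l (t.image fun G => rs G Kᶜ) hl.le hD.hi fun T hT => by
      obtain ⟨G, hGt, rfl⟩ := mem_image.1 hT
      exact (ht G hGt).2.2.1
    have e0 : ed (⊥ : Gr α) = 0 := ed_eq_zero.2 rfl
    simp only [sum_singleton, e0, pow_zero, one_mul] at h1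
    rw [← sum_mul] at h1
    refine le_trans h1 ?_
    have h3 : Real.exp (δ * n ^ 2) * (Real.exp n * Real.exp (-(4 * δ * n ^ 2))) ≤
        Real.exp (-(2 * δ * n ^ 2)) := by
      rw [← Real.exp_add, ← Real.exp_add]
      exact Real.exp_le_exp.2 (by linarith)
    calc l ^ K.card.choose 2 * (gw l (t.image fun G => rs G Kᶜ) *
          (Real.exp n * (P * Real.exp (-(4 * δ * n ^ 2)))))
        ≤ l ^ K.card.choose 2 * (Real.exp (δ * n ^ 2) *
          (Real.exp n * (P * Real.exp (-(4 * δ * n ^ 2))))) := by gcongr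
      _ = Real.exp (δ * n ^ 2) * (Real.exp n * Real.exp (-(4 * δ * n ^ 2))) *
          (l ^ K.card.choose 2 * P) := by ring
      _ ≤ _ := mul_le_mul_of_nonneg_right h3 (by positivity)
  · rw [mem_singleton]
    ext x y
    refine ⟨fun e => ?_, fun e => e.elim⟩
    exact e.1.2 ((ht G hGt).1 x e.2.1 y e.2.2 e.1.1)
  · refine (sum_le_label Fs (univ.filter fun Y : Finset α => Y ⊆ Kᶜ ∧ ρ * n < Y.card)
      (fun Y f => Fam K Kᶜ f ∧ ∀ i ∈ Y, ((K \ f i).card : ℝ) ≤ K.card / (64 * R ^ 3))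
      (fun f => ∏ i, l ^ (f i).card) (P * Real.exp (-(4 * δ * n ^ 2)))
      (fun _ _ => prod_nonneg fun _ _ => by positivity) (fun f hf => ?_)
      fun Y hY s _ hs => ?_).trans ?_
    · obtain ⟨G, hGt, -, -, rfl⟩ := hFs f hf
      refine ⟨big2 θ G K, mem_filter.2 ⟨mem_univ _, filter_subset _ _, (ht G hGt).2.2.2⟩,
        ⟨fun i hi => ?_, fun i hi => crs_of_mem (by simpa using hi)⟩, fun i hi => ?_⟩
      · rw [crs_of_not_mem (mem_compl.1 hi)]
        exact nb_subset _ _ _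
      · rw [crs_of_not_mem (mem_compl.1 (mem_filter.1 hi).1)]
        refine (mem_filter.1 hi).2.trans ?_
        rw [div_eq_mul_one_div, mul_comm]
        exact mul_le_mul_of_nonneg_left hθ (Nat.cast_nonneg _)
    · obtain ⟨hY1, hY2⟩ := (mem_filter.1 hY).2
      refine (YB245.phi hM hR hD.lo hD.hi K Y hY1 s hs).trans
        (mul_le_mul_of_nonneg_left (Real.exp_le_exp.2 (neg_le_neg ?_)) hP0)
      have e : 4 * δ * (n : ℝ) ^ 2 = ρ * n * (κ * n / (4 * R)) := by
        rw [hδe]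
        field_simp
        ring
      rw [e]
      gcongr
    · refine mul_le_mul_of_nonneg_right ?_ (by positivity)
      simpa using card_subsets_exp (A := (univ : Finset α)) fun S _ => subset_univ S

end Pool.Agent.Lib.SPL
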