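import Pool.Agent.Lib.SPL.Kit2

/-! spl block YBIG: many vertices with half of the clique as neighbours are rare. -/

open scoped Classical
open Finset

noncomputable section

namespace Pool.Agent.Lib.SPL

namespace YBIG93

theorem phi {α : Type} [Fintype α] {l : ℝ} (hl : 0 < l) (hb : 4 ≤ bb l) (K Y : Finset α)
    (hY : Y ⊆ Kᶜ) (Fs : Finset (α → Finset α))
    (h : ∀ f ∈ Fs, Fam K Kᶜ f ∧ ∀ i ∈ Y, K.card ≤ 2 * (f i).card) :
    fw l Fs ≤ (1 + l) ^ (K.card * (Fintype.card α - K.card)) *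
      Real.exp (-(Y.card * (bb l * K.card / 4))) := by
  refine (fw_le_fam hl.le (I := Kᶜ)
    (fun i => K.powerset.filter fun S => i ∈ Y → K.card ≤ 2 * S.card)
    (fun i => (1 + l) ^ K.card * if i ∈ Y then Real.exp (-(bb l * K.card / 4)) else 1)
    (fun f hf => (h f hf).1.2)
    (fun f hf i hi => mem_filter.2 ⟨mem_powerset.2 ((h f hf).1.1 i hi), (h f hf).2 i⟩)
    (fun i _ => ?_)).trans (le_of_eq ?_)
  · split_ifs with c
    · refine le_trans ?_ (le_mul_of_one_le_left (Real.exp_pos _).le (one_le_pow₀ (by linarith)))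
      exact sum_big_le hl hb fun S hS =>
        ⟨mem_powerset.1 (mem_filter.1 hS).1, (mem_filter.1 hS).2 c⟩
    · rw [mul_one]
      exact sum_pow_le hl.le fun S hS => mem_powerset.1 (mem_filter.1 hS).1
  · rw [prod_mul_distrib, prod_const, ← pow_mul, card_compl, prod_ite_mem, inter_eq_right.2 hY,
      prod_const, ← Real.exp_nat_mul, mul_neg]

end YBIG93

theorem r_YBIG : R_YBIG := by
  intro hF hZ
  obtain ⟨δ, hδe⟩ : ∃ δ : ℝ, δ = 1 / 1600000 := ⟨_, rfl⟩
  have hδ : 0 < δ := by rw [hδe]; norm_num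
  obtain ⟨ζ, ω, hζ, hZ1⟩ := hZ δ hδ
  refine ⟨2 * δ, ζ, max ω 1600000, by positivity, hζ, fun α _ l Gs hD hG => ?_⟩
  have hl : 0 < l := hD.pos
  have hω : (1600000 : ℝ) ≤ max ω 1600000 := le_max_right _ _
  have hω1 : (1 : ℝ) ≤ max ω 1600000 := by linarith
  have hb : 4 ≤ bb l := by linarith [hD.hb]
  set n := Fintype.card α with hn
  have hn1 : (n : ℝ) ≤ δ * QQ n l := by
    have h1 := hD.D_ge hω1
    have h2 := le_self_pow₀ (hD.L_ge hω1) (show 5 ≠ 0 by norm_num)
    have h3 := hD.hL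
    have h4 := hD.n_pos hω1
    rw [hδe, QQ]
    nlinarith
  have he := hD.ell_pos hω1
  rw [← sum_ww, mul_sum]
  refine sum_le_sum_label Gs univ (fun K G => Clq G K ∧ ell n l / 2 ≤ K.card ∧
      (ed (rs G Kᶜ) : ℝ) ≤ ζ * QQ n l ∧ ell n l / 50000 < (big G K).card) _ _
    (fun _ _ => by positivity) (fun G h => (hG G h).2.imp fun K hK => ⟨mem_univ _, hK⟩)
    fun K _ t hts ht => ?_
  rcases t.eq_empty_or_nonempty with rfl | ⟨G₀, hG₀⟩
  · rw [sum_empty]
    exact mul_nonneg (Real.exp_pos _).le (ww_pos _ hl _).le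
  have hK := (ht G₀ hG₀).2.1
  set P := (1 + l) ^ (K.card * (n - K.card)) with hP
  have hP0 : 0 ≤ P := by positivity
  have h1 := hF α l K t {⊥} (t.image fun G => rs G Kᶜ)
    (fun _ _ => Real.exp n * (P * Real.exp (-(4 * δ * QQ n l)))) hl
    (fun G hGt => ⟨?_, mem_image_of_mem _ hGt⟩) fun Γ _ T _ Fs hFs => ?_
  · have h2 := hZ1 α l (t.image fun G => rs G Kᶜ) (hD.mono (le_max_left _ _)) fun T hT => by
      obtain ⟨G, hGt, rfl⟩ := mem_image.1 hT
      exact ⟨(hG G (hts hGt)).1.rs _, (ht G hGt).2.2.1⟩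
    have e0 : ed (⊥ : Gr α) = 0 := ed_eq_zero.2 rfl
    simp only [sum_singleton, e0, pow_zero, one_mul] at h1
    rw [← sum_mul] at h1
    refine le_trans h1 ?_
    have h3 : Real.exp (δ * QQ n l) * (Real.exp n * Real.exp (-(4 * δ * QQ n l))) ≤
        Real.exp (-(2 * δ * QQ n l)) := by
      rw [← Real.exp_add, ← Real.exp_add]
      exact Real.exp_le_exp.2 (by linarith)
    calc l ^ K.card.choose 2 * (gw l (t.image fun G => rs G Kᶜ) *
          (Real.exp n * (P * Real.exp (-(4 * δ * QQ n l)))))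
        ≤ l ^ K.card.choose 2 * (Real.exp (δ * QQ n l) *
          (Real.exp n * (P * Real.exp (-(4 * δ * QQ n l))))) := by gcongr
      _ = Real.exp (δ * QQ n l) * (Real.exp n * Real.exp (-(4 * δ * QQ n l))) *
          (l ^ K.card.choose 2 * P) := by ring
      _ ≤ _ := mul_le_mul_of_nonneg_right h3 (by positivity)
  · rw [mem_singleton]
    ext x y
    refine ⟨fun e => ?_, fun e => e.elim⟩
    exact e.1.2 ((ht G hGt).1 x e.2.1 y e.2.2 e.1.1)
  · refine (sum_le_label Fs (univ.filter fun Y : Finset α => Y ⊆ Kᶜ ∧ ell n l / 50000 < Y.card)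
      (fun Y f => Fam K Kᶜ f ∧ ∀ i ∈ Y, K.card ≤ 2 * (f i).card)
      (fun f => ∏ i, l ^ (f i).card) (P * Real.exp (-(4 * δ * QQ n l)))
      (fun _ _ => prod_nonneg fun _ _ => by positivity) (fun f hf => ?_)
      fun Y hY s _ hs => ?_).trans ?_
    · obtain ⟨G, hGt, -, -, rfl⟩ := hFs f hf
      refine ⟨big G K, mem_filter.2 ⟨mem_univ _, filter_subset _ _, (ht G hGt).2.2.2⟩,
        ⟨fun i hi => ?_, fun i hi => crs_of_mem (by simpa using hi)⟩, fun i hi => ?_⟩
      · rw [crs_of_not_mem (mem_compl.1 hi)]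
        exact nb_subset _ _ _
      · rw [crs_of_not_mem (mem_compl.1 (mem_filter.1 hi).1)]
        exact (mem_filter.1 hi).2
    · obtain ⟨hY1, hY2⟩ := (mem_filter.1 hY).2
      refine (YBIG93.phi hl hb K Y hY1 s hs).trans
        (mul_le_mul_of_nonneg_left (Real.exp_le_exp.2 (neg_le_neg ?_)) hP0)
      have e : 4 * δ * QQ n l = ell n l / 50000 * (bb l * (ell n l / 2) / 4) := by
        rw [hδe, hD.Q_eq hω1]
        ring
      rw [e]
      gcongr
    · refine mul_le_mul_of_nonneg_right ?_ (by positivity)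
      simpa using card_subsets_exp (A := (univ : Finset α)) fun S _ => subset_univ S

end Pool.Agent.Lib.SPL
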