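import Pool.Agent.Lib.SPL.Kit2

/-! Block ZS1: total weight of the graphs without induced 4-cycle on a set. -/

open scoped Classical
open Finset

noncomputable section

namespace Pool.Agent.Lib.SPL

namespace ZS188

variable {α : Type} [Fintype α]

theorem ed_comap {T : Gr α} {X : Finset α} (h : Sup T X) :
    ed (T.comap (Subtype.val : X → α)) = ed T := by
  have h1 := ar_univ (T.comap (Subtype.val : X → α))
  have h2 := h.ar_eq
  rw [ar_eq_sum] at h1 h2
  have h3 : ∑ x : X, ∑ y : X, (if T.Adj x.1 y.1 then 1 else 0) =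
      ∑ x ∈ X, ∑ y ∈ X, if T.Adj x y then 1 else 0 := by
    rw [← sum_coe_sort X]
    exact sum_congr rfl fun x _ => sum_coe_sort X fun y => if T.Adj x.1 y then 1 else 0
  have h4 : 2 * ed (T.comap (Subtype.val : X → α)) = 2 * ed T := by
    rw [← h1, ← h2, ← h3]
    exact sum_congr rfl fun x _ => sum_congr rfl fun y _ => if_congr Iff.rfl rfl rfl
  omega

theorem comap_inj {T T' : Gr α} {X : Finset α} (h : Sup T X) (h' : Sup T' X)
    (e : T.comap (Subtype.val : X → α) = T'.comap Subtype.val) : T = T' := by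
  ext x y
  constructor
  · intro a
    have : (T.comap (Subtype.val : X → α)).Adj ⟨x, (h x y a).1⟩ ⟨y, (h x y a).2⟩ := a
    rwa [e] at this
  · intro a
    have : (T'.comap (Subtype.val : X → α)).Adj ⟨x, (h' x y a).1⟩ ⟨y, (h' x y a).2⟩ := a
    rwa [← e] at this

theorem geo (N : ℕ) : ∑ t ∈ range N, (2 / 3 : ℝ) ^ t ≤ 3 := by
  have h : ∑ t ∈ range N, (2 / 3 : ℝ) ^ t = 3 - 3 * (2 / 3 : ℝ) ^ N := by
    induction N with
    | zero => simp
    | succ N ih => rw [sum_range_succ, ih]; ring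
  have : (0 : ℝ) ≤ (2 / 3 : ℝ) ^ N := by positivity
  linarith

theorem exp_le (t : ℕ) : Real.exp (-(t : ℝ) / 2) ≤ (2 / 3 : ℝ) ^ t := by
  rw [show -(t : ℝ) / 2 = t * (-(1 / 2)) by ring, Real.exp_nat_mul]
  refine pow_le_pow_left₀ (Real.exp_pos _).le ?_ _
  rw [Real.exp_neg, inv_le_comm₀ (Real.exp_pos _) (by norm_num)]
  linarith [Real.add_one_le_exp (1 / 2 : ℝ)]

end ZS188

open ZS188 in
theorem r_ZS1 : R_ZS1 := by
  intro hA δ hδ
  obtain ⟨ω, hω⟩ := hA (min δ (1 / 2)) (lt_min hδ (by norm_num))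
  refine ⟨max ω 1, fun α _ l X Ts hR hT => ?_⟩
  have hb : 0 < bb l := lt_of_lt_of_le one_pos ((le_max_right _ _).trans hR.hb)
  have hR' : Reg ω (Fintype.card α) l := ⟨hR.pos, (le_max_left _ _).trans hR.hb,
    (le_max_left _ _).trans hR.hL,
    (mul_le_mul_of_nonneg_right (le_max_left _ _) (by positivity)).trans hR.hD⟩
  have hl := hR.pos
  have hD : 0 ≤ X.card * DD (Fintype.card α) l := by unfold DD; positivity
  set A := Real.exp (δ * (X.card * DD (Fintype.card α) l) +
    30 * (X.card : ℝ) ^ 2 * l ^ 2 / bb l) with hAdef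
  have hA0 : 0 ≤ A := (Real.exp_pos _).le
  refine (sum_le_sum_label Ts (range (Fintype.card α ^ 2 + 1)) (fun t T => ed T = t)
    (fun T => l ^ ed T) (fun t => A * (2 / 3 : ℝ) ^ t) (fun _ _ => by positivity)
    (fun T _ => ⟨ed T, mem_range.2 (by have := two_ed_le T; omega), rfl⟩)
    fun t _ S hS hS' => ?_).trans ?_
  · have h1 := hω X (Fintype.card α) t l (Real.exp 1)
      (S.image fun T => T.comap (Subtype.val : X → α)) hR'
      (by rw [Fintype.card_coe]; exact card_le_univ X) (Real.exp_pos 1) le_rfl (by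
        intro G hG
        obtain ⟨T, h, rfl⟩ := mem_image.1 hG
        exact ⟨(hT T (hS h)).1.comap _ Subtype.val_injective,
          (ed_comap (hT T (hS h)).2).trans (hS' T h)⟩)
    rw [card_image_of_injOn fun T h T' h' e => comap_inj (hT T (hS h)).2 (hT T' (hS h')).2 e,
      Fintype.card_coe, Real.log_exp] at h1
    rw [sum_congr rfl fun T h => by rw [hS' T h], sum_const, nsmul_eq_mul]
    refine h1.trans (le_trans ?_ (mul_le_mul_of_nonneg_left (exp_le t) hA0))
    rw [hAdef, ← Real.exp_add, Real.exp_le_exp]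
    have h2 : 4 * Real.exp 1 ^ 2 ≤ 30 := by
      nlinarith [Real.exp_one_lt_d9, Real.exp_pos 1]
    have h3 : 4 * Real.exp 1 ^ 2 * (X.card : ℝ) ^ 2 * l ^ 2 / bb l ≤
        30 * (X.card : ℝ) ^ 2 * l ^ 2 / bb l := by gcongr
    have h4 := mul_le_mul_of_nonneg_right (min_le_left δ (1 / 2)) hD
    have h5 := mul_le_mul_of_nonneg_right (min_le_right δ (1 / 2)) (Nat.cast_nonneg (α := ℝ) t)
    rw [mul_add]
    linarith
  · rw [← mul_sum, mul_comm]
    exact mul_le_mul_of_nonneg_right (geo _) hA0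

end Pool.Agent.Lib.SPL
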