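import Pool.Agent.Lib.SPL.Kit2

/-! Block ZS2: total weight of the graphs with few edges. -/

open scoped Classical
open Finset

namespace Pool.Agent.Lib.SPL

theorem r_ZS2 : R_ZS2 := by
  intro hA δ hδ
  obtain ⟨ω, hω⟩ := hA (δ / 10) (by positivity)
  obtain ⟨y, hy⟩ : ∃ y : ℝ, y = min 1 (δ / 20) := ⟨_, rfl⟩
  have y0 : 0 < y := by rw [hy]; positivity
  have y1 : y ≤ 1 := hy ▸ min_le_left _ _
  have y2 : y ≤ δ / 20 := hy ▸ min_le_right _ _
  have c0 : 0 ≤ -Real.log y := by linarith [Real.log_nonpos y0.le y1]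
  obtain ⟨z, hz⟩ : ∃ z : ℝ, z = min 1 (δ / 5 / (-Real.log y + 1)) := ⟨_, rfl⟩
  have z0 : 0 < z := by rw [hz]; positivity
  have z1 : z ≤ 1 := hz ▸ min_le_left _ _
  have z2 : z * (-Real.log y + 1) ≤ δ / 5 :=
    (le_div_iff₀ (by positivity)).1 (hz ▸ min_le_right _ _)
  refine ⟨z, max ω 1, z0, fun α _ l Ts hR hT => ?_⟩
  have hQ := hR.Q_pos (le_max_right _ _)
  obtain ⟨Q, hQe⟩ : ∃ Q, Q = QQ (Fintype.card α) l := ⟨_, rfl⟩
  rw [← hQe] at hQ hT ⊢
  have hzc : 0 ≤ z * -Real.log y := mul_nonneg z0.le c0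
  have key : ∀ t ∈ range (⌊z * Q⌋₊ + 1),
      ∑ T ∈ Ts with ed T = t, l ^ ed T ≤ Real.exp (3 / 5 * δ * Q) := by
    intro t ht
    have ht' : (t : ℝ) ≤ z * Q :=
      (Nat.le_floor_iff (by positivity)).1 (Nat.lt_succ_iff.1 (mem_range.1 ht))
    have h1 := hω α (Fintype.card α) t l y (Ts.filter fun T => ed T = t)
      (hR.mono (le_max_left _ _)) le_rfl y0
      (y1.trans (Real.one_le_exp zero_le_one))
      fun G hG => ⟨(hT G (mem_filter.1 hG).1).1, (mem_filter.1 hG).2⟩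
    have h2 := gw_of_ed (l := l) (Gs := Ts.filter fun T => ed T = t) fun G hG => (mem_filter.1 hG).2
    rw [← h2] at h1
    refine h1.trans (Real.exp_le_exp.2 ?_)
    have e1 : (Fintype.card α : ℝ) * DD (Fintype.card α) l = Q := hQe.symm
    have e2 : 4 * y ^ 2 * (Fintype.card α : ℝ) ^ 2 * l ^ 2 / bb l = 4 * y ^ 2 * Q := by
      rw [hQe, QQ, DD]; ring
    rw [e1, e2]
    have a1 : (t : ℝ) ≤ Q := ht'.trans (by nlinarith)
    have a2 : (t : ℝ) * -Real.log y ≤ z * Q * -Real.log y := mul_le_mul_of_nonneg_right ht' c0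
    have a3 : z * -Real.log y * Q ≤ δ / 5 * Q :=
      mul_le_mul_of_nonneg_right (by nlinarith) hQ.le
    have a4 : 4 * y ^ 2 * Q ≤ δ / 5 * Q := mul_le_mul_of_nonneg_right (by nlinarith) hQ.le
    have a5 : δ / 10 * (t + Q) ≤ δ / 10 * (Q + Q) :=
      mul_le_mul_of_nonneg_left (by linarith) (by positivity)
    linarith
  have hs := sum_le_card_nsmul _ _ _ key
  rw [sum_fiberwise_of_maps_to fun T hT' => mem_range.2
    (Nat.lt_succ_iff.2 (Nat.le_floor (hT T hT').2)), card_range, nsmul_eq_mul] at hs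
  refine hs.trans ?_
  have b1 : ((⌊z * Q⌋₊ + 1 : ℕ) : ℝ) ≤ Real.exp (2 / 5 * δ * Q) := by
    have := Nat.floor_le (show 0 ≤ z * Q by positivity)
    have h3 : z * Q ≤ 2 / 5 * δ * Q := mul_le_mul_of_nonneg_right (by nlinarith) hQ.le
    push_cast
    linarith [Real.add_one_le_exp (2 / 5 * δ * Q)]
  refine (mul_le_mul_of_nonneg_right b1 (Real.exp_pos _).le).trans (le_of_eq ?_)
  rw [← Real.exp_add]
  congr 1
  ring

end Pool.Agent.Lib.SPL
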