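import Mathlib

/-! Definitions for the project spl (sparse induced-C4-free graphs are split).
Paper: /team-store/spl_PAPER.md -/

open scoped Classical
open Finset

noncomputable section

namespace Pool.Agent.Lib.SPL

abbrev Gr (α : Type) := SimpleGraph α

variable {α : Type}

/-- no induced 4-cycle -/
def NoC4 (G : Gr α) : Prop :=
  ∀ a b c d : α, a ≠ c → b ≠ d → G.Adj a b → G.Adj b c → G.Adj c d → G.Adj d a →
    G.Adj a c ∨ G.Adj b d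

def IsSplit (G : Gr α) : Prop := ∃ S : Set α, G.IsClique S ∧ G.IsIndepSet Sᶜ

/-- neighbours of `v` in `A` -/
def nb (G : Gr α) (v : α) (A : Finset α) : Finset α := A.filter (fun x => G.Adj v x)

def dg (G : Gr α) (v : α) (A : Finset α) : ℕ := (nb G v A).card

/-- ordered adjacent pairs inside `A` -/
def ar (G : Gr α) (A : Finset α) : ℕ := ∑ v ∈ A, dg G v A

/-- number of edges -/
def ed (G : Gr α) : ℕ := G.edgeSet.ncard

/-- the edges of `G` inside `A` -/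
def rs (G : Gr α) (A : Finset α) : Gr α where
  Adj x y := G.Adj x y ∧ x ∈ A ∧ y ∈ A
  symm := ⟨fun _ _ h => ⟨h.1.symm, h.2.2, h.2.1⟩⟩
  loopless := ⟨fun x h => G.loopless.1 x h.1⟩

/-- all edges of `G` are inside `A` -/
def Sup (G : Gr α) (A : Finset α) : Prop := ∀ x y, G.Adj x y → x ∈ A ∧ y ∈ A

/-- `S` spans no edge of `G` -/
def Ind (G : Gr α) (S : Finset α) : Prop := ∀ x ∈ S, ∀ y ∈ S, ¬ G.Adj x y

/-- `S` is a clique of `G` -/
def Clq (G : Gr α) (S : Finset α) : Prop := ∀ x ∈ S, ∀ y ∈ S, x ≠ y → G.Adj x y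

/-- `log (N + 1)` -/
def lg (N : ℕ) : ℝ := Real.log ((N : ℝ) + 1)

/-! ### Part A: containers -/

def box (Gs : Finset (Gr α)) (E F : Gr α) : Finset (Gr α) := Gs.filter (fun G => E ≤ G ∧ G ≤ F)

/-- at most `exp x` pregraphs with property `P` cover the family `Gs` -/
def Cov (Gs : Finset (Gr α)) (x : ℝ) (P : Gr α → Gr α → Prop) : Prop :=
  ∃ Cs : Finset (Gr α × Gr α), (Cs.card : ℝ) ≤ Real.exp x ∧ (∀ c ∈ Cs, P c.1 c.2) ∧
    ∀ G ∈ Gs, ∃ c ∈ Cs, c.1 ≤ G ∧ G ≤ c.2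

def Mstep (E F : Gr α) (y : ℝ) (E' F' : Gr α) : Prop :=
  E' = E ∧ E ≤ F' ∧ F' ≤ F ∧ (ed F' : ℝ) + y ≤ ed F

def Estep (E F : Gr α) (y : ℝ) (E' F' : Gr α) : Prop :=
  F' = F ∧ E ≤ E' ∧ E' ≤ F ∧ (ed E : ℝ) + y ≤ ed E'

def wgt (E : Gr α) (C : Finset α) (τ : ℝ) (u : α) : ℝ := 1 / (1 + (dg E u C : ℝ) + τ)

structure Rich (ε : ℝ) (E F : Gr α) (V C : Finset α) (B : α → Finset α) (d : ℕ) : Prop where
  vpos : V.Nonempty
  dpos : 0 < d
  sub : C ⊆ V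
  bsub : ∀ u ∈ C, B u ⊆ nb (F \ E) u V
  bcard : ∀ u ∈ C, (B u).card = d
  mass : (1 + ε) * (V.card : ℝ) ^ 2 ≤
    ∑ u ∈ C, wgt E C (ε * (d : ℝ) ^ 2 / V.card) u * (ar Eᶜ (B u) : ℝ)

def Leaf [Fintype α] (ε Λ : ℝ) (E F : Gr α) : Prop :=
  ∀ (V C : Finset α) (B : α → Finset α) (d : ℕ), Rich ε E F V C B d →
    (d : ℝ) ^ 2 * V.card < ε ^ 2 * Λ ^ 2 * Fintype.card α

/-- the vertices of `B` with an `H`-neighbour in `T` -/
def nbs (H : Gr α) (T B : Finset α) : Finset α := B.filter (fun x => ∃ y ∈ T, H.Adj y x)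

def excl (H : Gr α) (B : Finset α) (a : ℝ) (T : Finset α) : Finset α :=
  nbs H T B ∪ B.filter (fun x => a ≤ ((nb H x B \ nbs H T B).card : ℝ))

/-- the monochromatic edges of `G` -/
def mo (G : Gr α) {k : ℕ} (φ : α → Fin k) : Gr α where
  Adj x y := G.Adj x y ∧ φ x = φ y
  symm := ⟨fun _ _ h => ⟨h.1.symm, h.2.symm⟩⟩
  loopless := ⟨fun x h => G.loopless.1 x h.1⟩

/-- the monochromatic non-edges of `G` inside `V` -/
def nR (G : Gr α) {k : ℕ} (φ : α → Fin k) (V : Finset α) : Gr α := rs (mo Gᶜ φ) V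

/-- the elements of `B` whose colour class in `B` has at most `2 d / k` elements -/
def trim {k : ℕ} (φ : α → Fin k) (d : ℕ) (B : Finset α) : Finset α :=
  B.filter (fun x => k * (B.filter (fun y => φ y = φ x)).card ≤ 2 * d)

/-- what the colouring step delivers -/
structure Pre (ε : ℝ) (E R : Gr α) (V C : Finset α) (B : α → Finset α) (d k : ℕ) : Prop where
  vpos : V.Nonempty
  dpos : 0 < d
  kpos : 0 < k
  sub : C ⊆ V
  bsub : ∀ u ∈ C, B u ⊆ V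
  bcard : ∀ u ∈ C, (B u).card ≤ d
  rdeg : ∀ u ∈ C, ∀ x ∈ B u, k * dg R x (B u) ≤ 2 * d
  mass : (1 + ε / 4) * (ar R V : ℝ) + ε * (V.card : ℝ) ^ 2 / (4 * k) ≤
    ∑ u ∈ C, wgt E C (ε * (d : ℝ) ^ 2 / V.card) u * (ar R (B u) : ℝ)

/-- the centres at which the pair `x y` can still be added -/
def cen (C : Finset α) (B : α → Finset α) (Γ : α → Gr α) (θ ν' : ℕ) (x y : α) : Finset α :=
  C.filter (fun u => x ∈ B u ∧ y ∈ B u ∧ dg (Γ u) x (B u) + ν' ≤ θ ∧ dg (Γ u) y (B u) + ν' ≤ θ ∧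
    ¬ (Γ u).Adj x y)

theorem cen_comm (C : Finset α) (B : α → Finset α) (Γ : α → Gr α) (θ ν' : ℕ) (x y : α) :
    cen C B Γ θ ν' x y = cen C B Γ θ ν' y x := by
  unfold cen
  refine Finset.filter_congr (fun u _ => ?_)
  rw [(Γ u).adj_comm x y]
  tauto

/-- the elements of `S` different from `w` and not `E`-adjacent to it -/
def far (E : Gr α) (w : α) (S : Finset α) : Finset α := S.filter (fun u => u ≠ w ∧ ¬ E.Adj w u)

/-- the pairs served at the centre `w` -/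
def lam (E R : Gr α) (C : Finset α) (B : α → Finset α) (Γ : α → Gr α) (θ ν' v : ℕ) (w : α) :
    Gr α where
  Adj x y := R.Adj x y ∧ w ∈ cen C B Γ θ ν' x y ∧ v ≤ (far E w (cen C B Γ θ ν' x y)).card
  symm := ⟨fun x y h => by rw [cen_comm C B Γ θ ν' y x]; exact ⟨h.1.symm, h.2⟩⟩
  loopless := ⟨fun x h => R.loopless.1 x h.1⟩

/-- a subgraph of `H` with degrees at most `θ` in `B` and the most pairs in `B` (see `cap_spec`) -/
def cap (H : Gr α) (B : Finset α) (θ : ℕ) : Gr α :=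
  Classical.epsilon (fun K : Gr α => K ≤ H ∧ (∀ x ∈ B, dg K x B ≤ θ) ∧
    ∀ K' : Gr α, K' ≤ H → (∀ x ∈ B, dg K' x B ≤ θ) → ar K' B ≤ ar K B)

/-- the pairs forbidden at `u` by a vertex of `W` -/
def full (G R : Gr α) (B : α → Finset α) (W : Finset α) (u : α) : Gr α where
  Adj x y := R.Adj x y ∧ x ∈ B u ∧ y ∈ B u ∧ ∃ w ∈ W, w ≠ u ∧ ¬ G.Adj w u ∧ G.Adj w x ∧ G.Adj w y
  symm := ⟨fun _ _ h => by
    obtain ⟨h1, h2, h3, w, h4, h5, h6, h7, h8⟩ := h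
    exact ⟨h1.symm, h3, h2, w, h4, h5, h6, h8, h7⟩⟩
  loopless := ⟨fun x h => R.loopless.1 x h.1⟩

def gam (G R : Gr α) (B : α → Finset α) (θ : ℕ) (W : Finset α) (u : α) : Gr α :=
  cap (full G R B W u) (B u) θ

/-- `v` chosen elements of `S` (see `sel_spec`) -/
def sel (S : Finset α) (v : ℕ) : Finset α :=
  Classical.epsilon (fun T : Finset α => T ⊆ S ∧ T.card = min v S.card)

def asel (E : Gr α) (C : Finset α) (B : α → Finset α) (Γ : α → Gr α) (θ ν' v : ℕ) (w : α)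
    (p : α × α) : Finset α := sel (far E w (cen C B Γ θ ν' p.1 p.2)) v

/-- numeric side conditions of one round -/
structure Par (ε t g : ℝ) (i d k ν ν' θ v Δ W0 j0 : ℕ) : Prop where
  tpos : 0 < t
  kpos : 0 < k
  npos : 0 < ν
  npos' : 0 < ν'
  vpos : 0 < v
  hg : 8 * g ≤ ε ^ 2 * d
  hk : 32 * (k : ℝ) ≤ ε ^ 2 * d
  h1 : 2 * ν' ≤ θ
  h2 : k * θ ≤ d
  h3 : 800 * (d : ℝ) ≤ ε ^ 2 * θ * ν
  h4 : 400 * (k : ℝ) * ν' ≤ ε ^ 2 * ν
  h5 : 3200 * (ν : ℝ) ≤ ε ^ 2 * d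
  h6 : 4 * (i : ℝ) * v ≤ ε ^ 2 * (d : ℝ) ^ 2
  h7 : 256 * t ≤ ε ^ 2 * i * Δ
  h8 : 2 * i * d * θ ≤ W0 * (ν * ν' * v)
  h9 : 128 * (W0 : ℝ) ≤ ε ^ 2 * i
  h10 : 16 * t / (ε ^ 2 * k) + (W0 : ℝ) * Δ ≤ j0

def xM (N i k ν j0 : ℕ) : ℝ :=
  N * Real.log k + 2 * N + 2 * j0 * lg N + 3 * ν * i * lg N + 1

def xE (N i k v j0 : ℕ) : ℝ :=
  N * Real.log k + 2 * N + 2 * j0 * lg N + i * (2 * lg N + v)

/-- the scale at which leaves are taken -/
def scl [Fintype α] (t b : ℝ) (E F : Gr α) : ℝ :=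
  max ((ed (F \ E) : ℝ) / Fintype.card α) (Real.sqrt (t / b))

/-- numeric hypotheses of the container theorem -/
structure Tha (ω ε t b χ : ℝ) (N : ℕ) : Prop where
  hL : ω ≤ Real.log N
  b1 : 1 ≤ b
  b2 : b ≤ Real.log N
  ht : ω * ((N : ℝ) ^ 4 * Real.log N ^ 10) ≤ t ^ 3
  c1 : 25600 / ε ^ 4 ≤ χ
  c2 : Real.exp (-χ) * b ≤ ε ^ 7 / 1024

/-- every leaf holds few members of the family -/
def LeafBd [Fintype α] (ε t b χ B0 : ℝ) (Gs : Finset (Gr α)) : Prop :=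
  ∀ E F : Gr α, E ≤ F → (ed E : ℝ) ≤ t → Leaf ε (scl t b E F) E F →
    ((box Gs E F).card : ℝ) ≤ B0 * Real.exp (-χ * ed E)

/-! ### Part A': leaves -/

structure Det (ε t b : ℝ) (N : ℕ) : Prop where
  e0 : 0 < ε
  e1 : ε ≤ 1 / 100
  npos : 0 < N
  b1 : 1 ≤ b
  h1 : 16 * b ^ 3 * t ≤ ε ^ 14 * (N : ℝ) ^ 2
  h2 : (N : ℝ) ≤ ε ^ 3 * (t / b)

/-- every nonempty set has a vertex of small `M`-degree -/
def Peel [Fintype α] (κ y : ℝ) (E M : Gr α) : Prop :=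
  ∀ V : Finset α, V.Nonempty → ∃ v ∈ V, (dg M v V : ℝ) <
    κ * Real.sqrt (ar E V) + y * Real.sqrt ((Fintype.card α : ℝ) / V.card) + 1

/-- a matching of `H`, as a set of ordered pairs with disjoint ends -/
def Mat (H : Gr α) (P : Finset (α × α)) : Prop :=
  (∀ p ∈ P, H.Adj p.1 p.2) ∧
    ∀ p ∈ P, ∀ q ∈ P, p ≠ q → p.1 ≠ q.1 ∧ p.1 ≠ q.2 ∧ p.2 ≠ q.1 ∧ p.2 ≠ q.2

/-- the ends of the pairs -/
def vs (P : Finset (α × α)) : Finset α := P.image Prod.fst ∪ P.image Prod.snd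

/-- `Z` meets every edge -/
def Cvr (H : Gr α) (Z : Finset α) : Prop := ∀ x y, H.Adj x y → x ∈ Z ∨ y ∈ Z

/-! ### Part B: weights -/

def bb (l : ℝ) : ℝ := -Real.log l
def ell (n : ℕ) (l : ℝ) : ℝ := n * l / bb l
def DD (n : ℕ) (l : ℝ) : ℝ := n * l ^ 2 / bb l
def QQ (n : ℕ) (l : ℝ) : ℝ := n * DD n l

structure Reg (ω : ℝ) (n : ℕ) (l : ℝ) : Prop where
  pos : 0 < l
  hb : ω ≤ bb l
  hL : ω ≤ Real.log n
  hD : ω * ((n : ℝ) * Real.log n ^ 10) ≤ DD n l ^ 3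

/-- weight of a family of graphs -/
def gw (l : ℝ) (Gs : Finset (Gr α)) : ℝ := ∑ G ∈ Gs, l ^ ed G

def ww (n : ℕ) (l : ℝ) (k : ℕ) : ℝ := l ^ k.choose 2 * (1 + l) ^ (k * (n - k))

def WW (n : ℕ) (l : ℝ) : ℝ := ∑ k ∈ range (n + 1), (n.choose k : ℝ) * ww n l k

def Good [Fintype α] (z l : ℝ) (G : Gr α) : Prop :=
  ∃ K : Finset α, Clq G K ∧ (1 - 100 * z) * ell (Fintype.card α) l ≤ K.card ∧
    (K.card : ℝ) ≤ ell (Fintype.card α) l + 1 ∧
    (ed (rs G Kᶜ) : ℝ) ≤ 1000 * z * QQ (Fintype.card α) l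

/-! ### Part C: the exact step -/

/-- `f` assigns a subset of `A` to each element of `I` and nothing elsewhere -/
def Fam (A I : Finset α) (f : α → Finset α) : Prop := (∀ i ∈ I, f i ⊆ A) ∧ ∀ i, i ∉ I → f i = ∅

/-- weight of a family of such maps -/
def fw [Fintype α] (l : ℝ) (Fs : Finset (α → Finset α)) : ℝ := ∑ f ∈ Fs, ∏ i, l ^ (f i).card

/-- the neighbourhoods in `A` of the vertices off `A` -/
def crs (G : Gr α) (A : Finset α) (i : α) : Finset α := if i ∈ A then ∅ else nb G i A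

/-- vertices off `K` with at least half of `K` as neighbours -/
def big [Fintype α] (G : Gr α) (K : Finset α) : Finset α :=
  Kᶜ.filter (fun v => K.card ≤ 2 * dg G v K)

structure Cls [Fintype α] (z l : ℝ) (G : Gr α) (A : Finset α) : Prop where
  lo : ell (Fintype.card α) l / 2 ≤ A.card
  hi : (A.card : ℝ) ≤ 2 * ell (Fintype.card α) l
  deg : ∀ x ∈ A, 2000 * dg Gᶜ x A ≤ A.card
  cov : ∃ Z : Finset α, Cvr (rs Gᶜ A) Z ∧ 20000 * Z.card ≤ A.card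
  mis : ∀ u, u ∉ A → A.card ≤ 8000 * (A \ nb G u A).card
  few : (ed (rs G Aᶜ) : ℝ) ≤ z * QQ (Fintype.card α) l

/-- stars with leaves `J`, centres `c j` outside `J`, each used centre has at least `r` leaves -/
structure Stars (J : Finset α) (c : α → α) (r : ℕ) : Prop where
  out : ∀ j ∈ J, c j ∉ J
  fib : ∀ j ∈ J, r ≤ (J.filter (fun j' => c j' = c j)).card

/-- structure of the graph `T` off `A` -/
def Str (T : Gr α) (r s : ℕ) : Prop :=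
  ∃ (P : Finset (α × α)) (J : Finset α) (c : α → α), Mat T P ∧ Cvr T (vs P) ∧ Ind T J ∧
    Stars J c r ∧ (∀ j ∈ J, T.Adj (c j) j) ∧ s = max P.card J.card ∧
    ∃ X : Finset α, X.card ≤ 3 * s ∧ ed (T \ rs T X) ≤ 2 * r * s

/-- structure of the graph `Γ` of non-edges in `A` -/
def GStr (Γ : Gr α) (A : Finset α) (D : ℝ) (ν t : ℕ) : Prop :=
  (∃ P : Finset (α × α), Mat Γ P ∧ Cvr Γ (vs P) ∧ P.card = ν) ∧
  (∃ Y : Finset α, Y ⊆ A ∧ Y.card = t ∧ ∀ x ∈ Y, max (2 * (t : ℝ)) (D / 2000) ≤ dg Γ x A) ∧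
  (A.filter (fun x => max (2 * (t : ℝ) + 2) (D / 2000) ≤ dg Γ x A)).card ≤ t

/-- `f` comes from a graph of the class with the given parts -/
def Src [Fintype α] (z l : ℝ) (A : Finset α) (Γ T : Gr α) (f : α → Finset α) : Prop :=
  ∃ G : Gr α, NoC4 G ∧ Cls z l G A ∧ rs Gᶜ A = Γ ∧ rs G Aᶜ = T ∧ crs G A = f

/-! ### Part D: fixed number of edges -/

/-- the optimal clique size -/
def kk (n : ℕ) (l : ℝ) : ℕ := ⌊n * Real.log (1 + l) / (2 * Real.log (1 + l) + bb l)⌋₊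

/-- `m` is close to the mean number of edges at clique size `kk` -/
def Near (n m : ℕ) (l : ℝ) : Prop :=
  |(m : ℝ) - ((kk n l).choose 2 : ℕ) - ((kk n l * (n - kk n l) : ℕ) : ℝ) * (l / (1 + l))| ≤ 3 * n * l

/-- number of split graphs with `m` edges -/
def nsp (α : Type) (m : ℕ) : ℕ := {G : Gr α | ed G = m ∧ IsSplit G}.ncard

end Pool.Agent.Lib.SPL
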