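import Pool.Agent.Lib.SPL.Hand
import Pool.Agent.Lib.SPL.B_KW
import Pool.Agent.Lib.SPL.B_SHR
import Pool.Agent.Lib.SPL.B_EST
import Pool.Agent.Lib.SPL.B_COL0
import Pool.Agent.Lib.SPL.B_COL
import Pool.Agent.Lib.SPL.B_SRV
import Pool.Agent.Lib.SPL.B_SAT
import Pool.Agent.Lib.SPL.B_TRI
import Pool.Agent.Lib.SPL.B_RND
import Pool.Agent.Lib.SPL.B_PAR
import Pool.Agent.Lib.SPL.B_ITER
import Pool.Agent.Lib.SPL.B_THA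
import Pool.Agent.Lib.SPL.B_MASS
import Pool.Agent.Lib.SPL.B_DP
import Pool.Agent.Lib.SPL.B_DQ
import Pool.Agent.Lib.SPL.B_DR
import Pool.Agent.Lib.SPL.B_L1
import Pool.Agent.Lib.SPL.B_STAB
import Pool.Agent.Lib.SPL.B_CLQ
import Pool.Agent.Lib.SPL.B_BOX
import Pool.Agent.Lib.SPL.B_A1a
import Pool.Agent.Lib.SPL.B_A1b
import Pool.Agent.Lib.SPL.B_A1
import Pool.Agent.Lib.SPL.B_A23
import Pool.Agent.Lib.SPL.B_ZS1
import Pool.Agent.Lib.SPL.B_ZS2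
import Pool.Agent.Lib.SPL.B_FACT
import Pool.Agent.Lib.SPL.B_YBIG
import Pool.Agent.Lib.SPL.B_CLS
import Pool.Agent.Lib.SPL.B_CONS
import Pool.Agent.Lib.SPL.B_NEST
import Pool.Agent.Lib.SPL.B_STAR
import Pool.Agent.Lib.SPL.B_CORE
import Pool.Agent.Lib.SPL.B_TSAV
import Pool.Agent.Lib.SPL.B_TSUM
import Pool.Agent.Lib.SPL.B_IND
import Pool.Agent.Lib.SPL.B_GST
import Pool.Agent.Lib.SPL.B_GSAV
import Pool.Agent.Lib.SPL.B_GSUM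
import Pool.Agent.Lib.SPL.B_CSUM
import Pool.Agent.Lib.SPL.B_DLAM
import Pool.Agent.Lib.SPL.B_DW
import Pool.Agent.Lib.SPL.B_WLOW
import Pool.Agent.Lib.SPL.B_DBIN
import Pool.Agent.Lib.SPL.B_DSPL
import Pool.Agent.Lib.SPL.B_DLOW
import Pool.Agent.Lib.SPL.B_FIN
import Pool.Agent.Lib.SPL.B_XS
import Pool.Agent.Lib.SPL.B_BIGC
import Pool.Agent.Lib.SPL.B_DEC
import Pool.Agent.Lib.SPL.B_CHAIN
import Pool.Agent.Lib.SPL.B_FARB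
import Pool.Agent.Lib.SPL.B_FSUM
import Pool.Agent.Lib.SPL.B_OPT
import Pool.Agent.Lib.SPL.B_WLOW2
import Pool.Agent.Lib.SPL.B_DA1
import Pool.Agent.Lib.SPL.B_DA
import Pool.Agent.Lib.SPL.B_YB2
import Pool.Agent.Lib.SPL.B_CLS2
import Pool.Agent.Lib.SPL.B_TSAV2
import Pool.Agent.Lib.SPL.B_TSUM2
import Pool.Agent.Lib.SPL.B_GSAV2
import Pool.Agent.Lib.SPL.B_GSUM2
import Pool.Agent.Lib.SPL.B_CSUM2
import Pool.Agent.Lib.SPL.B_DENSE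
import Pool.Agent.Lib.SPL.B_DW2
import Pool.Agent.Lib.SPL.B_DLAM2
import Pool.Agent.Lib.SPL.B_DLOW2
import Pool.Agent.Lib.SPL.B_ALL

/-! Assembly of the project spl. -/

namespace Pool.Agent.Lib.SPL

theorem final_main : St_MAIN :=
  main_of
    r_KW r_SHR r_EST r_COL0 r_COL r_SRV r_SAT r_TRI r_RND r_PAR r_ITER r_THA r_MASS r_DP r_DQ
    r_DR r_L1 r_STAB r_CLQ r_BOX r_A1a r_A1b r_A1 r_A23 r_ZS1 r_ZS2 r_FACT r_YBIG r_CLS r_CONS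
    r_NEST r_STAR r_CORE r_TSAV r_TSUM r_IND r_GST r_GSAV r_GSUM r_CSUM r_DLAM r_DW r_WLOW
    r_DBIN r_DSPL r_DLOW r_FIN

theorem final_all : St_ALL :=
  all_of final_main r_CLQ r_FACT r_CONS r_CORE r_IND r_GST r_DBIN r_DSPL
    r_XS r_TILT r_ZD r_MISS r_BIGC r_DEC r_CHAIN r_FARB r_FSUM r_OPT r_WLOW2 r_DA1 r_DA r_YB2
    r_CLS2 r_NEST0 r_STAR0 r_TSAV2 r_TSUM2 r_GSAV2 r_GSUM2 r_CSUM2 r_DENSE r_DW2 r_DLAM2 r_DLOW2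
    r_ALL

end Pool.Agent.Lib.SPL
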