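import Pool.Agent.Lib.SPL.Kit2
import Pool.Agent.Lib.SPL.Blue2

/-! From the finite statements to the form of the hand-in. -/

open scoped Classical
open Finset

noncomputable section

namespace Pool.Agent.Lib.SPL

theorem noC4_iff {α : Type} (G : Gr α) :
    NoC4 G ↔ ¬ (SimpleGraph.cycleGraph 4).IsIndContained G := by
  constructor
  · rintro hG ⟨f⟩
    have a : ∀ x y : Fin 4, G.Adj (f x) (f y) ↔ (SimpleGraph.cycleGraph 4).Adj x y :=
      fun x y => f.map_adj_iff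
    have := hG (f 0) (f 1) (f 2) (f 3) (f.injective.ne (by decide)) (f.injective.ne (by decide))
      ((a _ _).2 (by decide)) ((a _ _).2 (by decide)) ((a _ _).2 (by decide))
      ((a _ _).2 (by decide))
    rw [a, a] at this
    revert this
    decide
  · intro h a b c d h1 h2 e1 e2 e3 e4
    by_contra n
    rw [not_or] at n
    obtain ⟨n1, n2⟩ := n
    have n1' : ¬ G.Adj c a := fun e => n1 e.symm
    have n2' : ¬ G.Adj d b := fun e => n2 e.symm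
    refine h ⟨⟨⟨![a, b, c, d], ?_⟩, ?_⟩⟩
    · intro i j
      have := e1.ne
      have := e2.ne
      have := e3.ne
      have := e4.ne
      fin_cases i <;> fin_cases j <;> simp <;> tauto
    · intro i j
      have := e1.symm
      have := e2.symm
      have := e3.symm
      have := e4.symm
      fin_cases i <;> fin_cases j <;> simp [*] <;> decide

theorem IsSplit.noC4 {α : Type} {G : Gr α} (h : IsSplit G) : NoC4 G := by
  obtain ⟨S, h1, h2⟩ := h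
  intro a b c d n1 n2 e1 e2 e3 e4
  have k : ∀ x y, G.Adj x y → x ∈ S ∨ y ∈ S := fun x y e => by
    by_contra n
    rw [not_or] at n
    exact h2 n.1 n.2 e.ne e
  by_cases ha : a ∈ S
  · by_cases hc : c ∈ S
    · exact Or.inl (h1 ha hc n1)
    · exact Or.inr (h1 ((k _ _ e2).resolve_right hc) ((k _ _ e3).resolve_left hc) n2)
  · exact Or.inr (h1 ((k _ _ e1).resolve_left ha) ((k _ _ e4).resolve_right ha) n2)

theorem ev_log (C δ : ℝ) (hδ : 0 < δ) : ∃ n1 : ℕ, ∀ n : ℕ, n1 ≤ n →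
    C * ((n : ℝ) ^ 4 * Real.log n ^ 10) ≤ (δ * (n : ℝ) ^ 2) ^ 3 := by
  have h := (Real.isLittleO_pow_log_id_atTop (n := 10)).bound
    (c := δ ^ 3 / (|C| + 1)) (by positivity)
  obtain ⟨n1, hn1⟩ := Filter.eventually_atTop.1 (tendsto_natCast_atTop_atTop.eventually h)
  refine ⟨max n1 1, fun n hn => ?_⟩
  have h1 := hn1 n ((le_max_left _ _).trans hn)
  have h2 : (1 : ℝ) ≤ n := by exact_mod_cast (le_max_right _ _).trans hn
  rw [Real.norm_of_nonneg (by positivity), id, Real.norm_of_nonneg (by positivity),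
    div_mul_eq_mul_div, le_div_iff₀ (by positivity)] at h1
  have h3 : C * Real.log n ^ 10 ≤ δ ^ 3 * (n : ℝ) ^ 2 := by
    have a1 : C * Real.log n ^ 10 ≤ (|C| + 1) * Real.log n ^ 10 :=
      mul_le_mul_of_nonneg_right (by linarith [le_abs_self C]) (by positivity)
    have a2 : δ ^ 3 * (n : ℝ) ≤ δ ^ 3 * (n : ℝ) ^ 2 :=
      mul_le_mul_of_nonneg_left (by nlinarith) (by positivity)
    linarith
  have := mul_le_mul_of_nonneg_left h3 (by positivity : 0 ≤ (n : ℝ) ^ 4)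
  linarith

theorem cube_le {C : ℝ} {n m : ℕ} (hn : 1 ≤ n)
    (h : (|C| + 1) * (n : ℝ) ^ ((4 : ℝ) / 3) * Real.log n ^ ((10 : ℝ) / 3) ≤ m) :
    C * ((n : ℝ) ^ 4 * Real.log n ^ 10) ≤ (m : ℝ) ^ 3 := by
  have h1 : (1 : ℝ) ≤ n := by exact_mod_cast hn
  have h2 : 0 ≤ Real.log n := Real.log_nonneg h1
  refine le_trans ?_ (pow_le_pow_left₀ (by positivity) h 3)
  rw [mul_pow, mul_pow, ← Real.rpow_natCast ((n : ℝ) ^ ((4 : ℝ) / 3)),
    ← Real.rpow_mul (by positivity), ← Real.rpow_natCast (Real.log n ^ ((10 : ℝ) / 3)),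
    ← Real.rpow_mul h2, mul_assoc]
  have e1 : (4 : ℝ) / 3 * (3 : ℕ) = (4 : ℕ) := by norm_num
  have e2 : (10 : ℝ) / 3 * (3 : ℕ) = (10 : ℕ) := by norm_num
  rw [e1, e2, Real.rpow_natCast, Real.rpow_natCast]
  refine mul_le_mul_of_nonneg_right ?_ (by positivity)
  have := le_abs_self C
  have : |C| + 1 ≤ (|C| + 1) ^ 3 := le_self_pow₀ (by linarith [abs_nonneg C]) (by norm_num)
  linarith

theorem to_sets {n m : ℕ} {x : ℝ}
    (h : ∀ Gs : Finset (Gr (Fin n)), (∀ G ∈ Gs, NoC4 G ∧ ed G = m ∧ ¬ IsSplit G) →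
      0 < nsp (Fin n) m ∧ (Gs.card : ℝ) ≤ Real.exp x * nsp (Fin n) m) :
    {G : Gr (Fin n) | ed G = m ∧ NoC4 G}.Nonempty ∧
      (({G : Gr (Fin n) | (ed G = m ∧ NoC4 G) ∧ ¬ IsSplit G}.ncard : ℕ) : ℝ) ≤
        Real.exp x * ({G : Gr (Fin n) | ed G = m ∧ NoC4 G}.ncard : ℕ) := by
  have hs : {G : Gr (Fin n) | ed G = m ∧ IsSplit G} ⊆ {G : Gr (Fin n) | ed G = m ∧ NoC4 G} :=
    fun G hG => ⟨hG.1, hG.2.noC4⟩
  obtain ⟨h1, h2⟩ := h (Set.toFinite {G : Gr (Fin n) | (ed G = m ∧ NoC4 G) ∧ ¬ IsSplit G}).toFinset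
    (fun G hG => by
      rw [Set.Finite.mem_toFinset] at hG
      exact ⟨hG.1.2, hG.1.1, hG.2⟩)
  refine ⟨(Set.nonempty_of_ncard_ne_zero h1.ne').mono hs, ?_⟩
  rw [Set.ncard_eq_toFinset_card _ (Set.toFinite _)]
  refine h2.trans (mul_le_mul_of_nonneg_left ?_ (Real.exp_pos _).le)
  exact_mod_cast Set.ncard_le_ncard hs (Set.toFinite _)

theorem hand (hM : St_MAIN) (hA : St_ALL) : ∃ C : ℝ, ∀ c : ℝ, 0 < c → ∃ c' : ℝ, 0 < c' ∧
    ∃ n0 : ℕ, ∀ n m : ℕ, n0 ≤ n →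
      C * (n : ℝ) ^ ((4 : ℝ) / 3) * Real.log n ^ ((10 : ℝ) / 3) ≤ m →
      c * (n : ℝ) ^ 2 ≤ ((n.choose 2 : ℕ) : ℝ) - m →
      {G : Gr (Fin n) | ed G = m ∧ NoC4 G}.Nonempty ∧
      (({G : Gr (Fin n) | (ed G = m ∧ NoC4 G) ∧ ¬ IsSplit G}.ncard : ℕ) : ℝ) ≤
        Real.exp (-(c' * m / n)) * ({G : Gr (Fin n) | ed G = m ∧ NoC4 G}.ncard : ℕ) := by
  obtain ⟨C, δ, c1, n1, hδ, hc1, h1⟩ := hM
  refine ⟨|C| + 1, fun c hc => ?_⟩
  obtain ⟨C2, c2, n2, hc2, h2⟩ := hA c hc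
  obtain ⟨n3, h3⟩ := ev_log C2 δ hδ
  refine ⟨min c1 c2, lt_min hc1 hc2, max (max n1 n2) (max n3 1), fun n m hn a1 a2 => ?_⟩
  simp only [max_le_iff] at hn
  obtain ⟨⟨b1, b2⟩, b3, b4⟩ := hn
  refine to_sets (fun Gs hG => ?_)
  have hmono : ∀ c0 : ℝ, min c1 c2 ≤ c0 → (0 < nsp (Fin n) m ∧
      (Gs.card : ℝ) ≤ Real.exp (-(c0 * m / n)) * nsp (Fin n) m) → 0 < nsp (Fin n) m ∧
      (Gs.card : ℝ) ≤ Real.exp (-(min c1 c2 * m / n)) * nsp (Fin n) m := by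
    intro c0 e h
    refine ⟨h.1, h.2.trans (mul_le_mul_of_nonneg_right (Real.exp_le_exp.2 (neg_le_neg ?_))
      (by positivity))⟩
    gcongr
  by_cases c : (m : ℝ) ≤ δ * (n : ℝ) ^ 2
  · have := h1 (Fin n) m Gs
    rw [Fintype.card_fin] at this
    exact hmono c1 (min_le_left _ _) (this b1 (cube_le b4 a1) c hG)
  · have := h2 (Fin n) m Gs
    rw [Fintype.card_fin] at this
    exact hmono c2 (min_le_right _ _) (this b2 ((h3 n b3).trans
      (pow_le_pow_left₀ (by positivity) (not_le.1 c).le 3)) (by linarith) hG)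

end Pool.Agent.Lib.SPL
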