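import Pool.Agent.Lib.SPL.Kit2

/-! Block products of weights (project spl). -/

open scoped Classical
open Finset

noncomputable section

namespace Pool.Agent.Lib.SPL.K92

variable {α : Type}

theorem split_le {β : Type} {l : ℝ} (hl : 0 ≤ l) (B : Finset β) (Ss Ts Us : Finset (Finset β))
    (h : ∀ S ∈ Ss, S ∩ B ∈ Ts ∧ S \ B ∈ Us) :
    ∑ S ∈ Ss, l ^ S.card ≤ (∑ T ∈ Ts, l ^ T.card) * ∑ U ∈ Us, l ^ U.card := by
  rw [sum_mul_sum, ← sum_product']
  have e : ∑ S ∈ Ss, l ^ S.card =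
      ∑ p ∈ Ss.image (fun S => (S ∩ B, S \ B)), l ^ p.1.card * l ^ p.2.card := by
    rw [sum_image]
    · refine sum_congr rfl (fun S _ => ?_)
      rw [← pow_add, card_inter_add_card_sdiff]
    · intro S _ S' _ e
      have e1 : S ∩ B = S' ∩ B := congrArg Prod.fst e
      have e2 : S \ B = S' \ B := congrArg Prod.snd e
      rw [← sdiff_union_inter S B, ← sdiff_union_inter S' B, e1, e2]
  rw [e]
  refine sum_le_sum_of_subset_of_nonneg (fun p hp => ?_) (fun _ _ _ => by positivity)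
  obtain ⟨S, hS, rfl⟩ := mem_image.1 hp
  exact mem_product.2 (h S hS)

/-- disjoint blocks: the savings multiply -/
theorem blocks_le {β ι : Type} {l : ℝ} (hl : 0 ≤ l) (Bk : ι → Finset β)
    (Ts : ι → Finset (Finset β)) (ρ : ι → ℝ) (J : Finset ι) :
    ∀ (I : Finset β) (Ss : Finset (Finset β)), (∀ j ∈ J, Bk j ⊆ I) →
      (∀ j ∈ J, ∀ j' ∈ J, j ≠ j' → Disjoint (Bk j) (Bk j')) → (∀ j ∈ J, 0 ≤ ρ j) →
      (∀ j ∈ J, ∑ T ∈ Ts j, l ^ T.card ≤ ρ j * (1 + l) ^ (Bk j).card) →
      (∀ S ∈ Ss, S ⊆ I ∧ ∀ j ∈ J, S ∩ Bk j ∈ Ts j) →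
      ∑ S ∈ Ss, l ^ S.card ≤ (1 + l) ^ I.card * ∏ j ∈ J, ρ j := by
  induction J using Finset.induction_on with
  | empty =>
    intro I Ss _ _ _ _ h
    simpa using sum_pow_le hl (fun S hS => (h S hS).1)
  | insert a J ha ih =>
    intro I Ss h1 h2 h3 h4 h5
    have hd : ∀ j ∈ J, Disjoint (Bk j) (Bk a) := fun j hj =>
      h2 j (mem_insert_of_mem hj) a (mem_insert_self _ _) (fun e => ha (e ▸ hj))
    have k1 := split_le hl (Bk a) Ss (Ts a) (Ss.image (fun S => S \ Bk a))
      (fun S hS => ⟨(h5 S hS).2 a (mem_insert_self _ _), mem_image_of_mem _ hS⟩)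
    have k2 := ih (I \ Bk a) (Ss.image (fun S => S \ Bk a))
      (fun j hj => subset_sdiff.2 ⟨h1 j (mem_insert_of_mem hj), hd j hj⟩)
      (fun j hj j' hj' => h2 j (mem_insert_of_mem hj) j' (mem_insert_of_mem hj'))
      (fun j hj => h3 j (mem_insert_of_mem hj)) (fun j hj => h4 j (mem_insert_of_mem hj))
      (fun U hU => by
        obtain ⟨S, hS, rfl⟩ := mem_image.1 hU
        refine ⟨sdiff_subset_sdiff (h5 S hS).1 Subset.rfl, fun j hj => ?_⟩
        have : (S \ Bk a) ∩ Bk j = S ∩ Bk j := by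
          ext x
          simp only [mem_inter, mem_sdiff]
          exact ⟨fun e => ⟨e.1.1, e.2⟩, fun e => ⟨⟨e.1, disjoint_left.1 (hd j hj) e.2⟩, e.2⟩⟩
        rw [this]
        exact (h5 S hS).2 j (mem_insert_of_mem hj))
    have k3 : I.card = (Bk a).card + (I \ Bk a).card := by
      rw [add_comm, card_sdiff_add_card_eq_card (h1 a (mem_insert_self _ _))]
    have k4 := h4 a (mem_insert_self _ _)
    have k5 := h3 a (mem_insert_self _ _)
    refine k1.trans ((mul_le_mul k4 k2 (sum_nonneg (fun _ _ => by positivity))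
      (by positivity)).trans (le_of_eq ?_))
    rw [prod_insert ha, k3, pow_add]
    ring

/-- fix the values off `J`, bound the rest -/
theorem fw_split [Fintype α] {l X : ℝ} (hl : 0 ≤ l) (hX : 0 ≤ X) {A I J : Finset α}
    {Fs : Finset (α → Finset α)} (h : ∀ f ∈ Fs, Fam A I f)
    (hb : ∀ g ∈ Fs, ∀ Hs : Finset (α → Finset α),
      (∀ k ∈ Hs, ∃ f ∈ Fs, (∀ i, i ∉ J → f i = g i) ∧ k = fun i => if i ∈ J then f i else ∅) →
      fw l Hs ≤ X) :
    fw l Fs ≤ (1 + l) ^ (A.card * (I \ J).card) * X := by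
  let r1 : (α → Finset α) → α → Finset α := fun f i => if i ∈ J then ∅ else f i
  let r2 : (α → Finset α) → α → Finset α := fun f i => if i ∈ J then f i else ∅
  have hw : ∀ f : α → Finset α, ∏ i, l ^ (f i).card =
      (∏ i, l ^ (r1 f i).card) * ∏ i, l ^ (r2 f i).card := by
    intro f
    rw [← prod_mul_distrib]
    refine prod_congr rfl (fun i _ => ?_)
    by_cases c : i ∈ J <;> simp [r1, r2, c]
  have k1 := sum_le_sum_label Fs (Fs.image r1) (fun g f => r1 f = g)
    (fun f => ∏ i, l ^ (f i).card) (fun g => (∏ i, l ^ (g i).card) * X)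
    (fun f _ => prod_nonneg (fun _ _ => by positivity))
    (fun f hf => ⟨_, mem_image_of_mem _ hf, rfl⟩)
    (fun g hg t ht hq => by
      obtain ⟨g0, hg0, rfl⟩ := mem_image.1 hg
      have e : ∀ f ∈ t, ∀ i, i ∉ J → f i = g0 i := fun f hf i c => by
        simpa [r1, c] using congrFun (hq f hf) i
      rw [sum_congr rfl (fun f hf => by rw [hw f, hq f hf]), ← mul_sum]
      refine mul_le_mul_of_nonneg_left ?_ (prod_nonneg (fun _ _ => by positivity))
      refine le_trans (le_of_eq ?_) (hb g0 hg0 (t.image r2) (fun k hk => ?_))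
      · rw [fw, sum_image]
        intro f hf f' hf' e'
        funext i
        by_cases c : i ∈ J
        · simpa [r2, c] using congrFun e' i
        · rw [e f hf i c, e f' hf' i c]
      · obtain ⟨f, hf, rfl⟩ := mem_image.1 hk
        exact ⟨f, ht hf, e f hf, rfl⟩)
  rw [← sum_mul] at k1
  refine k1.trans (mul_le_mul_of_nonneg_right ?_ hX)
  refine fw_le_total hl (Fs := Fs.image r1) (fun g hg => ?_)
  obtain ⟨f, hf, rfl⟩ := mem_image.1 hg
  refine ⟨fun i hi => ?_, fun i hi => ?_⟩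
  · have := mem_sdiff.1 hi
    simpa [r1, this.2] using (h f hf).1 i this.1
  · by_cases c : i ∈ J
    · simp [r1, c]
    · have : i ∉ I := fun e => hi (mem_sdiff.2 ⟨e, c⟩)
      simpa [r1, c] using (h f hf).2 i this

end Pool.Agent.Lib.SPL.K92
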