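import Pool.Agent.Lib.SPL.Blue

/-! Shared lemmas of the project spl: counting of edges, labels, covers. -/

open scoped Classical
open Finset

noncomputable section

namespace Pool.Agent.Lib.SPL

variable {α : Type}

/-! ### unfolding -/

@[simp] theorem mem_nb {G : Gr α} {v x : α} {A : Finset α} : x ∈ nb G v A ↔ x ∈ A ∧ G.Adj v x := by
  simp [nb]

@[simp] theorem rs_adj {G : Gr α} {A : Finset α} {x y : α} :
    (rs G A).Adj x y ↔ G.Adj x y ∧ x ∈ A ∧ y ∈ A := Iff.rfl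

@[simp] theorem mo_adj {G : Gr α} {k : ℕ} {φ : α → Fin k} {x y : α} :
    (mo G φ).Adj x y ↔ G.Adj x y ∧ φ x = φ y := Iff.rfl

theorem nR_adj {G : Gr α} {k : ℕ} {φ : α → Fin k} {V : Finset α} {x y : α} :
    (nR G φ V).Adj x y ↔ ((x ≠ y ∧ ¬ G.Adj x y) ∧ φ x = φ y) ∧ x ∈ V ∧ y ∈ V := Iff.rfl

theorem full_adj {G R : Gr α} {B : α → Finset α} {W : Finset α} {u x y : α} :
    (full G R B W u).Adj x y ↔ R.Adj x y ∧ x ∈ B u ∧ y ∈ B u ∧
      ∃ w ∈ W, w ≠ u ∧ ¬ G.Adj w u ∧ G.Adj w x ∧ G.Adj w y := Iff.rfl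

theorem lam_adj {E R : Gr α} {C : Finset α} {B : α → Finset α} {Γ : α → Gr α} {θ ν' v : ℕ}
    {w x y : α} : (lam E R C B Γ θ ν' v w).Adj x y ↔ R.Adj x y ∧ w ∈ cen C B Γ θ ν' x y ∧
      v ≤ (far E w (cen C B Γ θ ν' x y)).card := Iff.rfl

theorem mem_cen {C : Finset α} {B : α → Finset α} {Γ : α → Gr α} {θ ν' : ℕ} {x y u : α} :
    u ∈ cen C B Γ θ ν' x y ↔ u ∈ C ∧ x ∈ B u ∧ y ∈ B u ∧ dg (Γ u) x (B u) + ν' ≤ θ ∧
      dg (Γ u) y (B u) + ν' ≤ θ ∧ ¬ (Γ u).Adj x y := by simp [cen]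

theorem mem_far {E : Gr α} {w u : α} {S : Finset α} :
    u ∈ far E w S ↔ u ∈ S ∧ u ≠ w ∧ ¬ E.Adj w u := by simp [far]

@[simp] theorem mem_box {Gs : Finset (Gr α)} {E F G : Gr α} :
    G ∈ box Gs E F ↔ G ∈ Gs ∧ E ≤ G ∧ G ≤ F := by simp [box]

theorem mem_nbs {H : Gr α} {T B : Finset α} {x : α} :
    x ∈ nbs H T B ↔ x ∈ B ∧ ∃ y ∈ T, H.Adj y x := by simp [nbs]

theorem excl_subset (H : Gr α) (B : Finset α) (a : ℝ) (T : Finset α) : excl H B a T ⊆ B :=
  union_subset (filter_subset _ _) (filter_subset _ _)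

theorem mem_vs {P : Finset (α × α)} {x : α} : x ∈ vs P ↔ ∃ p ∈ P, p.1 = x ∨ p.2 = x := by
  simp only [vs, mem_union, mem_image]
  constructor
  · rintro (⟨p, hp, h⟩ | ⟨p, hp, h⟩)
    · exact ⟨p, hp, Or.inl h⟩
    · exact ⟨p, hp, Or.inr h⟩
  · rintro ⟨p, hp, h | h⟩
    · exact Or.inl ⟨p, hp, h⟩
    · exact Or.inr ⟨p, hp, h⟩

theorem crs_of_mem {G : Gr α} {A : Finset α} {i : α} (h : i ∈ A) : crs G A i = ∅ := by
  simp [crs, h]

theorem crs_of_not_mem {G : Gr α} {A : Finset α} {i : α} (h : i ∉ A) : crs G A i = nb G i A := by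
  simp [crs, h]

theorem mem_crs {G : Gr α} {A : Finset α} {i x : α} :
    x ∈ crs G A i ↔ i ∉ A ∧ x ∈ A ∧ G.Adj i x := by
  by_cases h : i ∈ A <;> simp [crs, h]

theorem rs_le (G : Gr α) (A : Finset α) : rs G A ≤ G := fun _ _ h => h.1

theorem rs_mono {G G' : Gr α} {A A' : Finset α} (h : G ≤ G') (hA : A ⊆ A') : rs G A ≤ rs G' A' :=
  fun _ _ e => ⟨h e.1, hA e.2.1, hA e.2.2⟩

theorem sup_rs (G : Gr α) (A : Finset α) : Sup (rs G A) A := fun _ _ h => h.2

theorem Sup.rs_eq {G : Gr α} {A : Finset α} (h : Sup G A) : rs G A = G := by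
  ext x y
  exact ⟨fun e => e.1, fun e => ⟨e, h x y e⟩⟩

theorem NoC4.rs {G : Gr α} (h : NoC4 G) (A : Finset α) : NoC4 (rs G A) := by
  intro a b c d h1 h2 e1 e2 e3 e4
  rcases h a b c d h1 h2 e1.1 e2.1 e3.1 e4.1 with e | e
  · exact Or.inl ⟨e, e1.2.1, e2.2.2⟩
  · exact Or.inr ⟨e, e1.2.2, e3.2.2⟩

theorem NoC4.comap {β : Type} {G : Gr α} (h : NoC4 G) (f : β → α) (hf : Function.Injective f) :
    NoC4 (G.comap f) := fun a b c d h1 h2 e1 e2 e3 e4 =>
  h (f a) (f b) (f c) (f d) (hf.ne h1) (hf.ne h2) e1 e2 e3 e4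

/-! ### degrees and pairs -/

theorem nb_subset (G : Gr α) (v : α) (A : Finset α) : nb G v A ⊆ A := filter_subset _ _

theorem nb_mono {G G' : Gr α} {A A' : Finset α} (h : G ≤ G') (hA : A ⊆ A') (v : α) :
    nb G v A ⊆ nb G' v A' := fun _ hx => mem_nb.2 ⟨hA (mem_nb.1 hx).1, h (mem_nb.1 hx).2⟩

theorem dg_mono {G G' : Gr α} {A A' : Finset α} (h : G ≤ G') (hA : A ⊆ A') (v : α) :
    dg G v A ≤ dg G' v A' := card_le_card (nb_mono h hA v)

theorem dg_le_card (G : Gr α) (v : α) (A : Finset α) : dg G v A ≤ A.card :=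
  card_le_card (nb_subset G v A)

theorem dg_rs {G : Gr α} {A : Finset α} {v : α} (h : v ∈ A) : dg (rs G A) v A = dg G v A := by
  unfold dg
  congr 1
  ext x
  simp [h]
  tauto

theorem dg_eq_sum (G : Gr α) (v : α) (A : Finset α) :
    dg G v A = ∑ x ∈ A, if G.Adj v x then 1 else 0 := by
  simp [dg, nb]

theorem ar_mono {G G' : Gr α} {A A' : Finset α} (h : G ≤ G') (hA : A ⊆ A') :
    ar G A ≤ ar G' A' :=
  (sum_le_sum (fun v _ => dg_mono h hA v)).trans (sum_le_sum_of_subset hA)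

theorem ar_eq_sum (G : Gr α) (A : Finset α) :
    ar G A = ∑ x ∈ A, ∑ y ∈ A, if G.Adj x y then 1 else 0 := by
  simp only [ar, dg_eq_sum]

theorem ar_cast (G : Gr α) (A : Finset α) :
    (ar G A : ℝ) = ∑ x ∈ A, ∑ y ∈ A, if G.Adj x y then (1 : ℝ) else 0 := by
  rw [ar_eq_sum]
  push_cast
  rfl

theorem ar_eq_card (G : Gr α) (A : Finset α) :
    ar G A = ((A ×ˢ A).filter (fun p => G.Adj p.1 p.2)).card := by
  rw [ar_eq_sum, card_filter, sum_product]

theorem ar_rs (G : Gr α) (A : Finset α) : ar (rs G A) A = ar G A :=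
  sum_congr rfl (fun _ h => dg_rs h)

theorem ar_le_mul {G : Gr α} {A : Finset α} {θ : ℕ} (h : ∀ x ∈ A, dg G x A ≤ θ) :
    ar G A ≤ A.card * θ := by
  simpa [ar] using sum_le_card_nsmul A _ θ h

/-- double counting -/
theorem sum_dg_comm (G : Gr α) (A B : Finset α) : ∑ x ∈ A, dg G x B = ∑ y ∈ B, dg G y A := by
  simp only [dg_eq_sum]
  rw [sum_comm]
  simp only [G.adj_comm]

theorem dg_add_compl (G : Gr α) {A : Finset α} {v : α} (h : v ∈ A) :
    dg G v A + dg Gᶜ v A + 1 = A.card := by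
  have h1 : nb Gᶜ v A = (A.erase v).filter (fun x => ¬ G.Adj v x) := by
    ext x
    simp only [mem_nb, SimpleGraph.compl_adj, mem_filter, mem_erase]
    tauto
  have h2 : nb G v A = (A.erase v).filter (fun x => G.Adj v x) := by
    ext x
    simp only [mem_nb, mem_filter, mem_erase]
    exact ⟨fun e => ⟨⟨e.2.ne', e.1⟩, e.2⟩, fun e => ⟨e.1.2, e.2⟩⟩
  unfold dg
  rw [h1, h2, card_filter_add_card_filter_not, card_erase_add_one h]

theorem ar_add_compl (G : Gr α) (A : Finset α) :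
    ar G A + ar Gᶜ A + A.card = A.card ^ 2 := by
  have : ∑ v ∈ A, (dg G v A + dg Gᶜ v A + 1) = ∑ _v ∈ A, A.card :=
    sum_congr rfl (fun v h => dg_add_compl G h)
  simpa [sum_add_distrib, ar, sq] using this

theorem ar_add_le (G : Gr α) {A B V : Finset α} (h : Disjoint A B) (hA : A ⊆ V) (hB : B ⊆ V) :
    ar G A + ar G B ≤ ar G V := by
  have h1 : ar G A ≤ ∑ v ∈ A, dg G v V := sum_le_sum (fun v _ => dg_mono le_rfl hA v)
  have h2 : ar G B ≤ ∑ v ∈ B, dg G v V := sum_le_sum (fun v _ => dg_mono le_rfl hB v)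
  have h3 : ∑ v ∈ A ∪ B, dg G v V ≤ ar G V := sum_le_sum_of_subset (union_subset hA hB)
  rw [sum_union h] at h3
  omega

theorem ar_erase (G : Gr α) {V : Finset α} {v : α} (h : v ∈ V) :
    ar G V = ar G (V.erase v) + 2 * dg G v V := by
  have h1 : ∀ x, dg G x V = dg G x (V.erase v) + if G.Adj x v then 1 else 0 := by
    intro x
    rw [dg_eq_sum, dg_eq_sum, ← sum_erase_add _ _ h]
  have h2 : dg G v V = ∑ x ∈ V.erase v, if G.Adj x v then 1 else 0 := by
    rw [h1 v, dg_eq_sum]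
    simp [G.adj_comm]
  unfold ar
  rw [← sum_erase_add _ _ h, sum_congr rfl (fun x _ => h1 x), sum_add_distrib, ← h2]
  omega

/-- pairs in `B` lie in `B ∩ H` or have an end off `H` -/
theorem ar_le_inter (G : Gr α) (B H : Finset α) :
    ar G B ≤ ar G (B ∩ H) + 2 * ∑ x ∈ B \ H, dg G x B := by
  have h1 : ar G B = ∑ x ∈ B ∩ H, dg G x B + ∑ x ∈ B \ H, dg G x B := by
    rw [ar, sum_inter_add_sum_sdiff]
  have h2 : ∀ x, dg G x B = dg G x (B ∩ H) + dg G x (B \ H) := by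
    intro x
    rw [dg_eq_sum, dg_eq_sum, dg_eq_sum, sum_inter_add_sum_sdiff]
  have h3 : ∑ x ∈ B ∩ H, dg G x (B \ H) ≤ ∑ x ∈ B \ H, dg G x B := by
    rw [sum_dg_comm]
    exact sum_le_sum (fun x _ => dg_mono le_rfl inter_subset_left x)
  rw [h1, sum_congr rfl (fun x _ => h2 x), sum_add_distrib]
  unfold ar
  omega

/-! ### edges -/

theorem ed_eq_card [Fintype α] (G : Gr α) : ed G = G.edgeFinset.card := by
  rw [ed, ← Set.ncard_coe_finset, SimpleGraph.coe_edgeFinset]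

@[simp] theorem ed_bot : ed (⊥ : Gr α) = 0 := by simp [ed]

theorem ed_mono [Fintype α] {G G' : Gr α} (h : G ≤ G') : ed G ≤ ed G' :=
  Set.ncard_le_ncard (SimpleGraph.edgeSet_mono h) (Set.toFinite _)

theorem ed_eq_zero [Fintype α] {G : Gr α} : ed G = 0 ↔ G = ⊥ := by
  rw [ed, Set.ncard_eq_zero (Set.toFinite _), SimpleGraph.edgeSet_eq_empty]

theorem ed_sup_le (G G' : Gr α) : ed (G ⊔ G') ≤ ed G + ed G' := by
  rw [ed, SimpleGraph.edgeSet_sup]
  exact Set.ncard_union_le _ _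

theorem ed_sup_of_disjoint [Fintype α] {G G' : Gr α} (h : Disjoint G G') :
    ed (G ⊔ G') = ed G + ed G' := by
  rw [ed, SimpleGraph.edgeSet_sup]
  exact Set.ncard_union_eq (SimpleGraph.disjoint_edgeSet.2 h) (Set.toFinite _) (Set.toFinite _)

theorem ed_sdiff [Fintype α] {E F : Gr α} (h : E ≤ F) : ed (F \ E) + ed E = ed F := by
  rw [← ed_sup_of_disjoint disjoint_sdiff_self_left, sdiff_sup_cancel h]

theorem ed_le_sdiff_add [Fintype α] (G E : Gr α) : ed G ≤ ed (G \ E) + ed E :=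
  (ed_mono le_sdiff_sup).trans (ed_sup_le _ _)

theorem ar_univ [Fintype α] (G : Gr α) : ar G univ = 2 * ed G := by
  rw [ed_eq_card, ← SimpleGraph.sum_degrees_eq_twice_card_edges, ar]
  refine sum_congr rfl (fun v _ => ?_)
  rw [dg, ← SimpleGraph.card_neighborFinset_eq_degree]
  congr 1
  ext x
  simp

theorem Sup.ar_eq [Fintype α] {G : Gr α} {A : Finset α} (h : Sup G A) : ar G A = 2 * ed G := by
  rw [← ar_univ, ar_eq_card, ar_eq_card]
  congr 1
  ext p
  simp only [mem_filter, mem_product, mem_univ, true_and]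
  exact ⟨fun e => e.2, fun e => ⟨h _ _ e, e⟩⟩

theorem ar_eq_ed [Fintype α] (G : Gr α) (A : Finset α) : ar G A = 2 * ed (rs G A) := by
  rw [← (sup_rs G A).ar_eq, ar_rs]

theorem ar_le_ed [Fintype α] (G : Gr α) (A : Finset α) : ar G A ≤ 2 * ed G := by
  rw [← ar_univ]
  exact ar_mono le_rfl (subset_univ _)

theorem two_ed_le [Fintype α] (G : Gr α) : 2 * ed G ≤ Fintype.card α ^ 2 := by
  have := ar_add_compl G (univ : Finset α)
  rw [ar_univ, card_univ] at this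
  omega

/-- edges at a cover -/
theorem Cvr.ed_le [Fintype α] {G : Gr α} {W : Finset α} (h : Cvr G W) :
    ed G ≤ ∑ w ∈ W, dg G w univ := by
  have h1 := ar_le_inter G univ Wᶜ
  have h2 : ar G (univ ∩ Wᶜ) = 0 := by
    rw [ar_eq_sum]
    refine sum_eq_zero (fun x hx => sum_eq_zero (fun y hy => if_neg (fun e => ?_)))
    rcases h x y e with e | e
    · simp [e] at hx
    · simp [e] at hy
  have h3 : (univ : Finset α) \ Wᶜ = W := by
    ext x
    simp
  rw [ar_univ, h2, h3] at h1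
  omega

/-- degrees at a set of vertices -/
theorem sum_dg_le [Fintype α] (G : Gr α) (W : Finset α) : ∑ w ∈ W, dg G w univ ≤ 2 * ed G := by
  rw [← ar_univ]
  exact sum_le_sum_of_subset (subset_univ _)

/-- the graph of the pairs `u y` with `u ∈ C`, `y ∈ D u` -/
def stg (C : Finset α) (D : α → Finset α) : Gr α :=
  SimpleGraph.fromRel (fun u y => u ∈ C ∧ y ∈ D u)

theorem stg_adj {C : Finset α} {D : α → Finset α} {x y : α} :
    (stg C D).Adj x y ↔ x ≠ y ∧ ((x ∈ C ∧ y ∈ D x) ∨ (y ∈ C ∧ x ∈ D y)) := by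
  simp [stg, SimpleGraph.fromRel_adj]

theorem stg_le {C : Finset α} {D : α → Finset α} {H : Gr α}
    (h : ∀ u ∈ C, ∀ y ∈ D u, H.Adj u y) : stg C D ≤ H := by
  intro x y e
  rcases (stg_adj.1 e).2 with e | e
  · exact h _ e.1 _ e.2
  · exact (h _ e.1 _ e.2).symm

theorem le_ed_stg [Fintype α] {C : Finset α} {D : α → Finset α} (h : ∀ u ∈ C, u ∉ D u) :
    ∑ u ∈ C, (D u).card ≤ 2 * ed (stg C D) := by
  refine le_trans (sum_le_sum (fun u hu => card_le_card (fun y hy => ?_))) (sum_dg_le _ C)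
  exact mem_nb.2 ⟨mem_univ _, stg_adj.2 ⟨fun e => h u hu (e ▸ hy), Or.inl ⟨hu, hy⟩⟩⟩

theorem ed_stg_le [Fintype α] (C : Finset α) (D : α → Finset α) :
    ed (stg C D) ≤ C.card * Fintype.card α := by
  have h : Cvr (stg C D) C := fun x y e => (stg_adj.1 e).2.imp (fun e => e.1) (fun e => e.1)
  refine h.ed_le.trans ?_
  simpa using sum_le_card_nsmul C _ (Fintype.card α) (fun w _ => dg_le_card (stg C D) w univ)

/-! ### choices -/

theorem cap_spec (H : Gr α) (B : Finset α) (θ : ℕ) : cap H B θ ≤ H ∧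
    (∀ x ∈ B, dg (cap H B θ) x B ≤ θ) ∧
    ∀ K' : Gr α, K' ≤ H → (∀ x ∈ B, dg K' x B ≤ θ) → ar K' B ≤ ar (cap H B θ) B := by
  refine Classical.epsilon_spec (p := fun K : Gr α => K ≤ H ∧ (∀ x ∈ B, dg K x B ≤ θ) ∧
    ∀ K' : Gr α, K' ≤ H → (∀ x ∈ B, dg K' x B ≤ θ) → ar K' B ≤ ar K B) ?_
  let S : Set ℕ := {a | ∃ K : Gr α, K ≤ H ∧ (∀ x ∈ B, dg K x B ≤ θ) ∧ ar K B = a}
  have hb : BddAbove S := ⟨B.card * θ, by
    rintro a ⟨K, -, h, rfl⟩
    exact ar_le_mul h⟩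
  have hn : S.Nonempty := ⟨_, ⊥, bot_le, fun x _ => by simp [dg, nb], rfl⟩
  obtain ⟨K, h1, h2, h3⟩ := Nat.sSup_mem hn hb
  exact ⟨K, h1, h2, fun K' e1 e2 => h3 ▸ le_csSup hb ⟨K', e1, e2, rfl⟩⟩

theorem sel_spec (S : Finset α) (v : ℕ) : sel S v ⊆ S ∧ (sel S v).card = min v S.card :=
  Classical.epsilon_spec (p := fun T : Finset α => T ⊆ S ∧ T.card = min v S.card)
    (exists_subset_card_eq (min_le_right _ _))

/-! ### matchings -/

theorem Mat.card_vs {H : Gr α} {P : Finset (α × α)} (h : Mat H P) : (vs P).card = 2 * P.card := by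
  have h1 : (P.image Prod.fst).card = P.card := card_image_of_injOn (fun p hp q hq e => by
    by_contra n
    exact (h.2 p hp q hq n).1 e)
  have h2 : (P.image Prod.snd).card = P.card := card_image_of_injOn (fun p hp q hq e => by
    by_contra n
    exact (h.2 p hp q hq n).2.2.2 e)
  have h3 : Disjoint (P.image Prod.fst) (P.image Prod.snd) := by
    rw [disjoint_left]
    intro x e1 e2
    obtain ⟨p, hp, rfl⟩ := mem_image.1 e1
    obtain ⟨q, hq, e⟩ := mem_image.1 e2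
    by_cases n : p = q
    · subst n
      exact (h.1 p hp).ne e.symm
    · exact (h.2 p hp q hq n).2.1 e.symm
  rw [vs, card_union_of_disjoint h3]
  omega

/-- a maximal matching inside `S` -/
theorem exists_mat (H : Gr α) (S : Finset α) : ∃ P : Finset (α × α), Mat H P ∧ vs P ⊆ S ∧
    ∀ x ∈ S, ∀ y ∈ S, H.Adj x y → x ∈ vs P ∨ y ∈ vs P := by
  obtain ⟨P, hP, hm⟩ := exists_max_image ((S ×ˢ S).powerset.filter (fun P => Mat H P)) card
    ⟨∅, by simp [Mat]⟩
  obtain ⟨h1, h2⟩ := mem_filter.1 hP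
  rw [mem_powerset] at h1
  refine ⟨P, h2, fun x hx => ?_, fun x hx y hy e => ?_⟩
  · obtain ⟨p, hp, e⟩ := mem_vs.1 hx
    have := mem_product.1 (h1 hp)
    rcases e with rfl | rfl
    exacts [this.1, this.2]
  · by_contra n
    rw [not_or, mem_vs, mem_vs] at n
    push Not at n
    have hn : (x, y) ∉ P := fun e => (n.1 _ e).1 rfl
    have : insert (x, y) P ∈ (S ×ˢ S).powerset.filter (fun P => Mat H P) := by
      refine mem_filter.2 ⟨mem_powerset.2 (insert_subset (mem_product.2 ⟨hx, hy⟩) h1), ?_, ?_⟩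
      · intro p hp
        rcases mem_insert.1 hp with rfl | hp
        exacts [e, h2.1 p hp]
      · intro p hp q hq hne
        rcases mem_insert.1 hp with rfl | hp <;> rcases mem_insert.1 hq with rfl | hq
        · exact absurd rfl hne
        · exact ⟨(n.1 q hq).1.symm, (n.1 q hq).2.symm, (n.2 q hq).1.symm, (n.2 q hq).2.symm⟩
        · exact ⟨(n.1 p hp).1, (n.2 p hp).1, (n.1 p hp).2, (n.2 p hp).2⟩
        · exact h2.2 p hp q hq hne
    have := hm _ this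
    rw [card_insert_of_notMem hn] at this
    omega

theorem Mat.card_le {H : Gr α} {P : Finset (α × α)} {Z : Finset α} (h : Mat H P) (hZ : Cvr H Z) :
    P.card ≤ Z.card := by
  refine card_le_card_of_injOn (fun p => if p.1 ∈ Z then p.1 else p.2) (fun p hp => ?_)
    (fun p hp q hq e => ?_)
  · have := hZ _ _ (h.1 p hp)
    by_cases c : p.1 ∈ Z
    · simp [c]
    · simpa [c] using this
  · by_contra n
    have := h.2 p hp q hq n
    dsimp only at e
    split_ifs at e <;> tauto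

end Pool.Agent.Lib.SPL
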