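import Pool.Agent.Lib.SPL.Kit

/-! Shared lemmas of the project spl: labels, covers, weights, the regime `Reg`. -/

open scoped Classical
open Finset

noncomputable section

namespace Pool.Agent.Lib.SPL

variable {α : Type}

/-! ### labels -/

theorem card_small_sets {β : Type} [Fintype β] {Ss : Finset (Finset β)} {r : ℕ}
    (h : ∀ S ∈ Ss, S.card ≤ r) : Ss.card ≤ (Fintype.card β + 1) ^ r := by
  have h1 : Ss ⊆ (univ : Finset (Fin r → Option β)).image
      (fun g => univ.filter (fun x => ∃ i, g i = some x)) := by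
    intro S hS
    refine mem_image.2 ⟨fun i => S.toList[i.1]?, mem_univ _, ?_⟩
    ext x
    simp only [mem_filter, mem_univ, true_and]
    constructor
    · rintro ⟨i, hi⟩
      exact mem_toList.1 (List.mem_of_getElem? hi)
    · intro hx
      obtain ⟨i, hi⟩ := List.mem_iff_getElem?.1 (mem_toList.2 hx)
      have : i < S.toList.length := by
        by_contra n
        rw [List.getElem?_eq_none (not_lt.1 n)] at hi
        cases hi
      rw [length_toList] at this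
      exact ⟨⟨i, this.trans_le (h S hS)⟩, hi⟩
  refine (card_le_card h1).trans (card_image_le.trans ?_)
  simp

theorem lg_nonneg (N : ℕ) : 0 ≤ lg N := Real.log_nonneg (by simp)

theorem exp_mul_lg (N r : ℕ) : Real.exp (r * lg N) = ((N : ℝ) + 1) ^ r := by
  rw [Real.exp_nat_mul, lg, Real.exp_log (by positivity)]

theorem lg_le {N : ℕ} (h : 2 ≤ N) : lg N ≤ 2 * Real.log N := by
  have h' : (2 : ℝ) ≤ N := by exact_mod_cast h
  have : Real.log ((N : ℝ) ^ 2) = 2 * Real.log N := by simp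
  rw [← this]
  exact Real.log_le_log (by positivity) (by nlinarith)

theorem card_small_sets_exp {β : Type} [Fintype β] {Ss : Finset (Finset β)} {r : ℕ}
    (h : ∀ S ∈ Ss, S.card ≤ r) : (Ss.card : ℝ) ≤ Real.exp (r * lg (Fintype.card β)) := by
  rw [exp_mul_lg]
  exact_mod_cast card_small_sets h

theorem card_small_graphs [Fintype α] {Gs : Finset (Gr α)} {j : ℕ} (h : ∀ G ∈ Gs, ed G ≤ j) :
    Gs.card ≤ (Fintype.card α + 1) ^ (2 * j) := by
  have h1 : Gs.card = (Gs.image (fun G => G.edgeFinset)).card :=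
    (card_image_of_injOn (fun G _ G' _ e => SimpleGraph.edgeFinset_inj.1 e)).symm
  have h2 : ∀ [Fintype (Sym2 α)], Fintype.card (Sym2 α) ≤ Fintype.card α ^ 2 := by
    intro _
    have := Fintype.card_le_of_surjective (fun p : α × α => s(p.1, p.2)) (fun e => by
      induction e using Sym2.ind with
      | _ x y => exact ⟨(x, y), rfl⟩)
    simpa [sq] using this
  rw [h1, pow_mul]
  refine (card_small_sets (r := j) (fun S hS => ?_)).trans 
    (Nat.pow_le_pow_left ((Nat.add_le_add_right h2 1).trans (by rw [add_sq]; omega)) _)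
  obtain ⟨G, hG, rfl⟩ := mem_image.1 hS
  rw [← ed_eq_card]
  exact h G hG

theorem card_small_graphs_exp [Fintype α] {Gs : Finset (Gr α)} {j : ℕ}
    (h : ∀ G ∈ Gs, ed G ≤ j) : (Gs.card : ℝ) ≤ Real.exp (2 * j * lg (Fintype.card α)) := by
  have := exp_mul_lg (Fintype.card α) (2 * j)
  push_cast at this
  rw [this]
  exact_mod_cast card_small_graphs h

theorem two_pow_le_exp (k : ℕ) : (2 : ℝ) ^ k ≤ Real.exp k := by
  rw [← Real.exp_one_pow]
  exact pow_le_pow_left₀ (by norm_num) (by linarith [Real.add_one_le_exp (1 : ℝ)]) _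

theorem card_subsets_exp {A : Finset α} {Ss : Finset (Finset α)} (h : ∀ S ∈ Ss, S ⊆ A) :
    (Ss.card : ℝ) ≤ Real.exp A.card := by
  refine le_trans ?_ (two_pow_le_exp _)
  have : Ss.card ≤ A.powerset.card := card_le_card (fun S hS => mem_powerset.2 (h S hS))
  rw [card_powerset] at this
  exact_mod_cast this

/-- a sum of nonnegative terms split along labels -/
theorem sum_le_sum_label {β ι : Type} (s : Finset β) (Ls : Finset ι) (Q : ι → β → Prop)
    (w : β → ℝ) (z : ι → ℝ) (hw : ∀ x ∈ s, 0 ≤ w x) (h : ∀ x ∈ s, ∃ a ∈ Ls, Q a x)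
    (hz : ∀ a ∈ Ls, ∀ t : Finset β, t ⊆ s → (∀ x ∈ t, Q a x) → ∑ x ∈ t, w x ≤ z a) :
    ∑ x ∈ s, w x ≤ ∑ a ∈ Ls, z a := by
  refine le_trans ?_ (sum_le_sum (fun a ha => hz a ha (s.filter (Q a)) (filter_subset _ _)
    (fun x hx => (mem_filter.1 hx).2)))
  simp only [sum_filter]
  rw [sum_comm]
  refine sum_le_sum (fun x hx => ?_)
  obtain ⟨a, ha, hq⟩ := h x hx
  refine le_trans (le_of_eq (if_pos hq).symm)
    (single_le_sum (f := fun a => if Q a x then w x else 0) (fun a _ => ?_) ha)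
  split_ifs
  exacts [hw x hx, le_rfl]

theorem sum_le_label {β ι : Type} (s : Finset β) (Ls : Finset ι) (Q : ι → β → Prop)
    (w : β → ℝ) (z : ℝ) (hw : ∀ x ∈ s, 0 ≤ w x) (h : ∀ x ∈ s, ∃ a ∈ Ls, Q a x)
    (hz : ∀ a ∈ Ls, ∀ t : Finset β, t ⊆ s → (∀ x ∈ t, Q a x) → ∑ x ∈ t, w x ≤ z) :
    ∑ x ∈ s, w x ≤ Ls.card * z := by
  simpa using sum_le_sum_label s Ls Q w (fun _ => z) hw h hz

/-! ### covers -/

theorem Cov.mono {Gs Gs' : Finset (Gr α)} {x x' : ℝ} {P P' : Gr α → Gr α → Prop}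
    (h : Cov Gs x P) (hG : Gs' ⊆ Gs) (hx : x ≤ x') (hP : ∀ E F, P E F → P' E F) :
    Cov Gs' x' P' := by
  obtain ⟨Cs, h1, h2, h3⟩ := h
  exact ⟨Cs, h1.trans (Real.exp_le_exp.2 hx), fun c hc => hP _ _ (h2 c hc),
    fun G hG' => h3 G (hG hG')⟩

theorem Cov.of_label {ι : Type} {Gs : Finset (Gr α)} {y : ℝ} {P : Gr α → Gr α → Prop}
    (Ls : Finset ι) (e f : ι → Gr α) (hL : (Ls.card : ℝ) ≤ Real.exp y)
    (h : ∀ G ∈ Gs, ∃ a ∈ Ls, P (e a) (f a) ∧ e a ≤ G ∧ G ≤ f a) : Cov Gs y P := by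
  refine ⟨(Ls.filter (fun a => P (e a) (f a))).image (fun a => (e a, f a)), ?_, ?_, ?_⟩
  · refine le_trans ?_ hL
    exact_mod_cast card_image_le.trans (card_filter_le _ _)
  · intro c hc
    obtain ⟨a, ha, rfl⟩ := mem_image.1 hc
    exact (mem_filter.1 ha).2
  · intro G hG
    obtain ⟨a, ha, h1, h2⟩ := h G hG
    exact ⟨_, mem_image.2 ⟨a, mem_filter.2 ⟨ha, h1⟩, rfl⟩, h2⟩

theorem Cov.label {ι : Type} {Gs : Finset (Gr α)} {x y : ℝ} {P : Gr α → Gr α → Prop}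
    (Ls : Finset ι) (Q : ι → Gr α → Prop) (hL : (Ls.card : ℝ) ≤ Real.exp y)
    (h : ∀ G ∈ Gs, ∃ a ∈ Ls, Q a G) 
    (hc : ∀ a ∈ Ls, ∀ Hs : Finset (Gr α), Hs ⊆ Gs → (∀ G ∈ Hs, Q a G) → Cov Hs x P) :
    Cov Gs (y + x) P := by
  have hc' : ∀ a ∈ Ls, Cov (Gs.filter (Q a)) x P := fun a ha =>
    hc a ha _ (filter_subset _ _) (fun G hG => (mem_filter.1 hG).2)
  choose! Cs h1 h2 h3 using hc'
  refine ⟨Ls.biUnion Cs, ?_, ?_, ?_⟩
  · have e1 : ((Ls.biUnion Cs).card : ℝ) ≤ ∑ a ∈ Ls, ((Cs a).card : ℝ) := by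
      exact_mod_cast card_biUnion_le
    have e2 : ∑ a ∈ Ls, ((Cs a).card : ℝ) ≤ Ls.card * Real.exp x := by
      simpa using sum_le_card_nsmul Ls _ _ h1
    rw [Real.exp_add]
    exact e1.trans (e2.trans (mul_le_mul_of_nonneg_right hL (Real.exp_pos _).le))
  · intro c hc
    obtain ⟨a, ha, hc⟩ := mem_biUnion.1 hc
    exact h2 a ha c hc
  · intro G hG
    obtain ⟨a, ha, hq⟩ := h G hG
    obtain ⟨c, hc, e⟩ := h3 a ha G (mem_filter.2 ⟨hG, hq⟩)
    exact ⟨c, mem_biUnion.2 ⟨a, ha, hc⟩, e⟩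

theorem Cov.card_le {Gs Hs : Finset (Gr α)} {x z : ℝ} {P : Gr α → Gr α → Prop} (h : Cov Gs x P)
    (hH : Gs ⊆ Hs) (hz : 0 ≤ z) (hb : ∀ E F, P E F → ((box Hs E F).card : ℝ) ≤ z) :
    (Gs.card : ℝ) ≤ Real.exp x * z := by
  obtain ⟨Cs, h1, h2, h3⟩ := h
  have := sum_le_label Gs Cs (fun c G => c.1 ≤ G ∧ G ≤ c.2) (fun _ => 1) z (by simp) h3
    (fun c hc t ht hq => by
      refine le_trans ?_ (hb _ _ (h2 c hc))
      simp only [sum_const, nsmul_eq_mul, mul_one, Nat.cast_le]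
      exact card_le_card (fun G hG => mem_box.2 ⟨hH (ht hG), hq G hG⟩))
  simp only [sum_const, nsmul_eq_mul, mul_one] at this
  exact this.trans (mul_le_mul_of_nonneg_right h1 hz)

theorem Mstep.mono {E F E' F' : Gr α} {y y' : ℝ} (h : Mstep E F y E' F') (hy : y' ≤ y) :
    Mstep E F y' E' F' := ⟨h.1, h.2.1, h.2.2.1, by linarith [h.2.2.2]⟩

theorem Estep.mono {E F E' F' : Gr α} {y y' : ℝ} (h : Estep E F y E' F') (hy : y' ≤ y) :
    Estep E F y' E' F' := ⟨h.1, h.2.1, h.2.2.1, by linarith [h.2.2.2]⟩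

/-! ### weights -/

theorem sum_powerset_pow {β : Type} (A : Finset β) (l : ℝ) :
    ∑ S ∈ A.powerset, l ^ S.card = (1 + l) ^ A.card := by
  have := prod_one_add (s := A) (f := fun _ => l)
  simpa using this.symm

theorem sum_pow_le {β : Type} {A : Finset β} {Ss : Finset (Finset β)} {l : ℝ} (hl : 0 ≤ l)
    (h : ∀ S ∈ Ss, S ⊆ A) : ∑ S ∈ Ss, l ^ S.card ≤ (1 + l) ^ A.card := by
  rw [← sum_powerset_pow]
  exact sum_le_sum_of_subset_of_nonneg (fun S hS => mem_powerset.2 (h S hS))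
    (fun _ _ _ => by positivity)

theorem gw_nonneg {l : ℝ} (hl : 0 ≤ l) (Gs : Finset (Gr α)) : 0 ≤ gw l Gs :=
  sum_nonneg (fun _ _ => by positivity)

theorem gw_of_ed {l : ℝ} {Gs : Finset (Gr α)} {m : ℕ} (h : ∀ G ∈ Gs, ed G = m) :
    gw l Gs = Gs.card * l ^ m := by
  rw [gw, sum_congr rfl (fun G hG => by rw [h G hG])]
  simp

theorem gw_le_of_le [Fintype α] {l : ℝ} (hl : 0 ≤ l) {Gs : Finset (Gr α)} {M : Gr α}
    (h : ∀ G ∈ Gs, G ≤ M) : gw l Gs ≤ (1 + l) ^ ed M := by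
  have h1 : gw l Gs = ∑ S ∈ Gs.image (fun G => G.edgeFinset), l ^ S.card := by
    rw [sum_image (fun G _ G' _ e => SimpleGraph.edgeFinset_inj.1 e)]
    simp only [gw, ed_eq_card]
  rw [h1, ed_eq_card]
  refine sum_pow_le hl (fun S hS => ?_)
  obtain ⟨G, hG, rfl⟩ := mem_image.1 hS
  exact SimpleGraph.edgeFinset_mono (h G hG)

theorem fw_nonneg [Fintype α] {l : ℝ} (hl : 0 ≤ l) (Fs : Finset (α → Finset α)) : 0 ≤ fw l Fs :=
  sum_nonneg (fun _ _ => prod_nonneg (fun _ _ => by positivity))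

theorem fw_le_prod [Fintype α] {l : ℝ} (hl : 0 ≤ l) {Fs : Finset (α → Finset α)}
    (S : α → Finset (Finset α)) (h : ∀ f ∈ Fs, ∀ i, f i ∈ S i) :
    fw l Fs ≤ ∏ i, ∑ T ∈ S i, l ^ T.card := by
  rw [prod_univ_sum]
  exact sum_le_sum_of_subset_of_nonneg (fun f hf => Fintype.mem_piFinset.2 (h f hf))
    (fun _ _ _ => prod_nonneg (fun _ _ => by positivity))

/-- coordinatewise bound: the values on `I` range over families of weight at most `ρ i` -/
theorem fw_le_fam [Fintype α] {l : ℝ} (hl : 0 ≤ l) {Fs : Finset (α → Finset α)} {I : Finset α}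
    (S : α → Finset (Finset α)) (ρ : α → ℝ) (h0 : ∀ f ∈ Fs, ∀ i, i ∉ I → f i = ∅)
    (h : ∀ f ∈ Fs, ∀ i ∈ I, f i ∈ S i) (hρ : ∀ i ∈ I, ∑ T ∈ S i, l ^ T.card ≤ ρ i) :
    fw l Fs ≤ ∏ i ∈ I, ρ i := by
  refine (fw_le_prod hl (fun i => if i ∈ I then S i else {∅}) (fun f hf i => ?_)).trans ?_
  · by_cases c : i ∈ I
    · simpa [c] using h f hf i c
    · simp [c, h0 f hf i c]
  · rw [← prod_subset (subset_univ I) (fun i _ c => by simp [c])]
    refine prod_le_prod (fun i _ => sum_nonneg (fun _ _ => by positivity)) (fun i c => ?_)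
    simpa [c] using hρ i c

theorem fw_le_total [Fintype α] {l : ℝ} (hl : 0 ≤ l) {Fs : Finset (α → Finset α)}
    {A I : Finset α} (h : ∀ f ∈ Fs, Fam A I f) : fw l Fs ≤ (1 + l) ^ (A.card * I.card) := by
  have := fw_le_fam hl (Fs := Fs) (I := I) (fun _ => A.powerset) (fun _ => (1 + l) ^ A.card)
    (fun f hf => (h f hf).2) (fun f hf i c => mem_powerset.2 ((h f hf).1 i c))
    (fun _ _ => (sum_powerset_pow A l).le)
  simpa [pow_mul] using this

/-- the columns of `f` -/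
def tr [Fintype α] (f : α → Finset α) (a : α) : Finset α := univ.filter (fun i => a ∈ f i)

@[simp] theorem mem_tr [Fintype α] {f : α → Finset α} {a i : α} : i ∈ tr f a ↔ a ∈ f i := by
  simp [tr]

theorem tr_tr [Fintype α] (f : α → Finset α) : tr (tr f) = f := by
  ext i a
  simp

theorem sum_card_tr [Fintype α] (f : α → Finset α) : ∑ a, (tr f a).card = ∑ i, (f i).card := by
  have h1 : ∀ i, (f i).card = ∑ a, if a ∈ f i then 1 else 0 := fun i => by simp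
  simp only [tr, card_filter]
  rw [sum_comm]
  exact sum_congr rfl (fun i _ => (h1 i).symm)

theorem fw_tr [Fintype α] (l : ℝ) (Fs : Finset (α → Finset α)) : fw l (Fs.image tr) = fw l Fs := by
  rw [fw, sum_image (fun f _ g _ e => by rw [← tr_tr f, e, tr_tr])]
  refine sum_congr rfl (fun f _ => ?_)
  rw [prod_pow_eq_pow_sum, prod_pow_eq_pow_sum, sum_card_tr]

/-- columnwise bound -/
theorem fw_le_cols [Fintype α] {l : ℝ} (hl : 0 ≤ l) {Fs : Finset (α → Finset α)} {A : Finset α}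
    (S : α → Finset (Finset α)) (ρ : α → ℝ) (h0 : ∀ f ∈ Fs, ∀ i, f i ⊆ A)
    (h : ∀ f ∈ Fs, ∀ a ∈ A, tr f a ∈ S a) (hρ : ∀ a ∈ A, ∑ T ∈ S a, l ^ T.card ≤ ρ a) :
    fw l Fs ≤ ∏ a ∈ A, ρ a := by
  rw [← fw_tr]
  refine fw_le_fam hl S ρ (fun g hg a c => ?_) (fun g hg a c => ?_) hρ
  · obtain ⟨f, hf, rfl⟩ := mem_image.1 hg
    exact eq_empty_of_forall_notMem (fun i hi => c (h0 f hf i (mem_tr.1 hi)))
  · obtain ⟨f, hf, rfl⟩ := mem_image.1 hg
    exact h f hf a c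

theorem sum_ww [Fintype α] (l : ℝ) :
    ∑ A : Finset α, ww (Fintype.card α) l A.card = WW (Fintype.card α) l := by
  have := sum_powerset_apply_card (ww (Fintype.card α) l) (x := (univ : Finset α))
  simpa [WW] using this

theorem ww_pos (n : ℕ) {l : ℝ} (hl : 0 < l) (k : ℕ) : 0 < ww n l k := by
  unfold ww
  positivity

theorem WW_pos (n : ℕ) {l : ℝ} (hl : 0 < l) : 0 < WW n l :=
  sum_pos' (fun k _ => mul_nonneg (by positivity) (ww_pos n hl k).le)
    ⟨0, by simp, by simpa using ww_pos n hl 0⟩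

theorem exp_neg_bb {l : ℝ} (hl : 0 < l) : Real.exp (-bb l) = l := by
  rw [bb, neg_neg, Real.exp_log hl]

theorem pow_eq_exp {l : ℝ} (hl : 0 < l) (k : ℕ) : l ^ k = Real.exp (-(bb l * k)) := by
  rw [← exp_neg_bb hl, ← Real.exp_nat_mul, exp_neg_bb hl]
  congr 1
  ring

theorem inv_pow_eq_exp {l : ℝ} (hl : 0 < l) (k : ℕ) : l⁻¹ ^ k = Real.exp (bb l * k) := by
  rw [inv_pow, pow_eq_exp hl, ← Real.exp_neg, neg_neg]

theorem one_add_pow_le_exp {l : ℝ} (hl : 0 ≤ l) (k : ℕ) : (1 + l) ^ k ≤ Real.exp (l * k) := by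
  rw [mul_comm, Real.exp_nat_mul]
  exact pow_le_pow_left₀ (by positivity) (by linarith [Real.add_one_le_exp l]) _

theorem half_le_log {l : ℝ} (h0 : 0 ≤ l) (h1 : l ≤ 1) : l / 2 ≤ Real.log (1 + l) := by
  have h := Real.one_sub_inv_le_log_of_pos (x := 1 + l) (by linarith)
  refine le_trans ?_ h
  rw [le_sub_iff_add_le, ← le_sub_iff_add_le', inv_le_comm₀ (by linarith) (by linarith),
    inv_le_iff_one_le_mul₀ (by linarith)]
  nlinarith

theorem exp_le_one_add_pow {l : ℝ} (h0 : 0 ≤ l) (h1 : l ≤ 1) (k : ℕ) :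
    Real.exp (l * k / 2) ≤ (1 + l) ^ k := by
  rw [← Real.exp_log (x := (1 + l) ^ k) (by positivity), Real.log_pow]
  refine Real.exp_le_exp.2 ?_
  have := half_le_log h0 h1
  have hk : (0 : ℝ) ≤ k := by positivity
  nlinarith

/-- subsets with at least half of the elements -/
theorem sum_big_le {β : Type} {A : Finset β} {Ss : Finset (Finset β)} {l : ℝ} (hl : 0 < l)
    (hb : 4 ≤ bb l) (h : ∀ S ∈ Ss, S ⊆ A ∧ A.card ≤ 2 * S.card) :
    ∑ S ∈ Ss, l ^ S.card ≤ Real.exp (-(bb l * A.card / 4)) := by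
  have h1 : ∀ S ∈ Ss, l ^ S.card ≤ Real.exp (-(bb l * A.card / 2)) := by
    intro S hS
    rw [pow_eq_exp hl]
    have : (A.card : ℝ) ≤ 2 * S.card := by exact_mod_cast (h S hS).2
    exact Real.exp_le_exp.2 (by nlinarith)
  have h2 := sum_le_card_nsmul Ss _ _ h1
  rw [nsmul_eq_mul] at h2
  refine h2.trans ((mul_le_mul_of_nonneg_right (card_subsets_exp (fun S hS => (h S hS).1))
    (Real.exp_pos _).le).trans ?_)
  rw [← Real.exp_add]
  have : (0 : ℝ) ≤ A.card := by positivity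
  exact Real.exp_le_exp.2 (by nlinarith)

/-! ### the regime -/

namespace Reg

variable {ω l : ℝ} {n : ℕ}

theorem mono {ω' : ℝ} (h : Reg ω n l) (hω : ω' ≤ ω) : Reg ω' n l :=
  ⟨h.pos, hω.trans h.hb, hω.trans h.hL,
    (mul_le_mul_of_nonneg_right hω (by positivity)).trans h.hD⟩

theorem b_ge (h : Reg ω n l) (hω : 1 ≤ ω) : 1 ≤ bb l := hω.trans h.hb

theorem L_ge (h : Reg ω n l) (hω : 1 ≤ ω) : 1 ≤ Real.log n := hω.trans h.hL

theorem two_le (h : Reg ω n l) (hω : 1 ≤ ω) : 2 ≤ n := by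
  by_contra c
  have := h.L_ge hω
  have : n = 0 ∨ n = 1 := by omega
  rcases this with rfl | rfl <;> simp at this <;> linarith

theorem n_pos (h : Reg ω n l) (hω : 1 ≤ ω) : (0 : ℝ) < n := by
  have := h.two_le hω
  positivity

theorem L_le (h : Reg ω n l) (hω : 1 ≤ ω) : Real.log n ≤ n :=
  (Real.log_le_sub_one_of_pos (h.n_pos hω)).trans (by linarith)

theorem le_exp (h : Reg ω n l) : l ≤ Real.exp (-ω) := by
  rw [← exp_neg_bb h.pos]
  exact Real.exp_le_exp.2 (by linarith [h.hb])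

/-- `l ≤ 1 / (1 + b)` -/
theorem mul_le_one (h : Reg ω n l) : l * (1 + bb l) ≤ 1 := by
  have h1 : l * Real.exp (bb l) = 1 := by
    rw [← exp_neg_bb h.pos, ← Real.exp_add, exp_neg_bb h.pos]
    simp
  have := Real.add_one_le_exp (bb l)
  nlinarith [h.pos]

theorem le_half (h : Reg ω n l) (hω : 1 ≤ ω) : l ≤ 1 / 2 := by
  nlinarith [h.mul_le_one, h.b_ge hω, h.pos]

theorem ell_pos (h : Reg ω n l) (hω : 1 ≤ ω) : 0 < ell n l :=
  div_pos (mul_pos (h.n_pos hω) h.pos) (by linarith [h.b_ge hω])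

theorem b_ell (h : Reg ω n l) (hω : 1 ≤ ω) : bb l * ell n l = n * l := by
  have : bb l ≠ 0 := by linarith [h.b_ge hω]
  unfold ell
  field_simp

theorem l_ell : l * ell n l = DD n l := by
  unfold ell DD
  ring

theorem b_D (h : Reg ω n l) (hω : 1 ≤ ω) : bb l * DD n l = n * l ^ 2 := by
  rw [← l_ell]
  linear_combination l * h.b_ell hω

theorem D_pos (h : Reg ω n l) (hω : 1 ≤ ω) : 0 < DD n l := by
  rw [← l_ell]
  exact mul_pos h.pos (h.ell_pos hω)

theorem Q_pos (h : Reg ω n l) (hω : 1 ≤ ω) : 0 < QQ n l := mul_pos (h.n_pos hω) (h.D_pos hω)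

theorem Q_eq (h : Reg ω n l) (hω : 1 ≤ ω) : QQ n l = bb l * ell n l ^ 2 := by
  rw [QQ, ← l_ell]
  linear_combination (-ell n l) * h.b_ell hω

theorem Q_eq' : QQ n l = l * ell n l * n := by
  rw [QQ, l_ell]
  ring

theorem D_le_ell (h : Reg ω n l) (hω : 1 ≤ ω) : DD n l ≤ ell n l := by
  rw [← l_ell]
  nlinarith [h.le_half hω, h.ell_pos hω]

theorem D_le_Q (h : Reg ω n l) (hω : 1 ≤ ω) : DD n l ≤ QQ n l := by
  have : (2 : ℝ) ≤ n := by exact_mod_cast h.two_le hω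
  unfold QQ
  nlinarith [h.D_pos hω]

/-- `ell ≤ n l ≤ n / 2` -/
theorem ell_le (h : Reg ω n l) (hω : 1 ≤ ω) : ell n l ≤ n * l := by
  nlinarith [h.b_ell hω, h.b_ge hω, h.ell_pos hω]

theorem D_l (h : Reg ω n l) (hω : 1 ≤ ω) : Real.log n ^ 5 ≤ DD n l * l := by
  have hn := h.n_pos hω
  have hD := h.D_pos hω
  have h1 : (n : ℝ) * (DD n l * l) ^ 2 = DD n l ^ 3 * bb l := by
    linear_combination (-DD n l ^ 2) * h.b_D hω
  have h2 : (n : ℝ) * Real.log n ^ 10 ≤ DD n l ^ 3 :=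
    le_trans (le_mul_of_one_le_left (by positivity) hω) h.hD
  have h3 : DD n l ^ 3 ≤ DD n l ^ 3 * bb l := le_mul_of_one_le_right (by positivity) (h.b_ge hω)
  have h4 : (Real.log n ^ 5) ^ 2 ≤ (DD n l * l) ^ 2 :=
    le_of_mul_le_mul_left (by rw [h1]; nlinarith) hn
  exact (pow_le_pow_iff_left₀ (by have := h.L_ge hω; positivity) (mul_pos hD h.pos).le
    (by norm_num)).1 h4

theorem D_ge (h : Reg ω n l) (hω : 1 ≤ ω) : Real.log n ^ 5 ≤ DD n l := by
  nlinarith [h.D_l hω, h.le_half hω, h.D_pos hω]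

/-- `1 ≤ n l ^ 3`, that is `b ≤ L / 3` -/
theorem one_le (h : Reg ω n l) (hω : 1 ≤ ω) : 1 ≤ (n : ℝ) * l ^ 3 := by
  have h1 : (1 : ℝ) ≤ Real.log n ^ 5 := one_le_pow₀ (h.L_ge hω)
  have h2 : bb l * (DD n l * l) = n * l ^ 3 := by linear_combination l * h.b_D hω
  have h3 := h1.trans (h.D_l hω)
  nlinarith [h.b_ge hω]

theorem b_le (h : Reg ω n l) (hω : 1 ≤ ω) : 3 * bb l ≤ Real.log n := by
  have h1 := Real.log_nonneg (h.one_le hω)
  rw [Real.log_mul (h.n_pos hω).ne' (pow_pos h.pos 3).ne', Real.log_pow] at h1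
  unfold bb
  push_cast at h1
  linarith

end Reg

end Pool.Agent.Lib.SPL
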